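import Mathlib

/-!
# Arcs of zeros at interior points

`interior_arc`: near a zero at which the strict derivative `X → Y` is onto, `dim X = dim Y + 1`,
the zeros form an open arc.
`isOpenEmbedding_of_section`: a criterion for open embeddings of intervals.
-/

namespace Pool.Agent.MP_f1864b_gt

open Set Filter Topology Metric Module

section Arc

variable {X Y : Type*} [NormedAddCommGroup X] [NormedSpace ℝ X] [FiniteDimensional ℝ X]
  [NormedAddCommGroup Y] [NormedSpace ℝ Y] [FiniteDimensional ℝ Y]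

/-- **Arc of zeros at a regular zero**, inside a given neighbourhood. -/
theorem interior_arc {F : X → Y} {F' : X →L[ℝ] Y} {x₀ : X} (hF : HasStrictFDerivAt F F' x₀)
    (hs : Function.Surjective F') (hdim : finrank ℝ X = finrank ℝ Y + 1) (h0 : F x₀ = 0)
    {O : Set X} (hO : O ∈ 𝓝 x₀) :
    ∃ U, IsOpen U ∧ x₀ ∈ U ∧ U ⊆ O ∧ ∃ γ : Ioo (-1:ℝ) 1 → X, ∃ c : X → ℝ, Continuous γ ∧
      γ ⟨0, by norm_num, one_pos⟩ = x₀ ∧ range γ = {x | x ∈ U ∧ F x = 0} ∧
      ContinuousOn c U ∧ ∀ t, c (γ t) = t := by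
  have hrange : F'.range = ⊤ := LinearMap.range_eq_top.2 hs
  set φ := hF.implicitToOpenPartialHomeomorph F F' hrange with hφ
  have hφx : φ x₀ = (0, 0) := by
    rw [hφ, hF.implicitToOpenPartialHomeomorph_self, h0]
  have hx₀s : x₀ ∈ φ.source := hF.mem_implicitToOpenPartialHomeomorph_source hrange
  have hφ1 : ∀ x, (φ x).1 = F x := fun x => hF.implicitToOpenPartialHomeomorph_fst hrange x
  -- the kernel is a line
  have hker : finrank ℝ F'.ker = 1 := by
    have h5 : finrank ℝ F'.range + finrank ℝ F'.ker = finrank ℝ X :=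
      LinearMap.finrank_range_add_finrank_ker _
    have h6 : finrank ℝ F'.range = finrank ℝ Y := by
      rw [hrange, finrank_top]
    omega
  obtain ⟨e⟩ : Nonempty (F'.ker ≃L[ℝ] ℝ) :=
    FiniteDimensional.nonempty_continuousLinearEquiv_of_finrank_eq (by rw [finrank_self]; exact hker)
  -- the open set
  obtain ⟨O', hO'O, hO'o, hx₀O'⟩ := _root_.mem_nhds_iff.1 hO
  set T : Set (Y × F'.ker) := φ.target ∩ φ.symm ⁻¹' O' with hT
  have hTo : IsOpen T := φ.symm.continuousOn.isOpen_inter_preimage φ.open_target hO'o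
  have h0T : ((0 : Y), (0 : F'.ker)) ∈ T := by
    refine ⟨?_, ?_⟩
    · rw [← hφx]; exact φ.map_source hx₀s
    · change φ.symm (0, 0) ∈ O'
      rw [← hφx, φ.left_inv hx₀s]
      exact hx₀O'
  -- an interval
  have hcont : Continuous fun t : ℝ => ((0 : Y), e.symm t) := by fun_prop
  have hpre : (fun t : ℝ => ((0 : Y), e.symm t)) ⁻¹' T ∈ 𝓝 (0 : ℝ) := by
    refine hcont.continuousAt.preimage_mem_nhds ?_
    rw [map_zero]
    exact hTo.mem_nhds h0T
  obtain ⟨η, hη, hηT⟩ := Metric.mem_nhds_iff.1 hpre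
  -- the coordinate
  set c : X → ℝ := fun x => e (φ x).2 / η with hc
  set U : Set X := (φ.source ∩ φ ⁻¹' T) ∩ {x | |c x| < 1} with hU
  have hccont : ContinuousOn c (φ.source ∩ φ ⁻¹' T) := by
    have h1 : ContinuousOn (fun x => (φ x).2) (φ.source ∩ φ ⁻¹' T) :=
      (continuous_snd.comp_continuousOn φ.continuousOn).mono inter_subset_left
    exact (e.continuous.comp_continuousOn h1).div_const η
  have hUo : IsOpen U := by
    have h1 : IsOpen (φ.source ∩ φ ⁻¹' T) :=
      φ.continuousOn.isOpen_inter_preimage φ.open_source hTo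
    have h2 : U = (φ.source ∩ φ ⁻¹' T) ∩ c ⁻¹' {r | |r| < 1} := rfl
    rw [h2]
    exact hccont.isOpen_inter_preimage h1 (isOpen_lt continuous_abs continuous_const)
  have hc0 : c x₀ = 0 := by
    simp only [hc, hφx, map_zero, zero_div]
  have hγT : ∀ t : ℝ, |t| < 1 → ((0 : Y), e.symm (η * t)) ∈ T := by
    intro t ht
    refine hηT ?_
    rw [mem_ball, dist_zero_right, Real.norm_eq_abs, abs_mul, abs_of_pos hη]
    nlinarith
  refine ⟨U, hUo, ⟨⟨hx₀s, by rw [mem_preimage, hφx]; exact h0T⟩, by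
    change |c x₀| < 1; rw [hc0, abs_zero]; exact one_pos⟩, ?_,
    fun t => φ.symm (0, e.symm (η * t)), c, ?_, ?_, ?_, hccont.mono inter_subset_left, ?_⟩
  · intro x hx
    refine hO'O ?_
    have h1 : φ.symm (φ x) ∈ O' := hx.1.2.2
    rwa [φ.left_inv hx.1.1] at h1
  · have h1 : Continuous fun t : Ioo (-1:ℝ) 1 => ((0 : Y), e.symm (η * (t : ℝ))) := by fun_prop
    exact φ.symm.continuousOn.comp_continuous h1
      fun t => (hγT t (abs_lt.2 ⟨t.2.1, t.2.2⟩)).1
  · change φ.symm (0, e.symm (η * 0)) = x₀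
    rw [mul_zero, map_zero, ← hφx, φ.left_inv hx₀s]
  · ext x
    constructor
    · rintro ⟨t, rfl⟩
      have ht := hγT t (abs_lt.2 ⟨t.2.1, t.2.2⟩)
      have h1 : φ (φ.symm (0, e.symm (η * (t : ℝ)))) = (0, e.symm (η * (t : ℝ))) :=
        φ.right_inv ht.1
      refine ⟨⟨⟨φ.symm.map_source ht.1, ?_⟩, ?_⟩, ?_⟩
      · rw [mem_preimage, h1]; exact ht
      · change |c (φ.symm (0, e.symm (η * (t : ℝ))))| < 1
        have h2 : c (φ.symm (0, e.symm (η * (t : ℝ)))) = t := by
          simp only [hc, h1, e.apply_symm_apply]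
          field_simp
        rw [h2]
        exact abs_lt.2 ⟨t.2.1, t.2.2⟩
      · change F (φ.symm (0, e.symm (η * (t : ℝ)))) = 0
        rw [← hφ1, h1]
    · rintro ⟨hxU, hx0⟩
      have h1 : |c x| < 1 := hxU.2
      refine ⟨⟨c x, (abs_lt.1 h1).1, (abs_lt.1 h1).2⟩, ?_⟩
      change φ.symm (0, e.symm (η * c x)) = x
      have h2 : η * c x = e (φ x).2 := by
        simp only [hc]
        field_simp
      rw [h2, e.symm_apply_apply]
      have h3 : ((0 : Y), (φ x).2) = φ x := by
        rw [← hx0, ← hφ1]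
      rw [h3, φ.left_inv hxU.1.1]
  · intro t
    have ht := hγT t (abs_lt.2 ⟨t.2.1, t.2.2⟩)
    have h1 : φ (φ.symm (0, e.symm (η * (t : ℝ)))) = (0, e.symm (η * (t : ℝ))) :=
      φ.right_inv ht.1
    simp only [hc, h1, e.apply_symm_apply]
    field_simp

end Arc

/-- A continuous map of an interval onto an open set, with a continuous left inverse there, is an
open embedding. -/
theorem isOpenEmbedding_of_section {Z : Type*} [TopologicalSpace Z] {I : Set ℝ} {γ : I → Z}
    (hγ : Continuous γ) {O : Set Z} (hO : IsOpen O) (hr : range γ = O) {c : Z → ℝ}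
    (hc : ContinuousOn c O) (h : ∀ t : I, c (γ t) = t) : IsOpenEmbedding γ := by
  refine IsOpenEmbedding.of_continuous_injective_isOpenMap hγ ?_ ?_
  · intro t t' htt
    exact Subtype.ext (by rw [← h t, ← h t', htt])
  · intro S hS
    obtain ⟨S', hS', rfl⟩ := isOpen_induced_iff.1 hS
    have h1 : γ '' (Subtype.val ⁻¹' S') = O ∩ c ⁻¹' S' := by
      ext z
      constructor
      · rintro ⟨t, ht, rfl⟩
        refine ⟨by rw [← hr]; exact mem_range_self t, ?_⟩
        rw [mem_preimage, h t]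
        exact ht
      · rintro ⟨hz, hz'⟩
        rw [← hr] at hz
        obtain ⟨t, rfl⟩ := hz
        refine ⟨t, ?_, rfl⟩
        rw [mem_preimage, h t] at hz'
        exact hz'
    rw [h1]
    exact hc.isOpen_inter_preimage hO hS'

end Pool.Agent.MP_f1864b_gt
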