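import Pool.Agent.Lib.MP_f1864b_gt.ZeroChart
import Pool.Agent.Lib.MP_f1864b_gt.InteriorArc

set_option autoImplicit false

/-!
# Interior zeros: the zero set is an open arc
-/

namespace Pool.Agent.MP_f1864b_gt

open scoped Manifold ContDiff Topology Matrix
open Set Topology Module

namespace ZC

/-- From a regular zero in coordinates to an open arc. -/
theorem arcAt_abstract {Z : Type*} [TopologicalSpace Z] {X Y : Type*} [NormedAddCommGroup X]
    [NormedSpace ℝ X] [FiniteDimensional ℝ X] [NormedAddCommGroup Y] [NormedSpace ℝ Y]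
    [FiniteDimensional ℝ Y] {F : X → Y} {F' : X →L[ℝ] Y} {x₀ : X}
    (hF : HasStrictFDerivAt F F' x₀) (hs : Function.Surjective F')
    (hdim : finrank ℝ X = finrank ℝ Y + 1) (h0 : F x₀ = 0) {N : Set X} (hN : N ∈ 𝓝 x₀)
    {O : Set Z} (hO : IsOpen O) {c : Z → X} (hc : ContinuousOn c O) {d : X → Z}
    (hd : ContinuousOn d {x | x ∈ N ∧ F x = 0}) (hdO : ∀ x ∈ N, F x = 0 → d x ∈ O ∧ c (d x) = x)
    (hcF : ∀ z ∈ O, F (c z) = 0 ∧ (c z ∈ N → d (c z) = z)) : ArcAt (d x₀) := by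
  obtain ⟨U, hU, hx₀U, hUN, γ, k, hγ, hγ0, hγr, hk, hkγ⟩ := interior_arc hF hs hdim h0 hN
  have hγU : ∀ t, γ t ∈ U ∧ F (γ t) = 0 := fun t => by
    have : γ t ∈ range γ := mem_range_self t
    rw [hγr] at this
    exact this
  have hO' : IsOpen (O ∩ c ⁻¹' U) := hc.isOpen_inter_preimage hO hU
  refine ⟨d ∘ γ, ?_, by rw [Function.comp_apply, hγ0]⟩
  refine isOpenEmbedding_of_section (O := O ∩ c ⁻¹' U) (c := k ∘ c) ?_ hO' ?_ ?_ ?_
  · exact hd.comp_continuous hγ fun t => ⟨hUN (hγU t).1, (hγU t).2⟩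
  · ext z
    constructor
    · rintro ⟨t, rfl⟩
      obtain ⟨h1, h2⟩ := hdO (γ t) (hUN (hγU t).1) (hγU t).2
      refine ⟨h1, ?_⟩
      change c (d (γ t)) ∈ U
      rw [h2]
      exact (hγU t).1
    · rintro ⟨hzO, hzU⟩
      obtain ⟨h1, h2⟩ := hcF z hzO
      have h3 : c z ∈ range γ := by
        rw [hγr]; exact ⟨hzU, h1⟩
      obtain ⟨t, ht⟩ := h3
      refine ⟨t, ?_⟩
      rw [Function.comp_apply, ht]
      exact h2 (hUN hzU)
  · exact hk.comp (hc.mono inter_subset_left) fun z hz => hz.2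
  · intro t
    simp only [Function.comp_apply]
    rw [(hdO (γ t) (hUN (hγU t).1) (hγU t).2).2, hkγ]

/-- A continuous map into a subtype, from a formula. -/
theorem exists_subtype_lift {A B : Type*} (S : Set B) (z : S) (g : A → B) :
    ∃ d : A → S, ∀ a, g a ∈ S → (d a : B) = g a := by
  classical
  refine ⟨fun a => if h : g a ∈ S then ⟨g a, h⟩ else z, fun a ha => ?_⟩
  simp only [dif_pos ha]

theorem finrank_dual_six : finrank ℝ ((EuclideanSpace ℝ (Fin 6) →L[ℝ] ℝ)) = 6 := by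
  have h1 : finrank ℝ (EuclideanSpace ℝ (Fin 6) →ₗ[ℝ] ℝ) = 6 := by
    rw [Module.finrank_linearMap, finrank_euclideanSpace_fin, finrank_self]
  exact (LinearMap.toContinuousLinearMap (𝕜 := ℝ) (E := EuclideanSpace ℝ (Fin 6))
    (F' := ℝ)).finrank_eq.symm.trans h1

end ZC

open ZC

section

variable {W : Type*} [TopologicalSpace W] [ChartedSpace (EuclideanHalfSpace 6) W]
  [IsManifold (𝓡∂ 6) ∞ W]

theorem arcAt_of_regular {V : Type*} [NormedAddCommGroup V] [NormedSpace ℝ V]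
    [FiniteDimensional ℝ V] {e : W → V} (he : ContMDiff (𝓡∂ 6) 𝓘(ℝ, V) ∞ e)
    {v : Fin 5 → W → (V →L[ℝ] ℝ)} (hv : ∀ i, ContMDiff (𝓡∂ 6) 𝓘(ℝ, V →L[ℝ] ℝ) ∞ (v i))
    {w : Fin 4 → W → (V →L[ℝ] ℝ)} (hw : ∀ i, ContMDiff (𝓡∂ 6) 𝓘(ℝ, V →L[ℝ] ℝ) ∞ (w i))
    {x : W} (hx : x ∈ (𝓡∂ 6).interior W) {l : Fin 5 → ℝ} {m : Fin 4 → ℝ}
    (hz : IsZero (𝓡∂ 6) e v w x l m) {c : W} (hreg : IsRegularIn (𝓡∂ 6) e v w c x l m)
    (z : zeroSet (𝓡∂ 6) e v w)
    (hzz : z.1 = (x, Matrix.vecMulVec l l, Matrix.vecMulVec m m)) : ArcAt z := by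
  obtain ⟨hl, hm, hf, hg⟩ := hz
  obtain ⟨hxc, hsur⟩ := hreg
  set u₀ := extChartAt (𝓡∂ 6) c x with hu₀
  set N₀ : Set (EuclideanSpace ℝ (Fin 6)) := (extChartAt (𝓡∂ 6) c).target with hN₀
  have hN₀n : N₀ ∈ 𝓝 u₀ := by
    have h1 := ((𝓡∂ 6).isInteriorPoint_iff_of_mem_atlas (n := ∞) (by simp)
      (chart_mem_atlas (EuclideanHalfSpace 6) c) hxc).1 hx
    exact mem_interior_iff_mem_nhds.1 h1
  have hrange : range (𝓡∂ 6) ∈ 𝓝 u₀ :=
    Filter.mem_of_superset hN₀n (extChartAt_target_subset_range c)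
  -- the local forms
  have hA : ∀ i, ContDiffAt ℝ 1 (locForm (𝓡∂ 6) e (v i) c) u₀ := fun i =>
    ((contDiffOn_locForm (𝓡∂ 6) he (hv i) c).contDiffAt hN₀n).of_le (by simp)
  have hB : ∀ i, ContDiffAt ℝ 1 (locForm (𝓡∂ 6) e (w i) c) u₀ := fun i =>
    ((contDiffOn_locForm (𝓡∂ 6) he (hw i) c).contDiffAt hN₀n).of_le (by simp)
  set F : EuclideanSpace ℝ (Fin 6) × perp l × perp m → _ := Fz (𝓡∂ 6) e v w c with hF
  set x₀ : EuclideanSpace ℝ (Fin 6) × perp l × perp m := (u₀, 0, 0) with hx₀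
  -- the derivative
  have hFd : HasFDerivAt F
      ((∑ i, (l i • (fderiv ℝ (locForm (𝓡∂ 6) e (v i) c) u₀).comp
            (ContinuousLinearMap.fst ℝ (EuclideanSpace ℝ (Fin 6)) (perp l × perp m)) +
          ((ContinuousLinearMap.proj (R := ℝ) (φ := fun _ : Fin 5 => ℝ) i).comp
            ((perp l).subtypeL.comp ((ContinuousLinearMap.fst ℝ (perp l) (perp m)).comp
              (ContinuousLinearMap.snd ℝ (EuclideanSpace ℝ (Fin 6)) (perp l × perp m))))).smulRight
              (locForm (𝓡∂ 6) e (v i) c u₀))).prod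
        (∑ j, (m j • (fderiv ℝ (locForm (𝓡∂ 6) e (w j) c) u₀).comp
            (ContinuousLinearMap.fst ℝ (EuclideanSpace ℝ (Fin 6)) (perp l × perp m)) +
          ((ContinuousLinearMap.proj (R := ℝ) (φ := fun _ : Fin 4 => ℝ) j).comp
            ((perp m).subtypeL.comp ((ContinuousLinearMap.snd ℝ (perp l) (perp m)).comp
              (ContinuousLinearMap.snd ℝ (EuclideanSpace ℝ (Fin 6)) (perp l × perp m))))).smulRight
              (locForm (𝓡∂ 6) e (w j) c u₀)))) x₀ := by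
    refine HasFDerivAt.prodMk ?_ ?_
    · refine HasFDerivAt.fun_sum fun i _ => ?_
      have h1 : HasFDerivAt (fun y : EuclideanSpace ℝ (Fin 6) × perp l × perp m =>
          locForm (𝓡∂ 6) e (v i) c y.1)
          ((fderiv ℝ (locForm (𝓡∂ 6) e (v i) c) u₀).comp (ContinuousLinearMap.fst ℝ _ _)) x₀ :=
        HasFDerivAt.comp (g := locForm (𝓡∂ 6) e (v i) c)
          (f := fun y : EuclideanSpace ℝ (Fin 6) × perp l × perp m => y.1) x₀
          (((hA i).differentiableAt (by simp)).hasFDerivAt) hasFDerivAt_fst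
      have h2 : HasFDerivAt (fun y : EuclideanSpace ℝ (Fin 6) × perp l × perp m =>
          (l + (y.2.1 : Fin 5 → ℝ)) i)
          ((ContinuousLinearMap.proj (R := ℝ) (φ := fun _ : Fin 5 => ℝ) i).comp
            ((perp l).subtypeL.comp ((ContinuousLinearMap.fst ℝ (perp l) (perp m)).comp
              (ContinuousLinearMap.snd ℝ (EuclideanSpace ℝ (Fin 6)) (perp l × perp m))))) x₀ := by
        have h3 := ((ContinuousLinearMap.proj (R := ℝ) (φ := fun _ : Fin 5 => ℝ) i).comp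
            ((perp l).subtypeL.comp ((ContinuousLinearMap.fst ℝ (perp l) (perp m)).comp
              (ContinuousLinearMap.snd ℝ (EuclideanSpace ℝ (Fin 6)) (perp l × perp m))))).hasFDerivAt
              (x := x₀)
        exact h3.const_add (l i)
      have h4 := h2.smul h1
      refine h4.congr_fderiv ?_
      have e1 : (l + ((x₀.2.1 : perp l) : Fin 5 → ℝ)) i = l i := by simp [hx₀]
      rw [e1]
    · refine HasFDerivAt.fun_sum fun i _ => ?_
      have h1 : HasFDerivAt (fun y : EuclideanSpace ℝ (Fin 6) × perp l × perp m =>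
          locForm (𝓡∂ 6) e (w i) c y.1)
          ((fderiv ℝ (locForm (𝓡∂ 6) e (w i) c) u₀).comp (ContinuousLinearMap.fst ℝ _ _)) x₀ :=
        HasFDerivAt.comp (g := locForm (𝓡∂ 6) e (w i) c)
          (f := fun y : EuclideanSpace ℝ (Fin 6) × perp l × perp m => y.1) x₀
          (((hB i).differentiableAt (by simp)).hasFDerivAt) hasFDerivAt_fst
      have h2 : HasFDerivAt (fun y : EuclideanSpace ℝ (Fin 6) × perp l × perp m =>
          (m + (y.2.2 : Fin 4 → ℝ)) i)
          ((ContinuousLinearMap.proj (R := ℝ) (φ := fun _ : Fin 4 => ℝ) i).comp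
            ((perp m).subtypeL.comp ((ContinuousLinearMap.snd ℝ (perp l) (perp m)).comp
              (ContinuousLinearMap.snd ℝ (EuclideanSpace ℝ (Fin 6)) (perp l × perp m))))) x₀ := by
        have h3 := ((ContinuousLinearMap.proj (R := ℝ) (φ := fun _ : Fin 4 => ℝ) i).comp
            ((perp m).subtypeL.comp ((ContinuousLinearMap.snd ℝ (perp l) (perp m)).comp
              (ContinuousLinearMap.snd ℝ (EuclideanSpace ℝ (Fin 6)) (perp l × perp m))))).hasFDerivAt
              (x := x₀)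
        exact h3.const_add (m i)
      have h4 := h2.smul h1
      refine h4.congr_fderiv ?_
      have e1 : (m + ((x₀.2.2 : perp m) : Fin 4 → ℝ)) i = m i := by simp [hx₀]
      rw [e1]
  -- smoothness
  have hFc : ContDiffAt ℝ 1 F x₀ := by
    refine ContDiffAt.prodMk ?_ ?_
    · refine ContDiffAt.sum fun i _ => ?_
      have h1 : ContDiffAt ℝ 1 (fun y : EuclideanSpace ℝ (Fin 6) × perp l × perp m =>
          locForm (𝓡∂ 6) e (v i) c y.1) x₀ := (hA i).comp x₀ contDiffAt_fst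
      have h2 : ContDiffAt ℝ 1 (fun y : EuclideanSpace ℝ (Fin 6) × perp l × perp m =>
          (l + (y.2.1 : Fin 5 → ℝ)) i) x₀ := by
        have h3 := ((ContinuousLinearMap.proj (R := ℝ) (φ := fun _ : Fin 5 => ℝ) i).comp
            ((perp l).subtypeL.comp ((ContinuousLinearMap.fst ℝ (perp l) (perp m)).comp
              (ContinuousLinearMap.snd ℝ (EuclideanSpace ℝ (Fin 6)) (perp l × perp m))))).contDiff
              (n := 1)
        exact (contDiffAt_const (c := l i)).add h3.contDiffAt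
      exact h2.smul h1
    · refine ContDiffAt.sum fun i _ => ?_
      have h1 : ContDiffAt ℝ 1 (fun y : EuclideanSpace ℝ (Fin 6) × perp l × perp m =>
          locForm (𝓡∂ 6) e (w i) c y.1) x₀ := (hB i).comp x₀ contDiffAt_fst
      have h2 : ContDiffAt ℝ 1 (fun y : EuclideanSpace ℝ (Fin 6) × perp l × perp m =>
          (m + (y.2.2 : Fin 4 → ℝ)) i) x₀ := by
        have h3 := ((ContinuousLinearMap.proj (R := ℝ) (φ := fun _ : Fin 4 => ℝ) i).comp
            ((perp m).subtypeL.comp ((ContinuousLinearMap.snd ℝ (perp l) (perp m)).comp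
              (ContinuousLinearMap.snd ℝ (EuclideanSpace ℝ (Fin 6)) (perp l × perp m))))).contDiff
              (n := 1)
        exact (contDiffAt_const (c := m i)).add h3.contDiffAt
      exact h2.smul h1
  have hFs := hFc.hasStrictFDerivAt' hFd (by simp)
  -- it is a zero
  have hF0 : F x₀ = 0 := by
    have h1 : zc (𝓡∂ 6) hl hm c z.1 = x₀ := by rw [hzz]; exact zc_self (𝓡∂ 6) hl hm c x
    have hzO : z.1 ∈ zO (EuclideanHalfSpace 6) l m c := by
      rw [hzz]
      have h2 := dot_proj1_add_perp_ne hl (0 : perp l)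
      have h3 := dot_proj1_add_perp_ne hm (0 : perp m)
      rw [Submodule.coe_zero, add_zero, proj1_of_unit hl] at h2
      rw [Submodule.coe_zero, add_zero, proj1_of_unit hm] at h3
      exact ⟨hxc, h2, h3⟩
    rw [← h1]
    exact Fz_zc (𝓡∂ 6) hl hm he z.2 hzO
  -- the derivative is onto
  have hzl : ∑ i, l i • locForm (𝓡∂ 6) e (v i) c u₀ = 0 := by
    have h1 := congrArg Prod.fst hF0
    simp only [hF, Fz, hx₀, Submodule.coe_zero, add_zero, Prod.fst_zero] at h1
    exact h1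
  have hzm : ∑ i, m i • locForm (𝓡∂ 6) e (w i) c u₀ = 0 := by
    have h1 := congrArg Prod.snd hF0
    simp only [hF, Fz, hx₀, Submodule.coe_zero, add_zero, Prod.snd_zero] at h1
    exact h1
  have hvd : ∀ i, DifferentiableWithinAt ℝ (locForm (𝓡∂ 6) e (v i) c) (range (𝓡∂ 6)) u₀ :=
    fun i => ((hA i).differentiableAt (by simp)).differentiableWithinAt
  have hwd : ∀ i, DifferentiableWithinAt ℝ (locForm (𝓡∂ 6) e (w i) c) (range (𝓡∂ 6)) u₀ :=
    fun i => ((hB i).differentiableAt (by simp)).differentiableWithinAt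
  obtain ⟨d, hd⟩ := exists_subtype_lift (zeroSet (𝓡∂ 6) e v w) z (zd (𝓡∂ 6) l m c)
  set O : Set (zeroSet (𝓡∂ 6) e v w) := Subtype.val ⁻¹' (zO (EuclideanHalfSpace 6) l m c) with hO
  have hOo : IsOpen O := (isOpen_zO c).preimage continuous_subtype_val
  set N : Set (EuclideanSpace ℝ (Fin 6) × perp l × perp m) := {y | y.1 ∈ N₀} with hN
  have hNn : N ∈ 𝓝 x₀ := continuous_fst.continuousAt.preimage_mem_nhds hN₀n
  have hmemZ : ∀ y ∈ N, F y = 0 → zd (𝓡∂ 6) l m c y ∈ zeroSet (𝓡∂ 6) e v w :=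
    fun y hy hy0 => zd_mem_zeroSet (𝓡∂ 6) he hl hm hy hy0
  have hdz : d x₀ = z := by
    refine Subtype.ext ?_
    rw [hd x₀ (hmemZ x₀ (mem_of_mem_nhds hNn) hF0), hzz]
    simp only [zd, hx₀, Submodule.coe_zero, add_zero, proj1_of_unit hl, proj1_of_unit hm]
    rw [hu₀, (extChartAt (𝓡∂ 6) c).left_inv (by rw [extChartAt_source]; exact hxc)]
  rw [← hdz]
  refine arcAt_abstract hFs ?_ ?_ hF0 hNn hOo (c := fun z => zc (𝓡∂ 6) hl hm c z.1) ?_ ?_ ?_ ?_
  · -- surjectivity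
    rintro ⟨f, g⟩
    obtain ⟨ξ, l', m', h1⟩ := hsur f g
    rw [dmap_eq (𝓡∂ 6) hvd hwd] at h1
    rw [← hu₀] at h1
    simp only [fderivWithin_of_mem_nhds hrange] at h1
    rw [Prod.mk_inj] at h1
    refine ⟨(ξ, projPerp hl l', projPerp hm m'), Prod.ext ?_ ?_⟩
    · rw [← h1.1, eq_comm, ← sub_eq_zero]
      have h2 : (∑ i, l i • fderiv ℝ (locForm (𝓡∂ 6) e (v i) c) u₀ ξ +
          ∑ i, l' i • locForm (𝓡∂ 6) e (v i) c u₀) -
          ∑ i, (l i • fderiv ℝ (locForm (𝓡∂ 6) e (v i) c) u₀ ξ +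
            (projPerp hl l' : Fin 5 → ℝ) i • locForm (𝓡∂ 6) e (v i) c u₀) =
          (l ⬝ᵥ l') • ∑ i, l i • locForm (𝓡∂ 6) e (v i) c u₀ := by
        rw [Finset.sum_add_distrib, add_sub_add_left_eq_sub, ← Finset.sum_sub_distrib,
          Finset.smul_sum]
        refine Finset.sum_congr rfl fun i _ => ?_
        rw [coe_projPerp]
        simp only [Pi.sub_apply, Pi.smul_apply, smul_eq_mul]
        module
      rw [hzl, smul_zero] at h2
      rw [← h2]
      simp
    · rw [← h1.2, eq_comm, ← sub_eq_zero]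
      have h2 : (∑ i, m i • fderiv ℝ (locForm (𝓡∂ 6) e (w i) c) u₀ ξ +
          ∑ i, m' i • locForm (𝓡∂ 6) e (w i) c u₀) -
          ∑ i, (m i • fderiv ℝ (locForm (𝓡∂ 6) e (w i) c) u₀ ξ +
            (projPerp hm m' : Fin 4 → ℝ) i • locForm (𝓡∂ 6) e (w i) c u₀) =
          (m ⬝ᵥ m') • ∑ i, m i • locForm (𝓡∂ 6) e (w i) c u₀ := by
        rw [Finset.sum_add_distrib, add_sub_add_left_eq_sub, ← Finset.sum_sub_distrib,
          Finset.smul_sum]
        refine Finset.sum_congr rfl fun i _ => ?_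
        rw [coe_projPerp]
        simp only [Pi.sub_apply, Pi.smul_apply, smul_eq_mul]
        module
      rw [hzm, smul_zero] at h2
      rw [← h2]
      simp
  · -- dimensions
    have h1 : finrank ℝ (perp l) + 1 = 5 := finrank_perp hl
    have h2 : finrank ℝ (perp m) + 1 = 4 := finrank_perp hm
    rw [finrank_prod, finrank_prod, finrank_prod, finrank_dual_six, finrank_euclideanSpace_fin]
    omega
  · exact (continuousOn_zc (𝓡∂ 6) hl hm c).comp continuous_subtype_val.continuousOn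
      fun z hz => hz
  · rw [IsInducing.subtypeVal.continuousOn_iff]
    refine ((continuousOn_zd (𝓡∂ 6) hl hm c).mono fun y hy => hy.1).congr ?_
    intro y hy
    exact hd y (hmemZ y hy.1 hy.2)
  · intro y hy hy0
    have h1 := hd y (hmemZ y hy hy0)
    refine ⟨?_, ?_⟩
    · change (d y).1 ∈ zO (EuclideanHalfSpace 6) l m c
      rw [h1]
      exact zd_mem_zO (𝓡∂ 6) hl hm hy
    · rw [h1]
      exact zc_zd (𝓡∂ 6) hl hm hy
  · intro z' hz'
    refine ⟨Fz_zc (𝓡∂ 6) hl hm he z'.2 hz', fun hN' => ?_⟩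
    refine Subtype.ext ?_
    rw [hd _ (hmemZ _ hN' (Fz_zc (𝓡∂ 6) hl hm he z'.2 hz'))]
    exact zd_zc (𝓡∂ 6) hl hm z'.2 hz'

end

end Pool.Agent.MP_f1864b_gt
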