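import Mathlib

set_option autoImplicit false

/-!
# The first coordinate vanishes exactly on the boundary
-/

namespace Pool.Agent.MP_f1864b_gt

open scoped Manifold ContDiff Topology
open Set Topology

section BdCoord

variable {n : ℕ} [NeZero n] {W : Type*} [TopologicalSpace W]
  [ChartedSpace (EuclideanHalfSpace n) W]

theorem coord_nonneg (x z : W) : 0 ≤ extChartAt (𝓡∂ n) x z 0 := by
  have h : extChartAt (𝓡∂ n) x z ∈ range (𝓡∂ n) := by
    rw [extChartAt_coe]
    exact ⟨_, rfl⟩
  rw [range_modelWithCornersEuclideanHalfSpace] at h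
  exact h

variable [IsManifold (𝓡∂ n) ∞ W]

theorem mem_interior_iff_coord {x z : W}
    (hz : z ∈ (chartAt (EuclideanHalfSpace n) x).source) :
    z ∈ (𝓡∂ n).interior W ↔ 0 < extChartAt (𝓡∂ n) x z 0 := by
  have h1 : z ∈ (𝓡∂ n).interior W ↔
      extChartAt (𝓡∂ n) x z ∈ interior (extChartAt (𝓡∂ n) x).target :=
    (𝓡∂ n).isInteriorPoint_iff_of_mem_atlas (n := ∞) (by simp) (chart_mem_atlas _ x) hz
  rw [h1]
  constructor
  · intro h
    have h2 := interior_mono (extChartAt_target_subset_range (I := 𝓡∂ n) x) h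
    rw [interior_range_modelWithCornersEuclideanHalfSpace] at h2
    exact h2
  · intro h
    have h2 : extChartAt (𝓡∂ n) x z ∈ interior (range (𝓡∂ n)) := by
      rw [interior_range_modelWithCornersEuclideanHalfSpace]
      exact h
    rw [extChartAt_coe] at h2 ⊢
    exact (chartAt (EuclideanHalfSpace n) x).mem_interior_extend_target
      ((chartAt (EuclideanHalfSpace n) x).map_source hz) h2

theorem mem_boundary_iff_coord {x z : W}
    (hz : z ∈ (chartAt (EuclideanHalfSpace n) x).source) :
    z ∈ (𝓡∂ n).boundary W ↔ extChartAt (𝓡∂ n) x z 0 = 0 := by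
  rw [← (𝓡∂ n).compl_interior, mem_compl_iff, mem_interior_iff_coord hz, not_lt]
  exact ⟨fun h => le_antisymm h (coord_nonneg x z), fun h => h.le⟩

end BdCoord

end Pool.Agent.MP_f1864b_gt
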