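import Pool.Agent.Lib.MP_f1864b_gt.Form

set_option autoImplicit false

/-!
# The zeros over the boundary of `W` correspond to the zeros on `M`
-/

namespace Pool.Agent.MP_f1864b_gt

open scoped Manifold ContDiff Topology Matrix
open Set Topology Module

section LinAlg

/-- The lines of linear relations of a finite family, given by their orthogonal projections. -/
def relSet {n : ℕ} {F : Type*} [AddCommGroup F] [Module ℝ F] (φ : Fin n → F) :
    Set (Matrix (Fin n) (Fin n) ℝ) :=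
  {A | ∃ l : Fin n → ℝ, l ⬝ᵥ l = 1 ∧ ∑ i, l i • φ i = 0 ∧ A = Matrix.vecMulVec l l}

theorem bd_vecMulVec_smul {n : ℕ} (s : ℝ) (l : Fin n → ℝ) :
    Matrix.vecMulVec (s • l) (s • l) = (s * s) • Matrix.vecMulVec l l := by
  ext a b
  simp only [Matrix.vecMulVec_apply, Pi.smul_apply, smul_eq_mul, Matrix.smul_apply]
  ring

theorem bd_dot_smul {n : ℕ} (s : ℝ) (l : Fin n → ℝ) : (s • l) ⬝ᵥ (s • l) = (s * s) * (l ⬝ᵥ l) := by
  simp only [dotProduct, Pi.smul_apply, smul_eq_mul, Finset.mul_sum]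
  refine Finset.sum_congr rfl fun i _ => ?_
  ring

theorem bd_unit {n : ℕ} {l k : Fin n → ℝ} (hl : l ⬝ᵥ l = 1) (hk : k ⬝ᵥ k = 1)
    (h : Matrix.vecMulVec l l = Matrix.vecMulVec k k) : ∃ s : ℝ, s * s = 1 ∧ k = s • l := by
  have h1 : k = (l ⬝ᵥ k) • l := by
    funext i
    have h2 : ∀ b, l i * l b = k i * k b := fun b => by
      have := congrFun (congrFun h i) b
      simpa [Matrix.vecMulVec_apply] using this
    have h3 : k i * (k ⬝ᵥ k) = l i * (l ⬝ᵥ k) := by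
      simp only [dotProduct, Finset.mul_sum]
      refine Finset.sum_congr rfl fun b _ => ?_
      rw [← mul_assoc, ← mul_assoc, h2 b]
    rw [hk, mul_one] at h3
    simp only [Pi.smul_apply, smul_eq_mul]
    rw [h3]
    ring
  refine ⟨l ⬝ᵥ k, ?_, h1⟩
  have h4 := hk
  rw [h1, bd_dot_smul, hl, mul_one] at h4
  exact h4

theorem bd_dot_pos {n : ℕ} {t : Fin n → ℝ} (ht : t ≠ 0) : 0 < t ⬝ᵥ t := by
  have h1 : 0 ≤ t ⬝ᵥ t := by
    simp only [dotProduct]
    exact Finset.sum_nonneg fun i _ => mul_self_nonneg _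
  rcases h1.eq_or_lt with h | h
  · exact absurd (dotProduct_self_eq_zero.1 h.symm) ht
  · exact h

/-- The normalised vector. -/
noncomputable def bdNorm {n : ℕ} (t : Fin n → ℝ) : Fin n → ℝ := (√(t ⬝ᵥ t))⁻¹ • t

theorem bdNorm_dot {n : ℕ} {t : Fin n → ℝ} (ht : t ≠ 0) : bdNorm t ⬝ᵥ bdNorm t = 1 := by
  have h := bd_dot_pos ht
  unfold bdNorm
  rw [bd_dot_smul, ← mul_inv, Real.mul_self_sqrt h.le, inv_mul_cancel₀ h.ne']

theorem bdNorm_rel {n : ℕ} {F : Type*} [AddCommGroup F] [Module ℝ F] (φ : Fin n → F)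
    {t : Fin n → ℝ} (h : ∑ i, t i • φ i = 0) : ∑ i, bdNorm t i • φ i = 0 := by
  have h1 : ∑ i, bdNorm t i • φ i = (√(t ⬝ᵥ t))⁻¹ • ∑ i, t i • φ i := by
    rw [Finset.smul_sum]
    refine Finset.sum_congr rfl fun i _ => ?_
    simp only [bdNorm, Pi.smul_apply, smul_eq_mul, mul_smul]
  rw [h1, h, smul_zero]

/-- Two non-zero vectors with the same normalised projection are proportional. -/
theorem bdNorm_vec {n : ℕ} {t u : Fin n → ℝ} (ht : t ≠ 0) (hu : u ≠ 0)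
    (h : Matrix.vecMulVec (bdNorm t) (bdNorm t) = Matrix.vecMulVec (bdNorm u) (bdNorm u)) :
    ∃ c : ℝ, u = c • t := by
  obtain ⟨s, _, hs⟩ := bd_unit (bdNorm_dot ht) (bdNorm_dot hu) h
  have hu' := (Real.sqrt_pos.2 (bd_dot_pos hu)).ne'
  refine ⟨√(u ⬝ᵥ u) * s * (√(t ⬝ᵥ t))⁻¹, ?_⟩
  have h1 : u = √(u ⬝ᵥ u) • bdNorm u := by
    unfold bdNorm
    rw [smul_smul, mul_inv_cancel₀ hu', one_smul]
  conv_lhs => rw [h1, hs]
  unfold bdNorm
  rw [smul_smul, smul_smul]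

theorem bdNorm_smul {n : ℕ} {t : Fin n → ℝ} {s : ℝ} (hs : s ≠ 0) :
    Matrix.vecMulVec (bdNorm (s • t)) (bdNorm (s • t)) =
      Matrix.vecMulVec (bdNorm t) (bdNorm t) := by
  unfold bdNorm
  rw [bd_vecMulVec_smul, bd_vecMulVec_smul, bd_vecMulVec_smul, bd_dot_smul, smul_smul]
  congr 1
  rcases eq_or_ne t 0 with rfl | ht
  · simp
  · have h := bd_dot_pos ht
    rw [← mul_inv, ← mul_inv, Real.mul_self_sqrt h.le,
      Real.mul_self_sqrt (mul_nonneg (mul_self_nonneg _) h.le)]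
    field_simp

theorem bdNorm_unit {n : ℕ} {t : Fin n → ℝ} (h : t ⬝ᵥ t = 1) : bdNorm t = t := by
  unfold bdNorm
  rw [h]
  simp

theorem relSet_equiv {n : ℕ} {F G : Type*} [AddCommGroup F] [Module ℝ F] [AddCommGroup G]
    [Module ℝ G] (φ : Fin (n + 1) → F) (K : F →ₗ[ℝ] G) (h0 : φ 0 ≠ 0)
    (hK : ∀ g, K g = 0 ↔ ∃ c : ℝ, g = c • φ 0) :
    Nonempty (relSet φ ≃ relSet fun i : Fin n => K (φ i.succ)) := by
  classical
  -- the tail of a relation
  have htail : ∀ l : Fin (n + 1) → ℝ, ∑ i, l i • φ i = 0 →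
      ∑ i : Fin n, l i.succ • K (φ i.succ) = 0 := by
    intro l h
    have h1 := congrArg K h
    rw [Fin.sum_univ_succ, map_add, map_smul, (hK (φ 0)).2 ⟨1, (one_smul _ _).symm⟩, smul_zero,
      zero_add, map_sum, map_zero] at h1
    simpa using h1
  have htail0 : ∀ l : Fin (n + 1) → ℝ, l ⬝ᵥ l = 1 → ∑ i, l i • φ i = 0 →
      (fun i : Fin n => l i.succ) ≠ 0 := by
    intro l hl h ht
    have ht' : ∀ i : Fin n, l i.succ = 0 := fun i => congrFun ht i
    rw [Fin.sum_univ_succ] at h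
    simp only [ht', zero_smul, Finset.sum_const_zero, add_zero] at h
    have h2 : l 0 = 0 := (smul_eq_zero.1 h).resolve_right h0
    have h3 : l ⬝ᵥ l = 0 := by
      simp only [dotProduct]
      rw [Fin.sum_univ_succ]
      simp [ht', h2]
    rw [h3] at hl
    exact zero_ne_one hl
  have key : ∀ A : relSet φ, ∃ l : Fin (n + 1) → ℝ, l ⬝ᵥ l = 1 ∧ ∑ i, l i • φ i = 0 ∧
      (A : Matrix _ _ ℝ) = Matrix.vecMulVec l l := fun A => A.2
  choose L hL1 hL2 hL3 using key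
  let f : relSet φ → relSet fun i : Fin n => K (φ i.succ) := fun A =>
    ⟨Matrix.vecMulVec (bdNorm fun i : Fin n => L A i.succ) (bdNorm fun i : Fin n => L A i.succ),
      _, bdNorm_dot (htail0 _ (hL1 A) (hL2 A)), bdNorm_rel _ (htail _ (hL2 A)), rfl⟩
  refine ⟨Equiv.ofBijective f ⟨?_, ?_⟩⟩
  · intro A B hAB
    have h1 : Matrix.vecMulVec (bdNorm fun i : Fin n => L A i.succ)
        (bdNorm fun i : Fin n => L A i.succ) = Matrix.vecMulVec
        (bdNorm fun i : Fin n => L B i.succ) (bdNorm fun i : Fin n => L B i.succ) :=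
      congrArg Subtype.val hAB
    obtain ⟨c, hc⟩ := bdNorm_vec (htail0 _ (hL1 A) (hL2 A)) (htail0 _ (hL1 B) (hL2 B)) h1
    have hc' : ∀ i : Fin n, L B i.succ = c * L A i.succ := fun i => congrFun hc i
    have h2 : L B 0 = c * L A 0 := by
      have hA := hL2 A
      have hB := hL2 B
      rw [Fin.sum_univ_succ] at hA hB
      have h3 : ∑ i : Fin n, L B i.succ • φ i.succ = c • ∑ i : Fin n, L A i.succ • φ i.succ := by
        rw [Finset.smul_sum]
        exact Finset.sum_congr rfl fun i _ => by rw [hc' i, mul_smul]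
      have h4 : (L B 0 - c * L A 0) • φ 0 = 0 := by
        have h5 : c • (L A 0 • φ 0 + ∑ i : Fin n, L A i.succ • φ i.succ) = 0 := by
          rw [hA, smul_zero]
        rw [smul_add, smul_smul] at h5
        rw [h3] at hB
        rw [sub_smul]
        have h6 : L B 0 • φ 0 - (c * L A 0) • φ 0 = (L B 0 • φ 0 + c • ∑ i : Fin n,
            L A i.succ • φ i.succ) - ((c * L A 0) • φ 0 + c • ∑ i : Fin n,
            L A i.succ • φ i.succ) := by abel
        rw [h6, hB, h5, sub_zero]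
      exact sub_eq_zero.1 ((smul_eq_zero.1 h4).resolve_right h0)
    have h7 : L B = c • L A := by
      funext i
      refine Fin.cases ?_ (fun i => ?_) i
      · exact h2
      · exact hc' i
    have h8 : c * c = 1 := by
      have h9 := hL1 B
      rw [h7, bd_dot_smul, hL1 A, mul_one] at h9
      exact h9
    apply Subtype.ext
    rw [hL3 A, hL3 B, h7, bd_vecMulVec_smul, h8, one_smul]
  · rintro ⟨A', l', hl', hrel, rfl⟩
    have h1 : K (∑ i : Fin n, l' i • φ i.succ) = 0 := by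
      rw [map_sum]
      simpa using hrel
    obtain ⟨c, hc⟩ := (hK _).1 h1
    set k : Fin (n + 1) → ℝ := Fin.cons (-c) l' with hk
    have hk0 : k ≠ 0 := by
      intro h
      have h2 : l' = 0 := by
        funext i
        have := congrFun h i.succ
        simpa [hk] using this
      rw [h2] at hl'
      simp at hl'
    have hkrel : ∑ i, k i • φ i = 0 := by
      rw [Fin.sum_univ_succ]
      simp only [hk, Fin.cons_zero, Fin.cons_succ]
      rw [hc, neg_smul, neg_add_cancel]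
    let A : relSet φ := ⟨Matrix.vecMulVec (bdNorm k) (bdNorm k), _, bdNorm_dot hk0,
      bdNorm_rel _ hkrel, rfl⟩
    refine ⟨A, Subtype.ext ?_⟩
    change Matrix.vecMulVec (bdNorm fun i : Fin n => L A i.succ)
        (bdNorm fun i : Fin n => L A i.succ) = Matrix.vecMulVec l' l'
    obtain ⟨s, hs, hs'⟩ := bd_unit (bdNorm_dot hk0) (hL1 A) (hL3 A)
    have hs0 : s ≠ 0 := by
      rintro rfl
      simp at hs
    have hr0 : (√(k ⬝ᵥ k))⁻¹ ≠ 0 := (inv_pos.2 (Real.sqrt_pos.2 (bd_dot_pos hk0))).ne'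
    have h3 : (fun i : Fin n => L A i.succ) = (s * (√(k ⬝ᵥ k))⁻¹) • l' := by
      funext i
      rw [hs']
      simp only [Pi.smul_apply, smul_eq_mul, bdNorm, hk, Fin.cons_succ]
      ring
    rw [h3, bdNorm_smul (mul_ne_zero hs0 hr0), bdNorm_unit hl']

end LinAlg

section Sets

variable {E : Type*} [NormedAddCommGroup E] [NormedSpace ℝ E]
  {H : Type*} [TopologicalSpace H] (I : ModelWithCorners ℝ E H)
  {X : Type*} [TopologicalSpace X] [ChartedSpace H X]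
  {V : Type*} [NormedAddCommGroup V] [NormedSpace ℝ V]

theorem mem_zeroSet_iff {p q : ℕ} (e : X → V) (v : Fin p → X → (V →L[ℝ] ℝ))
    (w : Fin q → X → (V →L[ℝ] ℝ))
    (z : X × Matrix (Fin p) (Fin p) ℝ × Matrix (Fin q) (Fin q) ℝ) :
    z ∈ zeroSet I e v w ↔ z.2.1 ∈ relSet (fun i => form I e (v i) z.1) ∧
      z.2.2 ∈ relSet (fun j => form I e (w j) z.1) := by
  constructor
  · rintro ⟨l, m, ⟨hl, hm, h1, h2⟩, h3, h4⟩
    rw [form_comb] at h1 h2
    exact ⟨⟨l, hl, h1, h3⟩, m, hm, h2, h4⟩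
  · rintro ⟨⟨l, hl, h1, h3⟩, m, hm, h2, h4⟩
    refine ⟨l, m, ⟨hl, hm, ?_, ?_⟩, h3, h4⟩
    · rw [form_comb]
      exact h1
    · rw [form_comb]
      exact h2

end Sets

/-- The zeros over the boundary correspond to the zeros on `M`. -/
theorem zeroSet_boundary_equiv {W : Type*} [TopologicalSpace W] [T2Space W] [CompactSpace W]
    [ChartedSpace (EuclideanHalfSpace 6) W] [IsManifold (𝓡∂ 6) ∞ W]
    {M : Type*} [TopologicalSpace M] [CompactSpace M] [ChartedSpace (EuclideanSpace ℝ (Fin 5)) M]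
    [IsManifold (𝓡 5) ∞ M] {j : M → W}
    (hj : ContMDiff (𝓡 5) (𝓡∂ 6) ∞ j) (hinj : Function.Injective j)
    (hd : ∀ y, Function.Injective (mfderiv (𝓡 5) (𝓡∂ 6) j y))
    (hr : range j = (𝓡∂ 6).boundary W) {V : Type*} [NormedAddCommGroup V]
    [NormedSpace ℝ V] [FiniteDimensional ℝ V] {e : W → V}
    (he : ContMDiff (𝓡∂ 6) 𝓘(ℝ, V) ∞ e)
    {v : Fin 5 → W → (V →L[ℝ] ℝ)} {w : Fin 4 → W → (V →L[ℝ] ℝ)}
    (hv0 : ∀ y, form (𝓡 5) (e ∘ j) (v 0 ∘ j) y = 0)
    (hw0 : ∀ y, form (𝓡 5) (e ∘ j) (w 0 ∘ j) y = 0)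
    (hv1 : ∀ y, form (𝓡∂ 6) e (v 0) (j y) ≠ 0) (hw1 : ∀ y, form (𝓡∂ 6) e (w 0) (j y) ≠ 0) :
    Nonempty ({z : zeroSet (𝓡∂ 6) e v w // z.1.1 ∈ (𝓡∂ 6).boundary W} ≃
      zeroSet (𝓡 5) (e ∘ j) (fun i => v (Fin.succ i) ∘ j) (fun i => w (Fin.succ i) ∘ j)) := by
  classical
  -- pull back of covectors
  let E5 := EuclideanSpace ℝ (Fin 5)
  let E6 := EuclideanSpace ℝ (Fin 6)
  let D : M → (E5 →L[ℝ] E6) := fun y => mfderiv (𝓡 5) (𝓡∂ 6) j y
  have hpull : ∀ (u : W → (V →L[ℝ] ℝ)) (y : M), form (𝓡 5) (e ∘ j) (u ∘ j) y =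
      (form (𝓡∂ 6) e u (j y)).comp (D y) := by
    intro u y
    have h1 : mfderiv (𝓡 5) 𝓘(ℝ, V) (e ∘ j) y =
        (mfderiv (𝓡∂ 6) 𝓘(ℝ, V) e (j y)).comp (mfderiv (𝓡 5) (𝓡∂ 6) j y) :=
      mfderiv_comp y ((he (j y)).mdifferentiableAt (by simp)) ((hj y).mdifferentiableAt (by simp))
    unfold form
    rw [h1]
    rfl
  let K : M → ((E6 →L[ℝ] ℝ) →ₗ[ℝ] (E5 →L[ℝ] ℝ)) := fun y =>
    { toFun := fun g => g.comp (D y)
      map_add' := fun _ _ => rfl
      map_smul' := fun _ _ => rfl }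
  have hKer : ∀ (y : M) (φ : E6 →L[ℝ] ℝ), φ ≠ 0 → φ.comp (D y) = 0 →
      ∀ g : E6 →L[ℝ] ℝ, K y g = 0 ↔ ∃ c : ℝ, g = c • φ := by
    intro y φ hφ hφD g
    constructor
    · intro hg
      have hg' : g.comp (D y) = 0 := hg
      have hinjD : Function.Injective (D y) := hd y
      have hrange : finrank ℝ (LinearMap.range (D y : E5 →ₗ[ℝ] E6)) = 5 := by
        rw [LinearMap.finrank_range_of_inj hinjD]
        simp [E5]
      have hle : LinearMap.range (D y : E5 →ₗ[ℝ] E6) ≤ LinearMap.ker (φ : E6 →ₗ[ℝ] ℝ) := by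
        rintro _ ⟨a, rfl⟩
        have := congrArg (fun f : E5 →L[ℝ] ℝ => f a) hφD
        exact this
      have hφ' : (φ : E6 →ₗ[ℝ] ℝ) ≠ 0 := fun h => hφ (ContinuousLinearMap.coe_injective h)
      have hker : finrank ℝ (LinearMap.ker (φ : E6 →ₗ[ℝ] ℝ)) = 5 := by
        have h1 := LinearMap.finrank_range_add_finrank_ker (φ : E6 →ₗ[ℝ] ℝ)
        have h2 : LinearMap.range (φ : E6 →ₗ[ℝ] ℝ) = ⊤ :=
          LinearMap.range_eq_top.2 (LinearMap.surjective hφ')
        rw [h2, finrank_top] at h1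
        have h3 : finrank ℝ E6 = 6 := by simp [E6]
        have h4 : finrank ℝ ℝ = 1 := finrank_self ℝ
        rw [h3, h4] at h1
        omega
      have heq : LinearMap.range (D y : E5 →ₗ[ℝ] E6) = LinearMap.ker (φ : E6 →ₗ[ℝ] ℝ) :=
        Submodule.eq_of_le_of_finrank_eq hle (by rw [hrange, hker])
      obtain ⟨ν, hν⟩ : ∃ ν, φ ν ≠ 0 := by
        by_contra hcon
        push Not at hcon
        exact hφ (ContinuousLinearMap.ext hcon)
      refine ⟨g ν / φ ν, ?_⟩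
      ext a
      have h3 : a - (φ a / φ ν) • ν ∈ LinearMap.ker (φ : E6 →ₗ[ℝ] ℝ) := by
        rw [LinearMap.mem_ker]
        change φ (a - (φ a / φ ν) • ν) = 0
        rw [map_sub, map_smul, smul_eq_mul, div_mul_cancel₀ _ hν, sub_self]
      rw [← heq] at h3
      obtain ⟨b, hb⟩ := h3
      have h4 : g (a - (φ a / φ ν) • ν) = 0 := by
        have h5 := congrArg (fun f : E5 →L[ℝ] ℝ => f b) hg'
        have h6 : g (D y b) = 0 := h5
        have h7 : D y b = a - (φ a / φ ν) • ν := hb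
        rw [← h7]
        exact h6
      rw [map_sub, map_smul, smul_eq_mul, sub_eq_zero] at h4
      rw [h4]
      change φ a / φ ν * g ν = (g ν / φ ν) * φ a
      ring
    · rintro ⟨c, rfl⟩
      change (c • φ).comp (D y) = 0
      rw [ContinuousLinearMap.smul_comp, hφD, smul_zero]
  -- the equivalences of the fibres
  have hA : ∀ y : M, Nonempty (relSet (fun i => form (𝓡∂ 6) e (v i) (j y)) ≃
      relSet (fun i : Fin 4 => form (𝓡 5) (e ∘ j) (v i.succ ∘ j) y)) := by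
    intro y
    have h1 := relSet_equiv (fun i => form (𝓡∂ 6) e (v i) (j y)) (K y) (hv1 y)
      (hKer y _ (hv1 y) (by rw [← hpull, hv0]))
    have h2 : (fun i : Fin 4 => form (𝓡 5) (e ∘ j) (v i.succ ∘ j) y) =
        fun i : Fin 4 => K y (form (𝓡∂ 6) e (v i.succ) (j y)) := by
      funext i
      exact hpull _ y
    rw [h2]
    exact h1
  have hB : ∀ y : M, Nonempty (relSet (fun i => form (𝓡∂ 6) e (w i) (j y)) ≃
      relSet (fun i : Fin 3 => form (𝓡 5) (e ∘ j) (w i.succ ∘ j) y)) := by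
    intro y
    have h1 := relSet_equiv (fun i => form (𝓡∂ 6) e (w i) (j y)) (K y) (hw1 y)
      (hKer y _ (hw1 y) (by rw [← hpull, hw0]))
    have h2 : (fun i : Fin 3 => form (𝓡 5) (e ∘ j) (w i.succ ∘ j) y) =
        fun i : Fin 3 => K y (form (𝓡∂ 6) e (w i.succ) (j y)) := by
      funext i
      exact hpull _ y
    rw [h2]
    exact h1
  let eA := fun y => (hA y).some
  let eB := fun y => (hB y).some
  -- both sides as sigma types
  let S1 := Σ y : M, relSet (fun i => form (𝓡∂ 6) e (v i) (j y)) ×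
    relSet (fun i => form (𝓡∂ 6) e (w i) (j y))
  let S2 := Σ y : M, relSet (fun i : Fin 4 => form (𝓡 5) (e ∘ j) (v i.succ ∘ j) y) ×
    relSet (fun i : Fin 3 => form (𝓡 5) (e ∘ j) (w i.succ ∘ j) y)
  have e12 : S1 ≃ S2 := Equiv.sigmaCongrRight fun y => (eA y).prodCongr (eB y)
  let f1 : S1 → {z : zeroSet (𝓡∂ 6) e v w // z.1.1 ∈ (𝓡∂ 6).boundary W} := fun s =>
    ⟨⟨(j s.1, s.2.1.1, s.2.2.1), (mem_zeroSet_iff _ _ _ _ _).2 ⟨s.2.1.2, s.2.2.2⟩⟩,
      by rw [← hr]; exact ⟨s.1, rfl⟩⟩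
  have hf1 : Function.Bijective f1 := by
    constructor
    · rintro ⟨y, A, B⟩ ⟨y', A', B'⟩ h
      have h1 : (j y, (A : Matrix _ _ ℝ), (B : Matrix _ _ ℝ)) = (j y', A'.1, B'.1) :=
        congrArg (fun z => z.1.1) h
      have h2 : y = y' := hinj (congrArg Prod.fst h1)
      subst h2
      have h3 : A = A' := Subtype.ext (congrArg (fun z => z.2.1) h1)
      have h4 : B = B' := Subtype.ext (congrArg (fun z => z.2.2) h1)
      rw [h3, h4]
    · rintro ⟨⟨⟨x, A, B⟩, hz⟩, hx⟩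
      have hx' : x ∈ range j := by rw [hr]; exact hx
      obtain ⟨y, rfl⟩ := hx'
      have h1 := (mem_zeroSet_iff _ _ _ _ _).1 hz
      exact ⟨⟨y, ⟨A, h1.1⟩, ⟨B, h1.2⟩⟩, rfl⟩
  let f2 : S2 → zeroSet (𝓡 5) (e ∘ j) (fun i => v (Fin.succ i) ∘ j)
      (fun i => w (Fin.succ i) ∘ j) := fun s =>
    ⟨(s.1, s.2.1.1, s.2.2.1), (mem_zeroSet_iff _ _ _ _ _).2 ⟨s.2.1.2, s.2.2.2⟩⟩
  have hf2 : Function.Bijective f2 := by
    constructor
    · rintro ⟨y, A, B⟩ ⟨y', A', B'⟩ h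
      have h1 : (y, (A : Matrix _ _ ℝ), (B : Matrix _ _ ℝ)) = (y', A'.1, B'.1) :=
        congrArg (fun z => z.1) h
      have h2 : y = y' := congrArg Prod.fst h1
      subst h2
      have h3 : A = A' := Subtype.ext (congrArg (fun z => z.2.1) h1)
      have h4 : B = B' := Subtype.ext (congrArg (fun z => z.2.2) h1)
      rw [h3, h4]
    · rintro ⟨⟨y, A, B⟩, hz⟩
      have h1 := (mem_zeroSet_iff _ _ _ _ _).1 hz
      exact ⟨⟨y, ⟨A, h1.1⟩, ⟨B, h1.2⟩⟩, rfl⟩
  exact ⟨(Equiv.ofBijective f1 hf1).symm.trans (e12.trans (Equiv.ofBijective f2 hf2))⟩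

end Pool.Agent.MP_f1864b_gt
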