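import Mathlib

set_option autoImplicit false
set_option maxSynthPendingDepth 3

/-!
# MP_f1864b_gt, C1: one-jets of the (anti)symmetrised one-forms

`V` carries a linear map `s`, `G : E → V` is an immersion near `y`. For the cubic maps
`f_T(x) = ∑ b_i(1,x) b_j(1,x) T_{ij}(1,x)` with values in `V →L[ℝ] ℝ` (`b` a basis of the dual of
`ℝ × V`) we consider the one-form `y ↦ (f_T(G y) + ε • f_T(s (G y)) ∘ s) ∘ DG(y)` and its one-jet
at `y`, as linear functions of `T`.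
-/

namespace Pool.Agent.MP_f1864b_gt

open Set Filter Topology Function Module
open scoped ContDiff

section Defs

variable (V : Type*) [NormedAddCommGroup V] [NormedSpace ℝ V]

/-- index set of the coordinates of `ℝ × V` -/
abbrev CubIdx : Type := Fin (finrank ℝ (ℝ × V))

/-- the space of the coefficients of the cubic maps `V → (V →L[ℝ] ℝ)` -/
def Cub : Type _ := CubIdx V × CubIdx V → ((ℝ × V) →L[ℝ] (V →L[ℝ] ℝ))

noncomputable instance : NormedAddCommGroup (Cub V) :=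
  inferInstanceAs (NormedAddCommGroup (CubIdx V × CubIdx V → ((ℝ × V) →L[ℝ] (V →L[ℝ] ℝ))))

noncomputable instance : NormedSpace ℝ (Cub V) :=
  inferInstanceAs (NormedSpace ℝ (CubIdx V × CubIdx V → ((ℝ × V) →L[ℝ] (V →L[ℝ] ℝ))))

variable [FiniteDimensional ℝ V]

instance : FiniteDimensional ℝ (Cub V) :=
  inferInstanceAs (FiniteDimensional ℝ (CubIdx V × CubIdx V → ((ℝ × V) →L[ℝ] (V →L[ℝ] ℝ))))

/-- the coefficients of index `p` -/
noncomputable def cubProj (p : CubIdx V × CubIdx V) : Cub V →L[ℝ] ((ℝ × V) →L[ℝ] (V →L[ℝ] ℝ)) :=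
  ContinuousLinearMap.proj (R := ℝ)
    (φ := fun _ : CubIdx V × CubIdx V => (ℝ × V) →L[ℝ] (V →L[ℝ] ℝ)) p

/-- the coordinates of `ℝ × V` -/
noncomputable def cubCoord (i : CubIdx V) : (ℝ × V) →L[ℝ] ℝ :=
  LinearMap.toContinuousLinearMap ((finBasis ℝ (ℝ × V)).coord i)

variable {V}

theorem exists_cubCoord (l : (ℝ × V) →L[ℝ] ℝ) :
    ∃ c : CubIdx V → ℝ, ∀ w, l w = ∑ i, c i * cubCoord V i w := by
  refine ⟨fun i => l (finBasis ℝ (ℝ × V) i), fun w => ?_⟩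
  conv_lhs => rw [← (finBasis ℝ (ℝ × V)).sum_repr w]
  rw [map_sum]
  refine Finset.sum_congr rfl fun i _ => ?_
  rw [map_smul, smul_eq_mul, mul_comm]
  rfl

/-- the value at `x` of the cubic map with coefficients `T` -/
noncomputable def cubL (x : V) : Cub V →L[ℝ] (V →L[ℝ] ℝ) :=
  ∑ p : CubIdx V × CubIdx V, (cubCoord V p.1 (1, x) * cubCoord V p.2 (1, x)) •
    (ContinuousLinearMap.apply ℝ (V →L[ℝ] ℝ) ((1, x) : ℝ × V)).comp
      (cubProj V p)

theorem cubL_apply (x : V) (T : Cub V) : cubL x T =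
    ∑ p : CubIdx V × CubIdx V,
      (cubCoord V p.1 (1, x) * cubCoord V p.2 (1, x)) • cubProj V p T (1, x) := by
  unfold cubL
  rw [sum_apply]
  rfl

theorem contDiff_cubL : ContDiff ℝ ∞ (cubL : V → Cub V →L[ℝ] (V →L[ℝ] ℝ)) := by
  have h1 : ContDiff ℝ ∞ (fun x : V => ((1, x) : ℝ × V)) := contDiff_const.prodMk contDiff_id
  unfold cubL
  refine ContDiff.sum fun p _ => ?_
  refine ContDiff.smul (((cubCoord V p.1).contDiff.comp h1).mul
    ((cubCoord V p.2).contDiff.comp h1)) ?_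
  exact (((ContinuousLinearMap.apply ℝ (V →L[ℝ] ℝ)).contDiff.comp h1)).clm_comp contDiff_const

/-- `T ↦ f_T(x) + ε • f_T(s x) ∘ s` -/
noncomputable def symL (ε : ℝ) (s : V →L[ℝ] V) (x : V) : Cub V →L[ℝ] (V →L[ℝ] ℝ) :=
  cubL x + ε • ((ContinuousLinearMap.compL ℝ V V ℝ).flip s).comp (cubL (s x))

theorem symL_apply (ε : ℝ) (s : V →L[ℝ] V) (x : V) (T : Cub V) :
    symL ε s x T = cubL x T + ε • (cubL (s x) T).comp s := rfl

theorem contDiff_symL (ε : ℝ) (s : V →L[ℝ] V) :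
    ContDiff ℝ ∞ (symL ε s : V → Cub V →L[ℝ] (V →L[ℝ] ℝ)) := by
  unfold symL
  exact contDiff_cubL.add ((contDiff_const.clm_comp (contDiff_cubL.comp s.contDiff)).const_smul ε)

end Defs

section Form

variable {E V : Type*} [NormedAddCommGroup E] [NormedSpace ℝ E]
  [NormedAddCommGroup V] [NormedSpace ℝ V] [FiniteDimensional ℝ V]

/-- the value at `y` of the one-form of `T` in the parametrisation `G` -/
noncomputable def formL (ε : ℝ) (s : V →L[ℝ] V) (G : E → V) (y : E) : Cub V →L[ℝ] (E →L[ℝ] ℝ) :=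
  ((ContinuousLinearMap.compL ℝ E V ℝ).flip (fderiv ℝ G y)).comp (symL ε s (G y))

theorem formL_apply (ε : ℝ) (s : V →L[ℝ] V) (G : E → V) (y : E) (T : Cub V) :
    formL ε s G y T = (symL ε s (G y) T).comp (fderiv ℝ G y) := rfl

theorem contDiffOn_formL (ε : ℝ) (s : V →L[ℝ] V) {G : E → V} {O : Set E} (hO : IsOpen O)
    (hG : ContDiffOn ℝ ∞ G O) : ContDiffOn ℝ ∞ (formL ε s G) O := by
  unfold formL
  have h1 : ContDiffOn ℝ ∞ (fderiv ℝ G) O := hG.fderiv_of_isOpen hO (by simp)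
  have h2 : ContDiffOn ℝ ∞ (fun y => (ContinuousLinearMap.compL ℝ E V ℝ).flip (fderiv ℝ G y)) O :=
    ((ContinuousLinearMap.compL ℝ E V ℝ).flip).contDiff.comp_contDiffOn h1
  exact h2.clm_comp ((contDiff_symL ε s).comp_contDiffOn hG)

end Form

section Jets

variable {E V : Type*} [NormedAddCommGroup E] [NormedSpace ℝ E]
  [NormedAddCommGroup V] [NormedSpace ℝ V] [FiniteDimensional ℝ V]

/-- coefficients of `u ↦ l(1,u)² Φ(1,u)` -/
theorem exists_cub_eq (l : (ℝ × V) →L[ℝ] ℝ) (Φ : (ℝ × V) →L[ℝ] (V →L[ℝ] ℝ)) :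
    ∃ T : Cub V, ∀ u : V, cubL u T = (l (1, u) * l (1, u)) • Φ (1, u) := by
  obtain ⟨c, hc⟩ := exists_cubCoord l
  refine ⟨fun p => (c p.1 * c p.2) • Φ, fun u => ?_⟩
  rw [cubL_apply, hc (1, u), Finset.sum_mul_sum, ← Finset.univ_product_univ, Finset.sum_product,
    Finset.sum_smul]
  refine Finset.sum_congr rfl fun i _ => ?_
  rw [Finset.sum_smul]
  refine Finset.sum_congr rfl fun j _ => ?_
  change (cubCoord V i (1, u) * cubCoord V j (1, u)) • ((c i * c j) • Φ) (1, u) = _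
  rw [smul_apply, smul_smul]
  congr 1
  ring

omit [FiniteDimensional ℝ V] in
theorem hasFDerivAt_sq_smul (l : (ℝ × V) →L[ℝ] ℝ) (Φ : (ℝ × V) →L[ℝ] (V →L[ℝ] ℝ)) (x : V) :
    HasFDerivAt (fun u : V => (l (1, u) * l (1, u)) • Φ (1, u))
      ((l (1, x) * l (1, x)) • Φ.comp (ContinuousLinearMap.inr ℝ ℝ V) +
        ((2 * l (1, x)) • l.comp (ContinuousLinearMap.inr ℝ ℝ V)).smulRight (Φ (1, x))) x := by
  have h0 : HasFDerivAt (fun u : V => ((1, u) : ℝ × V)) (ContinuousLinearMap.inr ℝ ℝ V) x := by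
    exact (hasFDerivAt_const (1 : ℝ) x).prodMk (hasFDerivAt_id x)
  have h1 : HasFDerivAt (fun u : V => l (1, u)) (l.comp (ContinuousLinearMap.inr ℝ ℝ V)) x :=
    l.hasFDerivAt.comp x h0
  have h2 : HasFDerivAt (fun u : V => Φ (1, u)) (Φ.comp (ContinuousLinearMap.inr ℝ ℝ V)) x :=
    Φ.hasFDerivAt.comp x h0
  have h3 := (h1.mul h1).smul h2
  refine h3.congr_fderiv ?_
  ext v w
  simp
  left
  ring

/-- a cubic map with given one-jet at `x`, of the form `l² Φ` -/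
theorem exists_cub_jet_aux (x : V) (l : (ℝ × V) →L[ℝ] ℝ) (hl : l (1, x) = 1) (b : V →L[ℝ] ℝ)
    (B : V →L[ℝ] (V →L[ℝ] ℝ)) :
    ∃ T : Cub V, cubL x T = b ∧ HasFDerivAt (fun u => cubL u T) B x ∧
      ∀ x' : V, l (1, x') = 0 → cubL x' T = 0 ∧ HasFDerivAt (fun u => cubL u T)
        (0 : V →L[ℝ] (V →L[ℝ] ℝ)) x' := by
  set μ : V →L[ℝ] ℝ := l.comp (ContinuousLinearMap.inr ℝ ℝ V) with hμ
  set Φ₀ : V →L[ℝ] (V →L[ℝ] ℝ) := B - ((2 : ℝ) • μ).smulRight b with hΦ₀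
  set Φ : (ℝ × V) →L[ℝ] (V →L[ℝ] ℝ) :=
    (ContinuousLinearMap.fst ℝ ℝ V).smulRight (b - Φ₀ x) +
      Φ₀.comp (ContinuousLinearMap.snd ℝ ℝ V) with hΦ
  have hΦx : Φ (1, x) = b := by
    simp [hΦ]
  have hΦi : Φ.comp (ContinuousLinearMap.inr ℝ ℝ V) = Φ₀ := by
    ext v w
    simp [hΦ]
  obtain ⟨T, hT⟩ := exists_cub_eq l Φ
  have hT' : (fun u => cubL u T) = fun u : V => (l (1, u) * l (1, u)) • Φ (1, u) := funext hT
  refine ⟨T, ?_, ?_, fun x' hx' => ⟨?_, ?_⟩⟩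
  · rw [hT, hl, hΦx]; simp
  · rw [hT']
    refine (hasFDerivAt_sq_smul l Φ x).congr_fderiv ?_
    rw [hΦi, hΦx, hl, ← hμ, hΦ₀]
    ext v w
    simp
  · rw [hT, hx']; simp
  · rw [hT']
    refine (hasFDerivAt_sq_smul l Φ x').congr_fderiv ?_
    rw [hx']
    ext v w
    simp

omit [FiniteDimensional ℝ V] in
/-- the one-jet at `y` of `f(G) ∘ DG`, for a map `f` with given one-jet at `G y` -/
theorem hasFDerivAt_pull {G : E → V} {y : E} {f : V → (V →L[ℝ] ℝ)} {B : V →L[ℝ] (V →L[ℝ] ℝ)}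
    {G₂ : E →L[ℝ] (E →L[ℝ] V)} (hG : HasFDerivAt G (fderiv ℝ G y) y)
    (hG₂ : HasFDerivAt (fderiv ℝ G) G₂ y) (hf : HasFDerivAt f B (G y)) :
    HasFDerivAt (fun y' => (f (G y')).comp (fderiv ℝ G y'))
      (((ContinuousLinearMap.compL ℝ E V ℝ) (f (G y))).comp G₂ +
        ((ContinuousLinearMap.compL ℝ E V ℝ).flip (fderiv ℝ G y)).comp
          (B.comp (fderiv ℝ G y))) y :=
  (hf.comp y hG).clm_comp hG₂

/-- the data which give the one-jet `(f, f')` -/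
theorem exists_jet_data {J : E →L[ℝ] V} (hJ : Injective J) (G₂ : E →L[ℝ] (E →L[ℝ] V))
    (f : E →L[ℝ] ℝ) (f' : E →L[ℝ] (E →L[ℝ] ℝ)) :
    ∃ (b : V →L[ℝ] ℝ) (B : V →L[ℝ] (V →L[ℝ] ℝ)), b.comp J = f ∧
      ∀ ξ, b.comp (G₂ ξ) + (B (J ξ)).comp J = f' ξ := by
  obtain ⟨R₀, hR₀⟩ := (J : E →ₗ[ℝ] V).exists_leftInverse_of_injective
    (LinearMap.ker_eq_bot.2 hJ)
  set R : V →L[ℝ] E := LinearMap.toContinuousLinearMap R₀ with hR
  have hRJ : ∀ ξ, R (J ξ) = ξ := fun ξ => LinearMap.congr_fun hR₀ ξ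
  refine ⟨f.comp R, ((ContinuousLinearMap.compL ℝ V E ℝ).flip R).comp
    ((f' - ((ContinuousLinearMap.compL ℝ E V ℝ) (f.comp R)).comp G₂).comp R), ?_, fun ξ => ?_⟩
  · ext ξ
    simp [hRJ]
  · ext η
    simp [hRJ]

/-- C1, free points: all the one-jets at `y` are attained. -/
theorem jets_free {O : Set E} (hO : IsOpen O) {G : E → V} (hG : ContDiffOn ℝ ∞ G O) {y : E}
    (hy : y ∈ O) (hinj : Injective (fderiv ℝ G y)) (ε : ℝ) (s : V →L[ℝ] V)
    (hne : s (G y) ≠ G y) (f : E →L[ℝ] ℝ) (f' : E →L[ℝ] (E →L[ℝ] ℝ)) :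
    ∃ T : Cub V, formL ε s G y T = f ∧ fderiv ℝ (fun y' => formL ε s G y' T) y = f' := by
  have hGy : ContDiffAt ℝ ∞ G y := hG.contDiffAt (hO.mem_nhds hy)
  have hG1 : HasFDerivAt G (fderiv ℝ G y) y := (hGy.differentiableAt (by simp)).hasFDerivAt
  have hG2 : HasFDerivAt (fderiv ℝ G) (fderiv ℝ (fderiv ℝ G) y) y :=
    ((hGy.fderiv_right (m := ∞) (by simp)).differentiableAt (by simp)).hasFDerivAt
  obtain ⟨b, B, hb, hB⟩ := exists_jet_data hinj (fderiv ℝ (fderiv ℝ G) y) f f'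
  obtain ⟨μ, hμ⟩ := SeparatingDual.exists_eq_one (R := ℝ) (sub_ne_zero.2 hne.symm)
  set l : (ℝ × V) →L[ℝ] ℝ := μ.comp (ContinuousLinearMap.snd ℝ ℝ V) -
    (μ (s (G y))) • ContinuousLinearMap.fst ℝ ℝ V with hl
  have hl1 : l (1, G y) = 1 := by
    simp [hl]
    simpa using hμ
  have hl0 : l (1, s (G y)) = 0 := by
    simp [hl]
  obtain ⟨T, hT1, hT2, hT3⟩ := exists_cub_jet_aux (G y) l hl1 b B
  obtain ⟨hT4, hT5⟩ := hT3 _ hl0
  refine ⟨T, ?_, ?_⟩
  · rw [formL_apply, symL_apply, hT1, hT4]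
    simpa using hb
  · have h1 : HasFDerivAt (fun u => symL ε s u T) B (G y) := by
      have h2 : HasFDerivAt (fun u => cubL (s u) T) (0 : V →L[ℝ] (V →L[ℝ] ℝ)) (G y) :=
        (hT5.comp (G y) s.hasFDerivAt).congr_fderiv (ContinuousLinearMap.zero_comp _)
      have h3 : HasFDerivAt (fun u => ε • (cubL (s u) T).comp s)
          (0 : V →L[ℝ] (V →L[ℝ] ℝ)) (G y) := by
        refine (((((ContinuousLinearMap.compL ℝ V V ℝ).flip s).hasFDerivAt).comp (G y)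
          h2).const_smul ε).congr_fderiv ?_
        rw [ContinuousLinearMap.comp_zero, smul_zero]
      exact (hT2.add h3).congr_fderiv (add_zero B)
    have h4 := hasFDerivAt_pull hG1 hG2 h1
    refine (h4.fderiv).trans ?_
    ext ξ η
    have := congrArg (fun F : E →L[ℝ] ℝ => F η) (hB ξ)
    simpa [symL_apply, hT1, hT4] using this

/-- C1, fixed points: all the equivariant one-jets at `y` are attained. -/
theorem jets_fixed {O : Set E} (hO : IsOpen O) {G : E → V} (hG : ContDiffOn ℝ ∞ G O) {y : E}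
    (hy : y ∈ O) (hinj : Injective (fderiv ℝ G y)) (ε : ℝ) (s : V →L[ℝ] V) (L : E →L[ℝ] E)
    (hL : ∀ᶠ y' in 𝓝 y, s (G y') = G (L y')) (hLy : L y = y)
    (f : E →L[ℝ] ℝ) (f' : E →L[ℝ] (E →L[ℝ] ℝ)) (hf : ε • f.comp L = f)
    (hf' : ∀ ξ, ε • (f' (L ξ)).comp L = f' ξ) :
    ∃ T : Cub V, formL ε s G y T = f ∧ fderiv ℝ (fun y' => formL ε s G y' T) y = f' := by
  have hGy : ContDiffAt ℝ ∞ G y := hG.contDiffAt (hO.mem_nhds hy)
  have hG1 : HasFDerivAt G (fderiv ℝ G y) y := (hGy.differentiableAt (by simp)).hasFDerivAt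
  have hG2 : HasFDerivAt (fderiv ℝ G) (fderiv ℝ (fderiv ℝ G) y) y :=
    ((hGy.fderiv_right (m := ∞) (by simp)).differentiableAt (by simp)).hasFDerivAt
  obtain ⟨b, B, hb, hB⟩ := exists_jet_data hinj (fderiv ℝ (fderiv ℝ G) y) ((1 / 2 : ℝ) • f)
    ((1 / 2 : ℝ) • f')
  obtain ⟨T, hT1, hT2, -⟩ := exists_cub_jet_aux (G y) (ContinuousLinearMap.fst ℝ ℝ V) rfl b B
  -- the form without symmetrisation
  set a : E → (E →L[ℝ] ℝ) := fun y' => (cubL (G y') T).comp (fderiv ℝ G y') with ha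
  have ha0 : a y = (1 / 2 : ℝ) • f := by rw [ha]; simp only; rw [hT1]; exact hb
  have ha1 : HasFDerivAt a ((1 / 2 : ℝ) • f') y := by
    refine (hasFDerivAt_pull hG1 hG2 hT2).congr_fderiv ?_
    ext ξ η
    have := congrArg (fun F : E →L[ℝ] ℝ => F η) (hB ξ)
    simpa [hT1] using this
  -- the symmetrised form
  have hev : (fun y' => formL ε s G y' T) =ᶠ[𝓝 y] fun y' => a y' + ε • (a (L y')).comp L := by
    have hd : ∀ᶠ y' in 𝓝 y, DifferentiableAt ℝ G y' := by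
      filter_upwards [hO.mem_nhds hy] with y' hy'
      exact (hG.contDiffAt (hO.mem_nhds hy')).differentiableAt (by simp)
    have hLt : Tendsto L (𝓝 y) (𝓝 y) := by
      have := L.continuous.tendsto y
      rwa [hLy] at this
    filter_upwards [hL, hL.eventually_nhds, hd, hLt.eventually hd] with y' h1 h2 h3 h4
    rw [formL_apply, symL_apply, ContinuousLinearMap.add_comp, ContinuousLinearMap.smul_comp,
      ContinuousLinearMap.comp_assoc, h1]
    have h5 : s.comp (fderiv ℝ G y') = (fderiv ℝ G (L y')).comp L := by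
      have e1 : HasFDerivAt (fun y'' => s (G y'')) (s.comp (fderiv ℝ G y')) y' :=
        s.hasFDerivAt.comp y' h3.hasFDerivAt
      have e2 : HasFDerivAt (fun y'' => G (L y'')) ((fderiv ℝ G (L y')).comp L) y' :=
        h4.hasFDerivAt.comp y' L.hasFDerivAt
      exact e1.unique (e2.congr_of_eventuallyEq h2)
    rw [h5]
    rfl
  have hval : formL ε s G y T = a y + ε • (a (L y)).comp L := hev.eq_of_nhds
  refine ⟨T, ?_, ?_⟩
  · rw [hval, hLy, ha0, ContinuousLinearMap.smul_comp, smul_comm, hf, ← add_smul]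
    norm_num
  · have ha1' : HasFDerivAt a ((1 / 2 : ℝ) • f') (L y) := by rw [hLy]; exact ha1
    have h2 : HasFDerivAt (fun y' => ε • (a (L y')).comp L)
        (ε • ((ContinuousLinearMap.compL ℝ E E ℝ).flip L).comp (((1 / 2 : ℝ) • f').comp L)) y :=
      ((((ContinuousLinearMap.compL ℝ E E ℝ).flip L).hasFDerivAt).comp y
        (ha1'.comp y L.hasFDerivAt)).const_smul ε
    rw [hev.fderiv_eq]
    refine ((ha1.add h2).fderiv).trans ?_
    ext ξ η
    have := congrArg (fun F : E →L[ℝ] ℝ => F η) (hf' ξ)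
    simp at this ⊢
    linarith

end Jets

end Pool.Agent.MP_f1864b_gt
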