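import Mathlib

set_option autoImplicit false

/-!
# Definitions for the non-bounding theorem (Theorem W)

1-forms on a manifold `X` are written `v ∘ de` with `e : X → V` and `v : X → V*` functions.
For two families of 1-forms `v i` (`i < p`) and `w j` (`j < q`) we consider the common zeros
`(x, [l], [m])` of `∑ l i • v i` and `∑ m j • w j` in `X × RP^(p-1) × RP^(q-1)`.
-/

namespace Pool.Agent.MP_f1864b_gt

open scoped Manifold ContDiff Topology Matrix
open Set Topology

section Defs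

variable {E : Type*} [NormedAddCommGroup E] [NormedSpace ℝ E]
  {H : Type*} [TopologicalSpace H] (I : ModelWithCorners ℝ E H)
  {X : Type*} [TopologicalSpace X] [ChartedSpace H X]
  {V : Type*} [NormedAddCommGroup V] [NormedSpace ℝ V]

/-- The value at `x` of the 1-form `v ∘ de`, where `e : X → V` and `v : X → V*`. -/
noncomputable def form (e : X → V) (v : X → (V →L[ℝ] ℝ)) (x : X) : E →L[ℝ] ℝ :=
  (v x).comp (mfderiv I 𝓘(ℝ, V) e x : E →L[ℝ] V)

/-- The same 1-form in the chart with centre `c`, at the point `u` of the model space. -/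
noncomputable def locForm (e : X → V) (v : X → (V →L[ℝ] ℝ)) (c : X) (u : E) : E →L[ℝ] ℝ :=
  (v ((extChartAt I c).symm u)).comp
    (fderivWithin ℝ (e ∘ (extChartAt I c).symm) (range I) u)

/-- Linear combinations of a family of coefficient functions. -/
def comb {p : ℕ} (v : Fin p → X → (V →L[ℝ] ℝ)) (l : Fin p → ℝ) (x : X) : V →L[ℝ] ℝ :=
  ∑ i, l i • v i x

/-- `(x, l, m)`, with unit vectors `l` and `m`, is a common zero of the two families. -/
def IsZero {p q : ℕ} (e : X → V) (v : Fin p → X → (V →L[ℝ] ℝ)) (w : Fin q → X → (V →L[ℝ] ℝ))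
    (x : X) (l : Fin p → ℝ) (m : Fin q → ℝ) : Prop :=
  l ⬝ᵥ l = 1 ∧ m ⬝ᵥ m = 1 ∧ form I e (comb v l) x = 0 ∧ form I e (comb w m) x = 0

/-- The set of common zeros in `X × RP^(p-1) × RP^(q-1)`; a line is given by its orthogonal
projection `l lᵀ`. -/
def zeroSet {p q : ℕ} (e : X → V) (v : Fin p → X → (V →L[ℝ] ℝ)) (w : Fin q → X → (V →L[ℝ] ℝ)) :
    Set (X × Matrix (Fin p) (Fin p) ℝ × Matrix (Fin q) (Fin q) ℝ) :=
  {z | ∃ l m, IsZero I e v w z.1 l m ∧ z.2.1 = Matrix.vecMulVec l l ∧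
    z.2.2 = Matrix.vecMulVec m m}

/-- The derivative at `(x, l, m)`, in the chart with centre `c`, of
`(x, l, m) ↦ (∑ l i • v i, ∑ m j • w j)`, in the direction `(ξ, l', m')`. -/
noncomputable def dmap {p q : ℕ} (e : X → V) (v : Fin p → X → (V →L[ℝ] ℝ))
    (w : Fin q → X → (V →L[ℝ] ℝ)) (c x : X) (l : Fin p → ℝ) (m : Fin q → ℝ)
    (ξ : E) (l' : Fin p → ℝ) (m' : Fin q → ℝ) : (E →L[ℝ] ℝ) × (E →L[ℝ] ℝ) :=
  (fderivWithin ℝ (locForm I e (comb v l) c) (range I) (extChartAt I c x) ξ +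
      locForm I e (comb v l') c (extChartAt I c x),
    fderivWithin ℝ (locForm I e (comb w m) c) (range I) (extChartAt I c x) ξ +
      locForm I e (comb w m') c (extChartAt I c x))

/-- The zero `(x, l, m)` is regular in the chart with centre `c`: the derivative is onto. -/
def IsRegularIn {p q : ℕ} (e : X → V) (v : Fin p → X → (V →L[ℝ] ℝ))
    (w : Fin q → X → (V →L[ℝ] ℝ)) (c x : X) (l : Fin p → ℝ) (m : Fin q → ℝ) : Prop :=
  x ∈ (chartAt H c).source ∧
    ∀ f g : E →L[ℝ] ℝ, ∃ ξ l' m', dmap I e v w c x l m ξ l' m' = (f, g)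

end Defs

/-- `z` is in the range of an open arc: an open embedding of `(-1, 1)` with `0 ↦ z`. -/
def ArcAt {Z : Type*} [TopologicalSpace Z] (z : Z) : Prop :=
  ∃ γ : Ioo (-1 : ℝ) 1 → Z, IsOpenEmbedding γ ∧ γ ⟨0, by norm_num, one_pos⟩ = z

/-- `z` is the end of a half open arc: an open embedding of `[0, 1)` with `0 ↦ z`. -/
def EndAt {Z : Type*} [TopologicalSpace Z] (z : Z) : Prop :=
  ∃ γ : Ico (0 : ℝ) 1 → Z, IsOpenEmbedding γ ∧ γ ⟨0, le_rfl, one_pos⟩ = z

end Pool.Agent.MP_f1864b_gt
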