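import Pool.Agent.Lib.MP_f1864b_gt.Dim

set_option autoImplicit false
set_option maxSynthPendingDepth 3

/-!
# MP_f1864b_gt, C3 (fixed points of the involution): dimension counts
-/

namespace Pool.Agent.MP_f1864b_gt

open Set Filter Topology Function Module
open scoped ContDiff ENNReal

section Linc

variable {C Y : Type*} [NormedAddCommGroup C] [NormedSpace ℝ C]
  [NormedAddCommGroup Y] [NormedSpace ℝ Y] {n : ℕ}

/-- `a ↦ ∑ l i • B (a i)` -/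
noncomputable def linc (l : Fin n → ℝ) (B : C →L[ℝ] Y) : (Fin n → C) →L[ℝ] Y :=
  ∑ i, l i • B.comp (ContinuousLinearMap.proj (R := ℝ) (φ := fun _ : Fin n => C) i)

@[simp] theorem linc_apply (l : Fin n → ℝ) (B : C →L[ℝ] Y) (a : Fin n → C) :
    linc l B a = ∑ i, l i • B (a i) := by
  unfold linc
  rw [sum_apply]
  rfl

theorem linc_surjective {l : Fin n → ℝ} (hl : l ≠ 0) {B : C →L[ℝ] Y} (hB : Surjective B) :
    Surjective (linc l B) := by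
  intro y
  obtain ⟨i, hi⟩ := Function.ne_iff.1 hl
  obtain ⟨c, hc⟩ := hB ((l i)⁻¹ • y)
  refine ⟨Pi.single i c, ?_⟩
  rw [linc_apply, Finset.sum_eq_single i]
  · rw [Pi.single_eq_same, hc, smul_smul, mul_inv_cancel₀ hi, one_smul]
  · intro j _ hj
    rw [Pi.single_eq_of_ne hj, map_zero, smul_zero]
  · simp

theorem contDiffOn_linc {X : Type*} [NormedAddCommGroup X] [NormedSpace ℝ X] {U : Set X}
    {l : X → (Fin n → ℝ)} {B : X → C →L[ℝ] Y} {k : WithTop ℕ∞} (hl : ContDiffOn ℝ k l U)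
    (hB : ContDiffOn ℝ k B U) : ContDiffOn ℝ k (fun x => linc (l x) (B x)) U := by
  unfold linc
  refine ContDiffOn.sum fun i _ => ?_
  exact ((contDiffOn_pi.1 hl) i).smul (hB.clm_comp contDiffOn_const)

end Linc

section Two

variable {A₁ A₂ K X₁ X₂ Y₁ Y₂ : Type*}
  [NormedAddCommGroup A₁] [NormedSpace ℝ A₁] [FiniteDimensional ℝ A₁]
  [NormedAddCommGroup A₂] [NormedSpace ℝ A₂] [FiniteDimensional ℝ A₂]
  [NormedAddCommGroup K] [NormedSpace ℝ K] [FiniteDimensional ℝ K]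
  [NormedAddCommGroup X₁] [NormedSpace ℝ X₁] [FiniteDimensional ℝ X₁]
  [NormedAddCommGroup X₂] [NormedSpace ℝ X₂] [FiniteDimensional ℝ X₂]
  [NormedAddCommGroup Y₁] [NormedSpace ℝ Y₁] [FiniteDimensional ℝ Y₁]
  [NormedAddCommGroup Y₂] [NormedSpace ℝ Y₂] [FiniteDimensional ℝ Y₂]

/-- Dimension lemma for two independent families of conditions over the same base. -/
theorem dimH_two {U : Set K} (hU : IsOpen U) {H₁ : K × X₁ → A₁ →L[ℝ] Y₁}
    {H₂ : K × X₂ → A₂ →L[ℝ] Y₂} (h₁ : ContDiffOn ℝ 1 H₁ (U ×ˢ univ))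
    (h₂ : ContDiffOn ℝ 1 H₂ (U ×ˢ univ)) (s₁ : ∀ y ∈ U, ∀ x, Surjective (H₁ (y, x)))
    (s₂ : ∀ y ∈ U, ∀ x, Surjective (H₂ (y, x)))
    (hdim : finrank ℝ K + (finrank ℝ X₁ + finrank ℝ X₂) < finrank ℝ Y₁ + finrank ℝ Y₂) :
    dimH {a : A₁ × A₂ | ∃ y ∈ U, ∃ x₁ x₂, H₁ (y, x₁) a.1 = 0 ∧ H₂ (y, x₂) a.2 = 0} ≤
      ((finrank ℝ (A₁ × A₂) - 1 : ℕ) : ℝ≥0∞) := by
  set L : K × X₁ × X₂ → (A₁ × A₂) →L[ℝ] (Y₁ × Y₂) := fun x =>
    ((H₁ (x.1, x.2.1)).comp (ContinuousLinearMap.fst ℝ A₁ A₂)).prod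
      ((H₂ (x.1, x.2.2)).comp (ContinuousLinearMap.snd ℝ A₁ A₂)) with hL
  have e1 : ContDiffOn ℝ 1 (fun x : K × X₁ × X₂ => H₁ (x.1, x.2.1)) (U ×ˢ univ) :=
    h₁.comp (contDiff_fst.prodMk (contDiff_fst.comp contDiff_snd)).contDiffOn
      fun x hx => ⟨hx.1, mem_univ _⟩
  have e2 : ContDiffOn ℝ 1 (fun x : K × X₁ × X₂ => H₂ (x.1, x.2.2)) (U ×ˢ univ) :=
    h₂.comp (contDiff_fst.prodMk (contDiff_snd.comp contDiff_snd)).contDiffOn
      fun x hx => ⟨hx.1, mem_univ _⟩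
  have hLd : ContDiffOn ℝ 1 L (U ×ˢ univ) :=
    ((ContinuousLinearMap.prodₗᵢ ℝ : _ ≃ₗᵢ[ℝ] ((A₁ × A₂) →L[ℝ] (Y₁ × Y₂))).contDiff.comp_contDiffOn
      ((e1.clm_comp contDiffOn_const).prodMk (e2.clm_comp contDiffOn_const)))
  refine (dimH_mono ?_).trans (dimH_solutions_le (hU.prod isOpen_univ)
    (contDiffOn_const (c := (0 : Y₁ × Y₂))) hLd ?_)
  · rintro a ⟨y, hy, x₁, x₂, ha1, ha2⟩
    refine ⟨(y, x₁, x₂), ⟨hy, mem_univ _⟩, ?_, ?_⟩
    · rintro ⟨y₁, y₂⟩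
      obtain ⟨a₁, h1⟩ := s₁ y hy x₁ y₁
      obtain ⟨a₂, h2⟩ := s₂ y hy x₂ y₂
      exact ⟨(a₁, a₂), Prod.ext h1 h2⟩
    · rw [zero_add]
      exact Prod.ext ha1 ha2
  · rw [finrank_prod, finrank_prod, finrank_prod]
    exact hdim

end Two

section Normal

/-- the vectors whose `i`-th coordinate is zero -/
def kerp (n : ℕ) (i : Fin n) : Submodule ℝ (Fin n → ℝ) :=
  LinearMap.ker (LinearMap.proj i : (Fin n → ℝ) →ₗ[ℝ] ℝ)

theorem finrank_kerp {n : ℕ} (i : Fin n) : finrank ℝ (kerp n i) + 1 = n := by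
  have h := LinearMap.finrank_range_add_finrank_ker (LinearMap.proj i : (Fin n → ℝ) →ₗ[ℝ] ℝ)
  have h1 : LinearMap.range (LinearMap.proj i : (Fin n → ℝ) →ₗ[ℝ] ℝ) = ⊤ := by
    rw [LinearMap.range_eq_top]
    intro c
    exact ⟨fun _ => c, rfl⟩
  rw [h1, finrank_top, finrank_self, finrank_fin_fun] at h
  unfold kerp
  omega

/-- the vectors whose `i`-th coordinate is one -/
theorem exists_normal {n : ℕ} {l : Fin n → ℝ} (hl : l ≠ 0) :
    ∃ (i : Fin n) (c : ℝ) (x : kerp n i), c ≠ 0 ∧ (Pi.single i 1 + (x : Fin n → ℝ)) = c • l := by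
  obtain ⟨i, hi⟩ := Function.ne_iff.1 hl
  refine ⟨i, (l i)⁻¹, ⟨(l i)⁻¹ • l - Pi.single i 1, ?_⟩, inv_ne_zero hi, by simp⟩
  change ((l i)⁻¹ • l - Pi.single i 1 : Fin n → ℝ) i = 0
  simp only [Pi.sub_apply, Pi.smul_apply, Pi.single_eq_same, smul_eq_mul]
  rw [inv_mul_cancel₀ hi, sub_self]

theorem normal_ne_zero {n : ℕ} (i : Fin n) (x : kerp n i) :
    (Pi.single i 1 + (x : Fin n → ℝ)) ≠ 0 := by
  intro h
  have h1 := congrFun h i
  have h2 : (x : Fin n → ℝ) i = 0 := x.2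
  simp [h2] at h1

end Normal

section Fixed

variable {K C Y Z : Type*}
  [NormedAddCommGroup K] [NormedSpace ℝ K] [FiniteDimensional ℝ K]
  [NormedAddCommGroup C] [NormedSpace ℝ C] [FiniteDimensional ℝ C]
  [NormedAddCommGroup Y] [NormedSpace ℝ Y] [FiniteDimensional ℝ Y]
  [NormedAddCommGroup Z] [NormedSpace ℝ Z] [FiniteDimensional ℝ Z]

/-- forget the first coordinate -/
noncomputable def tailL (C : Type*) [NormedAddCommGroup C] [NormedSpace ℝ C] (n : ℕ) :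
    (Fin (n + 1) → C) →L[ℝ] (Fin n → C) :=
  ContinuousLinearMap.pi fun i =>
    ContinuousLinearMap.proj (R := ℝ) (φ := fun _ : Fin (n + 1) => C) i.succ

/-- the condition of type `e₀` -/
noncomputable def half0 (n : ℕ) (P : K → C →L[ℝ] Y) (x : K × (Fin 0 → ℝ)) :
    (Fin (n + 1) → C) →L[ℝ] Y :=
  (P x.1).comp (ContinuousLinearMap.proj (R := ℝ) (φ := fun _ : Fin (n + 1) => C) 0)

/-- the condition of type `-` -/
noncomputable def halfS {n : ℕ} (i : Fin n) (N : K → C →L[ℝ] Z) (x : K × kerp n i) :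
    (Fin (n + 1) → C) →L[ℝ] Z :=
  (linc (Pi.single i 1 + (x.2 : Fin n → ℝ)) (N x.1)).comp (tailL C n)

omit [FiniteDimensional ℝ K] [FiniteDimensional ℝ C] [FiniteDimensional ℝ Y] in
theorem contDiffOn_half0 (n : ℕ) {P : K → C →L[ℝ] Y} {U : Set K} (hP : ContDiffOn ℝ 1 P U) :
    ContDiffOn ℝ 1 (half0 n P) (U ×ˢ univ) := by
  unfold half0
  exact (hP.comp contDiffOn_fst fun x hx => hx.1).clm_comp contDiffOn_const

omit [FiniteDimensional ℝ K] [FiniteDimensional ℝ C] [FiniteDimensional ℝ Z] in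
theorem contDiffOn_halfS {n : ℕ} (i : Fin n) {N : K → C →L[ℝ] Z} {U : Set K}
    (hN : ContDiffOn ℝ 1 N U) : ContDiffOn ℝ 1 (halfS i N) (U ×ˢ univ) := by
  unfold halfS
  have h1 : ContDiffOn ℝ 1 (fun x : K × kerp n i => N x.1) (U ×ˢ univ) :=
    hN.comp contDiffOn_fst fun x hx => hx.1
  have h2 : ContDiffOn ℝ 1 (fun x : K × kerp n i => (Pi.single i 1 + (x.2 : Fin n → ℝ)))
      (U ×ˢ univ) :=
    (contDiff_const.add ((kerp n i).subtypeL.contDiff.comp contDiff_snd)).contDiffOn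
  exact (contDiffOn_linc h2 h1).clm_comp contDiffOn_const

omit [NormedAddCommGroup K] [NormedSpace ℝ K] [FiniteDimensional ℝ K]
  [FiniteDimensional ℝ C] [FiniteDimensional ℝ Y] in
theorem half0_surjective (n : ℕ) {P : K → C →L[ℝ] Y} {y : K} (hP : Surjective (P y))
    (x : Fin 0 → ℝ) : Surjective (half0 n P (y, x)) := by
  intro z
  obtain ⟨c, hc⟩ := hP z
  exact ⟨fun _ => c, hc⟩

omit [NormedAddCommGroup K] [NormedSpace ℝ K] [FiniteDimensional ℝ K]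
  [FiniteDimensional ℝ C] [FiniteDimensional ℝ Z] in
theorem halfS_surjective {n : ℕ} (i : Fin n) {N : K → C →L[ℝ] Z} {y : K}
    (hN : Surjective (N y)) (x : kerp n i) : Surjective (halfS i N (y, x)) := by
  intro z
  obtain ⟨a, ha⟩ := linc_surjective (normal_ne_zero i x) hN z
  refine ⟨Fin.cons 0 a, ?_⟩
  rw [← ha]
  rfl

omit [NormedAddCommGroup K] [NormedSpace ℝ K] [FiniteDimensional ℝ K]
  [FiniteDimensional ℝ C] [FiniteDimensional ℝ Y] [FiniteDimensional ℝ Z] in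
/-- the two types -/
theorem half_cases {n : ℕ} {P : K → C →L[ℝ] Y} {N : K → C →L[ℝ] Z} {y : K}
    {a : Fin (n + 1) → C} {l : Fin (n + 1) → ℝ} (hl : l ≠ 0) (h0 : l 0 • P y (a 0) = 0)
    (hS : ∑ i : Fin n, l i.succ • N y (a i.succ) = 0) :
    (∃ x, half0 n P (y, x) a = 0) ∨ ∃ (i : Fin n), ∃ x, halfS i N (y, x) a = 0 := by
  by_cases h : l 0 = 0
  · right
    have hl' : (fun i : Fin n => l i.succ) ≠ 0 := by
      intro h'
      apply hl
      funext j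
      refine Fin.cases h (fun i => ?_) j
      exact congrFun h' i
    obtain ⟨i, c, x, hc, hx⟩ := exists_normal hl'
    refine ⟨i, x, ?_⟩
    change linc (Pi.single i 1 + (x : Fin n → ℝ)) (N y) (tailL C n a) = 0
    rw [hx, linc_apply]
    have : ∑ j : Fin n, (c • fun i : Fin n => l i.succ) j • N y (tailL C n a j) =
        c • ∑ j : Fin n, l j.succ • N y (a j.succ) := by
      rw [Finset.smul_sum]
      refine Finset.sum_congr rfl fun j _ => ?_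
      rw [smul_smul]
      rfl
    rw [this, hS, smul_zero]
  · left
    exact ⟨0, (smul_eq_zero.1 h0).resolve_left h⟩

/-- C3: over a stratum of fixed points of dimension one or two there are generically no zeros. -/
theorem dimH_fixed_abs {U : Set K} (hU : IsOpen U) {P : K → C →L[ℝ] Y} {N : K → C →L[ℝ] Z}
    (hP : ContDiffOn ℝ 1 P U) (hN : ContDiffOn ℝ 1 N U) (sP : ∀ y ∈ U, Surjective (P y))
    (sN : ∀ y ∈ U, Surjective (N y)) (hK : 0 < finrank ℝ K) (hK2 : finrank ℝ K ≤ 2)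
    (hY : finrank ℝ Y = finrank ℝ K) (hZ : finrank ℝ Z + finrank ℝ K = 5) :
    dimH {a : (Fin 4 → C) × (Fin 3 → C) | ∃ y ∈ U, ∃ (l : Fin 4 → ℝ) (m : Fin 3 → ℝ), l ≠ 0 ∧
      m ≠ 0 ∧ l 0 • P y (a.1 0) = 0 ∧ ∑ i : Fin 3, l i.succ • N y (a.1 i.succ) = 0 ∧
      m 0 • P y (a.2 0) = 0 ∧ ∑ i : Fin 2, m i.succ • N y (a.2 i.succ) = 0} ≤
      ((finrank ℝ ((Fin 4 → C) × (Fin 3 → C)) - 1 : ℕ) : ℝ≥0∞) := by
  have hsub : {a : (Fin 4 → C) × (Fin 3 → C) | ∃ y ∈ U, ∃ (l : Fin 4 → ℝ) (m : Fin 3 → ℝ), l ≠ 0 ∧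
      m ≠ 0 ∧ l 0 • P y (a.1 0) = 0 ∧ ∑ i : Fin 3, l i.succ • N y (a.1 i.succ) = 0 ∧
      m 0 • P y (a.2 0) = 0 ∧ ∑ i : Fin 2, m i.succ • N y (a.2 i.succ) = 0} ⊆
      ({a | ∃ y ∈ U, ∃ x₁ x₂, half0 3 P (y, x₁) a.1 = 0 ∧ half0 2 P (y, x₂) a.2 = 0} ∪
      ⋃ j : Fin 2, {a | ∃ y ∈ U, ∃ x₁ x₂, half0 3 P (y, x₁) a.1 = 0 ∧ halfS j N (y, x₂) a.2 = 0}) ∪
      ((⋃ i : Fin 3, {a | ∃ y ∈ U, ∃ x₁ x₂, halfS i N (y, x₁) a.1 = 0 ∧
        half0 2 P (y, x₂) a.2 = 0}) ∪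
      ⋃ i : Fin 3, ⋃ j : Fin 2, {a | ∃ y ∈ U, ∃ x₁ x₂, halfS i N (y, x₁) a.1 = 0 ∧
        halfS j N (y, x₂) a.2 = 0}) := by
    rintro a ⟨y, hy, l, m, hl, hm, h1, h2, h3, h4⟩
    rcases half_cases hl h1 h2 with ⟨x₁, hx₁⟩ | ⟨i, x₁, hx₁⟩ <;>
      rcases half_cases hm h3 h4 with ⟨x₂, hx₂⟩ | ⟨j, x₂, hx₂⟩
    · exact Or.inl (Or.inl ⟨y, hy, x₁, x₂, hx₁, hx₂⟩)
    · exact Or.inl (Or.inr (mem_iUnion.2 ⟨j, y, hy, x₁, x₂, hx₁, hx₂⟩))
    · exact Or.inr (Or.inl (mem_iUnion.2 ⟨i, y, hy, x₁, x₂, hx₁, hx₂⟩))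
    · exact Or.inr (Or.inr (mem_iUnion.2 ⟨i, mem_iUnion.2 ⟨j, y, hy, x₁, x₂, hx₁, hx₂⟩⟩))
  have f0 : finrank ℝ (Fin 0 → ℝ) = 0 := by simp
  have f3 : ∀ i : Fin 3, finrank ℝ (kerp 3 i) = 2 := fun i => by have := finrank_kerp i; omega
  have f2 : ∀ i : Fin 2, finrank ℝ (kerp 2 i) = 1 := fun i => by have := finrank_kerp i; omega
  refine (dimH_mono hsub).trans ?_
  rw [dimH_union, dimH_union, dimH_union]
  refine max_le (max_le ?_ ?_) (max_le ?_ ?_)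
  · refine dimH_two hU (contDiffOn_half0 3 hP) (contDiffOn_half0 2 hP)
      (fun y hy => half0_surjective 3 (sP y hy)) (fun y hy => half0_surjective 2 (sP y hy)) ?_
    rw [f0]
    omega
  · rw [dimH_iUnion]
    refine iSup_le fun j => ?_
    refine dimH_two hU (contDiffOn_half0 3 hP) (contDiffOn_halfS j hN)
      (fun y hy => half0_surjective 3 (sP y hy)) (fun y hy => halfS_surjective j (sN y hy)) ?_
    rw [f0, f2 j]
    omega
  · rw [dimH_iUnion]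
    refine iSup_le fun i => ?_
    refine dimH_two hU (contDiffOn_halfS i hN) (contDiffOn_half0 2 hP)
      (fun y hy => halfS_surjective i (sN y hy)) (fun y hy => half0_surjective 2 (sP y hy)) ?_
    rw [f0, f3 i]
    omega
  · rw [dimH_iUnion]
    refine iSup_le fun i => ?_
    rw [dimH_iUnion]
    refine iSup_le fun j => ?_
    refine dimH_two hU (contDiffOn_halfS i hN) (contDiffOn_halfS j hN)
      (fun y hy => halfS_surjective i (sN y hy)) (fun y hy => halfS_surjective j (sN y hy)) ?_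
    rw [f2 j, f3 i]
    omega

end Fixed

end Pool.Agent.MP_f1864b_gt
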