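import Mathlib

/-!
# Dimension lemma: affine families of equations

For a family of affine equations `h x + L x a = 0` in `a ∈ A`, depending on a parameter `x` of
dimension smaller than the number of equations, the set of `a` which satisfy one of them (with
`L x` surjective) has Hausdorff dimension smaller than `dim A`.
-/

namespace Pool.Agent.MP_f1864b_gt

open Set Filter Topology MeasureTheory Module
open scoped ENNReal ContDiff

variable {A E Y : Type*} [NormedAddCommGroup A] [NormedSpace ℝ A] [FiniteDimensional ℝ A]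
  [NormedAddCommGroup E] [NormedSpace ℝ E] [FiniteDimensional ℝ E]
  [NormedAddCommGroup Y] [NormedSpace ℝ Y] [FiniteDimensional ℝ Y]

/-- the solutions near a point -/
theorem dimH_solutions_local {U : Set E} (hU : IsOpen U) {h : E → Y} {L : E → A →L[ℝ] Y}
    (hh : ContDiffOn ℝ 1 h U) (hL : ContDiffOn ℝ 1 L U) {x₀ : E} (hx₀ : x₀ ∈ U)
    (hs : Function.Surjective (L x₀)) :
    ∃ V ∈ 𝓝 x₀, dimH {a : A | ∃ x ∈ V, h x + L x a = 0} ≤
      ((finrank ℝ A + finrank ℝ E - finrank ℝ Y : ℕ) : ℝ≥0∞) := by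
  obtain ⟨R₁, hR₁⟩ := (L x₀).toLinearMap.exists_rightInverse_of_surjective
    (LinearMap.range_eq_top.2 hs)
  set R₀ : Y →L[ℝ] A := LinearMap.toContinuousLinearMap R₁ with hR₀
  have hLR : (L x₀).comp R₀ = ContinuousLinearMap.id ℝ Y := by
    ext y
    have := LinearMap.congr_fun hR₁ y
    change L x₀ (R₁ y) = y
    simpa using this
  set M : E → Y →L[ℝ] Y := fun x => (L x).comp R₀ with hM
  have hM1 : ContDiffOn ℝ 1 M U := hL.clm_comp contDiffOn_const
  have hMx₀ : M x₀ = 1 := hLR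
  have hUn : U ∈ 𝓝 x₀ := hU.mem_nhds hx₀
  have hMc : ContinuousAt M x₀ := (hM1.contDiffAt hUn).continuousAt
  have hunit : ∀ᶠ x in 𝓝 x₀, IsUnit (M x) := by
    have h1 : {m : Y →L[ℝ] Y | IsUnit m} ∈ 𝓝 (M x₀) := by
      rw [hMx₀]
      exact (Units.isOpen (R := Y →L[ℝ] Y)).mem_nhds isUnit_one
    exact hMc h1
  obtain ⟨ε, hε, hball⟩ := Metric.mem_nhds_iff.1 (inter_mem hUn hunit)
  set V : Set E := Metric.ball x₀ ε with hV
  have hVU : V ⊆ U := fun x hx => (hball hx).1
  have hVunit : ∀ x ∈ V, IsUnit (M x) := fun x hx => (hball hx).2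
  set R : E → Y →L[ℝ] A := fun x => R₀.comp (Ring.inverse (M x)) with hR
  have hinv : ContDiffOn ℝ 1 (fun x => Ring.inverse (M x)) V := by
    intro x hx
    obtain ⟨u, hu⟩ := hVunit x hx
    have h1 : ContDiffAt ℝ 1 Ring.inverse (M x) := by
      rw [← hu]
      exact contDiffAt_ringInverse ℝ u
    exact h1.comp_contDiffWithinAt x ((hM1.mono hVU) x hx)
  have hR1 : ContDiffOn ℝ 1 R V := contDiffOn_const.clm_comp hinv
  set K₀ := LinearMap.ker (L x₀).toLinearMap with hK₀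
  set φ : E × K₀ → A := fun p => -(R p.1 (h p.1)) + (p.2 : A) - R p.1 (L p.1 (p.2 : A)) with hφ
  have hφ1 : ContDiffOn ℝ 1 φ (V ×ˢ univ) := by
    have f1 : ContDiffOn ℝ 1 (fun p : E × K₀ => p.1) (V ×ˢ univ) := contDiffOn_fst
    have f2 : ContDiffOn ℝ 1 (fun p : E × K₀ => (p.2 : A)) (V ×ˢ univ) :=
      (K₀.subtypeL.contDiff.comp contDiff_snd).contDiffOn
    have m : MapsTo (fun p : E × K₀ => p.1) (V ×ˢ univ) V := fun p hp => hp.1
    have g1 : ContDiffOn ℝ 1 (fun p : E × K₀ => R p.1) (V ×ˢ univ) := hR1.comp f1 m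
    have g2 : ContDiffOn ℝ 1 (fun p : E × K₀ => h p.1) (V ×ˢ univ) := (hh.mono hVU).comp f1 m
    have g3 : ContDiffOn ℝ 1 (fun p : E × K₀ => L p.1) (V ×ˢ univ) := (hL.mono hVU).comp f1 m
    exact ((g1.clm_apply g2).neg.add f2).sub (g1.clm_apply (g3.clm_apply f2))
  refine ⟨V, Metric.ball_mem_nhds _ hε, ?_⟩
  have hsub : {a : A | ∃ x ∈ V, h x + L x a = 0} ⊆ φ '' (V ×ˢ univ) := by
    rintro a ⟨x, hx, ha⟩
    obtain ⟨u, hu⟩ := hVunit x hx
    have hMi : ∀ y, Ring.inverse (M x) (M x y) = y := by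
      intro y
      have := Ring.inverse_mul_cancel _ (hVunit x hx)
      have h2 := congrArg (fun m : Y →L[ℝ] Y => m y) this
      simpa using h2
    have hMi' : ∀ y, M x (Ring.inverse (M x) y) = y := by
      intro y
      have := Ring.mul_inverse_cancel _ (hVunit x hx)
      have h2 := congrArg (fun m : Y →L[ℝ] Y => m y) this
      simpa using h2
    set a' : A := a + R x (h x) with ha'
    have hLa' : L x a' = 0 := by
      have h1 : L x (R x (h x)) = h x := hMi' (h x)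
      rw [ha', map_add, h1, add_comm]
      exact ha
    set k : A := a' - R₀ (L x₀ a') with hk
    have hkK : k ∈ K₀ := by
      rw [hK₀, LinearMap.mem_ker]
      have h1 : L x₀ (R₀ (L x₀ a')) = L x₀ a' := by
        have := congrArg (fun m : Y →L[ℝ] Y => m (L x₀ a')) hLR
        simpa using this
      change L x₀ (a' - R₀ (L x₀ a')) = 0
      rw [map_sub, h1, sub_self]
    refine ⟨(x, ⟨k, hkK⟩), ⟨hx, mem_univ _⟩, ?_⟩
    have h2 : R x (L x (R₀ (L x₀ a'))) = R₀ (L x₀ a') := by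
      have := hMi (L x₀ a')
      change R₀ (Ring.inverse (M x) (M x (L x₀ a'))) = _
      rw [this]
    have h3 : R x (L x k) = -(R₀ (L x₀ a')) := by
      rw [hk, map_sub, map_sub, hLa', map_zero, h2, zero_sub]
    change -(R x (h x)) + k - R x (L x k) = a
    rw [h3, hk, ha']
    abel
  refine (dimH_mono hsub).trans ?_
  have hconv : Convex ℝ (V ×ˢ (univ : Set K₀)) := (convex_ball x₀ ε).prod convex_univ
  refine (hφ1.dimH_image_le hconv Subset.rfl).trans ((dimH_mono (subset_univ _)).trans ?_)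
  rw [Real.dimH_univ_eq_finrank]
  have h4 : finrank ℝ (E × K₀) = finrank ℝ E + finrank ℝ K₀ := finrank_prod
  have h5 : finrank ℝ (LinearMap.range (L x₀).toLinearMap) + finrank ℝ K₀ = finrank ℝ A :=
    LinearMap.finrank_range_add_finrank_ker _
  have h6 : finrank ℝ (LinearMap.range (L x₀).toLinearMap) = finrank ℝ Y := by
    rw [LinearMap.range_eq_top.2 hs, finrank_top]
  rw [h4]
  norm_cast
  omega

/-- **Dimension lemma.** -/
theorem dimH_solutions {U : Set E} (hU : IsOpen U) {h : E → Y} {L : E → A →L[ℝ] Y}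
    (hh : ContDiffOn ℝ 1 h U) (hL : ContDiffOn ℝ 1 L U) :
    dimH {a : A | ∃ x ∈ U, Function.Surjective (L x) ∧ h x + L x a = 0} ≤
      ((finrank ℝ A + finrank ℝ E - finrank ℝ Y : ℕ) : ℝ≥0∞) := by
  set s : Set E := {x | x ∈ U ∧ Function.Surjective (L x)} with hs
  have hloc : ∀ x ∈ s, ∃ V ∈ 𝓝 x, dimH {a : A | ∃ x ∈ V, h x + L x a = 0} ≤
      ((finrank ℝ A + finrank ℝ E - finrank ℝ Y : ℕ) : ℝ≥0∞) :=
    fun x hx => dimH_solutions_local hU hh hL hx.1 hx.2
  choose! V hV hdim using hloc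
  obtain ⟨t, hts, htc, hcov⟩ := TopologicalSpace.countable_cover_nhdsWithin (f := V) (s := s)
    fun x hx => mem_nhdsWithin_of_mem_nhds (hV x hx)
  have hsub : {a : A | ∃ x ∈ U, Function.Surjective (L x) ∧ h x + L x a = 0} ⊆
      ⋃ x ∈ t, {a : A | ∃ z ∈ V x, h z + L z a = 0} := by
    rintro a ⟨x, hxU, hxs, hxa⟩
    obtain ⟨i, hit, hxi⟩ := mem_iUnion₂.1 (hcov ⟨hxU, hxs⟩)
    exact mem_iUnion₂.2 ⟨i, hit, x, hxi, hxa⟩
  refine (dimH_mono hsub).trans ?_
  rw [dimH_bUnion htc]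
  exact iSup₂_le fun i hi => hdim i (hts hi)

/-- The dimension lemma, in the form used for genericity. -/
theorem dimH_solutions_le {U : Set E} (hU : IsOpen U) {h : E → Y} {L : E → A →L[ℝ] Y}
    (hh : ContDiffOn ℝ 1 h U) (hL : ContDiffOn ℝ 1 L U) (hdim : finrank ℝ E < finrank ℝ Y) :
    dimH {a : A | ∃ x ∈ U, Function.Surjective (L x) ∧ h x + L x a = 0} ≤
      ((finrank ℝ A - 1 : ℕ) : ℝ≥0∞) := by
  refine (dimH_solutions hU hh hL).trans ?_
  norm_cast
  omega

/-- Countably many sets of small dimension do not cover anything open. -/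
theorem dense_compl_iUnion {ι : Type*} [Countable ι] (hA : 0 < finrank ℝ A) {S : ι → Set A}
    (hS : ∀ i, dimH (S i) ≤ ((finrank ℝ A - 1 : ℕ) : ℝ≥0∞)) : Dense (⋃ i, S i)ᶜ := by
  refine dense_compl_of_dimH_lt_finrank ?_
  rw [dimH_iUnion]
  refine lt_of_le_of_lt (iSup_le hS) ?_
  norm_cast
  omega

end Pool.Agent.MP_f1864b_gt
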