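import Mathlib
import Pool.Agent.Lib.MP_f1864b_gt.Dim

/-!
# Regularity of the zeros for generic parameters (Euclidean form)

A jet is a quadruple `(θ, θ', η, η')`: the value and the derivative at a point of two families of
1-forms (`θ : Λ₁ → E^*` is linear: the linear combinations of the forms of the first family, with
coefficients in `Λ₁`). For a family of jets, affine in a parameter `a ∈ A`, such that all jets can
be prescribed at every point of `U`, the zeros of `(u, l, m) ↦ (θ u l, η u m)` with `l, m ≠ 0` are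
regular for all parameters outside a set of small Hausdorff dimension.
-/

set_option maxSynthPendingDepth 3
set_option linter.unusedSectionVars false

namespace Pool.Agent.MP_f1864b_gt

open Set Filter Topology Module
open scoped ENNReal ContDiff

variable {A E Λ₁ Λ₂ : Type*} [NormedAddCommGroup A] [NormedSpace ℝ A] [FiniteDimensional ℝ A]
  [NormedAddCommGroup E] [NormedSpace ℝ E] [FiniteDimensional ℝ E]
  [NormedAddCommGroup Λ₁] [NormedSpace ℝ Λ₁] [FiniteDimensional ℝ Λ₁]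
  [NormedAddCommGroup Λ₂] [NormedSpace ℝ Λ₂] [FiniteDimensional ℝ Λ₂]

/-- 1-jets of a pair of families of 1-forms. -/
abbrev Jet (E Λ₁ Λ₂ : Type*) [NormedAddCommGroup E] [NormedSpace ℝ E]
    [NormedAddCommGroup Λ₁] [NormedSpace ℝ Λ₁] [NormedAddCommGroup Λ₂] [NormedSpace ℝ Λ₂] :=
  (Λ₁ →L[ℝ] E →L[ℝ] ℝ) × (E →L[ℝ] Λ₁ →L[ℝ] E →L[ℝ] ℝ) ×
    (Λ₂ →L[ℝ] E →L[ℝ] ℝ) × (E →L[ℝ] Λ₂ →L[ℝ] E →L[ℝ] ℝ)

/-- The pair `(x, y)` of vectors annihilates the derivative at `(u, l, m)` of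
`(u, l, m) ↦ (θ u l, η u m)`. -/
def Annih (j : Jet E Λ₁ Λ₂) (l : Λ₁) (m : Λ₂) (x y : E) : Prop :=
  (∀ l', j.1 l' x = 0) ∧ (∀ m', j.2.2.1 m' y = 0) ∧ ∀ ξ, j.2.1 ξ l x + j.2.2.2 ξ m y = 0

/-- The jet has a zero at `(l, m)` which is not regular. -/
def BadJet (j : Jet E Λ₁ Λ₂) : Prop :=
  ∃ l ≠ 0, ∃ m ≠ 0, j.1 l = 0 ∧ j.2.2.1 m = 0 ∧ ∃ x y : E, ¬ (x = 0 ∧ y = 0) ∧ Annih j l m x y

/-- Application of the dimension lemma to a family of jets. -/
theorem dimH_stratum {J X Y : Type*} [NormedAddCommGroup J] [NormedSpace ℝ J]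
    [NormedAddCommGroup X] [NormedSpace ℝ X] [FiniteDimensional ℝ X]
    [NormedAddCommGroup Y] [NormedSpace ℝ Y] [FiniteDimensional ℝ Y]
    {U : Set E} {j₀ : E → J} {j₁ : E → A →L[ℝ] J} (h0 : ContDiffOn ℝ 1 j₀ U)
    (h1 : ContDiffOn ℝ 1 j₁ U) (hs : ∀ u ∈ U, Function.Surjective (j₁ u))
    {V : Set X} (hV : IsOpen V) {up : X → E} (hup : ContDiff ℝ 1 up) (hUV : MapsTo up V U)
    {Φ : X → J →L[ℝ] Y} (hΦ : ContDiff ℝ 1 Φ) (hΦs : ∀ x ∈ V, Function.Surjective (Φ x))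
    (hdim : finrank ℝ X < finrank ℝ Y) :
    dimH {a : A | ∃ x ∈ V, Φ x (j₀ (up x) + j₁ (up x) a) = 0} ≤
      ((finrank ℝ A - 1 : ℕ) : ℝ≥0∞) := by
  have e0 : ContDiffOn ℝ 1 (fun x => Φ x (j₀ (up x))) V :=
    hΦ.contDiffOn.clm_apply (h0.comp hup.contDiffOn hUV)
  have e1 : ContDiffOn ℝ 1 (fun x => (Φ x).comp (j₁ (up x))) V :=
    hΦ.contDiffOn.clm_comp (h1.comp hup.contDiffOn hUV)
  refine (dimH_mono ?_).trans (dimH_solutions_le hV e0 e1 hdim)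
  rintro a ⟨x, hx, ha⟩
  refine ⟨x, hx, ?_, ?_⟩
  · intro y
    obtain ⟨j, hj⟩ := hΦs x hx y
    obtain ⟨b, hb⟩ := hs (up x) (hUV hx) j
    exact ⟨b, by simp [hb, hj]⟩
  · rw [map_add] at ha
    exact ha

/-- The linear conditions on a jet at `(l, m)` with annihilator `(x, y)`. -/
noncomputable def condFull (K₁ : Submodule ℝ Λ₁) (K₂ : Submodule ℝ Λ₂) (l : Λ₁) (m : Λ₂) (x y : E) :
    Jet E Λ₁ Λ₂ →L[ℝ] (E →L[ℝ] ℝ) × (E →L[ℝ] ℝ) × (K₁ →L[ℝ] ℝ) × (K₂ →L[ℝ] ℝ) × (E →L[ℝ] ℝ) :=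
  LinearMap.toContinuousLinearMap
    { toFun := fun j => (j.1 l, j.2.2.1 m, (j.1.flip x).comp K₁.subtypeL,
        (j.2.2.1.flip y).comp K₂.subtypeL, (j.2.1.flip l).flip x + (j.2.2.2.flip m).flip y)
      map_add' := by
        intro j j'
        refine Prod.ext rfl (Prod.ext rfl (Prod.ext ?_ (Prod.ext ?_ ?_)))
        · ext v; simp
        · ext v; simp
        · ext v; simp; ring
      map_smul' := by
        intro c j
        refine Prod.ext rfl (Prod.ext rfl (Prod.ext ?_ (Prod.ext ?_ ?_)))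
        · ext v; simp
        · ext v; simp
        · ext v; simp }

/-- The conditions with annihilator `(x, 0)`. -/
noncomputable def condLeft (K₁ : Submodule ℝ Λ₁) (l : Λ₁) (m : Λ₂) (x : E) :
    Jet E Λ₁ Λ₂ →L[ℝ] (E →L[ℝ] ℝ) × (E →L[ℝ] ℝ) × (K₁ →L[ℝ] ℝ) × (E →L[ℝ] ℝ) :=
  LinearMap.toContinuousLinearMap
    { toFun := fun j => (j.1 l, j.2.2.1 m, (j.1.flip x).comp K₁.subtypeL, (j.2.1.flip l).flip x)
      map_add' := by
        intro j j'
        refine Prod.ext rfl (Prod.ext rfl (Prod.ext ?_ ?_))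
        · ext v; simp
        · ext v; simp
      map_smul' := by
        intro c j
        refine Prod.ext rfl (Prod.ext rfl (Prod.ext ?_ ?_))
        · ext v; simp
        · ext v; simp }

/-- The conditions with annihilator `(0, y)`. -/
noncomputable def condRight (K₂ : Submodule ℝ Λ₂) (l : Λ₁) (m : Λ₂) (y : E) :
    Jet E Λ₁ Λ₂ →L[ℝ] (E →L[ℝ] ℝ) × (E →L[ℝ] ℝ) × (K₂ →L[ℝ] ℝ) × (E →L[ℝ] ℝ) :=
  LinearMap.toContinuousLinearMap
    { toFun := fun j => (j.1 l, j.2.2.1 m, (j.2.2.1.flip y).comp K₂.subtypeL,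
        (j.2.2.2.flip m).flip y)
      map_add' := by
        intro j j'
        refine Prod.ext rfl (Prod.ext rfl (Prod.ext ?_ ?_))
        · ext v; simp
        · ext v; simp
      map_smul' := by
        intro c j
        refine Prod.ext rfl (Prod.ext rfl (Prod.ext ?_ ?_))
        · ext v; simp
        · ext v; simp }

lemma condFull_apply (K₁ : Submodule ℝ Λ₁) (K₂ : Submodule ℝ Λ₂) (l : Λ₁) (m : Λ₂) (x y : E)
    (j : Jet E Λ₁ Λ₂) : condFull K₁ K₂ l m x y j = (j.1 l, j.2.2.1 m,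
      (j.1.flip x).comp K₁.subtypeL, (j.2.2.1.flip y).comp K₂.subtypeL,
      (j.2.1.flip l).flip x + (j.2.2.2.flip m).flip y) := rfl

lemma condLeft_apply (K₁ : Submodule ℝ Λ₁) (l : Λ₁) (m : Λ₂) (x : E) (j : Jet E Λ₁ Λ₂) :
    condLeft K₁ l m x j = (j.1 l, j.2.2.1 m, (j.1.flip x).comp K₁.subtypeL,
      (j.2.1.flip l).flip x) := rfl

lemma condRight_apply (K₂ : Submodule ℝ Λ₂) (l : Λ₁) (m : Λ₂) (y : E) (j : Jet E Λ₁ Λ₂) :
    condRight K₂ l m y j = (j.1 l, j.2.2.1 m, (j.2.2.1.flip y).comp K₂.subtypeL,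
      (j.2.2.2.flip m).flip y) := rfl

/-- Prescribing one value and one coordinate of the other values. -/
lemma exists_prescribed {Λ : Type*} [NormedAddCommGroup Λ] [NormedSpace ℝ Λ] (p : Λ →L[ℝ] ℝ)
    {l : Λ} (hl : p l = 1) {r : E →L[ℝ] ℝ} {x : E} (hx : r x = 1) (y₁ : E →L[ℝ] ℝ)
    (y₂ : LinearMap.ker p.toLinearMap →L[ℝ] ℝ) :
    ∃ θ : Λ →L[ℝ] E →L[ℝ] ℝ, θ l = y₁ ∧
      (θ.flip x).comp (LinearMap.ker p.toLinearMap).subtypeL = y₂ := by
  have hmem : ∀ v : Λ, (ContinuousLinearMap.id ℝ Λ - p.smulRight l) v ∈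
      LinearMap.ker p.toLinearMap := by
    intro v
    rw [LinearMap.mem_ker]
    simp [hl]
  set P : Λ →L[ℝ] LinearMap.ker p.toLinearMap :=
    (ContinuousLinearMap.id ℝ Λ - p.smulRight l).codRestrict _ hmem with hP
  refine ⟨p.smulRight y₁ + (y₂.comp P).smulRight r, ?_, ?_⟩
  · have h1 : P l = 0 := by
      apply Subtype.ext
      simp [hP, hl]
    simp [hl, h1]
  · ext v
    have hv : p v = 0 := v.2
    have h1 : P v = v := by
      apply Subtype.ext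
      simp [hP, hv]
    simp [hv, h1, hx]

lemma condFull_surjective (p : Λ₁ →L[ℝ] ℝ) (q : Λ₂ →L[ℝ] ℝ) (r : E →L[ℝ] ℝ) {l : Λ₁} {m : Λ₂}
    {x y : E} (hl : p l = 1) (hm : q m = 1) (hx : r x = 1) (hy : y ≠ 0) :
    Function.Surjective (condFull (LinearMap.ker p.toLinearMap) (LinearMap.ker q.toLinearMap)
      l m x y) := by
  rintro ⟨y₁, y₂, y₃, y₄, y₅⟩
  obtain ⟨s, hs⟩ := SeparatingDual.exists_eq_one (R := ℝ) hy
  obtain ⟨θ, h1, h2⟩ := exists_prescribed p hl hx y₁ y₃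
  obtain ⟨η, h3, h4⟩ := exists_prescribed q hm hs y₂ y₄
  refine ⟨(θ, y₅.smulRight (p.smulRight r), η, 0), ?_⟩
  rw [condFull_apply]
  refine Prod.ext h1 (Prod.ext h3 (Prod.ext h2 (Prod.ext h4 ?_)))
  ext v
  simp [hl, hx]

lemma condLeft_surjective (p : Λ₁ →L[ℝ] ℝ) (q : Λ₂ →L[ℝ] ℝ) (r : E →L[ℝ] ℝ) {l : Λ₁} {m : Λ₂}
    {x : E} (hl : p l = 1) (hm : q m = 1) (hx : r x = 1) :
    Function.Surjective (condLeft (Λ₂ := Λ₂) (LinearMap.ker p.toLinearMap) l m x) := by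
  rintro ⟨y₁, y₂, y₃, y₅⟩
  obtain ⟨θ, h1, h2⟩ := exists_prescribed p hl hx y₁ y₃
  refine ⟨(θ, y₅.smulRight (p.smulRight r), q.smulRight y₂, 0), ?_⟩
  rw [condLeft_apply]
  refine Prod.ext h1 (Prod.ext ?_ (Prod.ext h2 ?_))
  · simp [hm]
  · ext v
    simp [hl, hx]

lemma condRight_surjective (p : Λ₁ →L[ℝ] ℝ) (q : Λ₂ →L[ℝ] ℝ) (r : E →L[ℝ] ℝ) {l : Λ₁} {m : Λ₂}
    {y : E} (hl : p l = 1) (hm : q m = 1) (hy : r y = 1) :
    Function.Surjective (condRight (Λ₁ := Λ₁) (LinearMap.ker q.toLinearMap) l m y) := by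
  rintro ⟨y₁, y₂, y₃, y₅⟩
  obtain ⟨η, h1, h2⟩ := exists_prescribed q hm hy y₂ y₃
  refine ⟨(p.smulRight y₁, 0, η, y₅.smulRight (q.smulRight r)), ?_⟩
  rw [condRight_apply]
  refine Prod.ext ?_ (Prod.ext h1 (Prod.ext h2 ?_))
  · simp [hl]
  · ext v
    simp [hm, hy]

lemma contDiff_condFull {X : Type*} [NormedAddCommGroup X] [NormedSpace ℝ X]
    (K₁ : Submodule ℝ Λ₁) (K₂ : Submodule ℝ Λ₂) {l : X → Λ₁} {m : X → Λ₂} {x y : X → E}
    (hl : ContDiff ℝ 1 l) (hm : ContDiff ℝ 1 m) (hx : ContDiff ℝ 1 x) (hy : ContDiff ℝ 1 y) :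
    ContDiff ℝ 1 (fun v => condFull K₁ K₂ (l v) (m v) (x v) (y v)) := by
  rw [contDiff_clm_apply_iff]
  intro j
  simp only [condFull_apply]
  refine (j.1.contDiff.comp hl).prodMk ((j.2.2.1.contDiff.comp hm).prodMk
    (ContDiff.prodMk ?_ (ContDiff.prodMk ?_ ?_)))
  · rw [contDiff_clm_apply_iff]
    intro k
    exact (j.1 k).contDiff.comp hx
  · rw [contDiff_clm_apply_iff]
    intro k
    exact (j.2.2.1 k).contDiff.comp hy
  · rw [contDiff_clm_apply_iff]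
    intro ξ
    exact (((j.2.1 ξ).contDiff.comp hl).clm_apply hx).add
      (((j.2.2.2 ξ).contDiff.comp hm).clm_apply hy)

lemma contDiff_condLeft {X : Type*} [NormedAddCommGroup X] [NormedSpace ℝ X]
    (K₁ : Submodule ℝ Λ₁) {l : X → Λ₁} {m : X → Λ₂} {x : X → E}
    (hl : ContDiff ℝ 1 l) (hm : ContDiff ℝ 1 m) (hx : ContDiff ℝ 1 x) :
    ContDiff ℝ 1 (fun v => condLeft K₁ (l v) (m v) (x v)) := by
  rw [contDiff_clm_apply_iff]
  intro j
  simp only [condLeft_apply]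
  refine (j.1.contDiff.comp hl).prodMk ((j.2.2.1.contDiff.comp hm).prodMk
    (ContDiff.prodMk ?_ ?_))
  · rw [contDiff_clm_apply_iff]
    intro k
    exact (j.1 k).contDiff.comp hx
  · rw [contDiff_clm_apply_iff]
    intro ξ
    exact ((j.2.1 ξ).contDiff.comp hl).clm_apply hx

lemma contDiff_condRight {X : Type*} [NormedAddCommGroup X] [NormedSpace ℝ X]
    (K₂ : Submodule ℝ Λ₂) {l : X → Λ₁} {m : X → Λ₂} {y : X → E}
    (hl : ContDiff ℝ 1 l) (hm : ContDiff ℝ 1 m) (hy : ContDiff ℝ 1 y) :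
    ContDiff ℝ 1 (fun v => condRight K₂ (l v) (m v) (y v)) := by
  rw [contDiff_clm_apply_iff]
  intro j
  simp only [condRight_apply]
  refine (j.1.contDiff.comp hl).prodMk ((j.2.2.1.contDiff.comp hm).prodMk
    (ContDiff.prodMk ?_ ?_))
  · rw [contDiff_clm_apply_iff]
    intro k
    exact (j.2.2.1 k).contDiff.comp hy
  · rw [contDiff_clm_apply_iff]
    intro ξ
    exact ((j.2.2.2 ξ).contDiff.comp hm).clm_apply hy

lemma finrank_clm (K : Type*) [NormedAddCommGroup K] [NormedSpace ℝ K] [FiniteDimensional ℝ K] :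
    finrank ℝ (K →L[ℝ] ℝ) = finrank ℝ K := by
  rw [← (LinearMap.toContinuousLinearMap (𝕜 := ℝ) (E := K) (F' := ℝ)).finrank_eq]
  exact Subspace.dual_finrank_eq

lemma finrank_ker_eq {Λ : Type*} [NormedAddCommGroup Λ] [NormedSpace ℝ Λ] [FiniteDimensional ℝ Λ]
    {p : Λ →L[ℝ] ℝ} {l : Λ} (hl : p l = 1) :
    finrank ℝ (LinearMap.ker p.toLinearMap) + 1 = finrank ℝ Λ := by
  have h := LinearMap.finrank_range_add_finrank_ker p.toLinearMap
  have h1 : LinearMap.range p.toLinearMap = ⊤ := by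
    rw [LinearMap.range_eq_top]
    intro c
    exact ⟨c • l, by simp [hl]⟩
  rw [h1, finrank_top, finrank_self] at h
  omega

end Pool.Agent.MP_f1864b_gt
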