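import Pool.Agent.Lib.MP_f1864b_gt.C.Defs
import Pool.Agent.Lib.MP_f1864b_gt.C3F
import Pool.Agent.Lib.MP_f1864b_gt.WReg

set_option autoImplicit false
set_option maxSynthPendingDepth 3

/-!
# MP_f1864b_gt, C3: the counts over the fixed points of dimension one and two
-/

namespace Pool.Agent.MP_f1864b_gt

open Set Filter Topology Function Module Pool.Agent.Dold
open scoped ContDiff ENNReal

section Equiv

variable {E V : Type*} [NormedAddCommGroup E] [NormedSpace ℝ E]
  [NormedAddCommGroup V] [NormedSpace ℝ V]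

theorem s_comp_fderiv {G : E → V} {y : E} (hG : DifferentiableAt ℝ G y) {s : V →L[ℝ] V}
    {L : E →L[ℝ] E} (hL : ∀ᶠ y' in 𝓝 y, s (G y') = G (L y')) (hLy : L y = y) :
    s.comp (fderiv ℝ G y) = (fderiv ℝ G y).comp L := by
  have e1 : HasFDerivAt (fun y' => s (G y')) (s.comp (fderiv ℝ G y)) y :=
    s.hasFDerivAt.comp y hG.hasFDerivAt
  have e2 : HasFDerivAt (fun y' => G (L y')) ((fderiv ℝ G y).comp L) y := by
    have h : HasFDerivAt G (fderiv ℝ G y) (L y) := by rw [hLy]; exact hG.hasFDerivAt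
    exact h.comp y L.hasFDerivAt
  exact e1.unique (e2.congr_of_eventuallyEq hL)

variable [FiniteDimensional ℝ V]

/-- the (anti)symmetry of the forms at a fixed point -/
theorem formL_comp {G : E → V} {y : E} (hG : DifferentiableAt ℝ G y) {s : V →L[ℝ] V}
    {L : E →L[ℝ] E} (hL : ∀ᶠ y' in 𝓝 y, s (G y') = G (L y')) (hLy : L y = y)
    (hLL : ∀ y, L (L y) = y) {ε : ℝ} (hε : ε * ε = 1) (T : Cub V) (v : E) :
    formL ε s G y T (L v) = ε * formL ε s G y T v := by
  have h1 := s_comp_fderiv hG hL hLy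
  have h2 : ∀ w, s (fderiv ℝ G y w) = fderiv ℝ G y (L w) := fun w =>
    congrArg (fun F : E →L[ℝ] V => F w) h1
  have h3 : s (G y) = G y := by
    have := hL.self_of_nhds
    rwa [hLy] at this
  rw [formL_apply, symL_apply, h3]
  simp only [ContinuousLinearMap.comp_apply, _root_.add_apply, _root_.smul_apply, smul_eq_mul, h2,
    hLL]
  linear_combination (- (cubL (G y) T) (fderiv ℝ G y (L v))) * hε

end Equiv

section Split

variable {E : Type*} [NormedAddCommGroup E] [NormedSpace ℝ E] [FiniteDimensional ℝ E]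

/-- the fixed vectors of `L` -/
def fixS (L : E →L[ℝ] E) : Submodule ℝ E := LinearMap.ker ((L : E →ₗ[ℝ] E) - LinearMap.id)

/-- the vectors with `L v = -v` -/
def antS (L : E →L[ℝ] E) : Submodule ℝ E := LinearMap.ker ((L : E →ₗ[ℝ] E) + LinearMap.id)

omit [FiniteDimensional ℝ E] in
theorem mem_fixS {L : E →L[ℝ] E} {v : E} : v ∈ fixS L ↔ L v = v := by
  unfold fixS
  rw [LinearMap.mem_ker]
  simp [sub_eq_zero]

omit [FiniteDimensional ℝ E] in
theorem mem_antS {L : E →L[ℝ] E} {v : E} : v ∈ antS L ↔ L v = -v := by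
  unfold antS
  rw [LinearMap.mem_ker]
  simp [add_eq_zero_iff_eq_neg]

omit [FiniteDimensional ℝ E] in
theorem isCompl_fixS {L : E →L[ℝ] E} (hLL : ∀ y, L (L y) = y) : IsCompl (fixS L) (antS L) := by
  constructor
  · rw [Submodule.disjoint_def]
    intro v h1 h2
    rw [mem_fixS] at h1
    rw [mem_antS, h1] at h2
    have h3 : (2 : ℝ) • v = 0 := by
      rw [two_smul]
      nth_rewrite 1 [h2]
      exact neg_add_cancel v
    exact (smul_eq_zero.1 h3).resolve_left two_ne_zero
  · rw [codisjoint_iff, eq_top_iff]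
    intro v _
    rw [Submodule.mem_sup]
    refine ⟨(1 / 2 : ℝ) • (v + L v), ?_, (1 / 2 : ℝ) • (v - L v), ?_, ?_⟩
    · rw [mem_fixS, map_smul, map_add, hLL, add_comm]
    · rw [mem_antS, map_smul, map_sub, hLL, ← smul_neg, neg_sub]
    · rw [← smul_add]
      have : v + L v + (v - L v) = (2 : ℝ) • v := by rw [two_smul]; abel
      rw [this, smul_smul]
      norm_num

/-- the projection to the fixed vectors -/
noncomputable def prF (L : E →L[ℝ] E) : E →L[ℝ] E :=
  (1 / 2 : ℝ) • (ContinuousLinearMap.id ℝ E + L)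

/-- the projection to the antifixed vectors -/
noncomputable def prA (L : E →L[ℝ] E) : E →L[ℝ] E :=
  (1 / 2 : ℝ) • (ContinuousLinearMap.id ℝ E - L)

omit [FiniteDimensional ℝ E] in
theorem prF_mem {L : E →L[ℝ] E} (hLL : ∀ y, L (L y) = y) (v : E) : prF L v ∈ fixS L := by
  rw [mem_fixS]
  simp [prF, hLL, add_comm]

omit [FiniteDimensional ℝ E] in
theorem prA_mem {L : E →L[ℝ] E} (hLL : ∀ y, L (L y) = y) (v : E) : prA L v ∈ antS L := by
  rw [mem_antS]
  simp [prA, hLL, smul_sub]

/-- extension of a functional on the fixed vectors -/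
noncomputable def extF (L : E →L[ℝ] E) (hLL : ∀ y, L (L y) = y) (f : fixS L →L[ℝ] ℝ) : E →L[ℝ] ℝ :=
  f.comp ((prF L).codRestrict (fixS L) (prF_mem hLL))

/-- extension of a functional on the antifixed vectors -/
noncomputable def extA (L : E →L[ℝ] E) (hLL : ∀ y, L (L y) = y) (f : antS L →L[ℝ] ℝ) : E →L[ℝ] ℝ :=
  f.comp ((prA L).codRestrict (antS L) (prA_mem hLL))

omit [FiniteDimensional ℝ E] in
theorem extF_comp {L : E →L[ℝ] E} (hLL : ∀ y, L (L y) = y) (f : fixS L →L[ℝ] ℝ) :
    (1 : ℝ) • (extF L hLL f).comp L = extF L hLL f := by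
  ext v
  have : prF L (L v) = prF L v := by simp [prF, hLL, add_comm]
  simp only [one_smul, extF, ContinuousLinearMap.comp_apply]
  congr 1
  exact Subtype.ext this

omit [FiniteDimensional ℝ E] in
theorem extA_comp {L : E →L[ℝ] E} (hLL : ∀ y, L (L y) = y) (f : antS L →L[ℝ] ℝ) :
    (-1 : ℝ) • (extA L hLL f).comp L = extA L hLL f := by
  ext v
  have h1 : prA L (L v) = - prA L v := by simp [prA, hLL, smul_sub]
  simp only [extA, ContinuousLinearMap.comp_apply, _root_.smul_apply, smul_eq_mul, neg_one_mul]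
  rw [neg_eq_iff_eq_neg, ← map_neg]
  congr 1
  exact Subtype.ext h1

omit [FiniteDimensional ℝ E] in
theorem extF_restrict {L : E →L[ℝ] E} (hLL : ∀ y, L (L y) = y) (f : fixS L →L[ℝ] ℝ) :
    (extF L hLL f).comp (fixS L).subtypeL = f := by
  ext v
  have hv : L v = v := mem_fixS.1 v.2
  have : prF L v = v := by
    simp only [prF, _root_.smul_apply, _root_.add_apply, ContinuousLinearMap.coe_id', id_eq, hv]
    rw [← two_smul ℝ (v : E), smul_smul]
    norm_num
  simp only [extF, ContinuousLinearMap.comp_apply]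
  congr 1
  exact Subtype.ext this

omit [FiniteDimensional ℝ E] in
theorem extA_restrict {L : E →L[ℝ] E} (hLL : ∀ y, L (L y) = y) (f : antS L →L[ℝ] ℝ) :
    (extA L hLL f).comp (antS L).subtypeL = f := by
  ext v
  have hv : L v = -v := mem_antS.1 v.2
  have : prA L v = v := by
    simp only [prA, _root_.smul_apply, _root_.sub_apply, ContinuousLinearMap.coe_id', id_eq, hv,
      sub_neg_eq_add]
    rw [← two_smul ℝ (v : E), smul_smul]
    norm_num
  simp only [extA, ContinuousLinearMap.comp_apply]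
  congr 1
  exact Subtype.ext this

end Split

section Counts

variable {V : Type*} [NormedAddCommGroup V] [NormedSpace ℝ V] [FiniteDimensional ℝ V]

/-- restriction of functionals to a subspace -/
noncomputable def restr {E : Type*} [NormedAddCommGroup E] [NormedSpace ℝ E] (S : Submodule ℝ E) :
    (E →L[ℝ] ℝ) →L[ℝ] (S →L[ℝ] ℝ) :=
  (ContinuousLinearMap.compL ℝ S E ℝ).flip S.subtypeL

@[simp] theorem restr_apply {E : Type*} [NormedAddCommGroup E] [NormedSpace ℝ E]
    (S : Submodule ℝ E) (f : E →L[ℝ] ℝ) (v : S) : restr S f v = f v := rfl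

/-- Fixed components of dimension 1 and 2: no zeros. -/
theorem dimH_fixed {O : Set R5} (hO : IsOpen O) {G : R5 → V} (hG : ContDiffOn ℝ ∞ G O)
    (hinj : ∀ y ∈ O, Function.Injective (fderiv ℝ G y)) {s : V →L[ℝ] V} {L : R5 →L[ℝ] R5}
    (hLL : ∀ y, L (L y) = y) (hL : ∀ y ∈ O, L y ∈ O ∧ s (G y) = G (L y))
    (hL1 : L ≠ -ContinuousLinearMap.id ℝ R5)
    (hL2 : ∀ S : Submodule ℝ R5, (∀ v ∈ S, L v = v) → finrank ℝ S ≤ 2) :
    dimH {a : PP V | ∃ y ∈ O, L y = y ∧ ∃ (l : Fin 4 → ℝ) (m : Fin 3 → ℝ), l ≠ 0 ∧ m ≠ 0 ∧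
      ∑ i, l i • formL (sgA i) s G y (a.1 i) = 0 ∧ ∑ j, m j • formL (sgB j) s G y (a.2 j) = 0} ≤
      ((finrank ℝ (PP V) - 1 : ℕ) : ENNReal) := by
  set K := fixS L with hK
  set U : Set K := {y | (y : R5) ∈ O} with hU
  have hUo : IsOpen U := hO.preimage continuous_subtype_val
  set P : K → Cub V →L[ℝ] (K →L[ℝ] ℝ) := fun y => (restr K).comp (formL 1 s G (y : R5)) with hP
  set N : K → Cub V →L[ℝ] (antS L →L[ℝ] ℝ) := fun y =>
    (restr (antS L)).comp (formL (-1) s G (y : R5)) with hN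
  have hev : ∀ y ∈ O, ∀ᶠ y' in 𝓝 y, s (G y') = G (L y') := fun y hy => by
    filter_upwards [hO.mem_nhds hy] with y' hy' using (hL y' hy').2
  have hd : ∀ y ∈ O, DifferentiableAt ℝ G y := fun y hy =>
    (hG.contDiffAt (hO.mem_nhds hy)).differentiableAt (by simp)
  have hform : ∀ ε : ℝ, ContDiffOn ℝ 1 (fun y : K => formL ε s G (y : R5)) U := fun ε =>
    ((contDiffOn_formL ε s hO hG).of_le (by simp)).comp K.subtypeL.contDiff.contDiffOn
      fun y hy => hy
  have hPd : ContDiffOn ℝ 1 P U := contDiffOn_const.clm_comp (hform 1)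
  have hNd : ContDiffOn ℝ 1 N U := contDiffOn_const.clm_comp (hform (-1))
  have hPs : ∀ y ∈ U, Surjective (P y) := by
    intro y hy f
    obtain ⟨T, hT, -⟩ := jets_fixed hO hG hy (hinj _ hy) 1 s L (hev _ hy) (mem_fixS.1 y.2)
      (extF L hLL f) 0 (extF_comp hLL f) (by intro ξ; simp)
    refine ⟨T, ?_⟩
    change restr K (formL 1 s G y T) = f
    rw [hT]
    exact extF_restrict hLL f
  have hNs : ∀ y ∈ U, Surjective (N y) := by
    intro y hy f
    obtain ⟨T, hT, -⟩ := jets_fixed hO hG hy (hinj _ hy) (-1) s L (hev _ hy) (mem_fixS.1 y.2)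
      (extA L hLL f) 0 (extA_comp hLL f) (by intro ξ; simp)
    refine ⟨T, ?_⟩
    change restr (antS L) (formL (-1) s G y T) = f
    rw [hT]
    exact extA_restrict hLL f
  have hK2 : finrank ℝ K ≤ 2 := hL2 K fun v hv => mem_fixS.1 hv
  have hK0 : 0 < finrank ℝ K := by
    obtain ⟨v, hv⟩ : ∃ v, L v ≠ -v := by
      by_contra h
      push Not at h
      exact hL1 (ContinuousLinearMap.ext fun v => h v)
    rw [finrank_pos_iff_exists_ne_zero]
    refine ⟨⟨v + L v, ?_⟩, ?_⟩
    · rw [hK, mem_fixS, map_add, hLL, add_comm]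
    · intro h
      have h1 : v + L v = 0 := congrArg Subtype.val h
      exact hv (eq_neg_of_add_eq_zero_right h1)
  have hZ : finrank ℝ (antS L →L[ℝ] ℝ) + finrank ℝ K = 5 := by
    rw [finrank_clm, add_comm, Submodule.finrank_add_eq_of_isCompl (isCompl_fixS hLL)]
    simp
  refine (dimH_mono ?_).trans
    (dimH_fixed_abs hUo hPd hNd hPs hNs hK0 hK2 (finrank_clm K) hZ)
  rintro a ⟨y, hy, hyL, l, m, hl, hm, h1, h2⟩
  have hc : ∀ {ε : ℝ}, ε * ε = 1 → ∀ (T : Cub V) (v : R5), formL ε s G y T (L v) =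
      ε * formL ε s G y T v := fun hε T v => formL_comp (hd y hy) (hev y hy) hyL hLL hε T v
  have hzA : ∀ (T : Cub V) (v : R5), L v = v → formL (-1) s G y T v = 0 := by
    intro T v hv
    have := hc (ε := -1) (by norm_num) T v
    rw [hv] at this
    linarith
  have hzF : ∀ (T : Cub V) (v : R5), L v = -v → formL 1 s G y T v = 0 := by
    intro T v hv
    have := hc (ε := 1) (by norm_num) T v
    rw [hv, map_neg] at this
    linarith
  refine ⟨⟨y, mem_fixS.2 hyL⟩, hy, l, m, hl, hm, ?_, ?_, ?_, ?_⟩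
  · ext v
    have := congrArg (fun F : R5 →L[ℝ] ℝ => F v) h1
    have hv : L v = v := mem_fixS.1 v.2
    simp only [Fin.sum_univ_four, sgA] at this
    simp only [hP]
    simp [hzA _ _ hv] at this ⊢
    exact this
  · ext v
    have := congrArg (fun F : R5 →L[ℝ] ℝ => F v) h1
    have hv : L v = -v := mem_antS.1 v.2
    simp only [Fin.sum_univ_four, sgA] at this
    simp only [hN, Fin.sum_univ_three]
    simp [hzF _ _ hv] at this ⊢
    exact this
  · ext v
    have := congrArg (fun F : R5 →L[ℝ] ℝ => F v) h2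
    have hv : L v = v := mem_fixS.1 v.2
    simp only [Fin.sum_univ_three, sgB] at this
    simp only [hP]
    simp [hzA _ _ hv] at this ⊢
    exact this
  · ext v
    have := congrArg (fun F : R5 →L[ℝ] ℝ => F v) h2
    have hv : L v = -v := mem_antS.1 v.2
    simp only [Fin.sum_univ_three, sgB] at this
    simp only [hN, Fin.sum_univ_two]
    simp [hzF _ _ hv] at this ⊢
    exact this

end Counts

end Pool.Agent.MP_f1864b_gt
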