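import Pool.Agent.Lib.MP_f1864b_gt.WDefs

set_option autoImplicit false

/-!
# Calculus of 1-forms in charts
-/

namespace Pool.Agent.MP_f1864b_gt

open scoped Manifold ContDiff Topology Matrix
open Set Topology Module

section Form

variable {E : Type*} [NormedAddCommGroup E] [NormedSpace ℝ E]
  {H : Type*} [TopologicalSpace H] (I : ModelWithCorners ℝ E H)
  {X : Type*} [TopologicalSpace X] [ChartedSpace H X]
  {V : Type*} [NormedAddCommGroup V] [NormedSpace ℝ V]

omit [TopologicalSpace X] in
theorem comb_apply {p : ℕ} (v : Fin p → X → (V →L[ℝ] ℝ)) (l : Fin p → ℝ) (x : X) :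
    comb v l x = ∑ i, l i • v i x := rfl

theorem form_apply (e : X → V) (v : X → (V →L[ℝ] ℝ)) (x : X) (ξ : E) :
    form I e v x ξ = v x ((mfderiv I 𝓘(ℝ, V) e x : E →L[ℝ] V) ξ) := rfl

theorem locForm_apply (e : X → V) (v : X → (V →L[ℝ] ℝ)) (c : X) (u ξ : E) :
    locForm I e v c u ξ = v ((extChartAt I c).symm u)
      (fderivWithin ℝ (e ∘ (extChartAt I c).symm) (range I) u ξ) := rfl

theorem form_comb {p : ℕ} (e : X → V) (v : Fin p → X → (V →L[ℝ] ℝ)) (l : Fin p → ℝ) (x : X) :
    form I e (comb v l) x = ∑ i, l i • form I e (v i) x := by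
  ext ξ
  simp only [form_apply, comb_apply, _root_.sum_apply, _root_.smul_apply]

theorem locForm_comb {p : ℕ} (e : X → V) (v : Fin p → X → (V →L[ℝ] ℝ)) (l : Fin p → ℝ) (c : X)
    (u : E) : locForm I e (comb v l) c u = ∑ i, l i • locForm I e (v i) c u := by
  ext ξ
  simp only [locForm_apply, comb_apply, _root_.sum_apply, _root_.smul_apply]

omit [TopologicalSpace X] in
theorem comb_smul {p : ℕ} (v : Fin p → X → (V →L[ℝ] ℝ)) (s : ℝ) (l : Fin p → ℝ) (x : X) :
    comb v (s • l) x = s • comb v l x := by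
  simp [comb_apply, Finset.smul_sum, mul_smul]

omit [TopologicalSpace X] in
theorem comb_add {p : ℕ} (v : Fin p → X → (V →L[ℝ] ℝ)) (l l' : Fin p → ℝ) (x : X) :
    comb v (l + l') x = comb v l x + comb v l' x := by
  simp [comb_apply, add_smul, Finset.sum_add_distrib]

theorem continuous_comb {p : ℕ} {v : Fin p → X → (V →L[ℝ] ℝ)} (hv : ∀ i, Continuous (v i)) :
    Continuous fun z : X × (Fin p → ℝ) => comb v z.2 z.1 := by
  unfold comb
  refine continuous_finsetSum _ fun i _ => ?_
  exact ((continuous_apply i).comp continuous_snd).smul ((hv i).comp continuous_fst)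

theorem contMDiff_comb {p : ℕ} {n : WithTop ℕ∞} {v : Fin p → X → (V →L[ℝ] ℝ)}
    (hv : ∀ i, ContMDiff I 𝓘(ℝ, V →L[ℝ] ℝ) n (v i)) (l : Fin p → ℝ) :
    ContMDiff I 𝓘(ℝ, V →L[ℝ] ℝ) n (comb v l) := by
  have h : comb v l = fun x => ∑ i, (l i • ContinuousLinearMap.id ℝ (V →L[ℝ] ℝ)) (v i x) := by
    funext x
    simp [comb_apply]
  rw [h]
  refine contMDiff_finsetSum fun i _ => ?_
  exact (l i • ContinuousLinearMap.id ℝ (V →L[ℝ] ℝ)).contMDiff.comp (hv i)

variable [IsManifold I ∞ X]

theorem contDiffOn_comp_symm {F : Type*} [NormedAddCommGroup F] [NormedSpace ℝ F] {e : X → F}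
    (he : ContMDiff I 𝓘(ℝ, F) ∞ e) (c : X) :
    ContDiffOn ℝ ∞ (e ∘ (extChartAt I c).symm) (extChartAt I c).target := by
  rw [← contMDiffOn_iff_contDiffOn]
  exact he.comp_contMDiffOn (contMDiffOn_extChartAt_symm c)

theorem contDiffOn_locForm {e : X → V} (he : ContMDiff I 𝓘(ℝ, V) ∞ e) {v : X → (V →L[ℝ] ℝ)}
    (hv : ContMDiff I 𝓘(ℝ, V →L[ℝ] ℝ) ∞ v) (c : X) :
    ContDiffOn ℝ ∞ (locForm I e v c) (extChartAt I c).target := by
  have hu : UniqueDiffOn ℝ (extChartAt I c).target := uniqueDiffOn_extChartAt_target c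
  have h1 := contDiffOn_comp_symm I he c
  have h2 := contDiffOn_comp_symm I hv c
  have h3 : ContDiffOn ℝ ∞ (fderivWithin ℝ (e ∘ (extChartAt I c).symm) (extChartAt I c).target)
      (extChartAt I c).target := h1.fderivWithin hu (by simp)
  have h4 : ContDiffOn ℝ ∞ (fun u => ((v ∘ (extChartAt I c).symm) u).comp
      (fderivWithin ℝ (e ∘ (extChartAt I c).symm) (extChartAt I c).target u))
      (extChartAt I c).target := h2.clm_comp h3
  refine h4.congr fun u hu' => ?_
  unfold locForm
  congr 1
  refine fderivWithin_of_mem_nhdsWithin (extChartAt_target_mem_nhdsWithin_of_mem hu')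
    (I.uniqueDiffOn _ (extChartAt_target_subset_range c hu'))
    ((h1 u hu').differentiableWithinAt (by simp))

omit [IsManifold I ∞ X] in
theorem mfderiv_eq_fderivWithin {e : X → V} (x : X) (he : MDifferentiableAt I 𝓘(ℝ, V) e x) :
    (mfderiv I 𝓘(ℝ, V) e x : E →L[ℝ] V) =
      fderivWithin ℝ (e ∘ (extChartAt I x).symm) (range I) (extChartAt I x x) := by
  unfold mfderiv
  exact if_pos he

omit [IsManifold I ∞ X] in
theorem form_eq_locForm {e : X → V} (v : X → (V →L[ℝ] ℝ)) (x : X)
    (he : MDifferentiableAt I 𝓘(ℝ, V) e x) :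
    form I e v x = locForm I e v x (extChartAt I x x) := by
  ext ξ
  rw [form_apply, mfderiv_eq_fderivWithin I x he, locForm_apply,
    (extChartAt I x).left_inv (mem_extChartAt_source x)]
  rfl

theorem locForm_eq {e : X → V} (he : ContMDiff I 𝓘(ℝ, V) ∞ e) (v : X → (V →L[ℝ] ℝ)) (c x : X)
    (hx : x ∈ (chartAt H c).source) :
    locForm I e v c (extChartAt I c x) = (form I e v x).comp (tangentCoordChange I c x x) := by
  have hx' : x ∈ (extChartAt I c).source := by rwa [extChartAt_source]
  have hxx : x ∈ (extChartAt I x).source := mem_extChartAt_source x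
  have hr : extChartAt I x x ∈ range I :=
    extChartAt_target_subset_range x ((extChartAt I x).map_source hxx)
  have h0 : DifferentiableWithinAt ℝ (e ∘ (extChartAt I x).symm) (range I) (extChartAt I x x) :=
    ((contDiffOn_comp_symm I he x _ ((extChartAt I x).map_source hxx)).differentiableWithinAt
      (by simp)).mono_of_mem_nhdsWithin (extChartAt_target_mem_nhdsWithin x)
  have h1 := h0.hasFDerivWithinAt
  have h2 := hasFDerivWithinAt_tangentCoordChange (I := I) (x := c) (y := x) (z := x) ⟨hx', hxx⟩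
  have hcx : (extChartAt I x ∘ (extChartAt I c).symm) (extChartAt I c x) = extChartAt I x x := by
    rw [Function.comp_apply, (extChartAt I c).left_inv hx']
  have h3 : HasFDerivWithinAt ((e ∘ (extChartAt I x).symm) ∘
      (extChartAt I x ∘ (extChartAt I c).symm))
      ((fderivWithin ℝ (e ∘ (extChartAt I x).symm) (range I) (extChartAt I x x)).comp
        (tangentCoordChange I c x x)) (range I) (extChartAt I c x) := by
    refine HasFDerivWithinAt.comp (t := range I) _ ?_ h2 ?_
    · rw [hcx]
      exact h1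
    · intro u _
      exact ⟨_, rfl⟩
  have h4 : (e ∘ (extChartAt I c).symm) =ᶠ[𝓝[range I] (extChartAt I c x)]
      ((e ∘ (extChartAt I x).symm) ∘ (extChartAt I x ∘ (extChartAt I c).symm)) := by
    have h5 : ∀ᶠ u in 𝓝[range I] (extChartAt I c x),
        (extChartAt I c).symm u ∈ (extChartAt I x).source := by
      have h6 : ContinuousWithinAt (extChartAt I c).symm (range I) (extChartAt I c x) :=
        (continuousAt_extChartAt_symm' hx').continuousWithinAt
      refine h6 ?_
      rw [(extChartAt I c).left_inv hx']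
      exact extChartAt_source_mem_nhds x
    filter_upwards [h5] with u hu
    simp only [Function.comp_apply]
    rw [(extChartAt I x).left_inv hu]
  have h7 : extChartAt I c x ∈ range I :=
    extChartAt_target_subset_range c ((extChartAt I c).map_source hx')
  have h8 := (h3.congr_of_eventuallyEq h4 (h4.self_of_nhdsWithin h7)).fderivWithin
    (I.uniqueDiffOn _ h7)
  rw [form_eq_locForm I v x ((he x).mdifferentiableAt (by simp))]
  ext ξ
  rw [locForm_apply, h8, (extChartAt I c).left_inv hx', ContinuousLinearMap.comp_apply,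
    ContinuousLinearMap.comp_apply, locForm_apply, (extChartAt I x).left_inv hxx]

theorem tangentCoordChange_inv {c x : X} (hx : x ∈ (chartAt H c).source) (ξ : E) :
    tangentCoordChange I c x x (tangentCoordChange I x c x ξ) = ξ := by
  have hx' : x ∈ (extChartAt I c).source := by rwa [extChartAt_source]
  have hxx : x ∈ (extChartAt I x).source := mem_extChartAt_source x
  rw [tangentCoordChange_comp ⟨⟨hxx, hx'⟩, hxx⟩, tangentCoordChange_self hxx]

theorem tangentCoordChange_inv' {c x : X} (hx : x ∈ (chartAt H c).source) (ξ : E) :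
    tangentCoordChange I x c x (tangentCoordChange I c x x ξ) = ξ := by
  have hx' : x ∈ (extChartAt I c).source := by rwa [extChartAt_source]
  have hxx : x ∈ (extChartAt I x).source := mem_extChartAt_source x
  rw [tangentCoordChange_comp ⟨⟨hx', hxx⟩, hx'⟩, tangentCoordChange_self hx']

theorem locForm_eq_zero_iff {e : X → V} (he : ContMDiff I 𝓘(ℝ, V) ∞ e) (v : X → (V →L[ℝ] ℝ))
    (c x : X) (hx : x ∈ (chartAt H c).source) :
    locForm I e v c (extChartAt I c x) = 0 ↔ form I e v x = 0 := by
  rw [locForm_eq I he v c x hx]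
  constructor
  · intro h
    ext ξ
    have h1 := congrArg (fun f : E →L[ℝ] ℝ => f (tangentCoordChange I x c x ξ)) h
    change form I e v x (tangentCoordChange I c x x (tangentCoordChange I x c x ξ)) = 0 at h1
    rw [tangentCoordChange_inv I hx] at h1
    exact h1
  · intro h
    rw [h, ContinuousLinearMap.zero_comp]

end Form

end Pool.Agent.MP_f1864b_gt
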