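import Mathlib

set_option autoImplicit false

/-!
# MP_f1864b_gt, C2: linearisation of a smooth involution near a fixed point
-/

namespace Pool.Agent.MP_f1864b_gt

open Set Filter Topology Function Module
open scoped ContDiff Manifold

section Euclid

variable {E : Type*} [NormedAddCommGroup E] [NormedSpace ℝ E]

/-- the differential of an involution at a fixed point is an involution -/
theorem fderiv_involution {T : E → E} {y₀ : E} (hT : DifferentiableAt ℝ T y₀) (hfix : T y₀ = y₀)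
    (hinv : ∀ᶠ y in 𝓝 y₀, T (T y) = y) (v : E) :
    fderiv ℝ T y₀ (fderiv ℝ T y₀ v) = v := by
  have h1 : HasFDerivAt (fun y => T (T y)) ((fderiv ℝ T y₀).comp (fderiv ℝ T y₀)) y₀ := by
    have h2 : HasFDerivAt T (fderiv ℝ T y₀) (T y₀) := by
      rw [hfix]; exact hT.hasFDerivAt
    exact h2.comp y₀ hT.hasFDerivAt
  have h3 : HasFDerivAt (fun y => T (T y)) (ContinuousLinearMap.id ℝ E) y₀ :=
    (hasFDerivAt_id y₀).congr_of_eventuallyEq hinv
  have := h1.unique h3
  exact congrArg (fun F : E →L[ℝ] E => F v) this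

variable [CompleteSpace E]

/-- C2, Euclidean form: coordinates near a fixed point in which a smooth involution is linear. -/
theorem exists_linearisation {T : E → E} {O : Set E} (hO : IsOpen O) (hT : ContDiffOn ℝ ∞ T O)
    {y₀ : E} (hy₀ : y₀ ∈ O) (hfix : T y₀ = y₀) (hinv : ∀ᶠ y in 𝓝 y₀, T (T y) = y) :
    ∃ q : OpenPartialHomeomorph E E, (0 : E) ∈ q.source ∧ q 0 = y₀ ∧ q.target ⊆ O ∧
      ContDiffOn ℝ ∞ q q.source ∧ ContDiffOn ℝ ∞ q.symm q.target ∧
      ∀ y ∈ q.source, fderiv ℝ T y₀ y ∈ q.source ∧ T (q y) = q (fderiv ℝ T y₀ y) := by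
  set L : E →L[ℝ] E := fderiv ℝ T y₀ with hL
  have hTy : ContDiffAt ℝ ∞ T y₀ := hT.contDiffAt (hO.mem_nhds hy₀)
  have hT1 : HasFDerivAt T L y₀ := (hTy.differentiableAt (by simp)).hasFDerivAt
  have hLL : ∀ v, L (L v) = v := fun v =>
    fderiv_involution (hTy.differentiableAt (by simp)) hfix hinv v
  set ψ : E → E := fun y => (1 / 2 : ℝ) • ((y - y₀) + L (T y - y₀)) with hψ
  have hψO : ContDiffOn ℝ ∞ ψ O :=
    ((contDiffOn_id.sub contDiffOn_const).add (L.contDiff.comp_contDiffOn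
      (hT.sub contDiffOn_const))).const_smul _
  have hψ1 : HasFDerivAt ψ ((ContinuousLinearEquiv.refl ℝ E : E ≃L[ℝ] E) : E →L[ℝ] E) y₀ := by
    have h1 : HasFDerivAt ψ ((1 / 2 : ℝ) • (ContinuousLinearMap.id ℝ E + L.comp L)) y₀ :=
      (((hasFDerivAt_id y₀).sub_const y₀).add
        (L.hasFDerivAt.comp y₀ (hT1.sub_const y₀))).const_smul (1 / 2 : ℝ)
    refine h1.congr_fderiv ?_
    ext v
    simp only [hLL, ContinuousLinearMap.comp_apply, ContinuousLinearMap.coe_id', id_eq,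
      _root_.smul_apply, _root_.add_apply, ContinuousLinearEquiv.coe_coe,
      ContinuousLinearEquiv.refl_apply]
    rw [← two_smul ℝ v, smul_smul]
    norm_num
  have hψc : ContDiffAt ℝ ∞ ψ y₀ := hψO.contDiffAt (hO.mem_nhds hy₀)
  set e := hψc.toOpenPartialHomeomorph ψ hψ1 (by simp) with he
  have hecoe : (e : E → E) = ψ := ContDiffAt.toOpenPartialHomeomorph_coe hψc hψ1 (by simp)
  have hemem : y₀ ∈ e.source := ContDiffAt.mem_toOpenPartialHomeomorph_source hψc hψ1 (by simp)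
  have hey : e y₀ = 0 := by
    rw [hecoe]; simp [hψ, hfix]
  -- the good set
  have hunit : ∀ᶠ y in 𝓝 y₀, ∃ A : E ≃L[ℝ] E, (A : E →L[ℝ] E) = fderiv ℝ ψ y := by
    have h1 : ContinuousAt (fderiv ℝ ψ) y₀ :=
      (hψc.fderiv_right (m := ∞) (by simp)).continuousAt
    have h2 : range ((↑) : (E ≃L[ℝ] E) → E →L[ℝ] E) ∈ 𝓝 (fderiv ℝ ψ y₀) := by
      rw [hψ1.fderiv]
      exact ContinuousLinearEquiv.nhds _
    exact h1 h2
  have hTe : ∀ᶠ y in 𝓝 y₀, T y ∈ e.source := by
    have h1 : ContinuousAt T y₀ := hTy.continuousAt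
    have h2 : e.source ∈ 𝓝 (T y₀) := by rw [hfix]; exact e.open_source.mem_nhds hemem
    exact h1 h2
  have hes : ∀ᶠ y in 𝓝 y₀, y ∈ e.source := e.open_source.mem_nhds hemem
  have hOs : ∀ᶠ y in 𝓝 y₀, y ∈ O := hO.mem_nhds hy₀
  obtain ⟨S, hSsub, hSopen, hSmem⟩ := mem_nhds_iff.1
    (hes.and (hOs.and (hunit.and (hTe.and hinv))))
  have hψT : ∀ y ∈ S, ψ (T y) = L (ψ y) := by
    intro y hy
    obtain ⟨-, -, -, -, h5⟩ := hSsub hy
    have h5' : T (T y) = y := h5
    simp only [hψ, h5', map_smul, map_add, hLL]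
    congr 1
    exact add_comm _ _
  -- the source of `q`
  set W₀ : Set E := e.target ∩ e.symm ⁻¹' S with hW₀
  have hW₀o : IsOpen W₀ := e.isOpen_inter_preimage_symm hSopen
  set W : Set E := W₀ ∩ L ⁻¹' W₀ with hW
  have hWo : IsOpen W := hW₀o.inter (hW₀o.preimage L.continuous)
  have h0W₀ : (0 : E) ∈ W₀ := by
    refine ⟨hey ▸ e.map_source hemem, ?_⟩
    change e.symm 0 ∈ S
    rw [← hey, e.left_inv hemem]
    exact hSmem
  have h0W : (0 : E) ∈ W := ⟨h0W₀, by change L 0 ∈ W₀; rwa [map_zero]⟩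
  set q : OpenPartialHomeomorph E E := e.symm.restrOpen W hWo with hq
  have hqs : q.source = W := by
    rw [hq, OpenPartialHomeomorph.restrOpen_source]
    exact inter_eq_right.2 fun y hy => hy.1.1
  have hqc : ∀ y, q y = e.symm y := fun y => rfl
  have hqsymm : ∀ y, q.symm y = e y := fun y => rfl
  have hqt : ∀ y ∈ q.target, y ∈ S := by
    intro y hy
    have h1 : q.symm y ∈ W := hqs ▸ q.map_target hy
    have h2 : e.symm (q.symm y) ∈ S := h1.1.2
    rw [← hqc, q.right_inv hy] at h2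
    exact h2
  refine ⟨q, hqs ▸ h0W, ?_, fun y hy => (hSsub (hqt y hy)).2.1, ?_, ?_, ?_⟩
  · rw [hqc, ← hey, e.left_inv hemem]
  · rw [hqs]
    intro y hy
    obtain ⟨hyt, hyS⟩ := hy.1
    obtain ⟨-, h2, ⟨A, hA⟩, -, -⟩ := hSsub hyS
    have h3 : ContDiffAt ℝ ∞ ψ (e.symm y) := hψO.contDiffAt (hO.mem_nhds h2)
    have h4 : ContDiffAt ℝ ∞ e.symm y := by
      refine e.contDiffAt_symm hyt (f₀' := A) ?_ ?_
      · rw [hecoe, hA]
        exact (h3.differentiableAt (by simp)).hasFDerivAt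
      · rw [hecoe]; exact h3
    exact h4.contDiffWithinAt
  · have h1 : ContDiffOn ℝ ∞ ψ q.target := hψO.mono fun y hy => (hSsub (hqt y hy)).2.1
    refine h1.congr fun y _ => ?_
    rw [hqsymm, hecoe]
  · intro y hy
    rw [hqs] at hy ⊢
    have hLy : L y ∈ W := ⟨hy.2, by change L (L y) ∈ W₀; rw [hLL]; exact hy.1⟩
    refine ⟨hLy, ?_⟩
    obtain ⟨hyt, hyS⟩ := hy.1
    have hyS' : e.symm y ∈ S := hyS
    have h1 : ψ (T (e.symm y)) = L y := by
      rw [hψT _ hyS', ← hecoe, e.right_inv hyt]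
    rw [hqc, hqc, ← h1, ← hecoe, e.left_inv (hSsub hyS').2.2.2.1]

end Euclid

section Mfd

variable {E : Type*} [NormedAddCommGroup E] [NormedSpace ℝ E] [CompleteSpace E]
  {M : Type*} [TopologicalSpace M] [ChartedSpace E M] [IsManifold 𝓘(ℝ, E) ∞ M]

/-- a self map read in the chart at `p` -/
noncomputable def inChart (τ : M → M) (p : M) : E → E :=
  fun y => chartAt E p (τ ((chartAt E p).symm y))

/-- where `inChart` makes sense -/
def inChartDom (τ : M → M) (p : M) : Set E :=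
  (chartAt E p).target ∩ (chartAt E p).symm ⁻¹' (τ ⁻¹' (chartAt E p).source)

omit [NormedSpace ℝ E] [CompleteSpace E] [IsManifold 𝓘(ℝ, E) ∞ M] in
theorem isOpen_inChartDom {τ : M → M} (hτ : Continuous τ) (p : M) :
    IsOpen (inChartDom (E := E) τ p) :=
  (chartAt E p).isOpen_inter_preimage_symm ((chartAt E p).open_source.preimage hτ)

omit [CompleteSpace E] in
theorem contDiffOn_inChart {τ : M → M} (hτ : ContMDiff 𝓘(ℝ, E) 𝓘(ℝ, E) ∞ τ) (p : M) :
    ContDiffOn ℝ ∞ (inChart (E := E) τ p) (inChartDom τ p) := by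
  rw [← contMDiffOn_iff_contDiffOn]
  have h1 : ContMDiffOn 𝓘(ℝ, E) 𝓘(ℝ, E) ∞ (chartAt E p).symm (chartAt E p).target :=
    contMDiffOn_chart_symm
  have h2 : ContMDiffOn 𝓘(ℝ, E) 𝓘(ℝ, E) ∞ (chartAt E p) (chartAt E p).source :=
    contMDiffOn_chart
  exact h2.comp (hτ.comp_contMDiffOn (h1.mono inter_subset_left)) fun y hy => hy.2

omit [CompleteSpace E] [IsManifold 𝓘(ℝ, E) ∞ M] in
theorem mfderiv_eq_inChart {τ : M → M} {p : M} (hτ : MDifferentiableAt 𝓘(ℝ, E) 𝓘(ℝ, E) τ p)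
    (hp : τ p = p) :
    (mfderiv 𝓘(ℝ, E) 𝓘(ℝ, E) τ p : E →L[ℝ] E) = fderiv ℝ (inChart τ p) (chartAt E p p) := by
  unfold mfderiv
  rw [if_pos hτ]
  simp only [writtenInExtChartAt, extChartAt, hp]
  simp
  rfl

/-- C2: near a fixed point of a smooth involution there is a local parametrisation in which the
involution is its differential. -/
theorem exists_linear_param {τ : M → M} (hτ : ContMDiff 𝓘(ℝ, E) 𝓘(ℝ, E) ∞ τ)
    (hinv : ∀ x, τ (τ x) = x) {p : M} (hp : τ p = p) :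
    ∃ q : OpenPartialHomeomorph E M, (0 : E) ∈ q.source ∧ q 0 = p ∧
      q.target ⊆ (chartAt E p).source ∧
      ContMDiffOn 𝓘(ℝ, E) 𝓘(ℝ, E) ∞ q q.source ∧ ContMDiffOn 𝓘(ℝ, E) 𝓘(ℝ, E) ∞ q.symm q.target ∧
      ∀ y ∈ q.source, (mfderiv 𝓘(ℝ, E) 𝓘(ℝ, E) τ p : E →L[ℝ] E) y ∈ q.source ∧
        τ (q y) = q ((mfderiv 𝓘(ℝ, E) 𝓘(ℝ, E) τ p : E →L[ℝ] E) y) := by
  have hpO : chartAt E p p ∈ inChartDom (E := E) τ p := by
    refine ⟨(chartAt E p).map_source (mem_chart_source E p), ?_⟩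
    change τ ((chartAt E p).symm (chartAt E p p)) ∈ (chartAt E p).source
    rw [(chartAt E p).left_inv (mem_chart_source E p), hp]
    exact mem_chart_source E p
  have hO := isOpen_inChartDom (E := E) hτ.continuous p
  have hfix : inChart (E := E) τ p (chartAt E p p) = chartAt E p p := by
    unfold inChart
    rw [(chartAt E p).left_inv (mem_chart_source E p), hp]
  have hinv' : ∀ y ∈ inChartDom (E := E) τ p, inChart (E := E) τ p (inChart (E := E) τ p y) = y := by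
    intro y hy
    unfold inChart
    rw [(chartAt E p).left_inv hy.2, hinv, (chartAt E p).right_inv hy.1]
  obtain ⟨q, h0, hq0, hqt, hq1, hq2, hq3⟩ := exists_linearisation hO (contDiffOn_inChart hτ p) hpO
    hfix (by filter_upwards [hO.mem_nhds hpO] with y hy using hinv' y hy)
  rw [← mfderiv_eq_inChart (hτ.mdifferentiableAt (by simp)) hp] at hq3
  have hsrc : (q.trans (chartAt E p).symm).source = q.source := by
    rw [OpenPartialHomeomorph.trans_source]
    exact inter_eq_left.2 fun y hy => (hqt (q.map_source hy)).1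
  have h1 : ContMDiffOn 𝓘(ℝ, E) 𝓘(ℝ, E) ∞ (chartAt E p).symm (chartAt E p).target :=
    contMDiffOn_chart_symm
  have h2 : ContMDiffOn 𝓘(ℝ, E) 𝓘(ℝ, E) ∞ (chartAt E p) (chartAt E p).source :=
    contMDiffOn_chart
  have htgt : (q.trans (chartAt E p).symm).target ⊆ (chartAt E p).source ∩
      (chartAt E p) ⁻¹' q.target := by
    rw [OpenPartialHomeomorph.trans_target]
    rfl
  refine ⟨q.trans (chartAt E p).symm, hsrc ▸ h0, ?_, fun x hx => (htgt hx).1, ?_, ?_, ?_⟩
  · change (chartAt E p).symm (q 0) = p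
    rw [hq0, (chartAt E p).left_inv (mem_chart_source E p)]
  · rw [hsrc]
    exact h1.comp (contMDiffOn_iff_contDiffOn.2 hq1) fun y hy => (hqt (q.map_source hy)).1
  · exact (contMDiffOn_iff_contDiffOn.2 hq2).comp (h2.mono fun x hx => (htgt hx).1)
      fun x hx => (htgt hx).2
  · rw [hsrc]
    intro y hy
    obtain ⟨h3, h4⟩ := hq3 y hy
    refine ⟨h3, ?_⟩
    have h5 : τ ((chartAt E p).symm (q y)) = (chartAt E p).symm (inChart (E := E) τ p (q y)) := by
      unfold inChart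
      rw [(chartAt E p).left_inv (hqt (q.map_source hy)).2]
    exact h5.trans (congrArg _ h4)

end Mfd

end Pool.Agent.MP_f1864b_gt
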