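import Pool.Agent.Lib.MP_f1864b_gt.C.Defs
import Pool.Agent.Lib.MP_f1864b_gt.C3F
import Pool.Agent.Lib.MP_f1864b_gt.WReg

set_option autoImplicit false
set_option maxSynthPendingDepth 3

/-!
# MP_f1864b_gt, C3: the counts over the isolated fixed points
-/

namespace Pool.Agent.MP_f1864b_gt

open Set Filter Topology Function Module Pool.Agent.Dold
open scoped ContDiff ENNReal

section IsoAbs

variable {E F C : Type*}
  [NormedAddCommGroup E] [NormedSpace ℝ E] [FiniteDimensional ℝ E]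
  [NormedAddCommGroup F] [NormedSpace ℝ F] [FiniteDimensional ℝ F]
  [NormedAddCommGroup C] [NormedSpace ℝ C] [FiniteDimensional ℝ C]

omit [FiniteDimensional ℝ E] [FiniteDimensional ℝ F] [FiniteDimensional ℝ C] in
theorem tailL_surjective (n : ℕ) : Surjective (tailL C n) := fun a => ⟨Fin.cons 0 a, rfl⟩

/-- `(ξ, l) ↦ (a ↦ D (a 0) ξ + ∑ l i • N (a (i+1)))` -/
noncomputable def isoH (n : ℕ) (D : C →L[ℝ] (E →L[ℝ] F)) (N : C →L[ℝ] F) (ξ : E)
    (l : Fin n → ℝ) : (Fin (n + 1) → C) →L[ℝ] F :=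
  (D.flip ξ).comp (ContinuousLinearMap.proj (R := ℝ) (φ := fun _ : Fin (n + 1) => C) 0) +
    (linc l N).comp (tailL C n)

omit [FiniteDimensional ℝ E] [FiniteDimensional ℝ F] [FiniteDimensional ℝ C] in
theorem isoH_apply (n : ℕ) (D : C →L[ℝ] (E →L[ℝ] F)) (N : C →L[ℝ] F) (ξ : E)
    (l : Fin n → ℝ) (a : Fin (n + 1) → C) :
    isoH n D N ξ l a = D (a 0) ξ + ∑ i : Fin n, l i • N (a i.succ) := by
  unfold isoH
  rw [add_apply, ContinuousLinearMap.comp_apply, ContinuousLinearMap.comp_apply, linc_apply]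
  rfl

omit [FiniteDimensional ℝ E] [FiniteDimensional ℝ F] [FiniteDimensional ℝ C] in
theorem isoH_surjective (n : ℕ) {D : C →L[ℝ] (E →L[ℝ] F)} (hD : Surjective D) (N : C →L[ℝ] F)
    {ξ : E} (hξ : ξ ≠ 0) (l : Fin n → ℝ) : Surjective (isoH n D N ξ l) := by
  intro z
  obtain ⟨μ, hμ⟩ := SeparatingDual.exists_eq_one (R := ℝ) hξ
  obtain ⟨c, hc⟩ := hD (μ.smulRight z)
  refine ⟨Fin.cons c 0, ?_⟩
  rw [isoH_apply]
  simp [hc, hμ]

omit [FiniteDimensional ℝ E] [FiniteDimensional ℝ F] [FiniteDimensional ℝ C] in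
theorem contDiff_isoH {X : Type*} [NormedAddCommGroup X] [NormedSpace ℝ X] (n : ℕ)
    (D : C →L[ℝ] (E →L[ℝ] F)) (N : C →L[ℝ] F) {ξ : X → E} {l : X → (Fin n → ℝ)}
    (hξ : ContDiff ℝ 1 ξ) (hl : ContDiff ℝ 1 l) :
    ContDiff ℝ 1 (fun x => isoH n D N (ξ x) (l x)) := by
  unfold isoH
  refine ((D.flip.contDiff.comp hξ).clm_comp contDiff_const).add ?_
  refine ContDiff.clm_comp ?_ contDiff_const
  exact contDiffOn_univ.1 (contDiffOn_linc hl.contDiffOn contDiffOn_const)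

/-- the conditions in one direction at an isolated point -/
theorem dimH_iso_dep {n k : ℕ} {N : C →L[ℝ] F} (hN : Surjective N) (hn : n < finrank ℝ F) :
    dimH {a : (Fin (n + 1) → C) × (Fin (k + 1) → C) | ∃ l : Fin n → ℝ, l ≠ 0 ∧
      ∑ i : Fin n, l i • N (a.1 i.succ) = 0} ≤
      ((finrank ℝ ((Fin (n + 1) → C) × (Fin (k + 1) → C)) - 1 : ℕ) : ℝ≥0∞) := by
  set L : (Fin n → ℝ) → ((Fin (n + 1) → C) × (Fin (k + 1) → C)) →L[ℝ] F := fun l =>
    (linc l N).comp ((tailL C n).comp (ContinuousLinearMap.fst ℝ _ _)) with hL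
  have hLd : ContDiffOn ℝ 1 L {l | l ≠ 0} :=
    (contDiffOn_linc contDiffOn_id contDiffOn_const).clm_comp contDiffOn_const
  refine (dimH_mono ?_).trans (dimH_solutions_le isOpen_ne (contDiffOn_const (c := (0 : F))) hLd
    (by simpa using hn))
  rintro a ⟨l, hl, ha⟩
  refine ⟨l, hl, ?_, ?_⟩
  · intro z
    obtain ⟨b, hb⟩ := linc_surjective hl hN z
    refine ⟨(Fin.cons 0 b, 0), ?_⟩
    rw [← hb]
    rfl
  · rw [zero_add, ← ha]
    change linc l N (tailL C n a.1) = _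
    rw [linc_apply]
    rfl

theorem dimH_iso_dep' {n k : ℕ} {N : C →L[ℝ] F} (hN : Surjective N) (hk : k < finrank ℝ F) :
    dimH {a : (Fin (n + 1) → C) × (Fin (k + 1) → C) | ∃ l : Fin k → ℝ, l ≠ 0 ∧
      ∑ i : Fin k, l i • N (a.2 i.succ) = 0} ≤
      ((finrank ℝ ((Fin (n + 1) → C) × (Fin (k + 1) → C)) - 1 : ℕ) : ℝ≥0∞) := by
  set L : (Fin k → ℝ) → ((Fin (n + 1) → C) × (Fin (k + 1) → C)) →L[ℝ] F := fun l =>
    (linc l N).comp ((tailL C k).comp (ContinuousLinearMap.snd ℝ _ _)) with hL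
  have hLd : ContDiffOn ℝ 1 L {l | l ≠ 0} :=
    (contDiffOn_linc contDiffOn_id contDiffOn_const).clm_comp contDiffOn_const
  refine (dimH_mono ?_).trans (dimH_solutions_le isOpen_ne (contDiffOn_const (c := (0 : F))) hLd
    (by simpa using hk))
  rintro a ⟨l, hl, ha⟩
  refine ⟨l, hl, ?_, ?_⟩
  · intro z
    obtain ⟨b, hb⟩ := linc_surjective hl hN z
    refine ⟨(0, Fin.cons 0 b), ?_⟩
    rw [← hb]
    rfl
  · rw [zero_add, ← ha]
    change linc l N (tailL C k a.2) = _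
    rw [linc_apply]
    rfl

/-- the degenerate zeros at an isolated point -/
theorem dimH_iso_deg {n k : ℕ} {D : C →L[ℝ] (E →L[ℝ] F)} (hD : Surjective D) (N : C →L[ℝ] F)
    (p : ℕ) (q : Fin p → (E →L[ℝ] ℝ)) (hq : ∀ ξ : E, ξ ≠ 0 → ∃ i, q i ξ ≠ 0)
    (hdim : finrank ℝ E + n + k < 2 * finrank ℝ F + 1) :
    dimH {a : (Fin (n + 1) → C) × (Fin (k + 1) → C) | ∃ ξ : E, ξ ≠ 0 ∧ ∃ l m,
      isoH n D N ξ l a.1 = 0 ∧ isoH k D N ξ m a.2 = 0} ≤
      ((finrank ℝ ((Fin (n + 1) → C) × (Fin (k + 1) → C)) - 1 : ℕ) : ℝ≥0∞) := by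
  -- for every functional a vector with value one
  have hv : ∀ i, ∃ v : E, q i ≠ 0 → q i v = 1 := by
    intro i
    by_cases h : q i = 0
    · exact ⟨0, fun h' => absurd h h'⟩
    · obtain ⟨w, hw⟩ : ∃ w, q i w ≠ 0 := by
        by_contra h'
        push Not at h'
        exact h (ContinuousLinearMap.ext h')
      exact ⟨(q i w)⁻¹ • w, fun _ => by rw [map_smul, smul_eq_mul, inv_mul_cancel₀ hw]⟩
  choose v hv using hv
  have hsub : {a : (Fin (n + 1) → C) × (Fin (k + 1) → C) | ∃ ξ : E, ξ ≠ 0 ∧ ∃ l m,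
      isoH n D N ξ l a.1 = 0 ∧ isoH k D N ξ m a.2 = 0} ⊆
      ⋃ i : Fin p, {a | ∃ y ∈ (univ : Set (LinearMap.ker (q i).toLinearMap)), ∃ x₁ x₂,
        q i ≠ 0 ∧ isoH n D N (v i + (y : E)) x₁ a.1 = 0 ∧
          isoH k D N (v i + (y : E)) x₂ a.2 = 0} := by
    rintro a ⟨ξ, hξ, l, m, h1, h2⟩
    obtain ⟨i, hi⟩ := hq ξ hξ
    have hqi : q i ≠ 0 := fun h => hi (by rw [h]; rfl)
    set c := (q i ξ)⁻¹ with hc
    have hmem : c • ξ - v i ∈ LinearMap.ker (q i).toLinearMap := by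
      rw [LinearMap.mem_ker]
      change q i (c • ξ - v i) = 0
      rw [map_sub, map_smul, hv i hqi, smul_eq_mul, hc, inv_mul_cancel₀ hi, sub_self]
    refine mem_iUnion.2 ⟨i, ⟨c • ξ - v i, hmem⟩, mem_univ _, c • l, c • m, hqi, ?_, ?_⟩
    · have : isoH n D N (v i + (c • ξ - v i)) (c • l) a.1 = c • isoH n D N ξ l a.1 := by
        rw [isoH_apply, isoH_apply, add_sub_cancel, map_smul, smul_add, Finset.smul_sum]
        simp only [Pi.smul_apply, smul_eq_mul, mul_smul]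
      exact this.trans (by rw [h1, smul_zero])
    · have : isoH k D N (v i + (c • ξ - v i)) (c • m) a.2 = c • isoH k D N ξ m a.2 := by
        rw [isoH_apply, isoH_apply, add_sub_cancel, map_smul, smul_add, Finset.smul_sum]
        simp only [Pi.smul_apply, smul_eq_mul, mul_smul]
      exact this.trans (by rw [h2, smul_zero])
  refine (dimH_mono hsub).trans ?_
  rw [dimH_iUnion]
  refine iSup_le fun i => ?_
  by_cases hqi : q i = 0
  · have : {a : (Fin (n + 1) → C) × (Fin (k + 1) → C) |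
        ∃ y ∈ (univ : Set (LinearMap.ker (q i).toLinearMap)), ∃ x₁ x₂,
        q i ≠ 0 ∧ isoH n D N (v i + (y : E)) x₁ a.1 = 0 ∧
          isoH k D N (v i + (y : E)) x₂ a.2 = 0} = ∅ := by
      ext a
      simp [hqi]
    rw [this, dimH_empty]
    exact bot_le
  · have hne : ∀ y : LinearMap.ker (q i).toLinearMap, v i + (y : E) ≠ 0 := by
      intro y h
      have h1 : q i (v i + (y : E)) = 0 := by rw [h, map_zero]
      have h2 : q i (y : E) = 0 := y.2
      rw [map_add, h2, hv i hqi, add_zero] at h1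
      exact one_ne_zero h1
    refine (dimH_mono ?_).trans (dimH_two (K := LinearMap.ker (q i).toLinearMap)
      (X₁ := Fin n → ℝ) (X₂ := Fin k → ℝ)
      (H₁ := fun x => isoH n D N (v i + (x.1 : E)) x.2)
      (H₂ := fun x => isoH k D N (v i + (x.1 : E)) x.2) isOpen_univ ?_ ?_
      (fun y _ x => isoH_surjective n hD N (hne y) x)
      (fun y _ x => isoH_surjective k hD N (hne y) x) ?_)
    · rintro a ⟨y, hy, x₁, x₂, -, h1, h2⟩
      exact ⟨y, hy, x₁, x₂, h1, h2⟩
    · exact (contDiff_isoH n D N (contDiff_const.add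
        ((LinearMap.ker (q i).toLinearMap).subtypeL.contDiff.comp contDiff_fst))
        contDiff_snd).contDiffOn
    · exact (contDiff_isoH k D N (contDiff_const.add
        ((LinearMap.ker (q i).toLinearMap).subtypeL.contDiff.comp contDiff_fst))
        contDiff_snd).contDiffOn
    · have h1 := finrank_ker_eq (hv i hqi)
      simp only [finrank_fin_fun]
      omega

end IsoAbs

section Iso

variable {V : Type*} [NormedAddCommGroup V] [NormedSpace ℝ V] [FiniteDimensional ℝ V]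

/-- the derivative of a form, as a linear function of the parameter -/
noncomputable def dformL (ε : ℝ) (s : V →L[ℝ] V) (G : R5 → V) (y : R5) :
    Cub V →L[ℝ] (R5 →L[ℝ] (R5 →L[ℝ] ℝ)) :=
  (fderiv ℝ (formL ε s G) y).flip

theorem dformL_apply {O : Set R5} (hO : IsOpen O) {G : R5 → V} (hG : ContDiffOn ℝ ∞ G O) {y : R5}
    (hy : y ∈ O) (ε : ℝ) (s : V →L[ℝ] V) (T : Cub V) :
    HasFDerivAt (fun z => formL ε s G z T) (dformL ε s G y T) y := by
  have h1 : HasFDerivAt (formL ε s G) (fderiv ℝ (formL ε s G) y) y :=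
    (((contDiffOn_formL ε s hO hG).contDiffAt (hO.mem_nhds hy)).differentiableAt
      (by simp)).hasFDerivAt
  have h2 := h1.clm_apply (hasFDerivAt_const T y)
  refine h2.congr_fderiv ?_
  ext ξ η
  simp [dformL]

/-- Isolated fixed points: only the forced zero, and it is regular. -/
theorem dimH_iso {O : Set R5} (hO : IsOpen O) {G : R5 → V} (hG : ContDiffOn ℝ ∞ G O) {y : R5}
    (hy : y ∈ O) (hinj : Function.Injective (fderiv ℝ G y)) {s : V →L[ℝ] V}
    (hs : s (G y) = G y) (hsd : ∀ ξ, s (fderiv ℝ G y ξ) = - fderiv ℝ G y ξ) :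
    dimH {a : PP V | ∃ (l : Fin 4 → ℝ) (m : Fin 3 → ℝ), l ≠ 0 ∧ m ≠ 0 ∧
      ∑ i, l i • formL (sgA i) s G y (a.1 i) = 0 ∧ ∑ j, m j • formL (sgB j) s G y (a.2 j) = 0 ∧
      ¬ ((∀ i, i ≠ 0 → l i = 0) ∧ (∀ j, j ≠ 0 → m j = 0) ∧
        ∀ f g : R5 →L[ℝ] ℝ, ∃ (ξ : R5) (l' : Fin 4 → ℝ) (m' : Fin 3 → ℝ),
          fderiv ℝ (fun z => ∑ i, l i • formL (sgA i) s G z (a.1 i)) y ξ +
            ∑ i, l' i • formL (sgA i) s G y (a.1 i) = f ∧
          fderiv ℝ (fun z => ∑ j, m j • formL (sgB j) s G z (a.2 j)) y ξ +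
            ∑ j, m' j • formL (sgB j) s G y (a.2 j) = g)} ≤
      ((finrank ℝ (PP V) - 1 : ℕ) : ENNReal) := by
  set N : Cub V →L[ℝ] (R5 →L[ℝ] ℝ) := formL (-1) s G y with hN
  set D : Cub V →L[ℝ] (R5 →L[ℝ] (R5 →L[ℝ] ℝ)) := dformL 1 s G y with hD
  have hGy : ContDiffAt ℝ ∞ G y := hG.contDiffAt (hO.mem_nhds hy)
  have hG1 : HasFDerivAt G (fderiv ℝ G y) y := (hGy.differentiableAt (by simp)).hasFDerivAt
  have hG2 : HasFDerivAt (fderiv ℝ G) (fderiv ℝ (fderiv ℝ G) y) y :=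
    ((hGy.fderiv_right (m := ∞) (by simp)).differentiableAt (by simp)).hasFDerivAt
  -- the invariant forms vanish at `y`
  have h0 : ∀ T, formL 1 s G y T = 0 := by
    intro T
    ext ξ
    rw [formL_apply, symL_apply, hs]
    simp [hsd]
  have hNs : Surjective N := by
    intro f
    obtain ⟨b, B, hb, -⟩ := exists_jet_data hinj (fderiv ℝ (fderiv ℝ G) y) ((1 / 2 : ℝ) • f) 0
    obtain ⟨T, hT1, -, -⟩ := exists_cub_jet_aux (G y) (ContinuousLinearMap.fst ℝ ℝ V) rfl b B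
    refine ⟨T, ?_⟩
    ext ξ
    have := congrArg (fun F : R5 →L[ℝ] ℝ => F ξ) hb
    simp only [ContinuousLinearMap.comp_apply, _root_.smul_apply, smul_eq_mul] at this
    rw [hN, formL_apply, symL_apply, hs, hT1]
    simp only [ContinuousLinearMap.comp_apply, _root_.add_apply, _root_.smul_apply, smul_eq_mul,
      hsd, map_neg]
    linarith
  have hDs : Surjective D := by
    intro f'
    obtain ⟨b, B, hb, hB⟩ := exists_jet_data hinj (0 : R5 →L[ℝ] (R5 →L[ℝ] V)) 0
      ((1 / 2 : ℝ) • f')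
    obtain ⟨T, hT1, hT2, -⟩ := exists_cub_jet_aux (G y) (ContinuousLinearMap.fst ℝ ℝ V) rfl 0 B
    have h1 : HasFDerivAt (fun u => symL 1 s u T)
        (B + (1 : ℝ) • ((ContinuousLinearMap.compL ℝ V V ℝ).flip s).comp (B.comp s)) (G y) := by
      have h2 : HasFDerivAt (fun u => cubL u T) B (s (G y)) := by rw [hs]; exact hT2
      exact hT2.add (((((ContinuousLinearMap.compL ℝ V V ℝ).flip s).hasFDerivAt).comp (G y)
        (h2.comp (G y) s.hasFDerivAt)).const_smul (1 : ℝ))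
    have h3 := hasFDerivAt_pull hG1 hG2 h1
    refine ⟨T, ?_⟩
    rw [hD]
    refine ((dformL_apply hO hG hy 1 s T).unique h3).trans ?_
    ext ξ η
    have := congrArg (fun F : R5 →L[ℝ] ℝ => F η) (hB ξ)
    simp [symL_apply, hs, hT1, hsd] at this ⊢
    linarith
  have f5 : finrank ℝ (R5 →L[ℝ] ℝ) = 5 := by rw [finrank_clm]; simp
  have d1 := dimH_iso_dep (n := 3) (k := 2) hNs (by rw [f5]; norm_num)
  have d2 := dimH_iso_dep' (n := 3) (k := 2) hNs (by rw [f5]; norm_num)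
  have d3 := dimH_iso_deg (n := 3) (k := 2) hDs N 5 (fun i => EuclideanSpace.proj i)
    (fun ξ hξ => by
      by_contra h
      push Not at h
      exact hξ (PiLp.ext h)) (by rw [f5]; simp)
  refine (dimH_mono ?_).trans ((dimH_union _ _).le.trans (max_le
    ((dimH_union _ _).le.trans (max_le d1 d2)) d3))
  rintro a ⟨l, m, hl, hm, h1, h2, h3⟩
  by_contra hbad
  rw [mem_union, mem_union, not_or, not_or] at hbad
  obtain ⟨⟨b1, b2⟩, b3⟩ := hbad
  -- the coefficients of the antiinvariant forms vanish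
  have e1 : ∑ i : Fin 3, l i.succ • N (a.1 i.succ) = 0 := by
    have := h1
    rw [Fin.sum_univ_succ] at this
    simp only [sgA, Matrix.cons_val_zero, h0, smul_zero, zero_add] at this
    rw [← this]
    refine Finset.sum_congr rfl fun i _ => ?_
    fin_cases i <;> rfl
  have e2 : ∑ i : Fin 2, m i.succ • N (a.2 i.succ) = 0 := by
    have := h2
    rw [Fin.sum_univ_succ] at this
    simp only [sgB, Matrix.cons_val_zero, h0, smul_zero, zero_add] at this
    rw [← this]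
    refine Finset.sum_congr rfl fun i _ => ?_
    fin_cases i <;> rfl
  have l0 : (fun i : Fin 3 => l i.succ) = 0 := by
    by_contra h
    exact b1 ⟨_, h, e1⟩
  have m0 : (fun i : Fin 2 => m i.succ) = 0 := by
    by_contra h
    exact b2 ⟨_, h, e2⟩
  have hl' : ∀ i, i ≠ 0 → l i = 0 := by
    intro i hi
    obtain ⟨j, rfl⟩ := Fin.exists_succ_eq.2 hi
    exact congrFun l0 j
  have hm' : ∀ i, i ≠ 0 → m i = 0 := by
    intro i hi
    obtain ⟨j, rfl⟩ := Fin.exists_succ_eq.2 hi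
    exact congrFun m0 j
  have hl0 : l 0 ≠ 0 := by
    intro h
    apply hl
    funext i
    by_cases hi : i = 0
    · rw [hi, h]; rfl
    · exact hl' i hi
  have hm0 : m 0 ≠ 0 := by
    intro h
    apply hm
    funext i
    by_cases hi : i = 0
    · rw [hi, h]; rfl
    · exact hm' i hi
  refine h3 ⟨hl', hm', fun f g => ?_⟩
  -- the derivatives
  have hdl : fderiv ℝ (fun z => ∑ i, l i • formL (sgA i) s G z (a.1 i)) y = l 0 • D (a.1 0) := by
    have : (fun z => ∑ i, l i • formL (sgA i) s G z (a.1 i)) =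
        fun z => l 0 • formL 1 s G z (a.1 0) := by
      funext z
      rw [Finset.sum_eq_single 0]
      · rfl
      · intro i _ hi
        rw [hl' i hi, zero_smul]
      · simp
    rw [this]
    exact ((dformL_apply hO hG hy 1 s (a.1 0)).const_smul (l 0)).fderiv
  have hdm : fderiv ℝ (fun z => ∑ i, m i • formL (sgB i) s G z (a.2 i)) y = m 0 • D (a.2 0) := by
    have : (fun z => ∑ i, m i • formL (sgB i) s G z (a.2 i)) =
        fun z => m 0 • formL 1 s G z (a.2 0) := by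
      funext z
      rw [Finset.sum_eq_single 0]
      · rfl
      · intro i _ hi
        rw [hm' i hi, zero_smul]
      · simp
    rw [this]
    exact ((dformL_apply hO hG hy 1 s (a.2 0)).const_smul (m 0)).fderiv
  -- the square linear system
  set Ψ : (R5 × (Fin 3 → ℝ) × (Fin 2 → ℝ)) →ₗ[ℝ] (R5 →L[ℝ] ℝ) × (R5 →L[ℝ] ℝ) :=
    { toFun := fun x => (l 0 • D (a.1 0) x.1 + ∑ i : Fin 3, x.2.1 i • N (a.1 i.succ),
        m 0 • D (a.2 0) x.1 + ∑ i : Fin 2, x.2.2 i • N (a.2 i.succ))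
      map_add' := by
        intro x x'
        simp only [Prod.fst_add, Prod.snd_add, map_add, smul_add, Pi.add_apply, add_smul,
          Finset.sum_add_distrib, Prod.mk_add_mk]
        refine Prod.ext ?_ ?_ <;> simp only [] <;> abel
      map_smul' := by
        intro c x
        simp only [Prod.smul_fst, Prod.smul_snd, map_smul, Pi.smul_apply, smul_eq_mul,
          RingHom.id_apply, Prod.smul_mk, smul_add, Finset.smul_sum, mul_smul]
        rw [smul_comm c (l 0), smul_comm c (m 0)] } with hΨ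
  have hΨi : Injective Ψ := by
    rw [← LinearMap.ker_eq_bot, LinearMap.ker_eq_bot']
    rintro ⟨ξ, l', m'⟩ hx
    have x1 : l 0 • D (a.1 0) ξ + ∑ i : Fin 3, l' i • N (a.1 i.succ) = 0 :=
      congrArg Prod.fst hx
    have x2 : m 0 • D (a.2 0) ξ + ∑ i : Fin 2, m' i • N (a.2 i.succ) = 0 :=
      congrArg Prod.snd hx
    have hξ : ξ = 0 := by
      by_contra hξ
      refine b3 ⟨ξ, hξ, (l 0)⁻¹ • l', (m 0)⁻¹ • m', ?_, ?_⟩
      · rw [isoH_apply]
        have := congrArg (fun F => (l 0)⁻¹ • F) x1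
        simp only [smul_add, smul_smul, inv_mul_cancel₀ hl0, one_smul, Finset.smul_sum,
          smul_zero] at this
        simpa only [Pi.smul_apply, smul_eq_mul] using this
      · rw [isoH_apply]
        have := congrArg (fun F => (m 0)⁻¹ • F) x2
        simp only [smul_add, smul_smul, inv_mul_cancel₀ hm0, one_smul, Finset.smul_sum,
          smul_zero] at this
        simpa only [Pi.smul_apply, smul_eq_mul] using this
    rw [hξ, map_zero, smul_zero, zero_add] at x1 x2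
    have hl'0 : l' = 0 := by
      by_contra h
      exact b1 ⟨_, h, x1⟩
    have hm'0 : m' = 0 := by
      by_contra h
      exact b2 ⟨_, h, x2⟩
    rw [hξ, hl'0, hm'0]
    rfl
  have hΨs : Surjective Ψ := by
    refine (LinearMap.injective_iff_surjective_of_finrank_eq_finrank ?_).1 hΨi
    rw [finrank_prod, finrank_prod, finrank_prod, f5]
    simp
  obtain ⟨⟨ξ, l', m'⟩, hx⟩ := hΨs (f, g)
  have x1 : l 0 • D (a.1 0) ξ + ∑ i : Fin 3, l' i • N (a.1 i.succ) = f := congrArg Prod.fst hx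
  have x2 : m 0 • D (a.2 0) ξ + ∑ i : Fin 2, m' i • N (a.2 i.succ) = g := congrArg Prod.snd hx
  refine ⟨ξ, Fin.cons 0 l', Fin.cons 0 m', ?_, ?_⟩
  · rw [hdl, ← x1, Fin.sum_univ_succ]
    simp only [Fin.cons_zero, zero_smul, zero_add, Fin.cons_succ]
    congr 1
  · rw [hdm, ← x2, Fin.sum_univ_succ]
    simp only [Fin.cons_zero, zero_smul, zero_add, Fin.cons_succ]
    congr 1

end Iso

end Pool.Agent.MP_f1864b_gt
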