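import Pool.Agent.Lib.MP_f1864b_gt.Dim

/-!
# The dimension count in a chart (module LOCREG)
-/

set_option autoImplicit false

namespace Pool.Agent.MP_f1864b_gt

open Set Module
open scoped ContDiff

namespace LocRegAux

section Ext

variable {ι : Type*} [DecidableEq ι]

/-- Extension of a vector by the entry `1` at `i₀`. -/
noncomputable def ext1 (i₀ : ι) (c : {i // i ≠ i₀} → ℝ) (i : ι) : ℝ :=
  if h : i = i₀ then 1 else c ⟨i, h⟩

theorem ext1_self (i₀ : ι) (c : {i // i ≠ i₀} → ℝ) : ext1 i₀ c i₀ = 1 := by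
  simp [ext1]

theorem ext1_restrict {i₀ : ι} {l : ι → ℝ} (h : l i₀ = 1) : ext1 i₀ (fun i => l i.1) = l := by
  ext i
  by_cases hi : i = i₀
  · subst hi
    rw [ext1_self, h]
  · simp [ext1, hi]

theorem contDiff_ext1 [Fintype ι] (i₀ : ι) : ContDiff ℝ 1 (ext1 i₀) := by
  rw [contDiff_pi]
  intro i
  by_cases h : i = i₀
  · have : (fun c : {i // i ≠ i₀} → ℝ => ext1 i₀ c i) = fun _ => 1 := by
      ext c
      simp [ext1, h]
    rw [this]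
    exact contDiff_const
  · have : (fun c : {i // i ≠ i₀} → ℝ => ext1 i₀ c i) = fun c => c ⟨i, h⟩ := by
      ext c
      simp [ext1, h]
    rw [this]
    exact contDiff_apply ℝ ℝ (⟨i, h⟩ : {i // i ≠ i₀})

theorem finrank_ne [Fintype ι] (i₀ : ι) :
    finrank ℝ ({i // i ≠ i₀} → ℝ) + 1 = Fintype.card ι := by
  have h1 : Fintype.card {i // i ≠ i₀} = Fintype.card ι - 1 := Set.card_ne_eq _
  have h2 : 0 < Fintype.card ι := Fintype.card_pos_iff.2 ⟨i₀⟩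
  rw [Module.finrank_fintype_fun_eq_card, h1]
  omega

/-- Restriction of a vector to the indices different from `i₀`. -/
noncomputable def restr (i₀ : ι) : (ι → ℝ) →L[ℝ] ({i // i ≠ i₀} → ℝ) :=
  ContinuousLinearMap.pi (fun i => ContinuousLinearMap.proj i.1)

end Ext

section Eqn

variable {E : Type*} [NormedAddCommGroup E] [NormedSpace ℝ E] {p q : ℕ}

/-- The target of the equations. -/
abbrev YY (E : Type*) [NormedAddCommGroup E] [NormedSpace ℝ E] (p q : ℕ) : Type _ :=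
  (E →L[ℝ] ℝ) × (E →L[ℝ] ℝ) × (Fin p → ℝ) × (Fin q → ℝ) × (E →L[ℝ] ℝ)

/-- The source of the equations. -/
abbrev XX (E : Type*) [NormedAddCommGroup E] [NormedSpace ℝ E] (p q : ℕ) : Type _ :=
  E × (Fin p → ℝ) × (Fin q → ℝ) × E × E

/-- The equations, in terms of the 1-jets. -/
noncomputable def eqn (f : Fin p → (E →L[ℝ] ℝ)) (f' : Fin p → (E →L[ℝ] (E →L[ℝ] ℝ)))
    (g : Fin q → (E →L[ℝ] ℝ)) (g' : Fin q → (E →L[ℝ] (E →L[ℝ] ℝ)))
    (l : Fin p → ℝ) (m : Fin q → ℝ) (α β : E) : YY E p q :=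
  (∑ i, l i • f i, ∑ j, m j • g j, fun i => f i α, fun j => g j β,
    (∑ i, l i • (ContinuousLinearMap.apply ℝ ℝ α).comp (f' i)) +
      ∑ j, m j • (ContinuousLinearMap.apply ℝ ℝ β).comp (g' j))

theorem eqn_add (f₁ f₂ : Fin p → (E →L[ℝ] ℝ)) (f₁' f₂' : Fin p → (E →L[ℝ] (E →L[ℝ] ℝ)))
    (g₁ g₂ : Fin q → (E →L[ℝ] ℝ)) (g₁' g₂' : Fin q → (E →L[ℝ] (E →L[ℝ] ℝ)))
    (l : Fin p → ℝ) (m : Fin q → ℝ) (α β : E) :
    eqn (fun i => f₁ i + f₂ i) (fun i => f₁' i + f₂' i) (fun i => g₁ i + g₂ i)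
      (fun i => g₁' i + g₂' i) l m α β =
      eqn f₁ f₁' g₁ g₁' l m α β + eqn f₂ f₂' g₂ g₂' l m α β := by
  simp only [eqn, smul_add, Finset.sum_add_distrib, add_apply,
    ContinuousLinearMap.comp_add, Prod.mk_add_mk]
  refine Prod.ext rfl (Prod.ext rfl (Prod.ext rfl (Prod.ext rfl ?_)))
  simp only
  abel

theorem eqn_smul (c : ℝ) (f : Fin p → (E →L[ℝ] ℝ)) (f' : Fin p → (E →L[ℝ] (E →L[ℝ] ℝ)))
    (g : Fin q → (E →L[ℝ] ℝ)) (g' : Fin q → (E →L[ℝ] (E →L[ℝ] ℝ)))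
    (l : Fin p → ℝ) (m : Fin q → ℝ) (α β : E) :
    eqn (fun i => c • f i) (fun i => c • f' i) (fun i => c • g i)
      (fun i => c • g' i) l m α β = c • eqn f f' g g' l m α β := by
  simp only [eqn, smul_apply,
    ContinuousLinearMap.comp_smul, Prod.smul_mk, smul_comm _ c, ← Finset.smul_sum, ← smul_add]
  rfl

theorem contDiffOn_eqn [FiniteDimensional ℝ E] {S : Set (XX E p q)}
    {f : Fin p → XX E p q → (E →L[ℝ] ℝ)} {f' : Fin p → XX E p q → (E →L[ℝ] (E →L[ℝ] ℝ))}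
    {g : Fin q → XX E p q → (E →L[ℝ] ℝ)} {g' : Fin q → XX E p q → (E →L[ℝ] (E →L[ℝ] ℝ))}
    (hf : ∀ i, ContDiffOn ℝ 1 (f i) S) (hf' : ∀ i, ContDiffOn ℝ 1 (f' i) S)
    (hg : ∀ i, ContDiffOn ℝ 1 (g i) S) (hg' : ∀ i, ContDiffOn ℝ 1 (g' i) S) :
    ContDiffOn ℝ 1 (fun x : XX E p q => eqn (fun i => f i x) (fun i => f' i x)
      (fun j => g j x) (fun j => g' j x) x.2.1 x.2.2.1 x.2.2.2.1 x.2.2.2.2) S := by
  have hl : ∀ i, ContDiffOn ℝ 1 (fun x : XX E p q => x.2.1 i) S := fun i =>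
    ((contDiff_apply ℝ ℝ i).comp (contDiff_fst.comp contDiff_snd)).contDiffOn
  have hm : ∀ j, ContDiffOn ℝ 1 (fun x : XX E p q => x.2.2.1 j) S := fun j =>
    ((contDiff_apply ℝ ℝ j).comp (contDiff_fst.comp (contDiff_snd.comp contDiff_snd))).contDiffOn
  have hα : ContDiffOn ℝ 1 (fun x : XX E p q => x.2.2.2.1) S :=
    (contDiff_fst.comp (contDiff_snd.comp (contDiff_snd.comp contDiff_snd))).contDiffOn
  have hβ : ContDiffOn ℝ 1 (fun x : XX E p q => x.2.2.2.2) S :=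
    (contDiff_snd.comp (contDiff_snd.comp (contDiff_snd.comp contDiff_snd))).contDiffOn
  refine ContDiffOn.prodMk (ContDiffOn.sum fun i _ => (hl i).smul (hf i)) (ContDiffOn.prodMk
    (ContDiffOn.sum fun j _ => (hm j).smul (hg j)) (ContDiffOn.prodMk ?_ (ContDiffOn.prodMk ?_ ?_)))
  · rw [contDiffOn_pi]
    exact fun i => (hf i).clm_apply hα
  · rw [contDiffOn_pi]
    exact fun j => (hg j).clm_apply hβ
  · rw [contDiffOn_clm_apply]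
    intro ξ
    have h1 : (fun x : XX E p q =>
        ((∑ i, x.2.1 i • (ContinuousLinearMap.apply ℝ ℝ x.2.2.2.1).comp (f' i x)) +
          ∑ j, x.2.2.1 j • (ContinuousLinearMap.apply ℝ ℝ x.2.2.2.2).comp (g' j x)) ξ) =
        fun x => (∑ i, x.2.1 i * (f' i x ξ) x.2.2.2.1) +
          ∑ j, x.2.2.1 j * (g' j x ξ) x.2.2.2.2 := by
      ext x
      simp
    rw [h1]
    exact (ContDiffOn.sum fun i _ => (hl i).mul (((hf' i).clm_apply contDiffOn_const).clm_apply hα)).add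
      (ContDiffOn.sum fun j _ => (hm j).mul (((hg' j).clm_apply contDiffOn_const).clm_apply hβ))

end Eqn

section Generic

variable {E A F X : Type*} [NormedAddCommGroup E] [NormedSpace ℝ E]
  [NormedAddCommGroup A] [NormedSpace ℝ A] [NormedAddCommGroup F] [NormedSpace ℝ F]
  [NormedAddCommGroup X] [NormedSpace ℝ X]

theorem contDiffOn_fderiv_flip [FiniteDimensional ℝ E] {U : Set E} (hU : IsOpen U)
    {Θ : E → A →L[ℝ] F} (hΘ : ContDiffOn ℝ 2 Θ U) {S : Set X} {f : X → E}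
    (hf : ContDiffOn ℝ 1 f S) (hm : Set.MapsTo f S U) (a : A) :
    ContDiffOn ℝ 1 (fun x => (fderiv ℝ Θ (f x)).flip a) S := by
  rw [contDiffOn_clm_apply]
  intro ξ
  have h1 : ContDiffOn ℝ 1 (fun x => fderiv ℝ Θ (f x)) S :=
    (hΘ.fderiv_of_isOpen hU (by norm_num)).comp hf hm
  exact (h1.clm_apply contDiffOn_const).clm_apply contDiffOn_const

theorem hasFDerivAt_flip {Θ : E → A →L[ℝ] F} {u : E} (h : DifferentiableAt ℝ Θ u) (a : A) :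
    HasFDerivAt (fun y => Θ y a) ((fderiv ℝ Θ u).flip a) u := by
  have h1 := h.hasFDerivAt.clm_apply (hasFDerivAt_const a u)
  simpa using h1

end Generic

section Sys

variable {E : Type*} [NormedAddCommGroup E] [NormedSpace ℝ E] [FiniteDimensional ℝ E]
  {A : Type*} [NormedAddCommGroup A] [NormedSpace ℝ A] [FiniteDimensional ℝ A] {p q : ℕ}

/-- The linear part of the equations, as a linear map. -/
noncomputable def LM (Θ : Fin p → E → (A →L[ℝ] (E →L[ℝ] ℝ)))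
    (Η : Fin q → E → (A →L[ℝ] (E →L[ℝ] ℝ))) (x : XX E p q) : A →ₗ[ℝ] YY E p q where
  toFun a := eqn (fun i => Θ i x.1 a) (fun i => (fderiv ℝ (Θ i) x.1).flip a)
    (fun j => Η j x.1 a) (fun j => (fderiv ℝ (Η j) x.1).flip a) x.2.1 x.2.2.1 x.2.2.2.1 x.2.2.2.2
  map_add' a b := by
    simp only [map_add]
    exact eqn_add _ _ _ _ _ _ _ _ _ _ _ _
  map_smul' c a := by
    simp only [map_smul]
    exact eqn_smul _ _ _ _ _ _ _ _ _

/-- The linear part of the equations. -/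
noncomputable def L0 (Θ : Fin p → E → (A →L[ℝ] (E →L[ℝ] ℝ)))
    (Η : Fin q → E → (A →L[ℝ] (E →L[ℝ] ℝ))) (x : XX E p q) : A →L[ℝ] YY E p q :=
  LinearMap.toContinuousLinearMap (LM Θ Η x)

theorem L0_apply (Θ : Fin p → E → (A →L[ℝ] (E →L[ℝ] ℝ)))
    (Η : Fin q → E → (A →L[ℝ] (E →L[ℝ] ℝ))) (x : XX E p q) (a : A) : L0 Θ Η x a =
    eqn (fun i => Θ i x.1 a) (fun i => (fderiv ℝ (Θ i) x.1).flip a)
    (fun j => Η j x.1 a) (fun j => (fderiv ℝ (Η j) x.1).flip a) x.2.1 x.2.2.1 x.2.2.2.1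
      x.2.2.2.2 := rfl

/-- The constant part of the equations. -/
noncomputable def h0 (θ₀ : Fin p → E → (E →L[ℝ] ℝ)) (η₀ : Fin q → E → (E →L[ℝ] ℝ))
    (x : XX E p q) : YY E p q :=
  eqn (fun i => θ₀ i x.1) (fun i => fderiv ℝ (θ₀ i) x.1)
    (fun j => η₀ j x.1) (fun j => fderiv ℝ (η₀ j) x.1) x.2.1 x.2.2.1 x.2.2.2.1 x.2.2.2.2

theorem contDiffOn_h0 {U : Set E} (hU : IsOpen U)
    {θ₀ : Fin p → E → (E →L[ℝ] ℝ)} {η₀ : Fin q → E → (E →L[ℝ] ℝ)}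
    (hθ₀ : ∀ i, ContDiffOn ℝ 2 (θ₀ i) U) (hη₀ : ∀ j, ContDiffOn ℝ 2 (η₀ j) U) :
    ContDiffOn ℝ 1 (h0 θ₀ η₀) (U ×ˢ univ) := by
  have hf : ContDiffOn ℝ 1 (fun x : XX E p q => x.1) (U ×ˢ univ) := contDiffOn_fst
  have hm : MapsTo (fun x : XX E p q => x.1) (U ×ˢ univ) U := fun x hx => hx.1
  exact contDiffOn_eqn (fun i => ((hθ₀ i).of_le (by norm_num)).comp hf hm)
    (fun i => ((hθ₀ i).fderiv_of_isOpen hU (by norm_num)).comp hf hm)
    (fun i => ((hη₀ i).of_le (by norm_num)).comp hf hm)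
    (fun i => ((hη₀ i).fderiv_of_isOpen hU (by norm_num)).comp hf hm)

theorem contDiffOn_L0 {U : Set E} (hU : IsOpen U)
    {Θ : Fin p → E → (A →L[ℝ] (E →L[ℝ] ℝ))} {Η : Fin q → E → (A →L[ℝ] (E →L[ℝ] ℝ))}
    (hΘ : ∀ i, ContDiffOn ℝ 2 (Θ i) U) (hΗ : ∀ j, ContDiffOn ℝ 2 (Η j) U) :
    ContDiffOn ℝ 1 (L0 Θ Η) (U ×ˢ univ) := by
  have hf : ContDiffOn ℝ 1 (fun x : XX E p q => x.1) (U ×ˢ univ) := contDiffOn_fst
  have hm : MapsTo (fun x : XX E p q => x.1) (U ×ˢ univ) U := fun x hx => hx.1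
  rw [contDiffOn_clm_apply]
  intro a
  exact contDiffOn_eqn
    (fun i => (((hΘ i).of_le (by norm_num)).comp hf hm).clm_apply contDiffOn_const)
    (fun i => contDiffOn_fderiv_flip hU (hΘ i) hf hm a)
    (fun i => (((hΗ i).of_le (by norm_num)).comp hf hm).clm_apply contDiffOn_const)
    (fun i => contDiffOn_fderiv_flip hU (hΗ i) hf hm a)

theorem dimH_case {E' Y' : Type*} [NormedAddCommGroup E'] [NormedSpace ℝ E']
    [FiniteDimensional ℝ E'] [NormedAddCommGroup Y'] [NormedSpace ℝ Y'] [FiniteDimensional ℝ Y']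
    {U : Set E} (hU : IsOpen U) {L : XX E p q → A →L[ℝ] YY E p q} {h : XX E p q → YY E p q}
    (hL : ContDiffOn ℝ 1 L (U ×ˢ univ)) (hh : ContDiffOn ℝ 1 h (U ×ˢ univ))
    {P : E' → XX E p q} (hP : ContDiff ℝ 1 P) (π : YY E p q →L[ℝ] Y')
    (hdim : finrank ℝ E' < finrank ℝ Y') (Q : E' → Prop)
    (hs : ∀ x, (P x).1 ∈ U → Q x → Function.Surjective (fun a => π (L (P x) a))) :
    dimH {a : A | ∃ x, (P x).1 ∈ U ∧ Q x ∧ h (P x) + L (P x) a = 0} ≤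
      ((finrank ℝ A - 1 : ℕ) : ENNReal) := by
  have hV : IsOpen (P ⁻¹' (U ×ˢ univ)) := (hU.prod isOpen_univ).preimage hP.continuous
  have h1 : ContDiffOn ℝ 1 (fun x => π (h (P x))) (P ⁻¹' (U ×ˢ univ)) :=
    π.contDiff.comp_contDiffOn (hh.comp hP.contDiffOn fun x hx => hx)
  have h2 : ContDiffOn ℝ 1 (fun x => π.comp (L (P x))) (P ⁻¹' (U ×ˢ univ)) :=
    contDiffOn_const.clm_comp (hL.comp hP.contDiffOn fun x hx => hx)
  refine (dimH_mono ?_).trans (dimH_solutions_le hV h1 h2 hdim)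
  rintro a ⟨x, hx, hQ, ha⟩
  refine ⟨x, ⟨hx, mem_univ _⟩, hs x hx hQ, ?_⟩
  have := congrArg π ha
  rw [map_add, map_zero] at this
  exact this

theorem finrank_dual : finrank ℝ (E →L[ℝ] ℝ) = finrank ℝ E := by
  rw [← (LinearMap.toContinuousLinearMap : (E →ₗ[ℝ] ℝ) ≃ₗ[ℝ] (E →L[ℝ] ℝ)).finrank_eq]
  exact Subspace.dual_finrank_eq

theorem exists_eval (ψ : (E →L[ℝ] ℝ) →ₗ[ℝ] ℝ) : ∃ α : E, ∀ f, ψ f = f α := by
  obtain ⟨α, hα⟩ := (Module.evalEquiv ℝ E).surjective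
    (ψ ∘ₗ (LinearMap.toContinuousLinearMap : (E →ₗ[ℝ] ℝ) ≃ₗ[ℝ] (E →L[ℝ] ℝ)).toLinearMap)
  refine ⟨α, fun f => ?_⟩
  have := LinearMap.congr_fun hα f.toLinearMap
  exact this.symm

theorem exists_jet {l : Fin p → ℝ} {i₀ : Fin p} (hl : l i₀ = 1) {α : E} (hα : α ≠ 0)
    (y : E →L[ℝ] ℝ) (z : {i // i ≠ i₀} → ℝ) : ∃ f : Fin p → (E →L[ℝ] ℝ),
      ∑ i, l i • f i = y ∧ ∀ i : {i // i ≠ i₀}, f i.1 α = z i := by
  obtain ⟨φ, hφ⟩ := SeparatingDual.exists_eq_one (R := ℝ) hα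
  set w : E →L[ℝ] ℝ := ∑ i : {i // i ≠ i₀}, l i.1 • (z i • φ) with hw
  refine ⟨fun i => if h : i = i₀ then y - w else z ⟨i, h⟩ • φ, ?_, fun i => ?_⟩
  · rw [Fintype.sum_eq_add_sum_subtype_ne _ i₀]
    have h1 : ∀ i : {i // i ≠ i₀}, l i.1 • (if h : i.1 = i₀ then y - w else z ⟨i.1, h⟩ • φ) =
        l i.1 • (z i • φ) := by
      intro i
      rw [dif_neg i.2]
    rw [Finset.sum_congr rfl fun i _ => h1 i, ← hw, hl, one_smul]
    change (if h : i₀ = i₀ then y - w else z ⟨i₀, h⟩ • φ) + w = y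
    rw [dif_pos rfl, sub_add_cancel]
  · change (if h : i.1 = i₀ then y - w else z ⟨i.1, h⟩ • φ) α = z i
    rw [dif_neg i.2]
    simp [hφ]

theorem exists_jet' {l : Fin p → ℝ} {i₀ : Fin p} (hl : l i₀ = 1) {α : E} (hα : α ≠ 0)
    (y : E →L[ℝ] ℝ) : ∃ f' : Fin p → (E →L[ℝ] (E →L[ℝ] ℝ)),
      ∑ i, l i • (ContinuousLinearMap.apply ℝ ℝ α).comp (f' i) = y := by
  obtain ⟨φ, hφ⟩ := SeparatingDual.exists_eq_one (R := ℝ) hα
  refine ⟨Pi.single i₀ (y.smulRight φ), ?_⟩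
  rw [Finset.sum_eq_single i₀]
  · ext ξ
    simp [hl, hφ]
  · intro j _ hj
    simp [hj]
  · simp

theorem eqn_eq_zero_iff (f : Fin p → (E →L[ℝ] ℝ)) (f' : Fin p → (E →L[ℝ] (E →L[ℝ] ℝ)))
    (g : Fin q → (E →L[ℝ] ℝ)) (g' : Fin q → (E →L[ℝ] (E →L[ℝ] ℝ)))
    (l : Fin p → ℝ) (m : Fin q → ℝ) (α β : E) : eqn f f' g g' l m α β = 0 ↔
      (∑ i, l i • f i = 0) ∧ (∑ j, m j • g j = 0) ∧ (∀ i, f i α = 0) ∧ (∀ j, g j β = 0) ∧
      ∀ ξ, (∑ i, l i * (f' i ξ) α) + ∑ j, m j * (g' j ξ) β = 0 := by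
  rw [eqn]
  simp only [Prod.mk_eq_zero, funext_iff, Pi.zero_apply]
  refine and_congr Iff.rfl (and_congr Iff.rfl (and_congr Iff.rfl (and_congr Iff.rfl ?_)))
  constructor
  · intro h ξ
    have := congrArg (fun T : E →L[ℝ] ℝ => T ξ) h
    simpa using this
  · intro h
    ext ξ
    simpa using h ξ

theorem eqn_rescale {f : Fin p → (E →L[ℝ] ℝ)} {f' : Fin p → (E →L[ℝ] (E →L[ℝ] ℝ))}
    {g : Fin q → (E →L[ℝ] ℝ)} {g' : Fin q → (E →L[ℝ] (E →L[ℝ] ℝ))}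
    {l : Fin p → ℝ} {m : Fin q → ℝ} {α β : E} (h : eqn f f' g g' l m α β = 0)
    {s t : ℝ} (hs : s ≠ 0) (ht : t ≠ 0) (c : ℝ) :
    eqn f f' g g' (s • l) (t • m) ((c * s⁻¹) • α) ((c * t⁻¹) • β) = 0 := by
  rw [eqn_eq_zero_iff] at h ⊢
  obtain ⟨h1, h2, h3, h4, h5⟩ := h
  refine ⟨?_, ?_, ?_, ?_, ?_⟩
  · simp only [Pi.smul_apply, smul_assoc, ← Finset.smul_sum, h1, smul_zero]
  · simp only [Pi.smul_apply, smul_assoc, ← Finset.smul_sum, h2, smul_zero]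
  · intro i
    rw [map_smul, h3 i, smul_zero]
  · intro i
    rw [map_smul, h4 i, smul_zero]
  · intro ξ
    have e1 : ∀ i, (s • l) i * (f' i ξ) ((c * s⁻¹) • α) = c * (l i * (f' i ξ) α) := by
      intro i
      rw [map_smul, Pi.smul_apply, smul_eq_mul, smul_eq_mul]
      field_simp
    have e2 : ∀ j, (t • m) j * (g' j ξ) ((c * t⁻¹) • β) = c * (m j * (g' j ξ) β) := by
      intro j
      rw [map_smul, Pi.smul_apply, smul_eq_mul, smul_eq_mul]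
      field_simp
    rw [Finset.sum_congr rfl fun i _ => e1 i, Finset.sum_congr rfl fun j _ => e2 j,
      ← Finset.mul_sum, ← Finset.mul_sum, ← mul_add, h5 ξ, mul_zero]

theorem bad_solution {U : Set E} (hU : IsOpen U)
    {θ₀ : Fin p → E → (E →L[ℝ] ℝ)} {Θ : Fin p → E → (A →L[ℝ] (E →L[ℝ] ℝ))}
    {η₀ : Fin q → E → (E →L[ℝ] ℝ)} {Η : Fin q → E → (A →L[ℝ] (E →L[ℝ] ℝ))}
    (hθ₀ : ∀ i, ContDiffOn ℝ 2 (θ₀ i) U) (hΘ : ∀ i, ContDiffOn ℝ 2 (Θ i) U)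
    (hη₀ : ∀ j, ContDiffOn ℝ 2 (η₀ j) U) (hΗ : ∀ j, ContDiffOn ℝ 2 (Η j) U)
    {a : A} {u : E} (hu : u ∈ U) {l : Fin p → ℝ} {m : Fin q → ℝ}
    (hl : (∑ i, l i • (θ₀ i u + Θ i u a)) = 0) (hm : (∑ j, m j • (η₀ j u + Η j u a)) = 0)
    (hns : ¬ ∀ f g : E →L[ℝ] ℝ, ∃ (ξ : E) (l' : Fin p → ℝ) (m' : Fin q → ℝ),
        fderiv ℝ (fun y => ∑ i, l i • (θ₀ i y + Θ i y a)) u ξ +
          ∑ i, l' i • (θ₀ i u + Θ i u a) = f ∧
        fderiv ℝ (fun y => ∑ j, m j • (η₀ j y + Η j y a)) u ξ +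
          ∑ j, m' j • (η₀ j u + Η j u a) = g) :
    ∃ α β : E, (α ≠ 0 ∨ β ≠ 0) ∧ h0 θ₀ η₀ (u, l, m, α, β) + L0 Θ Η (u, l, m, α, β) a = 0 := by
  have hd1 : ∀ i, HasFDerivAt (fun y => θ₀ i y + Θ i y a)
      (fderiv ℝ (θ₀ i) u + (fderiv ℝ (Θ i) u).flip a) u := fun i =>
    (((hθ₀ i).differentiableOn (by norm_num)).differentiableAt (hU.mem_nhds hu)).hasFDerivAt.add
      (hasFDerivAt_flip (((hΘ i).differentiableOn (by norm_num)).differentiableAt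
        (hU.mem_nhds hu)) a)
  have hd2 : ∀ i, HasFDerivAt (fun y => η₀ i y + Η i y a)
      (fderiv ℝ (η₀ i) u + (fderiv ℝ (Η i) u).flip a) u := fun i =>
    (((hη₀ i).differentiableOn (by norm_num)).differentiableAt (hU.mem_nhds hu)).hasFDerivAt.add
      (hasFDerivAt_flip (((hΗ i).differentiableOn (by norm_num)).differentiableAt
        (hU.mem_nhds hu)) a)
  have hD1 : fderiv ℝ (fun y => ∑ i, l i • (θ₀ i y + Θ i y a)) u =
      ∑ i, l i • (fderiv ℝ (θ₀ i) u + (fderiv ℝ (Θ i) u).flip a) :=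
    (HasFDerivAt.fun_sum fun i _ => (hd1 i).const_smul (l i)).fderiv
  have hD2 : fderiv ℝ (fun y => ∑ i, m i • (η₀ i y + Η i y a)) u =
      ∑ i, m i • (fderiv ℝ (η₀ i) u + (fderiv ℝ (Η i) u).flip a) :=
    (HasFDerivAt.fun_sum fun i _ => (hd2 i).const_smul (m i)).fderiv
  rw [hD1, hD2] at hns
  set T : E × (Fin p → ℝ) × (Fin q → ℝ) →ₗ[ℝ] (E →L[ℝ] ℝ) × (E →L[ℝ] ℝ) :=
    { toFun := fun x =>
        ((∑ i, l i • (fderiv ℝ (θ₀ i) u + (fderiv ℝ (Θ i) u).flip a)) x.1 +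
          ∑ i, x.2.1 i • (θ₀ i u + Θ i u a),
        (∑ i, m i • (fderiv ℝ (η₀ i) u + (fderiv ℝ (Η i) u).flip a)) x.1 +
          ∑ j, x.2.2 j • (η₀ j u + Η j u a))
      map_add' := by
        intro x y
        simp only [Prod.fst_add, Prod.snd_add, Pi.add_apply, map_add, add_smul,
          Finset.sum_add_distrib, Prod.mk_add_mk]
        refine Prod.ext ?_ ?_ <;> simp only <;> abel
      map_smul' := by
        intro c x
        simp only [Prod.smul_fst, Prod.smul_snd, Pi.smul_apply, map_smul, smul_assoc,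
          Finset.smul_sum, Prod.smul_mk, RingHom.id_apply, smul_add] } with hT
  have hrange : LinearMap.range T < ⊤ := by
    rw [lt_top_iff_ne_top]
    intro h
    apply hns
    intro f g
    obtain ⟨x, hx⟩ := LinearMap.range_eq_top.1 h (f, g)
    exact ⟨x.1, x.2.1, x.2.2, congrArg Prod.fst hx, congrArg Prod.snd hx⟩
  obtain ⟨φ, hφ0, hφ⟩ := Submodule.exists_le_ker_of_lt_top _ hrange
  obtain ⟨α, hα⟩ := exists_eval (φ ∘ₗ LinearMap.inl ℝ (E →L[ℝ] ℝ) (E →L[ℝ] ℝ))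
  obtain ⟨β, hβ⟩ := exists_eval (φ ∘ₗ LinearMap.inr ℝ (E →L[ℝ] ℝ) (E →L[ℝ] ℝ))
  have hφe : ∀ f g : E →L[ℝ] ℝ, φ (f, g) = f α + g β := by
    intro f g
    have h1 : ((f, g) : (E →L[ℝ] ℝ) × (E →L[ℝ] ℝ)) = (f, 0) + (0, g) := by simp
    rw [h1, map_add]
    have h2 : φ (f, 0) = f α := hα f
    have h3 : φ (0, g) = g β := hβ g
    rw [h2, h3]
  have hk : ∀ x, (T x).1 α + (T x).2 β = 0 := by
    intro x
    rw [← hφe]
    exact hφ (LinearMap.mem_range_self T x)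
  refine ⟨α, β, ?_, ?_⟩
  · by_contra hc
    push Not at hc
    apply hφ0
    ext x
    · simp [hφe, hc.1, hc.2]
    · simp [hφe, hc.1, hc.2]
  · rw [L0_apply, h0, ← eqn_add, eqn_eq_zero_iff]
    refine ⟨hl, hm, fun i => ?_, fun j => ?_, fun ξ => ?_⟩
    · have h1 := hk (0, Pi.single i 1, 0)
      have e1 : (T (0, Pi.single i 1, 0)).1 = θ₀ i u + Θ i u a := by
        simp only [hT, LinearMap.coe_mk, AddHom.coe_mk, map_zero, zero_add]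
        rw [Finset.sum_eq_single i]
        · simp
        · intro k _ hk
          simp [hk]
        · simp
      have e2 : (T (0, Pi.single i 1, 0)).2 = 0 := by
        simp [hT]
      rw [e1, e2] at h1
      simpa using h1
    · have h1 := hk (0, 0, Pi.single j 1)
      have e1 : (T (0, 0, Pi.single j 1)).2 = η₀ j u + Η j u a := by
        simp only [hT, LinearMap.coe_mk, AddHom.coe_mk, map_zero, zero_add]
        rw [Finset.sum_eq_single j]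
        · simp
        · intro k _ hk
          simp [hk]
        · simp
      have e2 : (T (0, 0, Pi.single j 1)).1 = 0 := by
        simp [hT]
      rw [e1, e2] at h1
      simpa using h1
    · have := hk (ξ, 0, 0)
      simpa [hT, mul_add] using this

theorem surj_A {U : Set E} (hU : IsOpen U)
    {Θ : Fin p → E → (A →L[ℝ] (E →L[ℝ] ℝ))} {Η : Fin q → E → (A →L[ℝ] (E →L[ℝ] ℝ))}
    (hΘ : ∀ i, ContDiffOn ℝ 2 (Θ i) U) (hΗ : ∀ j, ContDiffOn ℝ 2 (Η j) U)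
    {u : E} (hu : u ∈ U)
    (hjet : ∀ (f : Fin p → (E →L[ℝ] ℝ)) (f' : Fin p → (E →L[ℝ] (E →L[ℝ] ℝ)))
      (g : Fin q → (E →L[ℝ] ℝ)) (g' : Fin q → (E →L[ℝ] (E →L[ℝ] ℝ))), ∃ a : A,
        (∀ i, Θ i u a = f i) ∧ (∀ i, fderiv ℝ (fun y => Θ i y a) u = f' i) ∧
        (∀ j, Η j u a = g j) ∧ (∀ j, fderiv ℝ (fun y => Η j y a) u = g' j))
    (f : Fin p → (E →L[ℝ] ℝ)) (f' : Fin p → (E →L[ℝ] (E →L[ℝ] ℝ)))
    (g : Fin q → (E →L[ℝ] ℝ)) (g' : Fin q → (E →L[ℝ] (E →L[ℝ] ℝ)))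
    (l : Fin p → ℝ) (m : Fin q → ℝ) (α β : E) :
    ∃ a : A, L0 Θ Η (u, l, m, α, β) a = eqn f f' g g' l m α β := by
  obtain ⟨a, h1, h2, h3, h4⟩ := hjet f f' g g'
  refine ⟨a, ?_⟩
  have e1 : ∀ i, (fderiv ℝ (Θ i) u).flip a = f' i := fun i => by
    rw [← h2 i]
    exact (hasFDerivAt_flip (((hΘ i).differentiableOn (by norm_num)).differentiableAt
      (hU.mem_nhds hu)) a).fderiv.symm
  have e2 : ∀ i, (fderiv ℝ (Η i) u).flip a = g' i := fun i => by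
    rw [← h4 i]
    exact (hasFDerivAt_flip (((hΗ i).differentiableOn (by norm_num)).differentiableAt
      (hU.mem_nhds hu)) a).fderiv.symm
  rw [L0_apply]
  simp only [h1, e1, h3, e2]

theorem dimH_three {κ : Type*} [Countable κ] {S₁ S₂ S₃ : κ → Set A} {d : ENNReal}
    (h₁ : ∀ x, dimH (S₁ x) ≤ d) (h₂ : ∀ x, dimH (S₂ x) ≤ d) (h₃ : ∀ x, dimH (S₃ x) ≤ d) :
    dimH ((⋃ x, S₁ x) ∪ ((⋃ x, S₂ x) ∪ ⋃ x, S₃ x)) ≤ d := by
  rw [dimH_union, dimH_union, dimH_iUnion, dimH_iUnion, dimH_iUnion]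
  exact max_le (iSup_le h₁) (max_le (iSup_le h₂) (iSup_le h₃))

theorem exists_jet_zero {m : Fin q → ℝ} {j₀ : Fin q} (hm : m j₀ = 1) (y : E →L[ℝ] ℝ) :
    ∃ g : Fin q → (E →L[ℝ] ℝ), ∑ j, m j • g j = y := by
  refine ⟨Pi.single j₀ y, ?_⟩
  rw [Finset.sum_eq_single j₀]
  · simp [hm]
  · intro j _ hj
    simp [hj]
  · simp

end Sys

end LocRegAux

open LocRegAux

/-- `θ i u a = θ0 i u + Θ i u a` are `p` families of covector fields on the open set `U`, affine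
in the parameter `a`, and `η j` are `q` families; all the 1-jets are realised. Then outside a set
of parameters of small dimension all the zeros are regular. -/
theorem dimH_irregular {E : Type*} [NormedAddCommGroup E] [NormedSpace ℝ E]
    [FiniteDimensional ℝ E] {A : Type*} [NormedAddCommGroup A] [NormedSpace ℝ A]
    [FiniteDimensional ℝ A] {p q : ℕ} (hE : 0 < finrank ℝ E) (hp : p ≤ finrank ℝ E + 1)
    (hq : q ≤ finrank ℝ E + 1) {U : Set E} (hU : IsOpen U)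
    {θ₀ : Fin p → E → (E →L[ℝ] ℝ)} {Θ : Fin p → E → (A →L[ℝ] (E →L[ℝ] ℝ))}
    {η₀ : Fin q → E → (E →L[ℝ] ℝ)} {Η : Fin q → E → (A →L[ℝ] (E →L[ℝ] ℝ))}
    (hθ₀ : ∀ i, ContDiffOn ℝ 2 (θ₀ i) U) (hΘ : ∀ i, ContDiffOn ℝ 2 (Θ i) U)
    (hη₀ : ∀ j, ContDiffOn ℝ 2 (η₀ j) U) (hΗ : ∀ j, ContDiffOn ℝ 2 (Η j) U)
    (hjet : ∀ u ∈ U, ∀ (f : Fin p → (E →L[ℝ] ℝ)) (f' : Fin p → (E →L[ℝ] (E →L[ℝ] ℝ)))
      (g : Fin q → (E →L[ℝ] ℝ)) (g' : Fin q → (E →L[ℝ] (E →L[ℝ] ℝ))), ∃ a : A,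
        (∀ i, Θ i u a = f i) ∧ (∀ i, fderiv ℝ (fun y => Θ i y a) u = f' i) ∧
        (∀ j, Η j u a = g j) ∧ (∀ j, fderiv ℝ (fun y => Η j y a) u = g' j)) :
    dimH {a : A | ∃ u ∈ U, ∃ (l : Fin p → ℝ) (m : Fin q → ℝ), l ≠ 0 ∧ m ≠ 0 ∧
      (∑ i, l i • (θ₀ i u + Θ i u a)) = 0 ∧ (∑ j, m j • (η₀ j u + Η j u a)) = 0 ∧
      ¬ ∀ f g : E →L[ℝ] ℝ, ∃ (ξ : E) (l' : Fin p → ℝ) (m' : Fin q → ℝ),
        fderiv ℝ (fun y => ∑ i, l i • (θ₀ i y + Θ i y a)) u ξ +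
          ∑ i, l' i • (θ₀ i u + Θ i u a) = f ∧
        fderiv ℝ (fun y => ∑ j, m j • (η₀ j y + Η j y a)) u ξ +
          ∑ j, m' j • (η₀ j u + Η j u a) = g} ≤ ((finrank ℝ A - 1 : ℕ) : ENNReal) := by
  classical
  set b := Module.finBasis ℝ E with hb
  -- the normalised vectors
  have hcb : ∀ k₀, ContDiff ℝ 1 (fun e : {k // k ≠ k₀} → ℝ => b.equivFun.symm (ext1 k₀ e)) :=
    fun k₀ => (LinearMap.toContinuousLinearMap b.equivFun.symm.toLinearMap).contDiff.comp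
      (contDiff_ext1 k₀)
  have hb0 : ∀ k₀ (e : {k // k ≠ k₀} → ℝ), b.equivFun.symm (ext1 k₀ e) ≠ 0 := by
    intro k₀ e h
    have h1 := congrArg (fun x => b.equivFun x k₀) h
    simp only [LinearEquiv.apply_symm_apply, ext1_self, map_zero, Pi.zero_apply] at h1
    exact one_ne_zero h1
  have hL := contDiffOn_L0 hU hΘ hΗ
  have hh := contDiffOn_h0 hU hθ₀ hη₀
  have hfd : finrank ℝ (E →L[ℝ] ℝ) = finrank ℝ E := finrank_dual
  -- the three families of bad sets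
  have hA : ∀ x : Fin p × Fin q × Fin (finrank ℝ E),
      dimH {a : A | ∃ y : E × ({i // i ≠ x.1} → ℝ) × ({j // j ≠ x.2.1} → ℝ) ×
        ({k // k ≠ x.2.2} → ℝ) × E, y.1 ∈ U ∧ y.2.2.2.2 ≠ 0 ∧
        h0 θ₀ η₀ (y.1, ext1 x.1 y.2.1, ext1 x.2.1 y.2.2.1,
          b.equivFun.symm (ext1 x.2.2 y.2.2.2.1), y.2.2.2.2) +
        L0 Θ Η (y.1, ext1 x.1 y.2.1, ext1 x.2.1 y.2.2.1,
          b.equivFun.symm (ext1 x.2.2 y.2.2.2.1), y.2.2.2.2) a = 0} ≤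
          ((finrank ℝ A - 1 : ℕ) : ENNReal) := by
    rintro ⟨i₀, j₀, k₀⟩
    have hP : ContDiff ℝ 1 (fun y : E × ({i // i ≠ i₀} → ℝ) × ({j // j ≠ j₀} → ℝ) ×
        ({k // k ≠ k₀} → ℝ) × E => ((y.1, ext1 i₀ y.2.1, ext1 j₀ y.2.2.1,
          b.equivFun.symm (ext1 k₀ y.2.2.2.1), y.2.2.2.2) : XX E p q)) :=
      contDiff_fst.prodMk (((contDiff_ext1 i₀).comp (contDiff_fst.comp contDiff_snd)).prodMk
        (((contDiff_ext1 j₀).comp (contDiff_fst.comp (contDiff_snd.comp contDiff_snd))).prodMk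
        (((hcb k₀).comp (contDiff_fst.comp (contDiff_snd.comp
          (contDiff_snd.comp contDiff_snd)))).prodMk
        (contDiff_snd.comp (contDiff_snd.comp (contDiff_snd.comp contDiff_snd))))))
    refine dimH_case hU hL hh hP ((ContinuousLinearMap.id ℝ (E →L[ℝ] ℝ)).prodMap
      ((ContinuousLinearMap.id ℝ (E →L[ℝ] ℝ)).prodMap ((restr i₀).prodMap ((restr j₀).prodMap
        (ContinuousLinearMap.id ℝ (E →L[ℝ] ℝ)))))) ?_ (fun y => y.2.2.2.2 ≠ 0) ?_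
    · have e1 := finrank_ne i₀
      have e2 := finrank_ne j₀
      have e3 := finrank_ne k₀
      rw [Fintype.card_fin] at e1 e2 e3
      simp only [Module.finrank_prod, hfd]
      omega
    · intro y hy hQ z
      obtain ⟨f, hf1, hf2⟩ := exists_jet (ext1_self i₀ y.2.1) (hb0 k₀ y.2.2.2.1) z.1 z.2.2.1
      obtain ⟨g, hg1, hg2⟩ := exists_jet (ext1_self j₀ y.2.2.1) hQ z.2.1 z.2.2.2.1
      obtain ⟨f', hf'⟩ := exists_jet' (ext1_self i₀ y.2.1) (hb0 k₀ y.2.2.2.1) z.2.2.2.2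
      obtain ⟨a, ha⟩ := surj_A hU hΘ hΗ hy (hjet _ hy) f f' g 0 (ext1 i₀ y.2.1)
        (ext1 j₀ y.2.2.1) (b.equivFun.symm (ext1 k₀ y.2.2.2.1)) y.2.2.2.2
      refine ⟨a, ?_⟩
      simp only [ha]
      refine Prod.ext hf1 (Prod.ext hg1 (Prod.ext (funext hf2) (Prod.ext (funext hg2) ?_)))
      change (∑ i, ext1 i₀ y.2.1 i • (ContinuousLinearMap.apply ℝ ℝ
        (b.equivFun.symm (ext1 k₀ y.2.2.2.1))).comp (f' i)) + (∑ j, ext1 j₀ y.2.2.1 j •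
        (ContinuousLinearMap.apply ℝ ℝ y.2.2.2.2).comp 0) = z.2.2.2.2
      rw [hf']
      simp
  have hB : ∀ x : Fin p × Fin q × Fin (finrank ℝ E),
      dimH {a : A | ∃ y : E × ({i // i ≠ x.1} → ℝ) × ({j // j ≠ x.2.1} → ℝ) ×
        ({k // k ≠ x.2.2} → ℝ), y.1 ∈ U ∧ True ∧
        h0 θ₀ η₀ (y.1, ext1 x.1 y.2.1, ext1 x.2.1 y.2.2.1,
          b.equivFun.symm (ext1 x.2.2 y.2.2.2), 0) +
        L0 Θ Η (y.1, ext1 x.1 y.2.1, ext1 x.2.1 y.2.2.1,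
          b.equivFun.symm (ext1 x.2.2 y.2.2.2), 0) a = 0} ≤
          ((finrank ℝ A - 1 : ℕ) : ENNReal) := by
    rintro ⟨i₀, j₀, k₀⟩
    have hP : ContDiff ℝ 1 (fun y : E × ({i // i ≠ i₀} → ℝ) × ({j // j ≠ j₀} → ℝ) ×
        ({k // k ≠ k₀} → ℝ) => ((y.1, ext1 i₀ y.2.1, ext1 j₀ y.2.2.1,
          b.equivFun.symm (ext1 k₀ y.2.2.2), 0) : XX E p q)) :=
      contDiff_fst.prodMk (((contDiff_ext1 i₀).comp (contDiff_fst.comp contDiff_snd)).prodMk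
        (((contDiff_ext1 j₀).comp (contDiff_fst.comp (contDiff_snd.comp contDiff_snd))).prodMk
        (((hcb k₀).comp (contDiff_snd.comp (contDiff_snd.comp contDiff_snd))).prodMk
        contDiff_const)))
    refine dimH_case hU hL hh hP ((ContinuousLinearMap.id ℝ (E →L[ℝ] ℝ)).prodMap
      ((ContinuousLinearMap.id ℝ (E →L[ℝ] ℝ)).prodMap ((restr i₀).prodMap
        (ContinuousLinearMap.snd ℝ (Fin q → ℝ) (E →L[ℝ] ℝ))))) ?_ (fun _ => True) ?_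
    · have e1 := finrank_ne i₀
      have e2 := finrank_ne j₀
      have e3 := finrank_ne k₀
      rw [Fintype.card_fin] at e1 e2 e3
      simp only [Module.finrank_prod, hfd]
      omega
    · intro y hy _ z
      obtain ⟨f, hf1, hf2⟩ := exists_jet (ext1_self i₀ y.2.1) (hb0 k₀ y.2.2.2) z.1 z.2.2.1
      obtain ⟨g, hg1⟩ := exists_jet_zero (ext1_self j₀ y.2.2.1) z.2.1
      obtain ⟨f', hf'⟩ := exists_jet' (ext1_self i₀ y.2.1) (hb0 k₀ y.2.2.2) z.2.2.2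
      obtain ⟨a, ha⟩ := surj_A hU hΘ hΗ hy (hjet _ hy) f f' g 0 (ext1 i₀ y.2.1)
        (ext1 j₀ y.2.2.1) (b.equivFun.symm (ext1 k₀ y.2.2.2)) 0
      refine ⟨a, ?_⟩
      simp only [ha]
      refine Prod.ext hf1 (Prod.ext hg1 (Prod.ext (funext hf2) ?_))
      change (∑ i, ext1 i₀ y.2.1 i • (ContinuousLinearMap.apply ℝ ℝ
        (b.equivFun.symm (ext1 k₀ y.2.2.2))).comp (f' i)) + (∑ j, ext1 j₀ y.2.2.1 j •
        (ContinuousLinearMap.apply ℝ ℝ (0 : E)).comp 0) = z.2.2.2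
      rw [hf']
      simp
  have hC : ∀ x : Fin p × Fin q × Fin (finrank ℝ E),
      dimH {a : A | ∃ y : E × ({i // i ≠ x.1} → ℝ) × ({j // j ≠ x.2.1} → ℝ) ×
        ({k // k ≠ x.2.2} → ℝ), y.1 ∈ U ∧ True ∧
        h0 θ₀ η₀ (y.1, ext1 x.1 y.2.1, ext1 x.2.1 y.2.2.1, 0,
          b.equivFun.symm (ext1 x.2.2 y.2.2.2)) +
        L0 Θ Η (y.1, ext1 x.1 y.2.1, ext1 x.2.1 y.2.2.1, 0,
          b.equivFun.symm (ext1 x.2.2 y.2.2.2)) a = 0} ≤
          ((finrank ℝ A - 1 : ℕ) : ENNReal) := by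
    rintro ⟨i₀, j₀, k₀⟩
    have hP : ContDiff ℝ 1 (fun y : E × ({i // i ≠ i₀} → ℝ) × ({j // j ≠ j₀} → ℝ) ×
        ({k // k ≠ k₀} → ℝ) => ((y.1, ext1 i₀ y.2.1, ext1 j₀ y.2.2.1, 0,
          b.equivFun.symm (ext1 k₀ y.2.2.2)) : XX E p q)) :=
      contDiff_fst.prodMk (((contDiff_ext1 i₀).comp (contDiff_fst.comp contDiff_snd)).prodMk
        (((contDiff_ext1 j₀).comp (contDiff_fst.comp (contDiff_snd.comp contDiff_snd))).prodMk
        (contDiff_const.prodMk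
        ((hcb k₀).comp (contDiff_snd.comp (contDiff_snd.comp contDiff_snd))))))
    refine dimH_case hU hL hh hP ((ContinuousLinearMap.id ℝ (E →L[ℝ] ℝ)).prodMap
      ((ContinuousLinearMap.id ℝ (E →L[ℝ] ℝ)).prodMap (((restr j₀).prodMap
        (ContinuousLinearMap.id ℝ (E →L[ℝ] ℝ))).comp (ContinuousLinearMap.snd ℝ (Fin p → ℝ)
        ((Fin q → ℝ) × (E →L[ℝ] ℝ)))))) ?_ (fun _ => True) ?_
    · have e1 := finrank_ne i₀
      have e2 := finrank_ne j₀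
      have e3 := finrank_ne k₀
      rw [Fintype.card_fin] at e1 e2 e3
      simp only [Module.finrank_prod, hfd]
      omega
    · intro y hy _ z
      obtain ⟨g, hg1, hg2⟩ := exists_jet (ext1_self j₀ y.2.2.1) (hb0 k₀ y.2.2.2) z.2.1 z.2.2.1
      obtain ⟨f, hf1⟩ := exists_jet_zero (ext1_self i₀ y.2.1) z.1
      obtain ⟨g', hg'⟩ := exists_jet' (ext1_self j₀ y.2.2.1) (hb0 k₀ y.2.2.2) z.2.2.2
      obtain ⟨a, ha⟩ := surj_A hU hΘ hΗ hy (hjet _ hy) f 0 g g' (ext1 i₀ y.2.1)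
        (ext1 j₀ y.2.2.1) 0 (b.equivFun.symm (ext1 k₀ y.2.2.2))
      refine ⟨a, ?_⟩
      simp only [ha]
      refine Prod.ext hf1 (Prod.ext hg1 (Prod.ext (funext hg2) ?_))
      change (∑ i, ext1 i₀ y.2.1 i • (ContinuousLinearMap.apply ℝ ℝ (0 : E)).comp 0) +
        (∑ j, ext1 j₀ y.2.2.1 j • (ContinuousLinearMap.apply ℝ ℝ
        (b.equivFun.symm (ext1 k₀ y.2.2.2))).comp (g' j)) = z.2.2.2
      rw [hg']
      simp
  refine (dimH_mono ?_).trans (dimH_three hA hB hC)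
  rintro a ⟨u, hu, l, m, hl0, hm0, hl, hm, hns⟩
  obtain ⟨α, β, hαβ, hz⟩ := bad_solution hU hθ₀ hΘ hη₀ hΗ hu hl hm hns
  obtain ⟨i₀, hi₀⟩ := Function.ne_iff.1 hl0
  obtain ⟨j₀, hj₀⟩ := Function.ne_iff.1 hm0
  rw [Pi.zero_apply] at hi₀ hj₀
  have hcoord : ∀ γ : E, γ ≠ 0 → ∃ k₀, b.equivFun γ k₀ ≠ 0 := by
    intro γ hγ
    have h1 : b.equivFun γ ≠ 0 := by
      rwa [Ne, LinearEquiv.map_eq_zero_iff]
    exact Function.ne_iff.1 h1
  have hnorm : ∀ (γ : E) k₀, b.equivFun γ k₀ ≠ 0 →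
      b.equivFun.symm (ext1 k₀ (fun k => ((b.equivFun γ k₀)⁻¹ • b.equivFun γ) k.1)) =
        (b.equivFun γ k₀)⁻¹ • γ := by
    intro γ k₀ h
    have h1 : ((b.equivFun γ k₀)⁻¹ • b.equivFun γ) k₀ = 1 := by
      rw [Pi.smul_apply, smul_eq_mul]
      exact inv_mul_cancel₀ h
    rw [ext1_restrict h1, map_smul, LinearEquiv.symm_apply_apply]
  have hl1 : ext1 i₀ (fun i => ((l i₀)⁻¹ • l) i.1) = (l i₀)⁻¹ • l :=
    ext1_restrict (by simp [hi₀])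
  have hm1 : ext1 j₀ (fun i => ((m j₀)⁻¹ • m) i.1) = (m j₀)⁻¹ • m :=
    ext1_restrict (by simp [hj₀])
  rw [L0_apply, h0, ← eqn_add] at hz
  have key := fun c => eqn_rescale hz (inv_ne_zero hi₀) (inv_ne_zero hj₀) c
  by_cases hβ : β = 0
  · have hα : α ≠ 0 := by tauto
    subst hβ
    obtain ⟨k₀, hk₀⟩ := hcoord (l i₀ • α) (smul_ne_zero hi₀ hα)
    refine Or.inr (Or.inl (mem_iUnion.2 ⟨(i₀, j₀, k₀), ?_⟩))
    refine ⟨(u, fun i => ((l i₀)⁻¹ • l) i.1, fun i => ((m j₀)⁻¹ • m) i.1, fun k =>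
      ((b.equivFun (l i₀ • α) k₀)⁻¹ • b.equivFun (l i₀ • α)) k.1), hu, trivial, ?_⟩
    have h1 := key (b.equivFun (l i₀ • α) k₀)⁻¹
    rw [inv_inv, inv_inv, mul_smul, smul_zero] at h1
    simp only [hl1, hm1, hnorm _ _ hk₀]
    rw [L0_apply, h0, ← eqn_add]
    exact h1
  · by_cases hα : α = 0
    · subst hα
      obtain ⟨k₀, hk₀⟩ := hcoord (m j₀ • β) (smul_ne_zero hj₀ hβ)
      refine Or.inr (Or.inr (mem_iUnion.2 ⟨(i₀, j₀, k₀), ?_⟩))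
      refine ⟨(u, fun i => ((l i₀)⁻¹ • l) i.1, fun i => ((m j₀)⁻¹ • m) i.1, fun k =>
        ((b.equivFun (m j₀ • β) k₀)⁻¹ • b.equivFun (m j₀ • β)) k.1), hu, trivial, ?_⟩
      have h1 := key (b.equivFun (m j₀ • β) k₀)⁻¹
      rw [inv_inv, inv_inv, smul_zero, mul_smul] at h1
      simp only [hl1, hm1, hnorm _ _ hk₀]
      rw [L0_apply, h0, ← eqn_add]
      exact h1
    · obtain ⟨k₀, hk₀⟩ := hcoord (l i₀ • α) (smul_ne_zero hi₀ hα)
      refine Or.inl (mem_iUnion.2 ⟨(i₀, j₀, k₀), ?_⟩)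
      refine ⟨(u, fun i => ((l i₀)⁻¹ • l) i.1, fun i => ((m j₀)⁻¹ • m) i.1, fun k =>
        ((b.equivFun (l i₀ • α) k₀)⁻¹ • b.equivFun (l i₀ • α)) k.1,
        ((b.equivFun (l i₀ • α) k₀)⁻¹ * m j₀) • β), hu,
        smul_ne_zero (mul_ne_zero (inv_ne_zero hk₀) hj₀) hβ, ?_⟩
      have h1 := key (b.equivFun (l i₀ • α) k₀)⁻¹
      rw [inv_inv, inv_inv, mul_smul _ (l i₀)] at h1
      simp only [hl1, hm1, hnorm _ _ hk₀]
      rw [L0_apply, h0, ← eqn_add]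
      exact h1

end Pool.Agent.MP_f1864b_gt
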