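import Pool.Agent.Lib.MP_f1864b_gt.Form
import Pool.Agent.Lib.MP_f1864b_gt.C.Defs

set_option autoImplicit false

/-!
# Counting the zeros of symmetric families of 1-forms

`τ` is an involution of `M`, `e : M → V` satisfies `e ∘ τ = s ∘ e`; the first form of each family
is `τ`-invariant and the others are anti-invariant. Then `τ` acts on the set of zeros and the
number of zeros is congruent modulo 2 to the number of isolated fixed points.
-/

namespace Pool.Agent.MP_f1864b_gt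

open scoped Manifold ContDiff Topology Matrix
open Set Topology Module Pool.Agent.Dold

/-- The parity of a finite set is the parity of the set of fixed points of an involution. -/
theorem even_ncard_iff_fixed {α : Type*} (Z : Set α) (hZ : Z.Finite) (f : α → α)
    (hf : ∀ z ∈ Z, f z ∈ Z) (hff : ∀ z ∈ Z, f (f z) = z) :
    Even Z.ncard ↔ Even ({z | z ∈ Z ∧ f z = z}.ncard) := by
  classical
  have hF : {z | z ∈ Z ∧ f z = z}.Finite := hZ.subset fun z hz => hz.1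
  rw [Set.ncard_eq_toFinset_card Z hZ, Set.ncard_eq_toFinset_card _ hF]
  have h1 : hF.toFinset = hZ.toFinset.filter fun z => f z = z := by
    ext z
    simp
  have h2 : (hZ.toFinset.filter fun z => ¬ f z = z).card + hF.toFinset.card =
      hZ.toFinset.card := by
    rw [h1, add_comm]
    exact Finset.card_filter_add_card_filter_not _
  have h3 : Even (hZ.toFinset.filter fun z => ¬ f z = z).card := by
    rw [← ZMod.natCast_eq_zero_iff_even]
    have h4 : ∑ _z ∈ hZ.toFinset.filter fun z => ¬ f z = z, (1 : ZMod 2) = 0 := by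
      refine Finset.sum_involution (fun z _ => f z) ?_ ?_ ?_ ?_
      · intro z _
        decide
      · intro z hz _
        exact (Finset.mem_filter.mp hz).2
      · intro z hz
        rw [Finset.mem_filter, Set.Finite.mem_toFinset] at hz ⊢
        refine ⟨hf z hz.1, fun h => hz.2 ?_⟩
        rw [hff z hz.1] at h
        exact h.symm
      · intro z hz
        rw [Finset.mem_filter, Set.Finite.mem_toFinset] at hz
        exact hff z hz.1
    simpa using h4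
  rw [← h2, Nat.even_add]
  simp [h3]

section Count

variable {M : Type*} [TopologicalSpace M] [ChartedSpace R5 M] [IsManifold (𝓡 5) ∞ M]

theorem sgA_sq (i : Fin 4) : sgA i * sgA i = 1 := by
  fin_cases i <;> simp [sgA]

theorem sgB_sq (i : Fin 3) : sgB i * sgB i = 1 := by
  fin_cases i <;> simp [sgB]

omit [IsManifold (𝓡 5) ∞ M] in
theorem dAt_comp_dAt {τ : M → M} (hτ : ContMDiff (𝓡 5) (𝓡 5) ∞ τ) (hinv : ∀ p, τ (τ p) = p)
    (x : M) : (dAt τ (τ x)).comp (dAt τ x) = ContinuousLinearMap.id ℝ R5 := by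
  have h1 : mfderiv (𝓡 5) (𝓡 5) (τ ∘ τ) x =
      (mfderiv (𝓡 5) (𝓡 5) τ (τ x)).comp (mfderiv (𝓡 5) (𝓡 5) τ x) :=
    mfderiv_comp x ((hτ (τ x)).mdifferentiableAt (by simp)) ((hτ x).mdifferentiableAt (by simp))
  have h2 : τ ∘ τ = id := funext hinv
  have h3 : mfderiv (𝓡 5) (𝓡 5) (τ ∘ τ) x = ContinuousLinearMap.id ℝ R5 := by
    rw [h2]
    exact mfderiv_id
  exact h1.symm.trans h3

omit [IsManifold (𝓡 5) ∞ M] in
theorem dAt_surjective {τ : M → M} (hτ : ContMDiff (𝓡 5) (𝓡 5) ∞ τ) (hinv : ∀ p, τ (τ p) = p)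
    (x : M) : Function.Surjective (dAt τ x) := by
  intro v
  refine ⟨dAt τ (τ x) v, ?_⟩
  have h := dAt_comp_dAt hτ hinv (τ x)
  rw [hinv] at h
  exact congrArg (fun L : R5 →L[ℝ] R5 => L v) h

variable {V : Type*} [NormedAddCommGroup V] [NormedSpace ℝ V]

omit [IsManifold (𝓡 5) ∞ M] in
theorem form_symm {τ : M → M} (hτ : ContMDiff (𝓡 5) (𝓡 5) ∞ τ) {e : M → V}
    (he : ContMDiff (𝓡 5) 𝓘(ℝ, V) ∞ e) {s : V →L[ℝ] V} (hes : ∀ x, e (τ x) = s (e x))
    {v : M → (V →L[ℝ] ℝ)} {ε : ℝ} (hv : ∀ x, (v (τ x)).comp s = ε • v x) (x : M) :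
    (form (𝓡 5) e v (τ x)).comp (dAt τ x) = ε • form (𝓡 5) e v x := by
  have h1 : mfderiv (𝓡 5) 𝓘(ℝ, V) (e ∘ τ) x =
      (mfderiv (𝓡 5) 𝓘(ℝ, V) e (τ x)).comp (mfderiv (𝓡 5) (𝓡 5) τ x) :=
    mfderiv_comp x ((he (τ x)).mdifferentiableAt (by simp)) ((hτ x).mdifferentiableAt (by simp))
  have h2 : e ∘ τ = s ∘ e := funext hes
  have h3 : mfderiv (𝓡 5) 𝓘(ℝ, V) (s ∘ e) x = s.comp (mfderiv (𝓡 5) 𝓘(ℝ, V) e x) := by
    have h4 := mfderiv_comp (I := 𝓡 5) (I' := 𝓘(ℝ, V)) (I'' := 𝓘(ℝ, V)) (g := s) (f := e) x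
      s.mdifferentiableAt ((he x).mdifferentiableAt (by simp))
    rw [h4, ContinuousLinearMap.mfderiv_eq]
    rfl
  refine ContinuousLinearMap.ext fun ξ => ?_
  have h5 : (mfderiv (𝓡 5) 𝓘(ℝ, V) e (τ x) : R5 →L[ℝ] V) (dAt τ x ξ) =
      s ((mfderiv (𝓡 5) 𝓘(ℝ, V) e x : R5 →L[ℝ] V) ξ) := by
    have h6 : (mfderiv (𝓡 5) 𝓘(ℝ, V) (e ∘ τ) x : R5 →L[ℝ] V) =
        (mfderiv (𝓡 5) 𝓘(ℝ, V) (s ∘ e) x : R5 →L[ℝ] V) := by
      have h9 : ∀ f g : M → V, f = g → (mfderiv (𝓡 5) 𝓘(ℝ, V) f x : R5 →L[ℝ] V) =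
          (mfderiv (𝓡 5) 𝓘(ℝ, V) g x : R5 →L[ℝ] V) := by
        rintro f _ rfl
        rfl
      exact h9 _ _ h2
    have h7 : (mfderiv (𝓡 5) 𝓘(ℝ, V) (e ∘ τ) x : R5 →L[ℝ] V) =
        (mfderiv (𝓡 5) 𝓘(ℝ, V) e (τ x) : R5 →L[ℝ] V).comp (dAt τ x) := h1
    have h8 : (mfderiv (𝓡 5) 𝓘(ℝ, V) (s ∘ e) x : R5 →L[ℝ] V) =
        s.comp (mfderiv (𝓡 5) 𝓘(ℝ, V) e x : R5 →L[ℝ] V) := h3
    exact congrArg (fun L : R5 →L[ℝ] V => L ξ) ((h7.symm.trans h6).trans h8)
  change v (τ x) ((mfderiv (𝓡 5) 𝓘(ℝ, V) e (τ x) : R5 →L[ℝ] V) (dAt τ x ξ)) =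
    ε • v x ((mfderiv (𝓡 5) 𝓘(ℝ, V) e x : R5 →L[ℝ] V) ξ)
  rw [h5]
  exact congrArg (fun L : V →L[ℝ] ℝ => L ((mfderiv (𝓡 5) 𝓘(ℝ, V) e x : R5 →L[ℝ] V) ξ)) (hv x)

omit [IsManifold (𝓡 5) ∞ M] in
theorem form_comb_symm {τ : M → M} (hτ : ContMDiff (𝓡 5) (𝓡 5) ∞ τ) (hinv : ∀ p, τ (τ p) = p)
    {e : M → V} (he : ContMDiff (𝓡 5) 𝓘(ℝ, V) ∞ e) {s : V →L[ℝ] V}
    (hes : ∀ x, e (τ x) = s (e x)) {p : ℕ} {v : Fin p → M → (V →L[ℝ] ℝ)} {sg : Fin p → ℝ}
    (hsg : ∀ i, sg i * sg i = 1) (hv : ∀ i x, (v i (τ x)).comp s = sg i • v i x) {x : M}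
    {l : Fin p → ℝ} (h : form (𝓡 5) e (comb v l) x = 0) :
    form (𝓡 5) e (comb v (fun i => sg i * l i)) (τ x) = 0 := by
  have h1 : (form (𝓡 5) e (comb v (fun i => sg i * l i)) (τ x)).comp (dAt τ x) = 0 := by
    rw [form_comb, ← h, form_comb]
    refine ContinuousLinearMap.ext fun ξ => ?_
    have h2 : ∀ i, form (𝓡 5) e (v i) (τ x) (dAt τ x ξ) = sg i * form (𝓡 5) e (v i) x ξ :=
      fun i => congrArg (fun L : R5 →L[ℝ] ℝ => L ξ) (form_symm hτ he hes (hv i) x)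
    simp only [ContinuousLinearMap.comp_apply, _root_.sum_apply, _root_.smul_apply, smul_eq_mul]
    refine Finset.sum_congr rfl fun i _ => ?_
    rw [h2]
    calc sg i * l i * (sg i * form (𝓡 5) e (v i) x ξ) =
        (sg i * sg i) * (l i * form (𝓡 5) e (v i) x ξ) := by ring
      _ = _ := by rw [hsg, one_mul]
  refine ContinuousLinearMap.ext fun ξ => ?_
  obtain ⟨ξ', rfl⟩ := dAt_surjective hτ hinv x ξ
  exact congrArg (fun L : R5 →L[ℝ] ℝ => L ξ') h1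

/-- Conjugation of a symmetric matrix by signs. -/
def sgConj {p : ℕ} (sg : Fin p → ℝ) (A : Matrix (Fin p) (Fin p) ℝ) : Matrix (Fin p) (Fin p) ℝ :=
  fun i j => sg i * A i j * sg j

theorem sgConj_vecMulVec {p : ℕ} (sg l : Fin p → ℝ) :
    sgConj sg (Matrix.vecMulVec l l) =
      Matrix.vecMulVec (fun i => sg i * l i) (fun i => sg i * l i) := by
  ext i j
  simp only [sgConj, Matrix.vecMulVec_apply]
  ring

theorem sgConj_sgConj {p : ℕ} (sg : Fin p → ℝ) (hsg : ∀ i, sg i * sg i = 1)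
    (A : Matrix (Fin p) (Fin p) ℝ) : sgConj sg (sgConj sg A) = A := by
  ext i j
  simp only [sgConj]
  calc sg i * (sg i * A i j * sg j) * sg j = (sg i * sg i) * A i j * (sg j * sg j) := by ring
    _ = A i j := by rw [hsg, hsg, one_mul, mul_one]

theorem dot_sg {p : ℕ} (sg l : Fin p → ℝ) (hsg : ∀ i, sg i * sg i = 1) :
    (fun i => sg i * l i) ⬝ᵥ (fun i => sg i * l i) = l ⬝ᵥ l := by
  simp only [dotProduct]
  refine Finset.sum_congr rfl fun i _ => ?_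
  calc sg i * l i * (sg i * l i) = (sg i * sg i) * (l i * l i) := by ring
    _ = l i * l i := by rw [hsg, one_mul]

omit [IsManifold (𝓡 5) ∞ M] in
/-- COUNTING. -/
theorem isoFix_even {τ : M → M} (hτ : ContMDiff (𝓡 5) (𝓡 5) ∞ τ) (hinv : ∀ p, τ (τ p) = p)
    {e : M → V} (he : ContMDiff (𝓡 5) 𝓘(ℝ, V) ∞ e) {s : V →L[ℝ] V}
    (hes : ∀ x, e (τ x) = s (e x)) {v : Fin 4 → M → (V →L[ℝ] ℝ)} {w : Fin 3 → M → (V →L[ℝ] ℝ)}
    (hv : ∀ i x, (v i (τ x)).comp s = sgA i • v i x)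
    (hw : ∀ i x, (w i (τ x)).comp s = sgB i • w i x)
    (hG2 : ∀ p, τ p = p → p ∉ isoFix τ → ∀ l m, ¬ IsZero (𝓡 5) e v w p l m)
    (hG3 : ∀ p ∈ isoFix τ, ∀ l m, IsZero (𝓡 5) e v w p l m →
      (∀ i, i ≠ 0 → l i = 0) ∧ (∀ j, j ≠ 0 → m j = 0))
    (hfin : (zeroSet (𝓡 5) e v w).Finite) (heven : Even (zeroSet (𝓡 5) e v w).ncard) :
    (isoFix τ).Finite ∧ Even (isoFix τ).ncard := by
  classical
  set Z := zeroSet (𝓡 5) e v w with hZ
  set f : M × Matrix (Fin 4) (Fin 4) ℝ × Matrix (Fin 3) (Fin 3) ℝ →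
      M × Matrix (Fin 4) (Fin 4) ℝ × Matrix (Fin 3) (Fin 3) ℝ :=
    fun z => (τ z.1, sgConj sgA z.2.1, sgConj sgB z.2.2) with hf
  have hfZ : ∀ z ∈ Z, f z ∈ Z := by
    rintro ⟨x, A, B⟩ ⟨l, m, ⟨h1, h2, h3, h4⟩, rfl, rfl⟩
    refine ⟨fun i => sgA i * l i, fun i => sgB i * m i, ⟨?_, ?_, ?_, ?_⟩, ?_, ?_⟩
    · rw [dot_sg sgA l sgA_sq]; exact h1
    · rw [dot_sg sgB m sgB_sq]; exact h2
    · exact form_comb_symm hτ hinv he hes sgA_sq hv h3
    · exact form_comb_symm hτ hinv he hes sgB_sq hw h4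
    · exact sgConj_vecMulVec sgA l
    · exact sgConj_vecMulVec sgB m
  have hff : ∀ z ∈ Z, f (f z) = z := by
    rintro ⟨x, A, B⟩ -
    simp only [hf, hinv, sgConj_sgConj sgA sgA_sq, sgConj_sgConj sgB sgB_sq]
  -- the first basis vectors
  set e4 : Fin 4 → ℝ := Pi.single 0 1 with he4
  set e3 : Fin 3 → ℝ := Pi.single 0 1 with he3
  set g : M → M × Matrix (Fin 4) (Fin 4) ℝ × Matrix (Fin 3) (Fin 3) ℝ :=
    fun p => (p, Matrix.vecMulVec e4 e4, Matrix.vecMulVec e3 e3) with hg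
  have hginj : Function.Injective g := fun a b h => congrArg Prod.fst h
  -- the forced zeros
  have hvan : ∀ p ∈ isoFix τ, ∀ (u : M → (V →L[ℝ] ℝ)), (∀ x, (u (τ x)).comp s = (1 : ℝ) • u x) →
      form (𝓡 5) e u p = 0 := by
    intro p hp u hu
    have h1 := form_symm hτ he hes hu p
    rw [hp.1, hp.2, one_smul] at h1
    refine ContinuousLinearMap.ext fun ξ => ?_
    have h2 : form (𝓡 5) e u p (-ξ) = form (𝓡 5) e u p ξ :=
      congrArg (fun L : R5 →L[ℝ] ℝ => L ξ) h1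
    rw [map_neg] at h2
    change form (𝓡 5) e u p ξ = 0
    linarith
  have hcomb : ∀ {p : ℕ} (v : Fin (p + 1) → M → (V →L[ℝ] ℝ)) (x : M),
      form (𝓡 5) e (comb v (Pi.single 0 1)) x = form (𝓡 5) e (v 0) x := by
    intro p v x
    rw [form_comb]
    rw [Finset.sum_eq_single (0 : Fin (p + 1))]
    · rw [Pi.single_eq_same, one_smul]
    · intro j _ hj
      rw [Pi.single_eq_of_ne hj, zero_smul]
    · intro h
      exact absurd (Finset.mem_univ _) h
  have hgZ : ∀ p ∈ isoFix τ, g p ∈ Z := by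
    intro p hp
    refine ⟨e4, e3, ⟨?_, ?_, ?_, ?_⟩, rfl, rfl⟩
    · simp [he4]
    · simp [he3]
    · rw [he4, hcomb v p]
      exact hvan p hp (v 0) (hv 0)
    · rw [he3, hcomb w p]
      exact hvan p hp (w 0) (hw 0)
  have hfin' : (isoFix τ).Finite :=
    Set.Finite.of_finite_image (hfin.subset (by
      rintro _ ⟨p, hp, rfl⟩
      exact hgZ p hp)) hginj.injOn
  -- the fixed points of the action on the zeros
  have hfix : {z | z ∈ Z ∧ f z = z} = g '' isoFix τ := by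
    ext z
    constructor
    · rintro ⟨⟨l, m, hz, hA, hB⟩, hfz⟩
      obtain ⟨x, A, B⟩ := z
      simp only at hA hB hz
      have hx : τ x = x := congrArg Prod.fst hfz
      have hxi : x ∈ isoFix τ := by
        by_contra hcon
        exact hG2 x hx hcon l m hz
      obtain ⟨hl, hm⟩ := hG3 x hxi l m hz
      have hlv : ∀ {p : ℕ} (l : Fin (p + 1) → ℝ), l ⬝ᵥ l = 1 → (∀ i, i ≠ 0 → l i = 0) →
          Matrix.vecMulVec l l = Matrix.vecMulVec (Pi.single 0 1) (Pi.single 0 1) := by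
        intro p l h1 h2
        have h3 : l 0 * l 0 = 1 := by
          rw [← h1, dotProduct, Finset.sum_eq_single (0 : Fin (p + 1))]
          · intro j _ hj
            rw [h2 j hj, mul_zero]
          · intro h
            exact absurd (Finset.mem_univ _) h
        ext i j
        rw [Matrix.vecMulVec_apply, Matrix.vecMulVec_apply]
        by_cases hi : i = 0
        · by_cases hj : j = 0
          · rw [hi, hj, Pi.single_eq_same, h3, one_mul]
          · rw [h2 j hj, Pi.single_eq_of_ne hj, mul_zero, mul_zero]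
        · rw [h2 i hi, Pi.single_eq_of_ne hi, zero_mul, zero_mul]
      refine ⟨x, hxi, ?_⟩
      rw [hg, hA, hB, hlv l hz.1 hl, hlv m hz.2.1 hm]
    · rintro ⟨p, hp, rfl⟩
      refine ⟨hgZ p hp, ?_⟩
      have h1 : ∀ {q : ℕ} (sg : Fin (q + 1) → ℝ), sg 0 * sg 0 = 1 →
          sgConj sg (Matrix.vecMulVec (Pi.single 0 1) (Pi.single 0 1)) =
            Matrix.vecMulVec (Pi.single 0 1) (Pi.single 0 1) := by
        intro q sg h1
        ext i j
        simp only [sgConj, Matrix.vecMulVec_apply]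
        by_cases hi : i = 0
        · by_cases hj : j = 0
          · rw [hi, hj, Pi.single_eq_same]
            linarith
          · rw [Pi.single_eq_of_ne hj]
            ring
        · rw [Pi.single_eq_of_ne hi]
          ring
      rw [hf, hg]
      simp only
      rw [hp.1, he4, he3, h1 sgA (sgA_sq 0), h1 sgB (sgB_sq 0)]
  refine ⟨hfin', ?_⟩
  have h5 := (even_ncard_iff_fixed Z hfin f hfZ hff).mp heven
  rw [hfix, Set.ncard_image_of_injective _ hginj] at h5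
  exact h5

/-- COUNTING, in terms of `GenForms`. -/
theorem even_isoFix {M : Type*} [TopologicalSpace M] [ChartedSpace R5 M]
    [IsManifold (𝓡 5) ∞ M] [CompactSpace M] [T2Space M] {τ : M → M}
    (hτ : ContMDiff (𝓡 5) (𝓡 5) ∞ τ) (hinv : ∀ p, τ (τ p) = p)
    {V : Type*} [NormedAddCommGroup V] [NormedSpace ℝ V] {s : V →L[ℝ] V} {e : M → V}
    {v : Fin 4 → M → (V →L[ℝ] ℝ)} {w : Fin 3 → M → (V →L[ℝ] ℝ)} (h : GenForms τ s e v w)
    (hfin : (zeroSet (𝓡 5) e v w).Finite) (heven : Even (zeroSet (𝓡 5) e v w).ncard) :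
    (isoFix τ).Finite ∧ Even (isoFix τ).ncard :=
  isoFix_even hτ hinv h.smooth_e h.e_tau h.v_tau h.w_tau
    (fun p hp hp2 l m hz => hp2 (h.fixed p l m hz hp).1)
    (fun p hp l m hz => (h.fixed p l m hz hp.1).2) hfin heven

end Count

end Pool.Agent.MP_f1864b_gt
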