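import Mathlib

set_option autoImplicit false

/-!
# MP_f1864b_gt: definitions

* `OrientableManifold n M`: the smooth manifold `M` has an atlas of smooth charts all of whose
  coordinate changes have positive Jacobian determinant;
* `Aspherical M`: `M` is the base of a covering with contractible total space;
* `BoundsSmooth n M`: the smooth `n`-manifold `M` is the boundary of a compact smooth
  `(n+1)`-manifold with boundary (which is not required to be orientable).
-/

namespace Pool.Agent.Dold

open scoped Manifold ContDiff Topology

universe u v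

/-- A smooth manifold (without boundary, modelled on `ℝⁿ`) is orientable: it can be covered by
smooth charts all of whose coordinate changes have positive Jacobian determinant. -/
def OrientableManifold (n : ℕ) (M : Type u) [TopologicalSpace M]
    [ChartedSpace (EuclideanSpace ℝ (Fin n)) M] : Prop :=
  ∃ 𝒜 : Set (OpenPartialHomeomorph M (EuclideanSpace ℝ (Fin n))),
    𝒜 ⊆ IsManifold.maximalAtlas (𝓡 n) ∞ M ∧ (∀ x : M, ∃ e ∈ 𝒜, x ∈ e.source) ∧
      ∀ e ∈ 𝒜, ∀ e' ∈ 𝒜, ∀ x ∈ (e.symm.trans e').source,
        0 < (fderiv ℝ (e.symm.trans e') x).det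

/-- A space is aspherical: it is the base of a (surjective) covering map whose total space is
contractible (so that the total space is the universal covering). -/
def Aspherical (M : Type u) [TopologicalSpace M] : Prop :=
  ∃ (E : Type u) (_ : TopologicalSpace E) (p : E → M),
    ContractibleSpace E ∧ IsCoveringMap p ∧ Function.Surjective p

/-- The smooth `n`-manifold `M` is diffeomorphic to the boundary of a compact smooth
`(n+1)`-manifold with boundary `W`, orientable or not. -/
def BoundsSmooth (n : ℕ) (M : Type u) [TopologicalSpace M]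
    [ChartedSpace (EuclideanSpace ℝ (Fin n)) M] : Prop :=
  ∃ (W : Type v) (_ : TopologicalSpace W) (_ : ChartedSpace (EuclideanHalfSpace (n + 1)) W)
    (_ : IsManifold (𝓡∂ (n + 1)) ∞ W) (_ : CompactSpace W) (_ : T2Space W) (f : M → W),
    ContMDiff (𝓡 n) (𝓡∂ (n + 1)) ∞ f ∧ Function.Injective f ∧
      (∀ x, Function.Injective (mfderiv (𝓡 n) (𝓡∂ (n + 1)) f x)) ∧
      Set.range f = (𝓡∂ (n + 1)).boundary W

/-- `ℝ⁵`. -/
abbrev R5 := EuclideanSpace ℝ (Fin 5)

/-- The differential of a self map at a point, as an endomorphism of `ℝ⁵` (in the preferred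
charts at `p` and `τ p`; used at fixed points only). -/
noncomputable def dAt {M : Type u} [TopologicalSpace M] [ChartedSpace R5 M] (τ : M → M) (p : M) :
    R5 →L[ℝ] R5 := mfderiv (𝓡 5) (𝓡 5) τ p

/-- The fixed points of `τ` with differential `-1`. -/
def isoFix {M : Type u} [TopologicalSpace M] [ChartedSpace R5 M] (τ : M → M) : Set M :=
  {p | τ p = p ∧ dAt τ p = -ContinuousLinearMap.id ℝ R5}

end Pool.Agent.Dold
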