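import Mathlib

/-!
# Arcs of zeros

`half_arc`: near a zero `(0, y₀)` of `F : ℝ × Y → Y₂`, at which the derivative in `y` is invertible
and continuous from the side `0 ≤ t`, the zeros with `0 ≤ t` form a graph over `[0, η]`.
No derivative in `t` and no extension to `t < 0` is needed.

`openEmbedding_of_graph`: an open set of a space on which some coordinates take it onto a graph
over an interval is the range of an open embedding of that interval.
-/

namespace Pool.Agent.MP_f1864b_gt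

open Set Filter Topology Metric

section HalfArc

variable {Y Y₂ : Type*} [NormedAddCommGroup Y] [NormedSpace ℝ Y] [CompleteSpace Y]
  [NormedAddCommGroup Y₂] [NormedSpace ℝ Y₂]

/-- The zeros near a boundary zero: for all small balls and then all small intervals. -/
theorem half_arc_all {s : Set (ℝ × Y)} {y₀ : Y} (hs : s ∈ 𝓝[{p | 0 ≤ p.1}] ((0 : ℝ), y₀))
    {F : ℝ × Y → Y₂} {F' : ℝ × Y → Y →L[ℝ] Y₂} (hF : ContinuousOn F s)
    (hd : ∀ p ∈ s, HasFDerivAt (fun y => F (p.1, y)) (F' p) p.2)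
    (hF' : ContinuousWithinAt F' {p | 0 ≤ p.1} ((0 : ℝ), y₀)) (h0 : F (0, y₀) = 0)
    (L : Y ≃L[ℝ] Y₂) (hL : F' (0, y₀) = L) :
    ∃ δ₀ > 0, ∀ δ, 0 < δ → δ ≤ δ₀ → ∃ η₀ > 0, ∀ η, 0 < η → η ≤ η₀ →
      ∃ g : ℝ → Y, ContinuousOn g (Icc 0 η) ∧ g 0 = y₀ ∧ (∀ t ∈ Icc 0 η, g t ∈ ball y₀ δ) ∧
        ∀ t ∈ Icc 0 η, ∀ y ∈ closedBall y₀ δ, F (t, y) = 0 ↔ y = g t := by
  -- constants
  set N : ℝ := ‖(L.symm : Y₂ →L[ℝ] Y)‖ with hN
  have hN0 : 0 ≤ N := norm_nonneg _
  set c : ℝ := 1 / (2 * (N + 1)) with hc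
  have hc0 : 0 < c := by positivity
  have hcN : N * c ≤ 1 / 2 := by
    rw [hc, mul_one_div, div_le_iff₀ (by positivity)]
    linarith
  -- a good neighbourhood
  have hn : ∀ᶠ p in 𝓝[{p : ℝ × Y | 0 ≤ p.1}] ((0 : ℝ), y₀), p ∈ s ∧ ‖F' p - L‖ ≤ c := by
    have h1 : ∀ᶠ p in 𝓝[{p : ℝ × Y | 0 ≤ p.1}] ((0 : ℝ), y₀), F' p ∈ closedBall (F' (0, y₀)) c :=
      hF' (closedBall_mem_nhds _ hc0)
    filter_upwards [hs, h1] with p hp1 hp2
    refine ⟨hp1, ?_⟩
    rw [mem_closedBall, dist_eq_norm, hL] at hp2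
    exact hp2
  obtain ⟨r, hr, hball⟩ := Metric.mem_nhdsWithin_iff.1 hn
  have hgood : ∀ t y, 0 ≤ t → t < r → dist y y₀ < r → (t, y) ∈ s ∧ ‖F' (t, y) - L‖ ≤ c := by
    intro t y ht1 ht2 hy
    refine hball ⟨?_, ht1⟩
    rw [mem_ball, Prod.dist_eq, max_lt_iff]
    refine ⟨?_, hy⟩
    change dist t 0 < r
    rw [Real.dist_0_eq_abs, abs_of_nonneg ht1]
    exact ht2
  -- the key estimate
  have key : ∀ t, 0 ≤ t → t < r → ∀ x ∈ ball y₀ r, ∀ y ∈ ball y₀ r,
      ‖F (t, x) - F (t, y) - L (x - y)‖ ≤ c * ‖x - y‖ := by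
    intro t ht1 ht2 x hx y hy
    have h1 := (convex_ball y₀ r).norm_image_sub_le_of_norm_hasFDerivWithin_le'
      (f := fun y => F (t, y)) (f' := fun y => F' (t, y)) (φ := (L : Y →L[ℝ] Y₂)) (C := c)
      (fun z hz => (hd (t, z) (hgood t z ht1 ht2 hz).1).hasFDerivWithinAt)
      (fun z hz => (hgood t z ht1 ht2 hz).2) hy hx
    simpa using h1
  have keyN : ∀ t, 0 ≤ t → t < r → ∀ x ∈ ball y₀ r, ∀ y ∈ ball y₀ r,
      ‖x - y‖ ≤ 2 * N * ‖F (t, x) - F (t, y)‖ := by
    intro t ht1 ht2 x hx y hy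
    have h1 := key t ht1 ht2 x hx y hy
    have h2 : ‖x - y‖ ≤ N * ‖L (x - y)‖ := by
      have h3 := (L.symm : Y₂ →L[ℝ] Y).le_opNorm (L (x - y))
      simpa using h3
    have h3 : ‖L (x - y)‖ ≤ ‖F (t, x) - F (t, y)‖ + c * ‖x - y‖ := by
      have h4 : L (x - y) = (F (t, x) - F (t, y)) - (F (t, x) - F (t, y) - L (x - y)) := by abel
      rw [h4]
      exact (norm_sub_le _ _).trans (by linarith)
    have h4 : N * ‖L (x - y)‖ ≤ N * ‖F (t, x) - F (t, y)‖ + N * c * ‖x - y‖ := by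
      have := mul_le_mul_of_nonneg_left h3 hN0
      linarith
    have h5 : N * c * ‖x - y‖ ≤ 1 / 2 * ‖x - y‖ :=
      mul_le_mul_of_nonneg_right hcN (norm_nonneg _)
    linarith
  refine ⟨r / 2, by positivity, fun δ hδ0 hδr => ?_⟩
  have hδr' : δ < r := by linarith
  have hsub : closedBall y₀ δ ⊆ ball y₀ r := closedBall_subset_ball hδr'
  -- small values at the centre
  have hy₀s : ContinuousWithinAt (fun t : ℝ => F (t, y₀)) (Ico 0 r) 0 := by
    have h1 : ContinuousWithinAt F s (0, y₀) :=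
      hF (0, y₀) (hgood 0 y₀ le_rfl hr (by rw [dist_self]; exact hr)).1
    have h2 : ContinuousWithinAt (fun t : ℝ => (t, y₀)) (Ico 0 r) 0 := by fun_prop
    exact h1.comp (f := fun t : ℝ => (t, y₀)) h2
      fun t ht => (hgood t y₀ ht.1 ht.2 (by rw [dist_self]; exact hr)).1
  have hsmall : ∀ᶠ t in 𝓝[Ico 0 r] (0:ℝ), N * ‖F (t, y₀)‖ < δ / 4 := by
    have h1 : Tendsto (fun t : ℝ => N * ‖F (t, y₀)‖) (𝓝[Ico 0 r] 0) (𝓝 (N * ‖F (0, y₀)‖)) :=
      (hy₀s.norm).const_mul N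
    rw [h0, norm_zero, mul_zero] at h1
    exact h1 (Iio_mem_nhds (by positivity))
  obtain ⟨r₁, hr₁, hball₁⟩ := Metric.mem_nhdsWithin_iff.1 hsmall
  refine ⟨min (r / 2) (r₁ / 2), by positivity, fun η hη0 hη => ?_⟩
  have hηr : η < r := by have := min_le_left (r / 2) (r₁ / 2); linarith
  have hηr₁ : η < r₁ := by have := min_le_right (r / 2) (r₁ / 2); linarith
  have hval : ∀ t ∈ Icc 0 η, N * ‖F (t, y₀)‖ < δ / 4 := by
    intro t ht
    refine hball₁ ⟨?_, ht.1, lt_of_le_of_lt ht.2 hηr⟩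
    rw [mem_ball, Real.dist_0_eq_abs, abs_of_nonneg ht.1]
    exact lt_of_le_of_lt ht.2 hηr₁
  -- existence of the zero
  have hex : ∀ t ∈ Icc 0 η, ∃ y ∈ ball y₀ δ, F (t, y) = 0 := by
    intro t ht
    have ht2 : t < r := lt_of_le_of_lt ht.2 hηr
    set Φ : Y → Y := fun y => y - L.symm (F (t, y)) with hΦ
    have hΦd : ∀ x ∈ closedBall y₀ δ, ∀ y ∈ closedBall y₀ δ, ‖Φ x - Φ y‖ ≤ 1 / 2 * ‖x - y‖ := by
      intro x hx y hy
      have h1 := key t ht.1 ht2 x (hsub hx) y (hsub hy)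
      have h2 : Φ x - Φ y = -(L.symm (F (t, x) - F (t, y) - L (x - y))) := by
        simp only [hΦ, map_sub, L.symm_apply_apply]
        abel
      rw [h2, norm_neg]
      have h3 := (L.symm : Y₂ →L[ℝ] Y).le_opNorm (F (t, x) - F (t, y) - L (x - y))
      have h4 : N * ‖F (t, x) - F (t, y) - L (x - y)‖ ≤ N * (c * ‖x - y‖) :=
        mul_le_mul_of_nonneg_left h1 hN0
      have h5 : N * (c * ‖x - y‖) ≤ 1 / 2 * ‖x - y‖ := by
        rw [← mul_assoc]
        exact mul_le_mul_of_nonneg_right hcN (norm_nonneg _)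
      exact h3.trans (h4.trans h5)
    have hΦ0 : ‖Φ y₀ - y₀‖ ≤ δ / 4 := by
      have h2 : Φ y₀ - y₀ = -(L.symm (F (t, y₀))) := by simp [hΦ]
      rw [h2, norm_neg]
      exact ((L.symm : Y₂ →L[ℝ] Y).le_opNorm _).trans (hval t ht).le
    have hy₀m : y₀ ∈ closedBall y₀ δ := mem_closedBall_self hδ0.le
    have hmaps : MapsTo Φ (closedBall y₀ δ) (closedBall y₀ (3 / 4 * δ)) := by
      intro x hx
      rw [mem_closedBall, dist_eq_norm]
      have h1 := hΦd x hx y₀ hy₀m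
      have h2 : ‖x - y₀‖ ≤ δ := by rw [← dist_eq_norm]; exact hx
      have h3 : Φ x - y₀ = (Φ x - Φ y₀) + (Φ y₀ - y₀) := by abel
      rw [h3]
      refine (norm_add_le _ _).trans ?_
      linarith
    have hmaps' : MapsTo Φ (closedBall y₀ δ) (closedBall y₀ δ) := fun x hx =>
      closedBall_subset_closedBall (by linarith) (hmaps hx)
    have hcontr : ContractingWith (1/2) (hmaps'.restrict Φ _ _) := by
      refine ⟨by rw [← NNReal.coe_lt_coe]; norm_num, LipschitzWith.of_dist_le_mul fun x y => ?_⟩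
      rw [Subtype.dist_eq, Subtype.dist_eq, dist_eq_norm, dist_eq_norm]
      have := hΦd x x.2 y y.2
      simpa using this
    obtain ⟨y, hy1, hy2, -⟩ := hcontr.exists_fixedPoint' isClosed_closedBall.isComplete hmaps' hy₀m
      (edist_ne_top _ _)
    have hfix : Φ y = y := hy2
    refine ⟨y, ?_, ?_⟩
    · have := hmaps hy1
      rw [hfix] at this
      exact closedBall_subset_ball (by linarith) this
    · have h1 : L.symm (F (t, y)) = 0 := by
        have h2 : y - L.symm (F (t, y)) = y := hfix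
        have h3 : y - (y - L.symm (F (t, y))) = 0 := by rw [h2, sub_self]
        simpa using h3
      exact L.symm.injective (by rw [h1, map_zero])
  choose! g hg1 hg2 using hex
  have huniq : ∀ t ∈ Icc 0 η, ∀ y ∈ closedBall y₀ δ, F (t, y) = 0 → y = g t := by
    intro t ht y hy hy0
    have h1 := keyN t ht.1 (lt_of_le_of_lt ht.2 hηr) y (hsub hy) (g t)
      (hsub (ball_subset_closedBall (hg1 t ht)))
    rw [hy0, hg2 t ht, sub_zero, norm_zero, mul_zero] at h1
    exact sub_eq_zero.1 (norm_le_zero_iff.1 h1)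
  refine ⟨g, ?_, ?_, hg1, fun t ht y hy => ⟨huniq t ht y hy, fun h => by rw [h]; exact hg2 t ht⟩⟩
  · -- continuity
    intro t ht
    have htr : t < r := lt_of_le_of_lt ht.2 hηr
    have hgt := hsub (ball_subset_closedBall (hg1 t ht))
    have h1 : ContinuousWithinAt (fun u : ℝ => F (u, g t)) (Icc 0 η) t := by
      have h2 : ContinuousWithinAt F s (t, g t) := hF _ (hgood t (g t) ht.1 htr hgt).1
      have h3 : ContinuousWithinAt (fun u : ℝ => (u, g t)) (Icc 0 η) t := by fun_prop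
      exact h2.comp (f := fun u : ℝ => (u, g t)) h3
        fun u hu => (hgood u (g t) hu.1 (lt_of_le_of_lt hu.2 hηr) hgt).1
    have h4 : Tendsto (fun u : ℝ => 2 * N * ‖F (u, g t)‖) (𝓝[Icc 0 η] t) (𝓝 0) := by
      have h5 := (h1.norm).const_mul (2 * N)
      have h6 : 2 * N * ‖F (t, g t)‖ = 0 := by rw [hg2 t ht, norm_zero, mul_zero]
      rw [ContinuousWithinAt, h6] at h5
      exact h5
    rw [ContinuousWithinAt, tendsto_iff_norm_sub_tendsto_zero]
    refine squeeze_zero' (Eventually.of_forall fun u => norm_nonneg _) ?_ h4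
    filter_upwards [self_mem_nhdsWithin] with u hu
    have h5 := keyN u hu.1 (lt_of_le_of_lt hu.2 hηr) (g u)
      (hsub (ball_subset_closedBall (hg1 u hu))) (g t) hgt
    rw [hg2 u hu, zero_sub, norm_neg] at h5
    exact h5
  · exact (huniq 0 ⟨le_rfl, hη0.le⟩ y₀ (mem_closedBall_self hδ0.le) h0).symm

/-- **Half arc of zeros at a boundary zero**, inside given neighbourhoods. -/
theorem half_arc {s : Set (ℝ × Y)} {y₀ : Y} (hs : s ∈ 𝓝[{p | 0 ≤ p.1}] ((0 : ℝ), y₀))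
    {F : ℝ × Y → Y₂} {F' : ℝ × Y → Y →L[ℝ] Y₂} (hF : ContinuousOn F s)
    (hd : ∀ p ∈ s, HasFDerivAt (fun y => F (p.1, y)) (F' p) p.2)
    (hF' : ContinuousWithinAt F' {p | 0 ≤ p.1} ((0 : ℝ), y₀)) (h0 : F (0, y₀) = 0)
    (L : Y ≃L[ℝ] Y₂) (hL : F' (0, y₀) = L) {O : Set (ℝ × Y)}
    (hO : O ∈ 𝓝[{p | 0 ≤ p.1}] ((0 : ℝ), y₀)) :
    ∃ δ > 0, ∃ η > 0, Icc 0 η ×ˢ closedBall y₀ δ ⊆ O ∧
      ∃ g : ℝ → Y, ContinuousOn g (Icc 0 η) ∧ g 0 = y₀ ∧ (∀ t ∈ Icc 0 η, g t ∈ ball y₀ δ) ∧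
        ∀ t ∈ Icc 0 η, ∀ y ∈ closedBall y₀ δ, F (t, y) = 0 ↔ y = g t := by
  obtain ⟨δ₀, hδ₀, h⟩ := half_arc_all hs hF hd hF' h0 L hL
  obtain ⟨r, hr, hball⟩ := Metric.mem_nhdsWithin_iff.1 hO
  obtain ⟨η₀, hη₀, h'⟩ := h (min δ₀ (r / 2)) (by positivity) (min_le_left _ _)
  refine ⟨min δ₀ (r / 2), by positivity, min η₀ (r / 2), by positivity, ?_,
    h' (min η₀ (r / 2)) (by positivity) (min_le_left _ _)⟩
  rintro ⟨t, y⟩ ⟨ht, hy⟩
  refine hball ⟨?_, ht.1⟩
  rw [mem_ball, Prod.dist_eq, max_lt_iff]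
  constructor
  · change dist t 0 < r
    rw [Real.dist_0_eq_abs, abs_of_nonneg ht.1]
    have := ht.2.trans (min_le_right η₀ (r / 2))
    linarith
  · have h1 : dist y y₀ ≤ min δ₀ (r / 2) := hy
    have := h1.trans (min_le_right δ₀ (r / 2))
    change dist y y₀ < r
    linarith

end HalfArc

section Graph

variable {Z Y : Type*} [TopologicalSpace Z] [TopologicalSpace Y]

/-- An open set with coordinates onto a graph over an interval `I` is the range of an open
embedding of `I`. -/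
theorem openEmbedding_of_graph_aux {O : Set Z} (hO : IsOpen O) {c : Z → ℝ × Y} {d : ℝ × Y → Z}
    {g : ℝ → Y} {I : Set ℝ} (hc : ContinuousOn c O) (hd : ContinuousOn d (c '' O))
    (hdc : ∀ z ∈ O, d (c z) = z) (himg : c '' O = (fun t => (t, g t)) '' I)
    (hg : ContinuousOn g I) :
    ∃ γ : I → Z, IsOpenEmbedding γ ∧ (∀ t : I, γ t = d ((t : ℝ), g t)) ∧ range γ = O := by
  have hmem : ∀ t : I, ((t : ℝ), g t) ∈ c '' O := by
    intro t
    rw [himg]
    exact ⟨t, t.2, rfl⟩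
  have hOd : ∀ t : I, d ((t : ℝ), g t) ∈ O ∧ c (d ((t : ℝ), g t)) = ((t : ℝ), g t) := by
    intro t
    obtain ⟨z, hz, hzt⟩ := hmem t
    have hzt' : c z = ((t : ℝ), g t) := hzt
    rw [← hzt', hdc z hz]
    exact ⟨hz, rfl⟩
  refine ⟨fun t => d ((t : ℝ), g t), ?_, fun t => rfl, ?_⟩
  · have hcont : Continuous fun t : I => d ((t : ℝ), g t) := by
      have h1 : Continuous fun t : I => ((t : ℝ), g t) :=
        continuous_subtype_val.prodMk (continuousOn_iff_continuous_domRestrict.1 hg)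
      exact hd.comp_continuous h1 hmem
    refine IsOpenEmbedding.of_continuous_injective_isOpenMap hcont ?_ ?_
    · intro t t' h
      have h1 := congrArg c h
      change c (d ((t : ℝ), g t)) = c (d ((t' : ℝ), g t')) at h1
      rw [(hOd t).2, (hOd t').2] at h1
      exact Subtype.ext (congrArg Prod.fst h1)
    · intro S hS
      obtain ⟨S', hS', rfl⟩ := isOpen_induced_iff.1 hS
      have h1 : (fun t : I => d ((t : ℝ), g t)) '' (Subtype.val ⁻¹' S') =
          O ∩ (fun z => (c z).1) ⁻¹' S' := by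
        ext z
        constructor
        · rintro ⟨t, ht, rfl⟩
          refine ⟨(hOd t).1, ?_⟩
          change (c (d ((t : ℝ), g t))).1 ∈ S'
          rw [(hOd t).2]
          exact ht
        · rintro ⟨hz, hz'⟩
          have h2 : c z ∈ (fun t => (t, g t)) '' I := by
            rw [← himg]; exact ⟨z, hz, rfl⟩
          obtain ⟨t, ht, htz⟩ := h2
          have htz' : (t, g t) = c z := htz
          refine ⟨⟨t, ht⟩, ?_, ?_⟩
          · change t ∈ S'
            have h3 : (c z).1 = t := by rw [← htz']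
            have h4 : (c z).1 ∈ S' := hz'
            rwa [h3] at h4
          · change d (t, g t) = z
            rw [htz', hdc z hz]
      rw [h1]
      exact (continuous_fst.comp_continuousOn hc).isOpen_inter_preimage hO hS'
  · ext z
    constructor
    · rintro ⟨t, rfl⟩
      exact (hOd t).1
    · intro hz
      have h2 : c z ∈ (fun t => (t, g t)) '' I := by
        rw [← himg]; exact ⟨z, hz, rfl⟩
      obtain ⟨t, ht, htz⟩ := h2
      have htz' : (t, g t) = c z := htz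
      refine ⟨⟨t, ht⟩, ?_⟩
      change d (t, g t) = z
      rw [htz', hdc z hz]

/-- the homeomorphism of `[0, 1)` with `[0, η)` -/
noncomputable def scaleIco {η : ℝ} (hη : 0 < η) : Ico (0:ℝ) 1 ≃ₜ Ico (0:ℝ) η where
  toFun t := ⟨η * t, mul_nonneg hη.le t.2.1, by nlinarith [t.2.2]⟩
  invFun t := ⟨t / η, div_nonneg t.2.1 hη.le, by rw [div_lt_one hη]; exact t.2.2⟩
  left_inv t := by
    ext
    change η * t / η = t
    field_simp
  right_inv t := by
    ext
    change η * (t / η) = t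
    field_simp
  continuous_toFun := by fun_prop
  continuous_invFun := by fun_prop

/-- the homeomorphism of `(-1, 1)` with `(a - η, a + η)` -/
noncomputable def scaleIoo (a : ℝ) {η : ℝ} (hη : 0 < η) : Ioo (-1:ℝ) 1 ≃ₜ Ioo (a - η) (a + η) where
  toFun t := ⟨a + η * t, by nlinarith [t.2.1], by nlinarith [t.2.2]⟩
  invFun t := ⟨(t - a) / η, by rw [lt_div_iff₀ hη]; linarith [t.2.1],
    by rw [div_lt_one hη]; linarith [t.2.2]⟩
  left_inv t := by
    ext
    change (a + η * t - a) / η = t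
    field_simp
    ring
  right_inv t := by
    ext
    change a + η * ((t - a) / η) = t
    field_simp
    ring
  continuous_toFun := by fun_prop
  continuous_invFun := by fun_prop

/-- The half open case. -/
theorem openEmbedding_of_graph_Ico {O : Set Z} (hO : IsOpen O) {c : Z → ℝ × Y} {d : ℝ × Y → Z}
    {g : ℝ → Y} {η : ℝ} (hη : 0 < η) (hc : ContinuousOn c O) (hd : ContinuousOn d (c '' O))
    (hdc : ∀ z ∈ O, d (c z) = z) (himg : c '' O = (fun t => (t, g t)) '' Ico 0 η)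
    (hg : ContinuousOn g (Ico 0 η)) :
    ∃ γ : Ico (0:ℝ) 1 → Z, IsOpenEmbedding γ ∧ γ ⟨0, le_rfl, one_pos⟩ = d (0, g 0) ∧
      range γ = O := by
  obtain ⟨γ, h1, h2, h3⟩ := openEmbedding_of_graph_aux hO hc hd hdc himg hg
  refine ⟨γ ∘ scaleIco hη, h1.comp (scaleIco hη).isOpenEmbedding, ?_, ?_⟩
  · rw [Function.comp_apply, h2]
    simp [scaleIco]
  · rw [range_comp, (scaleIco hη).range_coe, image_univ, h3]

/-- The open case. -/
theorem openEmbedding_of_graph_Ioo {O : Set Z} (hO : IsOpen O) {c : Z → ℝ × Y} {d : ℝ × Y → Z}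
    {g : ℝ → Y} {a η : ℝ} (hη : 0 < η) (hc : ContinuousOn c O) (hd : ContinuousOn d (c '' O))
    (hdc : ∀ z ∈ O, d (c z) = z) (himg : c '' O = (fun t => (t, g t)) '' Ioo (a - η) (a + η))
    (hg : ContinuousOn g (Ioo (a - η) (a + η))) :
    ∃ γ : Ioo (-1:ℝ) 1 → Z, IsOpenEmbedding γ ∧
      γ ⟨0, by norm_num, one_pos⟩ = d (a, g a) ∧ range γ = O := by
  obtain ⟨γ, h1, h2, h3⟩ := openEmbedding_of_graph_aux hO hc hd hdc himg hg
  refine ⟨γ ∘ scaleIoo a hη, h1.comp (scaleIoo a hη).isOpenEmbedding, ?_, ?_⟩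
  · rw [Function.comp_apply, h2]
    simp [scaleIoo]
  · rw [range_comp, (scaleIoo a hη).range_coe, image_univ, h3]

end Graph

end Pool.Agent.MP_f1864b_gt
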