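import Pool.Agent.Lib.MP_f1864b_gt.Arc
import Pool.Agent.Lib.MP_f1864b_gt.HalfArc

set_option autoImplicit false

/-!
# Boundary zeros: the zero set is a half open arc
-/

namespace Pool.Agent.MP_f1864b_gt

open scoped Manifold ContDiff Topology Matrix
open Set Topology Module Metric

namespace ZC

/-- From a nondegenerate boundary zero in coordinates to a half open arc. -/
theorem endAt_abstract {Z : Type*} [TopologicalSpace Z] {Y Y₂ : Type*} [NormedAddCommGroup Y]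
    [NormedSpace ℝ Y] [CompleteSpace Y] [NormedAddCommGroup Y₂] [NormedSpace ℝ Y₂]
    {s : Set (ℝ × Y)} (hs : s ∈ 𝓝[{p | 0 ≤ p.1}] ((0 : ℝ), (0 : Y)))
    {F : ℝ × Y → Y₂} {F' : ℝ × Y → Y →L[ℝ] Y₂} (hF : ContinuousOn F s)
    (hd' : ∀ p ∈ s, HasFDerivAt (fun y => F (p.1, y)) (F' p) p.2)
    (hF' : ContinuousWithinAt F' {p | 0 ≤ p.1} ((0 : ℝ), (0 : Y))) (h0 : F (0, 0) = 0)
    (L : Y ≃L[ℝ] Y₂) (hL : F' (0, 0) = L)
    {O : Set Z} (hO : IsOpen O) {c : Z → ℝ × Y} (hc : ContinuousOn c O)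
    (hc0 : ∀ z ∈ O, 0 ≤ (c z).1)
    {d : ℝ × Y → Z} (hd : ContinuousOn d {p | p ∈ s ∧ F p = 0})
    (hdO : ∀ p ∈ s, F p = 0 → d p ∈ O ∧ c (d p) = p)
    (hcF : ∀ z ∈ O, F (c z) = 0 ∧ (c z ∈ s → d (c z) = z)) :
    ∃ γ : Ico (0:ℝ) 1 → Z, IsOpenEmbedding γ ∧ γ ⟨0, le_rfl, one_pos⟩ = d (0, 0) ∧
      ∀ t, γ t ∈ O ∧ ((c (γ t)).1 = 0 → (t:ℝ) = 0) := by
  obtain ⟨δ, hδ, η, hη, hsub, g, hg, hg0, hgb, hgF⟩ := half_arc hs hF hd' hF' h0 L hL (O := s) hs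
  set O' : Set Z := O ∩ c ⁻¹' (Iio η ×ˢ ball (0 : Y) δ) with hO'
  have hO'o : IsOpen O' := hc.isOpen_inter_preimage hO (isOpen_Iio.prod isOpen_ball)
  have hmem : ∀ z ∈ O', c z ∈ s ∧ (c z).1 ∈ Ico 0 η ∧ c z = ((c z).1, g (c z).1) := by
    rintro z ⟨hz, hz1, hz2⟩
    have h1 : (c z).1 ∈ Icc 0 η := ⟨hc0 z hz, le_of_lt hz1⟩
    have h2 : (c z).2 ∈ closedBall (0 : Y) δ := ball_subset_closedBall hz2
    refine ⟨hsub ⟨h1, h2⟩, ⟨hc0 z hz, hz1⟩, ?_⟩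
    exact Prod.ext rfl ((hgF _ h1 _ h2).1 (hcF z hz).1)
  have hgr : ∀ t ∈ Ico 0 η, (t, g t) ∈ s ∧ F (t, g t) = 0 := fun t ht => by
    have h1 : t ∈ Icc 0 η := ⟨ht.1, ht.2.le⟩
    have h2 : g t ∈ closedBall (0 : Y) δ := ball_subset_closedBall (hgb t h1)
    exact ⟨hsub ⟨h1, h2⟩, (hgF t h1 _ h2).2 rfl⟩
  have hdgr : ∀ t ∈ Ico 0 η, d (t, g t) ∈ O' ∧ c (d (t, g t)) = (t, g t) := fun t ht => by
    obtain ⟨h1, h2⟩ := hdO _ (hgr t ht).1 (hgr t ht).2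
    refine ⟨⟨h1, ?_⟩, h2⟩
    change c (d (t, g t)) ∈ Iio η ×ˢ ball (0 : Y) δ
    rw [h2]
    exact ⟨ht.2, hgb t ⟨ht.1, ht.2.le⟩⟩
  have himg : c '' O' = (fun t => (t, g t)) '' Ico 0 η := by
    ext p
    constructor
    · rintro ⟨z, hz, rfl⟩
      obtain ⟨h1, h2, h3⟩ := hmem z hz
      exact ⟨(c z).1, h2, h3.symm⟩
    · rintro ⟨t, ht, rfl⟩
      exact ⟨d (t, g t), (hdgr t ht).1, (hdgr t ht).2⟩
  have hdm : c '' O' ⊆ {p | p ∈ s ∧ F p = 0} := by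
    rw [himg]
    rintro p ⟨t, ht, rfl⟩
    exact hgr t ht
  obtain ⟨γ, h1, h2, h3⟩ := openEmbedding_of_graph_aux (d := d) hO'o (hc.mono inter_subset_left)
    (hd.mono hdm) (fun z hz => (hcF z hz.1).2 (hmem z hz).1) himg
    (hg.mono Ico_subset_Icc_self)
  refine ⟨γ ∘ scaleIco hη, h1.comp (scaleIco hη).isOpenEmbedding, ?_, fun t => ?_⟩
  · rw [Function.comp_apply, h2]
    simp [scaleIco, hg0]
  · rw [Function.comp_apply, h2]
    obtain ⟨h4, h5⟩ := hdgr _ (scaleIco hη t).2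
    refine ⟨h4.1, fun h6 => ?_⟩
    rw [h5] at h6
    have h7 : η * (t : ℝ) = 0 := h6
    exact (mul_eq_zero.1 h7).resolve_left hη.ne'

section Coord

/-- the first unit vector -/
noncomputable def e0 : EuclideanSpace ℝ (Fin 6) := EuclideanSpace.single 0 1

@[simp] theorem e0_zero : e0 0 = 1 := by simp [e0]

/-- the hyperplane `ξ 0 = 0` -/
noncomputable def hyp : Submodule ℝ (EuclideanSpace ℝ (Fin 6)) :=
  LinearMap.ker (EuclideanSpace.proj (0 : Fin 6) : EuclideanSpace ℝ (Fin 6) →L[ℝ] ℝ).toLinearMap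

theorem mem_hyp {ξ : EuclideanSpace ℝ (Fin 6)} : ξ ∈ hyp ↔ ξ 0 = 0 := Iff.rfl

theorem finrank_hyp : finrank ℝ hyp = 5 := by
  have h1 := LinearMap.finrank_range_add_finrank_ker
    (EuclideanSpace.proj (0 : Fin 6) : EuclideanSpace ℝ (Fin 6) →L[ℝ] ℝ).toLinearMap
  have h2 : LinearMap.range
      (EuclideanSpace.proj (0 : Fin 6) : EuclideanSpace ℝ (Fin 6) →L[ℝ] ℝ).toLinearMap = ⊤ := by
    rw [LinearMap.range_eq_top]
    intro r
    refine ⟨r • e0, ?_⟩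
    change (r • e0) 0 = r
    simp
  rw [h2, finrank_top, finrank_self, finrank_euclideanSpace_fin] at h1
  change 1 + finrank ℝ hyp = 6 at h1
  omega

/-- the projection to the hyperplane -/
noncomputable def projH : EuclideanSpace ℝ (Fin 6) →L[ℝ] hyp :=
  LinearMap.toContinuousLinearMap
    { toFun := fun ξ => ⟨ξ - ξ 0 • e0, by rw [mem_hyp]; simp⟩
      map_add' := fun ξ ξ' => by
        ext i
        simp only [PiLp.add_apply, Submodule.coe_add, PiLp.sub_apply, PiLp.smul_apply, smul_eq_mul]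
        ring
      map_smul' := fun r ξ => by
        ext i
        simp only [PiLp.smul_apply, SetLike.val_smul, PiLp.sub_apply, smul_eq_mul,
          RingHom.id_apply]
        ring }

theorem coe_projH (ξ : EuclideanSpace ℝ (Fin 6)) :
    (projH ξ : EuclideanSpace ℝ (Fin 6)) = ξ - ξ 0 • e0 := rfl

variable {T : Type*}

/-- `(u, l', m') ↦ (u 0, the rest)` -/
noncomputable def toY (u₀ : EuclideanSpace ℝ (Fin 6)) (y : EuclideanSpace ℝ (Fin 6) × T) :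
    ℝ × (hyp × T) := (y.1 0, (projH (y.1 - u₀), y.2))

/-- the inverse -/
noncomputable def ofY (u₀ : EuclideanSpace ℝ (Fin 6)) (p : ℝ × (hyp × T)) :
    EuclideanSpace ℝ (Fin 6) × T :=
  (u₀ + p.1 • e0 + (p.2.1 : EuclideanSpace ℝ (Fin 6)), p.2.2)

theorem ofY_toY {u₀ : EuclideanSpace ℝ (Fin 6)} (h : u₀ 0 = 0)
    (y : EuclideanSpace ℝ (Fin 6) × T) : ofY u₀ (toY u₀ y) = y := by
  refine Prod.ext ?_ rfl
  simp only [ofY, toY, coe_projH]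
  ext i
  simp only [PiLp.add_apply, PiLp.sub_apply, PiLp.smul_apply, smul_eq_mul, h]
  ring

theorem ofY_zero {u₀ : EuclideanSpace ℝ (Fin 6)} (h : u₀ 0 = 0) (p : ℝ × (hyp × T)) :
    (ofY u₀ p).1 0 = p.1 := by
  have h1 : (p.2.1 : EuclideanSpace ℝ (Fin 6)) 0 = 0 := mem_hyp.1 p.2.1.2
  simp only [ofY, PiLp.add_apply, PiLp.smul_apply, smul_eq_mul, h, h1, e0_zero]
  ring

theorem toY_ofY {u₀ : EuclideanSpace ℝ (Fin 6)} (h : u₀ 0 = 0) (p : ℝ × (hyp × T)) :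
    toY u₀ (ofY u₀ p) = p := by
  refine Prod.ext (ofY_zero h p) (Prod.ext ?_ rfl)
  have h1 : (p.2.1 : EuclideanSpace ℝ (Fin 6)) 0 = 0 := mem_hyp.1 p.2.1.2
  refine Subtype.ext ?_
  change ((projH ((ofY u₀ p).1 - u₀) : hyp) : EuclideanSpace ℝ (Fin 6)) = p.2.1
  rw [coe_projH]
  ext i
  simp only [ofY, PiLp.add_apply, PiLp.sub_apply, PiLp.smul_apply, smul_eq_mul, h, h1, e0_zero]
  ring

theorem continuous_toY [TopologicalSpace T] (u₀ : EuclideanSpace ℝ (Fin 6)) :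
    Continuous (toY u₀ : EuclideanSpace ℝ (Fin 6) × T → ℝ × (hyp × T)) := by
  unfold toY
  refine Continuous.prodMk ?_ (Continuous.prodMk ?_ continuous_snd)
  · fun_prop
  · exact projH.continuous.comp (continuous_fst.sub continuous_const)

theorem continuous_ofY [TopologicalSpace T] (u₀ : EuclideanSpace ℝ (Fin 6)) :
    Continuous (ofY u₀ : ℝ × (hyp × T) → EuclideanSpace ℝ (Fin 6) × T) := by
  unfold ofY
  fun_prop

end Coord

section Block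

variable {E Y : Type*} [NormedAddCommGroup E] [NormedSpace ℝ E] [NormedAddCommGroup Y]
  [NormedSpace ℝ Y] {n : ℕ}

/-- one half of the equations -/
noncomputable def blockF (ι : Y →L[ℝ] E) (a : Y →L[ℝ] (Fin n → ℝ)) (l₀ : Fin n → ℝ) (β : ℝ → E)
    (A : Fin n → E → (E →L[ℝ] ℝ)) (p : ℝ × Y) : E →L[ℝ] ℝ :=
  ∑ i, (l₀ + a p.2) i • A i (β p.1 + ι p.2)

/-- its derivative in the second variable -/
noncomputable def blockD (ι : Y →L[ℝ] E) (a : Y →L[ℝ] (Fin n → ℝ)) (l₀ : Fin n → ℝ) (β : ℝ → E)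
    (A : Fin n → E → (E →L[ℝ] ℝ)) (A' : Fin n → E → (E →L[ℝ] (E →L[ℝ] ℝ))) (p : ℝ × Y) :
    Y →L[ℝ] (E →L[ℝ] ℝ) :=
  ∑ i, ((l₀ + a p.2) i • (A' i (β p.1 + ι p.2)).comp ι +
    ((ContinuousLinearMap.proj (R := ℝ) (φ := fun _ : Fin n => ℝ) i).comp a).smulRight
      (A i (β p.1 + ι p.2)))

theorem hasFDerivAt_block (ι : Y →L[ℝ] E) (a : Y →L[ℝ] (Fin n → ℝ)) (l₀ : Fin n → ℝ) (β : ℝ → E)
    {A : Fin n → E → (E →L[ℝ] ℝ)} {A' : Fin n → E → (E →L[ℝ] (E →L[ℝ] ℝ))} {R : Set E} (p : ℝ × Y)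
    (hA : ∀ i, HasFDerivWithinAt (A i) (A' i (β p.1 + ι p.2)) R (β p.1 + ι p.2))
    (hR : ∀ y, β p.1 + ι y ∈ R) :
    HasFDerivAt (fun y => blockF ι a l₀ β A (p.1, y)) (blockD ι a l₀ β A A' p) p.2 := by
  refine HasFDerivAt.fun_sum fun i _ => ?_
  have h1 : HasFDerivAt (fun y : Y => A i (β p.1 + ι y)) ((A' i (β p.1 + ι p.2)).comp ι) p.2 := by
    have h2 : HasFDerivAt (fun y : Y => β p.1 + ι y) ι p.2 := ι.hasFDerivAt.const_add _
    exact (hA i).comp_hasFDerivAt (f := fun y : Y => β p.1 + ι y) p.2 h2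
      (Filter.Eventually.of_forall hR)
  have h3 : HasFDerivAt (fun y : Y => (l₀ + a y) i)
      ((ContinuousLinearMap.proj (R := ℝ) (φ := fun _ : Fin n => ℝ) i).comp a) p.2 := by
    have h4 := ((ContinuousLinearMap.proj (R := ℝ) (φ := fun _ : Fin n => ℝ) i).comp
      a).hasFDerivAt (x := p.2)
    exact h4.const_add (l₀ i)
  exact h3.smul h1

theorem continuousOn_block {ι : Y →L[ℝ] E} {a : Y →L[ℝ] (Fin n → ℝ)} {l₀ : Fin n → ℝ} {β : ℝ → E}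
    (hβ : Continuous β) {A : Fin n → E → (E →L[ℝ] ℝ)} {N : Set E}
    (hA : ∀ i, ContinuousOn (A i) N) :
    ContinuousOn (blockF ι a l₀ β A) {p | β p.1 + ι p.2 ∈ N} := by
  have h0 : Continuous fun p : ℝ × Y => β p.1 + ι p.2 := by fun_prop
  unfold blockF
  refine continuousOn_finsetSum _ fun i _ => ?_
  have h1 : Continuous fun p : ℝ × Y => (l₀ + a p.2) i := by
    have h2 : Continuous fun p : ℝ × Y => l₀ + a p.2 := by fun_prop
    exact (continuous_apply i).comp h2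
  have h3 : ContinuousOn (fun p : ℝ × Y => A i (β p.1 + ι p.2)) {p | β p.1 + ι p.2 ∈ N} :=
    (hA i).comp h0.continuousOn fun p hp => hp
  exact h1.continuousOn.smul h3

theorem continuousOn_blockD {ι : Y →L[ℝ] E} {a : Y →L[ℝ] (Fin n → ℝ)} {l₀ : Fin n → ℝ}
    {β : ℝ → E} (hβ : Continuous β) {A : Fin n → E → (E →L[ℝ] ℝ)}
    {A' : Fin n → E → (E →L[ℝ] (E →L[ℝ] ℝ))} {N : Set E}
    (hA : ∀ i, ContinuousOn (A i) N) (hA' : ∀ i, ContinuousOn (A' i) N) :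
    ContinuousOn (blockD ι a l₀ β A A') {p | β p.1 + ι p.2 ∈ N} := by
  have h0 : Continuous fun p : ℝ × Y => β p.1 + ι p.2 := by fun_prop
  have hgrp : IsTopologicalAddGroup (Y →L[ℝ] (E →L[ℝ] ℝ)) := inferInstance
  have hadd : ContinuousAdd (Y →L[ℝ] (E →L[ℝ] ℝ)) := hgrp.toContinuousAdd
  refine continuousOn_finsetSum Finset.univ fun i _ => ?_
  have h1 : Continuous fun p : ℝ × Y => (l₀ + a p.2) i := by
    have h2 : Continuous fun p : ℝ × Y => l₀ + a p.2 := by fun_prop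
    exact (continuous_apply i).comp h2
  have h3 : ContinuousOn (fun p : ℝ × Y => A i (β p.1 + ι p.2)) {p | β p.1 + ι p.2 ∈ N} :=
    (hA i).comp h0.continuousOn fun p hp => hp
  have h4 : ContinuousOn (fun p : ℝ × Y => A' i (β p.1 + ι p.2)) {p | β p.1 + ι p.2 ∈ N} :=
    (hA' i).comp h0.continuousOn fun p hp => hp
  have h5 : ContinuousOn (fun p : ℝ × Y => (A' i (β p.1 + ι p.2)).comp ι)
      {p | β p.1 + ι p.2 ∈ N} := h4.clm_comp continuousOn_const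
  have h6 : ContinuousOn (fun p : ℝ × Y =>
      ((ContinuousLinearMap.proj (R := ℝ) (φ := fun _ : Fin n => ℝ) i).comp a).smulRight
        (A i (β p.1 + ι p.2))) {p | β p.1 + ι p.2 ∈ N} :=
    ((ContinuousLinearMap.smulRightL ℝ Y (E →L[ℝ] ℝ)
      ((ContinuousLinearMap.proj (R := ℝ) (φ := fun _ : Fin n => ℝ) i).comp
        a)).continuous).comp_continuousOn h3
  exact (h1.continuousOn.smul h5).add h6

end Block

section

variable {W : Type*} [TopologicalSpace W] [ChartedSpace (EuclideanHalfSpace 6) W]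
  [IsManifold (𝓡∂ 6) ∞ W]

theorem boundary_coord (c : W) {y : W} (hy : y ∈ (chartAt (EuclideanHalfSpace 6) c).source)
    (hb : y ∈ (𝓡∂ 6).boundary W) : extChartAt (𝓡∂ 6) c y 0 = 0 := by
  have hys : y ∈ (extChartAt (𝓡∂ 6) c).source := by rwa [extChartAt_source]
  have h1 : extChartAt (𝓡∂ 6) c y ∈ (extChartAt (𝓡∂ 6) c).target :=
    (extChartAt (𝓡∂ 6) c).map_source hys
  have h2 : extChartAt (𝓡∂ 6) c y ∈ range (𝓡∂ 6) := extChartAt_target_subset_range c h1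
  have h3 : 0 ≤ extChartAt (𝓡∂ 6) c y 0 := by
    rw [range_modelWithCornersEuclideanHalfSpace] at h2
    exact h2
  by_contra hne
  have h4 : 0 < extChartAt (𝓡∂ 6) c y 0 := lt_of_le_of_ne h3 (Ne.symm hne)
  have h5 : extChartAt (𝓡∂ 6) c y ∈ interior (range (𝓡∂ 6)) := by
    rw [interior_range_modelWithCornersEuclideanHalfSpace]
    exact h4
  have h6 : extChartAt (𝓡∂ 6) c y ∈ interior (extChartAt (𝓡∂ 6) c).target := by
    rw [mem_interior_iff_mem_nhds]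
    have h7 := extChartAt_target_mem_nhdsWithin_of_mem h1
    rw [mem_nhdsWithin_iff_exists_mem_nhds_inter] at h7
    obtain ⟨u, hu, hsub⟩ := h7
    exact Filter.mem_of_superset (Filter.inter_mem hu (mem_interior_iff_mem_nhds.1 h5)) hsub
  have h7 := ((𝓡∂ 6).isInteriorPoint_iff_of_mem_atlas (n := ∞) (by simp)
    (chart_mem_atlas (EuclideanHalfSpace 6) c) hy).2 h6
  exact ((𝓡∂ 6).isInteriorPoint_iff_not_isBoundaryPoint y).1 h7 hb

theorem continuousOn_fderivWithin_locForm {V : Type*} [NormedAddCommGroup V] [NormedSpace ℝ V]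
    {e : W → V} (he : ContMDiff (𝓡∂ 6) 𝓘(ℝ, V) ∞ e) {v : W → (V →L[ℝ] ℝ)}
    (hv : ContMDiff (𝓡∂ 6) 𝓘(ℝ, V →L[ℝ] ℝ) ∞ v) (c : W) :
    ContinuousOn (fderivWithin ℝ (locForm (𝓡∂ 6) e v c) (range (𝓡∂ 6)))
      (extChartAt (𝓡∂ 6) c).target := by
  have hu : UniqueDiffOn ℝ (extChartAt (𝓡∂ 6) c).target := uniqueDiffOn_extChartAt_target c
  have h1 := contDiffOn_locForm (𝓡∂ 6) he hv c
  have h2 := h1.continuousOn_fderivWithin hu (by simp)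
  refine h2.congr fun u hu' => ?_
  have h3 : UniqueDiffWithinAt ℝ (extChartAt (𝓡∂ 6) c).target u := hu u hu'
  have h4 := ((h1 u hu').differentiableWithinAt (by simp)).mono_of_mem_nhdsWithin
    (extChartAt_target_mem_nhdsWithin_of_mem hu')
  exact ((h4.hasFDerivWithinAt.mono (extChartAt_target_subset_range c)).fderivWithin h3).symm

theorem hasFDerivWithinAt_locForm {V : Type*} [NormedAddCommGroup V] [NormedSpace ℝ V]
    {e : W → V} (he : ContMDiff (𝓡∂ 6) 𝓘(ℝ, V) ∞ e) {v : W → (V →L[ℝ] ℝ)}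
    (hv : ContMDiff (𝓡∂ 6) 𝓘(ℝ, V →L[ℝ] ℝ) ∞ v) (c : W) {u : EuclideanSpace ℝ (Fin 6)}
    (hu : u ∈ (extChartAt (𝓡∂ 6) c).target) :
    HasFDerivWithinAt (locForm (𝓡∂ 6) e v c)
      (fderivWithin ℝ (locForm (𝓡∂ 6) e v c) (range (𝓡∂ 6)) u) (range (𝓡∂ 6)) u := by
  have h1 := contDiffOn_locForm (𝓡∂ 6) he hv c
  have h2 := ((h1 u hu).differentiableWithinAt (by simp)).mono_of_mem_nhdsWithin
    (extChartAt_target_mem_nhdsWithin_of_mem hu)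
  exact h2.hasFDerivWithinAt

section Coeff

variable (l : Fin 5 → ℝ) (m : Fin 4 → ℝ)

/-- `(ξ, l', m') ↦ ξ` -/
noncomputable def iY : (hyp × perp l × perp m) →L[ℝ] EuclideanSpace ℝ (Fin 6) :=
  hyp.subtypeL.comp (ContinuousLinearMap.fst ℝ hyp (perp l × perp m))

/-- `(ξ, l', m') ↦ l'` -/
noncomputable def aY : (hyp × perp l × perp m) →L[ℝ] (Fin 5 → ℝ) :=
  (perp l).subtypeL.comp ((ContinuousLinearMap.fst ℝ (perp l) (perp m)).comp
    (ContinuousLinearMap.snd ℝ hyp (perp l × perp m)))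

/-- `(ξ, l', m') ↦ m'` -/
noncomputable def bY : (hyp × perp l × perp m) →L[ℝ] (Fin 4 → ℝ) :=
  (perp m).subtypeL.comp ((ContinuousLinearMap.snd ℝ (perp l) (perp m)).comp
    (ContinuousLinearMap.snd ℝ hyp (perp l × perp m)))

/-- the base point -/
noncomputable def beta (u₀ : EuclideanSpace ℝ (Fin 6)) (t : ℝ) : EuclideanSpace ℝ (Fin 6) :=
  u₀ + t • e0

theorem continuous_beta (u₀ : EuclideanSpace ℝ (Fin 6)) : Continuous (beta u₀) := by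
  unfold beta
  fun_prop

/-- the derivative of the equations in the second variable -/
noncomputable def DY (u₀ : EuclideanSpace ℝ (Fin 6))
    (A : Fin 5 → EuclideanSpace ℝ (Fin 6) → (EuclideanSpace ℝ (Fin 6) →L[ℝ] ℝ))
    (A' : Fin 5 → EuclideanSpace ℝ (Fin 6) →
      (EuclideanSpace ℝ (Fin 6) →L[ℝ] (EuclideanSpace ℝ (Fin 6) →L[ℝ] ℝ)))
    (B : Fin 4 → EuclideanSpace ℝ (Fin 6) → (EuclideanSpace ℝ (Fin 6) →L[ℝ] ℝ))
    (B' : Fin 4 → EuclideanSpace ℝ (Fin 6) →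
      (EuclideanSpace ℝ (Fin 6) →L[ℝ] (EuclideanSpace ℝ (Fin 6) →L[ℝ] ℝ)))
    (p : ℝ × (hyp × perp l × perp m)) : (hyp × perp l × perp m) →L[ℝ]
      (EuclideanSpace ℝ (Fin 6) →L[ℝ] ℝ) × (EuclideanSpace ℝ (Fin 6) →L[ℝ] ℝ) :=
  (blockD (iY l m) (aY l m) l (beta u₀) A A' p).prod (blockD (iY l m) (bY l m) m (beta u₀) B B' p)

/-- the equations -/
noncomputable def FY (u₀ : EuclideanSpace ℝ (Fin 6))
    (A : Fin 5 → EuclideanSpace ℝ (Fin 6) → (EuclideanSpace ℝ (Fin 6) →L[ℝ] ℝ))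
    (B : Fin 4 → EuclideanSpace ℝ (Fin 6) → (EuclideanSpace ℝ (Fin 6) →L[ℝ] ℝ))
    (p : ℝ × (hyp × perp l × perp m)) :
      (EuclideanSpace ℝ (Fin 6) →L[ℝ] ℝ) × (EuclideanSpace ℝ (Fin 6) →L[ℝ] ℝ) :=
  (blockF (iY l m) (aY l m) l (beta u₀) A p, blockF (iY l m) (bY l m) m (beta u₀) B p)

theorem beta_add_iY (u₀ : EuclideanSpace ℝ (Fin 6)) (p : ℝ × (hyp × perp l × perp m)) :
    beta u₀ p.1 + iY l m p.2 = (ofY u₀ p).1 := rfl

theorem DY_zero (u₀ : EuclideanSpace ℝ (Fin 6))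
    (A : Fin 5 → EuclideanSpace ℝ (Fin 6) → (EuclideanSpace ℝ (Fin 6) →L[ℝ] ℝ))
    (A' : Fin 5 → EuclideanSpace ℝ (Fin 6) →
      (EuclideanSpace ℝ (Fin 6) →L[ℝ] (EuclideanSpace ℝ (Fin 6) →L[ℝ] ℝ)))
    (B : Fin 4 → EuclideanSpace ℝ (Fin 6) → (EuclideanSpace ℝ (Fin 6) →L[ℝ] ℝ))
    (B' : Fin 4 → EuclideanSpace ℝ (Fin 6) →
      (EuclideanSpace ℝ (Fin 6) →L[ℝ] (EuclideanSpace ℝ (Fin 6) →L[ℝ] ℝ)))
    (y : hyp × perp l × perp m) : DY l m u₀ A A' B B' (0, 0) y =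
      (∑ i, l i • A' i u₀ (y.1 : EuclideanSpace ℝ (Fin 6)) +
        ∑ i, (y.2.1 : Fin 5 → ℝ) i • A i u₀,
       ∑ i, m i • B' i u₀ (y.1 : EuclideanSpace ℝ (Fin 6)) +
        ∑ i, (y.2.2 : Fin 4 → ℝ) i • B i u₀) := by
  have h5 : beta u₀ (0 : ℝ) + iY l m (0 : hyp × perp l × perp m) = u₀ := by simp [beta]
  refine Prod.ext ?_ ?_
  · change blockD (iY l m) (aY l m) l (beta u₀) A A' (0, 0) y = _
    simp only [blockD, h5]
    simp [iY, aY, Finset.sum_add_distrib]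
  · change blockD (iY l m) (bY l m) m (beta u₀) B B' (0, 0) y = _
    simp only [blockD, h5]
    simp [iY, bY, Finset.sum_add_distrib]

theorem exists_equiv_of_injective {V V₂ : Type*} [NormedAddCommGroup V] [NormedSpace ℝ V]
    [FiniteDimensional ℝ V] [NormedAddCommGroup V₂] [NormedSpace ℝ V₂] [FiniteDimensional ℝ V₂]
    (f : V →L[ℝ] V₂) (hf : Function.Injective f.toLinearMap) (hdim : finrank ℝ V = finrank ℝ V₂) :
    ∃ L : V ≃L[ℝ] V₂, f = L :=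
  ⟨(LinearMap.linearEquivOfInjective f.toLinearMap hf hdim).toContinuousLinearEquiv,
    ContinuousLinearMap.ext fun _ => rfl⟩

theorem exists_equiv_DY {l : Fin 5 → ℝ} {m : Fin 4 → ℝ} (hl : l ⬝ᵥ l = 1) (hm : m ⬝ᵥ m = 1)
    {u₀ : EuclideanSpace ℝ (Fin 6)}
    {A : Fin 5 → EuclideanSpace ℝ (Fin 6) → (EuclideanSpace ℝ (Fin 6) →L[ℝ] ℝ)}
    {A' : Fin 5 → EuclideanSpace ℝ (Fin 6) →
      (EuclideanSpace ℝ (Fin 6) →L[ℝ] (EuclideanSpace ℝ (Fin 6) →L[ℝ] ℝ))}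
    {B : Fin 4 → EuclideanSpace ℝ (Fin 6) → (EuclideanSpace ℝ (Fin 6) →L[ℝ] ℝ)}
    {B' : Fin 4 → EuclideanSpace ℝ (Fin 6) →
      (EuclideanSpace ℝ (Fin 6) →L[ℝ] (EuclideanSpace ℝ (Fin 6) →L[ℝ] ℝ))}
    (hnd : ∀ (ξ : EuclideanSpace ℝ (Fin 6)) (l' : Fin 5 → ℝ) (m' : Fin 4 → ℝ), ξ 0 = 0 →
      (∑ i, l i • A' i u₀ ξ + ∑ i, l' i • A i u₀, ∑ i, m i • B' i u₀ ξ + ∑ i, m' i • B i u₀) = 0 →
      ξ = 0 ∧ (∃ s : ℝ, l' = s • l) ∧ ∃ s : ℝ, m' = s • m) :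
    ∃ L : (hyp × perp l × perp m) ≃L[ℝ]
      ((EuclideanSpace ℝ (Fin 6) →L[ℝ] ℝ) × (EuclideanSpace ℝ (Fin 6) →L[ℝ] ℝ)),
      DY l m u₀ A A' B B' (0, 0) = L := by
  have hinj : Function.Injective (DY l m u₀ A A' B B' (0, 0)).toLinearMap := by
    rw [← LinearMap.ker_eq_bot, LinearMap.ker_eq_bot']
    intro y hy
    have h1 : DY l m u₀ A A' B B' (0, 0) y = 0 := hy
    rw [DY_zero] at h1
    obtain ⟨h2, ⟨r, h3⟩, ⟨r', h4⟩⟩ := hnd _ _ _ (mem_hyp.1 y.1.2) h1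
    refine Prod.ext (Subtype.ext h2) (Prod.ext (Subtype.ext ?_) (Subtype.ext ?_))
    · have h5 := dot_perp y.2.1
      rw [h3, dotProduct_smul, hl, smul_eq_mul, mul_one] at h5
      rw [h3, h5, zero_smul]
      rfl
    · have h5 := dot_perp y.2.2
      rw [h4, dotProduct_smul, hm, smul_eq_mul, mul_one] at h5
      rw [h4, h5, zero_smul]
      rfl
  have hdim : finrank ℝ (hyp × perp l × perp m) = finrank ℝ
      ((EuclideanSpace ℝ (Fin 6) →L[ℝ] ℝ) × (EuclideanSpace ℝ (Fin 6) →L[ℝ] ℝ)) := by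
    have h1 : finrank ℝ (perp l) + 1 = 5 := finrank_perp hl
    have h2 : finrank ℝ (perp m) + 1 = 4 := finrank_perp hm
    rw [finrank_prod, finrank_prod, finrank_prod, finrank_dual_six, finrank_hyp]
    omega
  exact exists_equiv_of_injective _ hinj hdim

theorem beta_iY_zero {u₀ : EuclideanSpace ℝ (Fin 6)} (h : u₀ 0 = 0) (t : ℝ)
    (y : hyp × perp l × perp m) : (beta u₀ t + iY l m y) 0 = t := ofY_zero h (t, y)

theorem beta_iY_mem_range {u₀ : EuclideanSpace ℝ (Fin 6)} (h : u₀ 0 = 0) {t : ℝ}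
    (y : hyp × perp l × perp m) : beta u₀ t + iY l m y ∈ range (𝓡∂ 6) ↔ 0 ≤ t := by
  rw [range_modelWithCornersEuclideanHalfSpace]
  change 0 ≤ (beta u₀ t + iY l m y) 0 ↔ 0 ≤ t
  rw [beta_iY_zero l m h]

theorem mem_nhdsWithin_sY {u₀ : EuclideanSpace ℝ (Fin 6)} (h : u₀ 0 = 0)
    {N : Set (EuclideanSpace ℝ (Fin 6))} (hN : N ∈ 𝓝[range (𝓡∂ 6)] u₀) :
    {p : ℝ × (hyp × perp l × perp m) | beta u₀ p.1 + iY l m p.2 ∈ N} ∈
      𝓝[{p | 0 ≤ p.1}] ((0 : ℝ), (0 : hyp × perp l × perp m)) := by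
  have h1 : Continuous fun p : ℝ × (hyp × perp l × perp m) => beta u₀ p.1 + iY l m p.2 :=
    ((continuous_beta u₀).comp continuous_fst).add ((iY l m).continuous.comp continuous_snd)
  have h3 : Filter.Tendsto (fun p : ℝ × (hyp × perp l × perp m) => beta u₀ p.1 + iY l m p.2)
      (𝓝[{p | 0 ≤ p.1}] ((0 : ℝ), (0 : hyp × perp l × perp m))) (𝓝[range (𝓡∂ 6)] u₀) := by
    refine tendsto_nhdsWithin_iff.2 ⟨?_, ?_⟩
    · have h4 := h1.tendsto ((0 : ℝ), (0 : hyp × perp l × perp m))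
      have h5 : beta u₀ (0 : ℝ) + iY l m (0 : hyp × perp l × perp m) = u₀ := by simp [beta]
      simp only [h5] at h4
      exact h4.mono_left nhdsWithin_le_nhds
    · filter_upwards [self_mem_nhdsWithin] with p hp
      rw [beta_iY_mem_range l m h]
      exact hp
  exact h3 hN

end Coeff

end

end ZC

open ZC

section

variable {W : Type*} [TopologicalSpace W] [ChartedSpace (EuclideanHalfSpace 6) W]
  [IsManifold (𝓡∂ 6) ∞ W]

theorem endAt_of_nondeg {V : Type*} [NormedAddCommGroup V] [NormedSpace ℝ V]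
    [FiniteDimensional ℝ V] {e : W → V} (he : ContMDiff (𝓡∂ 6) 𝓘(ℝ, V) ∞ e)
    {v : Fin 5 → W → (V →L[ℝ] ℝ)} (hv : ∀ i, ContMDiff (𝓡∂ 6) 𝓘(ℝ, V →L[ℝ] ℝ) ∞ (v i))
    {w : Fin 4 → W → (V →L[ℝ] ℝ)} (hw : ∀ i, ContMDiff (𝓡∂ 6) 𝓘(ℝ, V →L[ℝ] ℝ) ∞ (w i))
    {x : W} (hx : x ∈ (𝓡∂ 6).boundary W) {l : Fin 5 → ℝ} {m : Fin 4 → ℝ}
    (hz : IsZero (𝓡∂ 6) e v w x l m)
    (hnd : ∀ (ξ : EuclideanSpace ℝ (Fin 6)) l' m', ξ 0 = 0 →
      dmap (𝓡∂ 6) e v w x x l m ξ l' m' = 0 → ξ = 0 ∧ (∃ s : ℝ, l' = s • l) ∧ ∃ s : ℝ, m' = s • m)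
    (z : zeroSet (𝓡∂ 6) e v w)
    (hzz : z.1 = (x, Matrix.vecMulVec l l, Matrix.vecMulVec m m)) :
    ∃ γ : Ico (0 : ℝ) 1 → zeroSet (𝓡∂ 6) e v w, IsOpenEmbedding γ ∧
      γ ⟨0, le_rfl, one_pos⟩ = z ∧ ∀ t, (γ t).1.1 ∈ (𝓡∂ 6).boundary W → (t : ℝ) = 0 := by
  obtain ⟨hl, hm, hf, hg⟩ := hz
  have hxs : x ∈ (chartAt (EuclideanHalfSpace 6) x).source := mem_chart_source _ x
  have hu₀N : extChartAt (𝓡∂ 6) x x ∈ (extChartAt (𝓡∂ 6) x).target := mem_extChartAt_target x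
  have hvd : ∀ i, DifferentiableWithinAt ℝ (locForm (𝓡∂ 6) e (v i) x) (range (𝓡∂ 6))
      (extChartAt (𝓡∂ 6) x x) :=
    fun i => (hasFDerivWithinAt_locForm he (hv i) x hu₀N).differentiableWithinAt
  have hwd : ∀ i, DifferentiableWithinAt ℝ (locForm (𝓡∂ 6) e (w i) x) (range (𝓡∂ 6))
      (extChartAt (𝓡∂ 6) x x) :=
    fun i => (hasFDerivWithinAt_locForm he (hw i) x hu₀N).differentiableWithinAt
  have hnd' : ∀ (ξ : EuclideanSpace ℝ (Fin 6)) (l' : Fin 5 → ℝ) (m' : Fin 4 → ℝ), ξ 0 = 0 →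
      (∑ i, l i • fderivWithin ℝ (locForm (𝓡∂ 6) e (v i) x) (range (𝓡∂ 6))
          (extChartAt (𝓡∂ 6) x x) ξ + ∑ i, l' i • locForm (𝓡∂ 6) e (v i) x (extChartAt (𝓡∂ 6) x x),
        ∑ i, m i • fderivWithin ℝ (locForm (𝓡∂ 6) e (w i) x) (range (𝓡∂ 6))
          (extChartAt (𝓡∂ 6) x x) ξ + ∑ i, m' i • locForm (𝓡∂ 6) e (w i) x (extChartAt (𝓡∂ 6) x x))
        = 0 → ξ = 0 ∧ (∃ s : ℝ, l' = s • l) ∧ ∃ s : ℝ, m' = s • m := by
    intro ξ l' m' h1 h2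
    refine hnd ξ l' m' h1 ?_
    rw [dmap_eq (𝓡∂ 6) hvd hwd]
    exact h2
  have hu₀0 : extChartAt (𝓡∂ 6) x x 0 = 0 := boundary_coord x hxs hx
  obtain ⟨L, hL⟩ := exists_equiv_DY hl hm (A := fun i => locForm (𝓡∂ 6) e (v i) x)
    (B := fun i => locForm (𝓡∂ 6) e (w i) x)
    (A' := fun i => fderivWithin ℝ (locForm (𝓡∂ 6) e (v i) x) (range (𝓡∂ 6)))
    (B' := fun i => fderivWithin ℝ (locForm (𝓡∂ 6) e (w i) x) (range (𝓡∂ 6))) hnd'
  clear hnd hnd' hvd hwd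
  have hAc : ∀ i, ContinuousOn (locForm (𝓡∂ 6) e (v i) x) (extChartAt (𝓡∂ 6) x).target :=
    fun i => (contDiffOn_locForm (𝓡∂ 6) he (hv i) x).continuousOn
  have hBc : ∀ i, ContinuousOn (locForm (𝓡∂ 6) e (w i) x) (extChartAt (𝓡∂ 6) x).target :=
    fun i => (contDiffOn_locForm (𝓡∂ 6) he (hw i) x).continuousOn
  have hA'c : ∀ i, ContinuousOn (fderivWithin ℝ (locForm (𝓡∂ 6) e (v i) x) (range (𝓡∂ 6)))
      (extChartAt (𝓡∂ 6) x).target := fun i => continuousOn_fderivWithin_locForm he (hv i) x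
  have hB'c : ∀ i, ContinuousOn (fderivWithin ℝ (locForm (𝓡∂ 6) e (w i) x) (range (𝓡∂ 6)))
      (extChartAt (𝓡∂ 6) x).target := fun i => continuousOn_fderivWithin_locForm he (hw i) x
  have hAd := fun i (u : EuclideanSpace ℝ (Fin 6)) (hu : u ∈ (extChartAt (𝓡∂ 6) x).target) =>
    hasFDerivWithinAt_locForm he (hv i) x hu
  have hBd := fun i (u : EuclideanSpace ℝ (Fin 6)) (hu : u ∈ (extChartAt (𝓡∂ 6) x).target) =>
    hasFDerivWithinAt_locForm he (hw i) x hu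
  -- the set
  have hsn := mem_nhdsWithin_sY l m hu₀0 (extChartAt_target_mem_nhdsWithin (I := 𝓡∂ 6) x)
  have hsR : ∀ p : ℝ × (hyp × perp l × perp m), beta (extChartAt (𝓡∂ 6) x x) p.1 + iY l m p.2 ∈
      (extChartAt (𝓡∂ 6) x).target → 0 ≤ p.1 := fun p hp =>
    (beta_iY_mem_range l m hu₀0 p.2).1 (extChartAt_target_subset_range x hp)
  have hFc : ContinuousOn (FY l m (extChartAt (𝓡∂ 6) x x) (fun i => locForm (𝓡∂ 6) e (v i) x)
      (fun i => locForm (𝓡∂ 6) e (w i) x)) {p : ℝ × (hyp × perp l × perp m) |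
        beta (extChartAt (𝓡∂ 6) x x) p.1 + iY l m p.2 ∈ (extChartAt (𝓡∂ 6) x).target} :=
    (continuousOn_block (continuous_beta _) hAc).prodMk
      (continuousOn_block (continuous_beta _) hBc)
  have hFd : ∀ p : ℝ × (hyp × perp l × perp m), beta (extChartAt (𝓡∂ 6) x x) p.1 + iY l m p.2 ∈
      (extChartAt (𝓡∂ 6) x).target → HasFDerivAt (fun y => FY l m (extChartAt (𝓡∂ 6) x x)
        (fun i => locForm (𝓡∂ 6) e (v i) x) (fun i => locForm (𝓡∂ 6) e (w i) x) (p.1, y))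
        (DY l m (extChartAt (𝓡∂ 6) x x) (fun i => locForm (𝓡∂ 6) e (v i) x)
          (fun i => fderivWithin ℝ (locForm (𝓡∂ 6) e (v i) x) (range (𝓡∂ 6)))
          (fun i => locForm (𝓡∂ 6) e (w i) x)
          (fun i => fderivWithin ℝ (locForm (𝓡∂ 6) e (w i) x) (range (𝓡∂ 6))) p) p.2 := by
    intro p hp
    have hR : ∀ y : hyp × perp l × perp m,
        beta (extChartAt (𝓡∂ 6) x x) p.1 + iY l m y ∈ range (𝓡∂ 6) :=
      fun y => (beta_iY_mem_range l m hu₀0 y).2 (hsR p hp)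
    exact HasFDerivAt.prodMk
      (hasFDerivAt_block (iY l m) (aY l m) l _ (R := range (𝓡∂ 6)) p (fun i => hAd i _ hp) hR)
      (hasFDerivAt_block (iY l m) (bY l m) m _ (R := range (𝓡∂ 6)) p (fun i => hBd i _ hp) hR)
  have h0s : beta (extChartAt (𝓡∂ 6) x x) (0 : ℝ) + iY l m (0 : hyp × perp l × perp m) ∈
      (extChartAt (𝓡∂ 6) x).target := by
    have h5 : beta (extChartAt (𝓡∂ 6) x x) (0 : ℝ) + iY l m (0 : hyp × perp l × perp m) =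
        extChartAt (𝓡∂ 6) x x := by simp [beta]
    rw [h5]
    exact hu₀N
  have hDc : ContinuousWithinAt (DY l m (extChartAt (𝓡∂ 6) x x)
      (fun i => locForm (𝓡∂ 6) e (v i) x)
      (fun i => fderivWithin ℝ (locForm (𝓡∂ 6) e (v i) x) (range (𝓡∂ 6)))
      (fun i => locForm (𝓡∂ 6) e (w i) x)
      (fun i => fderivWithin ℝ (locForm (𝓡∂ 6) e (w i) x) (range (𝓡∂ 6)))) {p | 0 ≤ p.1}
      ((0 : ℝ), (0 : hyp × perp l × perp m)) := by
    have h2 := continuousOn_blockD (ι := iY l m) (a := aY l m) (l₀ := l)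
      (continuous_beta (extChartAt (𝓡∂ 6) x x)) hAc hA'c
    have h3 := continuousOn_blockD (ι := iY l m) (a := bY l m) (l₀ := m)
      (continuous_beta (extChartAt (𝓡∂ 6) x x)) hBc hB'c
    have h1 := (ContinuousLinearMap.prodₗᵢ (𝕜 := ℝ) ℝ).continuous.comp_continuousOn
      (h2.prodMk h3)
    exact (h1 _ h0s).mono_of_mem_nhdsWithin hsn
  have hof0 : ofY (extChartAt (𝓡∂ 6) x x) ((0 : ℝ), (0 : hyp × perp l × perp m)) =
      (extChartAt (𝓡∂ 6) x x, 0, 0) := by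
    refine Prod.ext ?_ rfl
    simp [ofY]
  have hzO : z.1 ∈ zO (EuclideanHalfSpace 6) l m x := by
    rw [hzz]
    have h2 := dot_proj1_add_perp_ne hl (0 : perp l)
    have h3 := dot_proj1_add_perp_ne hm (0 : perp m)
    rw [Submodule.coe_zero, add_zero, proj1_of_unit hl] at h2
    rw [Submodule.coe_zero, add_zero, proj1_of_unit hm] at h3
    exact ⟨hxs, h2, h3⟩
  have hFz : ∀ p : ℝ × (hyp × perp l × perp m), FY l m (extChartAt (𝓡∂ 6) x x)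
      (fun i => locForm (𝓡∂ 6) e (v i) x) (fun i => locForm (𝓡∂ 6) e (w i) x) p =
      Fz (𝓡∂ 6) e v w x (ofY (extChartAt (𝓡∂ 6) x x) p) := fun p => rfl
  have hF0 : FY l m (extChartAt (𝓡∂ 6) x x) (fun i => locForm (𝓡∂ 6) e (v i) x)
      (fun i => locForm (𝓡∂ 6) e (w i) x) (0, 0) = 0 := by
    have h1 : zc (𝓡∂ 6) hl hm x z.1 = (extChartAt (𝓡∂ 6) x x, 0, 0) := by
      rw [hzz]; exact zc_self (𝓡∂ 6) hl hm x x
    rw [hFz, hof0, ← h1]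
    exact Fz_zc (𝓡∂ 6) hl hm he z.2 hzO
  obtain ⟨d, hd⟩ := exists_subtype_lift (zeroSet (𝓡∂ 6) e v w) z
    (fun p : ℝ × (hyp × perp l × perp m) => zd (𝓡∂ 6) l m x (ofY (extChartAt (𝓡∂ 6) x x) p))
  have hmemZ : ∀ p : ℝ × (hyp × perp l × perp m),
      beta (extChartAt (𝓡∂ 6) x x) p.1 + iY l m p.2 ∈ (extChartAt (𝓡∂ 6) x).target →
      FY l m (extChartAt (𝓡∂ 6) x x) (fun i => locForm (𝓡∂ 6) e (v i) x)
        (fun i => locForm (𝓡∂ 6) e (w i) x) p = 0 →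
      zd (𝓡∂ 6) l m x (ofY (extChartAt (𝓡∂ 6) x x) p) ∈ zeroSet (𝓡∂ 6) e v w :=
    fun p hp hp0 => zd_mem_zeroSet (𝓡∂ 6) he hl hm hp hp0
  have hdz : d (0, 0) = z := by
    refine Subtype.ext ?_
    rw [hd (0, 0) (hmemZ _ h0s hF0), hzz, hof0]
    simp only [zd, Submodule.coe_zero, add_zero, proj1_of_unit hl, proj1_of_unit hm]
    rw [(extChartAt (𝓡∂ 6) x).left_inv (mem_extChartAt_source x)]
  have hOo : IsOpen ((Subtype.val ⁻¹' (zO (EuclideanHalfSpace 6) l m x) :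
      Set (zeroSet (𝓡∂ 6) e v w))) := (isOpen_zO x).preimage continuous_subtype_val
  have hcc : ContinuousOn (fun z' : zeroSet (𝓡∂ 6) e v w =>
      toY (extChartAt (𝓡∂ 6) x x) (zc (𝓡∂ 6) hl hm x z'.1))
      (Subtype.val ⁻¹' (zO (EuclideanHalfSpace 6) l m x)) :=
    (continuous_toY _).comp_continuousOn
      ((continuousOn_zc (𝓡∂ 6) hl hm x).comp continuous_subtype_val.continuousOn fun z hz => hz)
  have q1 : ∀ z' : zeroSet (𝓡∂ 6) e v w, z' ∈ ((Subtype.val ⁻¹' (zO (EuclideanHalfSpace 6) l m x) :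
      Set (zeroSet (𝓡∂ 6) e v w))) →
      0 ≤ (toY (extChartAt (𝓡∂ 6) x x) (zc (𝓡∂ 6) hl hm x z'.1)).1 := by
    intro z' hz'
    have h1 : z'.1.1 ∈ (extChartAt (𝓡∂ 6) x).source := by
      rw [extChartAt_source]; exact hz'.1
    have h2 := extChartAt_target_subset_range x ((extChartAt (𝓡∂ 6) x).map_source h1)
    rw [range_modelWithCornersEuclideanHalfSpace] at h2
    exact h2
  have q2 : ContinuousOn d {p : ℝ × (hyp × perp l × perp m) | p ∈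
      {p : ℝ × (hyp × perp l × perp m) |
        beta (extChartAt (𝓡∂ 6) x x) p.1 + iY l m p.2 ∈ (extChartAt (𝓡∂ 6) x).target} ∧
        FY l m (extChartAt (𝓡∂ 6) x x) (fun i => locForm (𝓡∂ 6) e (v i) x)
        (fun i => locForm (𝓡∂ 6) e (w i) x) p = 0} := by
    rw [IsInducing.subtypeVal.continuousOn_iff]
    have h1 := (continuousOn_zd (𝓡∂ 6) hl hm x).comp
      (continuous_ofY (extChartAt (𝓡∂ 6) x x)).continuousOn
      (s := {p : ℝ × (hyp × perp l × perp m) | p ∈ {p : ℝ × (hyp × perp l × perp m) |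
        beta (extChartAt (𝓡∂ 6) x x) p.1 + iY l m p.2 ∈ (extChartAt (𝓡∂ 6) x).target} ∧
        FY l m (extChartAt (𝓡∂ 6) x x) (fun i => locForm (𝓡∂ 6) e (v i) x)
        (fun i => locForm (𝓡∂ 6) e (w i) x) p = 0}) fun p hp => hp.1
    refine h1.congr fun p hp => ?_
    exact hd p (hmemZ p hp.1 hp.2)
  have q3 : ∀ p : ℝ × (hyp × perp l × perp m),
      beta (extChartAt (𝓡∂ 6) x x) p.1 + iY l m p.2 ∈ (extChartAt (𝓡∂ 6) x).target →
      FY l m (extChartAt (𝓡∂ 6) x x) (fun i => locForm (𝓡∂ 6) e (v i) x)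
        (fun i => locForm (𝓡∂ 6) e (w i) x) p = 0 →
      d p ∈ (Subtype.val ⁻¹' (zO (EuclideanHalfSpace 6) l m x) : Set (zeroSet (𝓡∂ 6) e v w)) ∧
      toY (extChartAt (𝓡∂ 6) x x) (zc (𝓡∂ 6) hl hm x (d p).1) = p := by
    intro p hp hp0
    have h1 := hd p (hmemZ p hp hp0)
    refine ⟨?_, ?_⟩
    · change (d p).1 ∈ zO (EuclideanHalfSpace 6) l m x
      rw [h1]
      exact zd_mem_zO (𝓡∂ 6) hl hm hp
    · rw [h1, zc_zd (𝓡∂ 6) hl hm hp, toY_ofY hu₀0]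
  have q4 : ∀ z' : zeroSet (𝓡∂ 6) e v w, z' ∈ ((Subtype.val ⁻¹' (zO (EuclideanHalfSpace 6) l m x) :
      Set (zeroSet (𝓡∂ 6) e v w))) →
      FY l m (extChartAt (𝓡∂ 6) x x) (fun i => locForm (𝓡∂ 6) e (v i) x)
        (fun i => locForm (𝓡∂ 6) e (w i) x)
        (toY (extChartAt (𝓡∂ 6) x x) (zc (𝓡∂ 6) hl hm x z'.1)) = 0 ∧
      (toY (extChartAt (𝓡∂ 6) x x) (zc (𝓡∂ 6) hl hm x z'.1) ∈
        {p : ℝ × (hyp × perp l × perp m) |
          beta (extChartAt (𝓡∂ 6) x x) p.1 + iY l m p.2 ∈ (extChartAt (𝓡∂ 6) x).target} →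
        d (toY (extChartAt (𝓡∂ 6) x x) (zc (𝓡∂ 6) hl hm x z'.1)) = z') := by
    intro z' hz'
    have h1 := Fz_zc (𝓡∂ 6) hl hm he z'.2 hz'
    have h2 : FY l m (extChartAt (𝓡∂ 6) x x) (fun i => locForm (𝓡∂ 6) e (v i) x)
        (fun i => locForm (𝓡∂ 6) e (w i) x)
        (toY (extChartAt (𝓡∂ 6) x x) (zc (𝓡∂ 6) hl hm x z'.1)) = 0 := by
      rw [hFz, ofY_toY hu₀0]
      exact h1
    refine ⟨h2, fun hN' => ?_⟩
    refine Subtype.ext ?_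
    rw [hd _ (hmemZ _ hN' h2), ofY_toY hu₀0]
    exact zd_zc (𝓡∂ 6) hl hm z'.2 hz'
  obtain ⟨γ, hγ, hγ0, hγ1⟩ := endAt_abstract hsn hFc hFd hDc hF0 L hL hOo
    (c := fun z' => toY (extChartAt (𝓡∂ 6) x x) (zc (𝓡∂ 6) hl hm x z'.1)) hcc q1 q2 q3 q4
  refine ⟨γ, hγ, hγ0.trans hdz, fun t ht => ?_⟩
  exact (hγ1 t).2 (boundary_coord x (hγ1 t).1.1 ht)

end

end Pool.Agent.MP_f1864b_gt
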