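import Pool.Agent.Lib.MP_f1864b_gt.BdCoord

set_option autoImplicit false

/-!
# Functions on the boundary extend; a boundary function
-/

namespace Pool.Agent.MP_f1864b_gt

open scoped Manifold ContDiff Topology
open Set Topology Filter

section Inverse

variable {E : Type*} [NormedAddCommGroup E] [NormedSpace ℝ E] [FiniteDimensional ℝ E]

/-- The inverse function theorem on a neighbourhood. -/
theorem exists_smooth_inverse {h : E → E} {Ω : Set E} (hΩ : IsOpen Ω) (hh : ContDiffOn ℝ ∞ h Ω)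
    {u₀ : E} (hu₀ : u₀ ∈ Ω) (hinj : Function.Injective (fderiv ℝ h u₀)) :
    ∃ e : OpenPartialHomeomorph E E, u₀ ∈ e.source ∧ e.source ⊆ Ω ∧ (∀ u, e u = h u) ∧
      ContDiffOn ℝ ∞ e.symm e.target := by
  have : CompleteSpace E := FiniteDimensional.complete ℝ E
  have hc : ContDiffAt ℝ ∞ h u₀ := hh.contDiffAt (hΩ.mem_nhds hu₀)
  set A : E ≃L[ℝ] E := (LinearEquiv.ofInjectiveEndo (fderiv ℝ h u₀ : E →ₗ[ℝ] E)
    hinj).toContinuousLinearEquiv with hAdef
  have hA1 : (A : E →L[ℝ] E) = fderiv ℝ h u₀ := by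
    ext v
    rfl
  have hA : HasFDerivAt h (A : E →L[ℝ] E) u₀ := by
    rw [hA1]
    exact (hc.differentiableAt (by simp)).hasFDerivAt
  set e := hc.toOpenPartialHomeomorph h hA (by simp) with he
  have hecoe : (e : E → E) = h := ContDiffAt.toOpenPartialHomeomorph_coe hc hA (by simp)
  have hemem : u₀ ∈ e.source := ContDiffAt.mem_toOpenPartialHomeomorph_source hc hA (by simp)
  have hunit : ∀ᶠ y in 𝓝 u₀, ∃ B : E ≃L[ℝ] E, (B : E →L[ℝ] E) = fderiv ℝ h y := by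
    have h1 : ContinuousAt (fderiv ℝ h) u₀ :=
      (hc.fderiv_right (m := ∞) (by simp)).continuousAt
    have h2 : range ((↑) : (E ≃L[ℝ] E) → E →L[ℝ] E) ∈ 𝓝 (fderiv ℝ h u₀) := by
      rw [← hA1]
      exact ContinuousLinearEquiv.nhds _
    exact h1 h2
  obtain ⟨S, hSsub, hSopen, hSmem⟩ := mem_nhds_iff.1 (hunit.and (hΩ.mem_nhds hu₀))
  refine ⟨e.restrOpen S hSopen, ⟨hemem, hSmem⟩, fun u hu => (hSsub hu.2).2,
    fun u => congrFun hecoe u, ?_⟩
  intro y hy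
  have hyt : y ∈ e.target := hy.1
  have hyS : e.symm y ∈ S := by
    have h1 := (e.restrOpen S hSopen).map_target hy
    exact h1.2
  obtain ⟨⟨B, hB⟩, h2⟩ := hSsub hyS
  have h3 : ContDiffAt ℝ ∞ h (e.symm y) := hh.contDiffAt (hΩ.mem_nhds h2)
  have h4 : ContDiffAt ℝ ∞ e.symm y := by
    refine e.contDiffAt_symm hyt (f₀' := B) ?_ ?_
    · rw [hecoe, hB]
      exact (h3.differentiableAt (by simp)).hasFDerivAt
    · rw [hecoe]; exact h3
  exact h4.contDiffWithinAt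

end Inverse

section Drop

variable {n : ℕ}

/-- The projection which forgets the coordinate `0`. -/
noncomputable def dropZero (n : ℕ) :
    EuclideanSpace ℝ (Fin (n + 1)) →L[ℝ] EuclideanSpace ℝ (Fin n) :=
  LinearMap.toContinuousLinearMap
    { toFun := fun v => WithLp.toLp 2 fun i => v i.succ
      map_add' := fun v w => by ext i; rfl
      map_smul' := fun c v => by ext i; rfl }

theorem dropZero_apply (v : EuclideanSpace ℝ (Fin (n + 1))) (i : Fin n) :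
    dropZero n v i = v i.succ := rfl

theorem eq_zero_of_dropZero {v : EuclideanSpace ℝ (Fin (n + 1))} (h0 : v 0 = 0)
    (h : dropZero n v = 0) : v = 0 := by
  ext i
  refine Fin.cases h0 (fun k => ?_) i
  have h1 := congrArg (fun w : EuclideanSpace ℝ (Fin n) => w k) h
  exact h1

end Drop

section Ext

variable {W : Type*} [TopologicalSpace W] [T2Space W] [CompactSpace W]
  [ChartedSpace (EuclideanHalfSpace 6) W] [IsManifold (𝓡∂ 6) ∞ W]
  {M : Type*} [TopologicalSpace M] [CompactSpace M] [ChartedSpace (EuclideanSpace ℝ (Fin 5)) M]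
  [IsManifold (𝓡 5) ∞ M] {j : M → W}

omit [CompactSpace W] in
theorem local_extension (hj : ContMDiff (𝓡 5) (𝓡∂ 6) ∞ j) (hinj : Function.Injective j)
    (hd : ∀ y, Function.Injective (mfderiv (𝓡 5) (𝓡∂ 6) j y))
    (hr : range j = (𝓡∂ 6).boundary W) {F : Type*} [NormedAddCommGroup F] [NormedSpace ℝ F]
    {f : M → F} (hf : ContMDiff (𝓡 5) 𝓘(ℝ, F) ∞ f) (y₀ : M) :
    ∃ U ∈ 𝓝 (j y₀), ∃ g : W → F, ContMDiffOn (𝓡∂ 6) 𝓘(ℝ, F) ∞ g U ∧
      ∀ y, j y ∈ U → g (j y) = f y := by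
  set φ := extChartAt (𝓡∂ 6) (j y₀) with hφ
  set ψ := extChartAt (𝓡 5) y₀ with hψ
  set Ω : Set (EuclideanSpace ℝ (Fin 5)) := ψ.target ∩ ψ.symm ⁻¹' (j ⁻¹' φ.source) with hΩd
  have hφo : IsOpen φ.source := isOpen_extChartAt_source (j y₀)
  have hψo : IsOpen ψ.target := isOpen_extChartAt_target y₀
  have hΩ : IsOpen Ω :=
    (continuousOn_extChartAt_symm y₀).isOpen_inter_preimage hψo (hφo.preimage hj.continuous)
  set J : EuclideanSpace ℝ (Fin 5) → EuclideanSpace ℝ (Fin 6) := fun u => φ (j (ψ.symm u)) with hJd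
  have hJ : ContDiffOn ℝ ∞ J Ω := by
    rw [← contMDiffOn_iff_contDiffOn]
    have h1 : ContMDiffOn (𝓡∂ 6) 𝓘(ℝ, EuclideanSpace ℝ (Fin 6)) ∞ φ φ.source := by
      have := contMDiffOn_extChartAt (I := 𝓡∂ 6) (n := ∞) (x := j y₀)
      rwa [← extChartAt_source (𝓡∂ 6)] at this
    have h2 : ContMDiffOn 𝓘(ℝ, EuclideanSpace ℝ (Fin 5)) (𝓡 5) ∞ ψ.symm ψ.target :=
      contMDiffOn_extChartAt_symm y₀
    exact h1.comp (hj.comp_contMDiffOn (h2.mono inter_subset_left)) fun u hu => hu.2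
  have hJ0 : ∀ u ∈ Ω, J u 0 = 0 := by
    intro u hu
    have h1 : j (ψ.symm u) ∈ (𝓡∂ 6).boundary W := hr ▸ mem_range_self _
    have h2 : j (ψ.symm u) ∈ (chartAt (EuclideanHalfSpace 6) (j y₀)).source := by
      have := hu.2
      rwa [← extChartAt_source (𝓡∂ 6)]
    exact (mem_boundary_iff_coord h2).1 h1
  have hu₀ : ψ y₀ ∈ Ω := by
    refine ⟨mem_extChartAt_target y₀, ?_⟩
    change j (ψ.symm (ψ y₀)) ∈ φ.source
    rw [ψ.left_inv (mem_extChartAt_source y₀)]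
    exact mem_extChartAt_source (j y₀)
  have hJd0 : Function.Injective (fderiv ℝ J (ψ y₀)) := by
    have h1 : (mfderiv (𝓡 5) (𝓡∂ 6) j y₀ : EuclideanSpace ℝ (Fin 5) →L[ℝ]
        EuclideanSpace ℝ (Fin 6)) = fderiv ℝ J (ψ y₀) := by
      unfold mfderiv
      rw [if_pos ((hj y₀).mdifferentiableAt (by simp))]
      simp only [modelWithCornersSelf_coe, range_id, fderivWithin_univ]
      rfl
    rw [← h1]
    exact hd y₀
  have hJc : DifferentiableAt ℝ J (ψ y₀) :=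
    (hJ.contDiffAt (hΩ.mem_nhds hu₀)).differentiableAt (by simp)
  set h : EuclideanSpace ℝ (Fin 5) → EuclideanSpace ℝ (Fin 5) := fun u => dropZero 5 (J u) with hhd
  have hh : ContDiffOn ℝ ∞ h Ω := (dropZero 5).contDiff.comp_contDiffOn hJ
  have hh0 : Function.Injective (fderiv ℝ h (ψ y₀)) := by
    have h1 : HasFDerivAt h ((dropZero 5).comp (fderiv ℝ J (ψ y₀))) (ψ y₀) :=
      (dropZero 5).hasFDerivAt.comp (ψ y₀) hJc.hasFDerivAt
    rw [h1.fderiv]
    have h2 : ∀ ξ, fderiv ℝ J (ψ y₀) ξ 0 = 0 := by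
      intro ξ
      have h3 : HasFDerivAt (fun u => (EuclideanSpace.proj (0 : Fin 6) :
          EuclideanSpace ℝ (Fin 6) →L[ℝ] ℝ) (J u)) ((EuclideanSpace.proj (0 : Fin 6) :
          EuclideanSpace ℝ (Fin 6) →L[ℝ] ℝ).comp (fderiv ℝ J (ψ y₀))) (ψ y₀) :=
        (EuclideanSpace.proj (0 : Fin 6) :
          EuclideanSpace ℝ (Fin 6) →L[ℝ] ℝ).hasFDerivAt.comp (ψ y₀) hJc.hasFDerivAt
      have h4 : HasFDerivAt (fun u => (EuclideanSpace.proj (0 : Fin 6) :
          EuclideanSpace ℝ (Fin 6) →L[ℝ] ℝ) (J u)) (0 : EuclideanSpace ℝ (Fin 5) →L[ℝ] ℝ)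
          (ψ y₀) := by
        refine (hasFDerivAt_const (0 : ℝ) (ψ y₀)).congr_of_eventuallyEq ?_
        filter_upwards [hΩ.mem_nhds hu₀] with u hu using hJ0 u hu
      exact congrArg (fun G : EuclideanSpace ℝ (Fin 5) →L[ℝ] ℝ => G ξ) (h3.unique h4)
    rw [injective_iff_map_eq_zero]
    intro ξ hξ
    have h5 : fderiv ℝ J (ψ y₀) ξ = 0 := eq_zero_of_dropZero (h2 ξ) hξ
    exact hJd0 (by rw [h5, map_zero])
  obtain ⟨e, he0, heΩ, hecoe, hesymm⟩ := exists_smooth_inverse hΩ hh hu₀ hh0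
  -- the neighbourhood
  have hφc : ContinuousOn (fun w => dropZero 5 (φ w)) φ.source :=
    (dropZero 5).continuous.comp_continuousOn (continuousOn_extChartAt (j y₀))
  set U₁ : Set W := φ.source ∩ (fun w => dropZero 5 (φ w)) ⁻¹' e.target with hU₁
  have hU₁o : IsOpen U₁ := hφc.isOpen_inter_preimage hφo e.open_target
  set N : Set M := ψ.source ∩ ψ ⁻¹' e.source with hN
  have hNo : IsOpen N :=
    (continuousOn_extChartAt y₀).isOpen_inter_preimage (isOpen_extChartAt_source y₀) e.open_source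
  have hNc : IsClosed (j '' Nᶜ) := (hNo.isClosed_compl.isCompact.image hj.continuous).isClosed
  refine ⟨U₁ ∩ (j '' Nᶜ)ᶜ, ?_, fun w => f (ψ.symm (e.symm (dropZero 5 (φ w)))), ?_, ?_⟩
  · refine (hU₁o.inter hNc.isOpen_compl).mem_nhds ⟨⟨mem_extChartAt_source (j y₀), ?_⟩, ?_⟩
    · change dropZero 5 (φ (j y₀)) ∈ e.target
      have h1 : dropZero 5 (φ (j y₀)) = e (ψ y₀) := by
        rw [hecoe]
        change _ = dropZero 5 (φ (j (ψ.symm (ψ y₀))))
        rw [ψ.left_inv (mem_extChartAt_source y₀)]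
      rw [h1]
      exact e.map_source he0
    · rintro ⟨y, hy, hyy⟩
      rw [hinj hyy] at hy
      exact hy ⟨mem_extChartAt_source y₀, he0⟩
  · have h1 : ContMDiffOn (𝓡∂ 6) 𝓘(ℝ, EuclideanSpace ℝ (Fin 6)) ∞ φ φ.source := by
      have := contMDiffOn_extChartAt (I := 𝓡∂ 6) (n := ∞) (x := j y₀)
      rwa [← extChartAt_source (𝓡∂ 6)] at this
    have h2 : ContMDiffOn 𝓘(ℝ, EuclideanSpace ℝ (Fin 5)) (𝓡 5) ∞ ψ.symm ψ.target :=
      contMDiffOn_extChartAt_symm y₀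
    have h3 : ContMDiffOn 𝓘(ℝ, EuclideanSpace ℝ (Fin 5)) 𝓘(ℝ, EuclideanSpace ℝ (Fin 5)) ∞
        e.symm e.target := contMDiffOn_iff_contDiffOn.2 hesymm
    have h4 : ContMDiffOn (𝓡∂ 6) 𝓘(ℝ, EuclideanSpace ℝ (Fin 5)) ∞ (fun w => dropZero 5 (φ w))
        φ.source := (dropZero 5).contMDiff.comp_contMDiffOn h1
    refine hf.comp_contMDiffOn (h2.comp (h3.comp (h4.mono fun w hw => hw.1.1)
      fun w hw => hw.1.2) fun w hw => ?_)
    exact (heΩ (e.map_target hw.1.2)).1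
  · rintro y ⟨⟨-, hy1⟩, hy2⟩
    have hyN : y ∈ N := by
      by_contra hc
      exact hy2 ⟨y, hc, rfl⟩
    have h1 : dropZero 5 (φ (j y)) = e (ψ y) := by
      rw [hecoe]
      change _ = dropZero 5 (φ (j (ψ.symm (ψ y))))
      rw [ψ.left_inv hyN.1]
    change f (ψ.symm (e.symm (dropZero 5 (φ (j y))))) = f y
    rw [h1, e.left_inv hyN.2, ψ.left_inv hyN.1]

theorem exists_extension (hj : ContMDiff (𝓡 5) (𝓡∂ 6) ∞ j) (hinj : Function.Injective j)
    (hd : ∀ y, Function.Injective (mfderiv (𝓡 5) (𝓡∂ 6) j y))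
    (hr : range j = (𝓡∂ 6).boundary W) {F : Type*} [NormedAddCommGroup F] [NormedSpace ℝ F]
    [FiniteDimensional ℝ F] {f : M → F} (hf : ContMDiff (𝓡 5) 𝓘(ℝ, F) ∞ f) :
    ∃ g : W → F, ContMDiff (𝓡∂ 6) 𝓘(ℝ, F) ∞ g ∧ ∀ y, g (j y) = f y := by
  have hconv : ∀ x : W, Convex ℝ {v : F | ∀ y, j y = x → v = f y} := by
    intro x v hv w hw a b _ _ hab y hy
    rw [hv y hy, hw y hy, ← add_smul, hab, one_smul]
  have hloc : ∀ x : W, ∃ U ∈ 𝓝 x, ∃ g : W → F, ContMDiffOn (𝓡∂ 6) 𝓘(ℝ, F) ∞ g U ∧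
      ∀ z ∈ U, g z ∈ {v : F | ∀ y, j y = z → v = f y} := by
    intro x
    by_cases hx : x ∈ range j
    · obtain ⟨y₀, rfl⟩ := hx
      obtain ⟨U, hU, g, hg, hgf⟩ := local_extension hj hinj hd hr hf y₀
      refine ⟨U, hU, g, hg, ?_⟩
      rintro z hz y rfl
      exact hgf y hz
    · refine ⟨(range j)ᶜ, (isCompact_range hj.continuous).isClosed.isOpen_compl.mem_nhds hx,
        fun _ => 0, contMDiffOn_const, ?_⟩
      rintro z hz y rfl
      exact absurd (mem_range_self y) hz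
  obtain ⟨g, hg⟩ := exists_contMDiffMap_forall_mem_convex_of_local (𝓡∂ 6)
    (n := (⊤ : ℕ∞)) hconv hloc
  exact ⟨g, g.contMDiff, fun y => hg (j y) y rfl⟩

end Ext

end Pool.Agent.MP_f1864b_gt
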