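import Mathlib

/-!
# A compact one-dimensional manifold has an even number of boundary points

`Z` is a compact Hausdorff space and `bd` a subset.  Every point outside `bd` lies in the interior
of an arc avoiding `bd`, every point of `bd` is the initial point of an arc which is open near this
initial point.  Then `bd` is finite and has an even number of elements.
-/

set_option autoImplicit false

open Set Topology

namespace MP_f1864b_gt.OneMfd

variable {Z : Type*} [TopologicalSpace Z]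

/-- A closed arc `a : [l, r] → Z` whose core (`(l, r)` or `[l, r)`) has open image; it meets `bd`
exactly in `a l` if `l` is in the core and not at all otherwise. -/
structure Arc (bd : Set Z) where
  /-- the parametrisation -/
  a : ℝ → Z
  /-- left end -/
  l : ℝ
  /-- right end -/
  r : ℝ
  /-- the core -/
  core : Set ℝ
  lr : l < r
  cont : ContinuousOn a (Icc l r)
  inj : InjOn a (Icc l r)
  Ioo_sub : Ioo l r ⊆ core
  core_sub : core ⊆ Ico l r
  open_core : IsOpen (a '' core)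
  bd_iff : ∀ t ∈ Icc l r, a t ∈ bd ↔ (t = l ∧ l ∈ core)

namespace Arc

variable {bd : Set Z} (A : Arc bd)

theorem core_sub_Icc : A.core ⊆ Icc A.l A.r := A.core_sub.trans Ico_subset_Icc_self

theorem isClosed_image [T2Space Z] {K : Set ℝ} (hK : IsClosed K) :
    IsClosed (A.a '' (Icc A.l A.r ∩ K)) := by
  have h1 : IsCompact (Icc A.l A.r ∩ K) := isCompact_Icc.inter_right hK
  exact (h1.image_of_continuousOn (A.cont.mono inter_subset_left)).isClosed

theorem isOpen_image [T2Space Z] {O : Set ℝ} (hO : IsOpen O) : IsOpen (A.a '' (A.core ∩ O)) := by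
  have h1 : A.a '' (A.core ∩ O) = A.a '' A.core ∩ (A.a '' (Icc A.l A.r ∩ Oᶜ))ᶜ := by
    ext z
    constructor
    · rintro ⟨t, ⟨ht, htO⟩, rfl⟩
      refine ⟨⟨t, ht, rfl⟩, ?_⟩
      rintro ⟨u, ⟨hu, huO⟩, hut⟩
      have := A.inj hu (A.core_sub_Icc ht) hut
      subst this
      exact huO htO
    · rintro ⟨⟨t, ht, rfl⟩, hn⟩
      refine ⟨t, ⟨ht, ?_⟩, rfl⟩
      by_contra hO'
      exact hn ⟨t, ⟨A.core_sub_Icc ht, hO'⟩, rfl⟩
  rw [h1]
  exact A.open_core.inter (A.isClosed_image hO.isClosed_compl).isOpen_compl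

theorem Ioo_sub_core {s t : ℝ} (hs : s ∈ Icc A.l A.r) (ht : t ∈ Icc A.l A.r) :
    Ioo s t ⊆ A.core :=
  (Ioo_subset_Ioo hs.1 ht.2).trans A.Ioo_sub

theorem isOpen_Ioo_image [T2Space Z] {s t : ℝ} (hs : s ∈ Icc A.l A.r) (ht : t ∈ Icc A.l A.r) :
    IsOpen (A.a '' Ioo s t) := by
  have h := A.isOpen_image (isOpen_Ioo (a := s) (b := t))
  rwa [inter_eq_self_of_subset_right (A.Ioo_sub_core hs ht)] at h

theorem Icc_sub {s t : ℝ} (hs : s ∈ Icc A.l A.r) (ht : t ∈ Icc A.l A.r) :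
    Icc s t ⊆ Icc A.l A.r := Icc_subset_Icc hs.1 ht.2

theorem isPreconnected_Ioo_image {s t : ℝ} (hs : s ∈ Icc A.l A.r) (ht : t ∈ Icc A.l A.r) :
    IsPreconnected (A.a '' Ioo s t) :=
  isPreconnected_Ioo.image _ (A.cont.mono (Ioo_subset_Icc_self.trans (A.Icc_sub hs ht)))

theorem closure_Ioo_image [T2Space Z] {s t : ℝ} (hs : s ∈ Icc A.l A.r) (ht : t ∈ Icc A.l A.r)
    (hst : s < t) : closure (A.a '' Ioo s t) = A.a '' Icc s t := by
  apply Subset.antisymm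
  · apply closure_minimal (image_mono Ioo_subset_Icc_self)
    have h := A.isClosed_image (isClosed_Icc (a := s) (b := t))
    rwa [inter_eq_self_of_subset_right (A.Icc_sub hs ht)] at h
  · have h1 : ContinuousOn A.a (closure (Ioo s t)) := by
      rw [closure_Ioo hst.ne]
      exact A.cont.mono (A.Icc_sub hs ht)
    have h2 := h1.image_closure
    rwa [closure_Ioo hst.ne] at h2

/-- `(s, t)` is a gap of the arc `A` with respect to the set `B`. -/
def GapOn (B : Set Z) (s t : ℝ) : Prop :=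
  s ∈ Icc A.l A.r ∧ t ∈ Icc A.l A.r ∧ s < t ∧ A.a s ∈ B ∧ A.a t ∈ B ∧ ∀ u ∈ Ioo s t, A.a u ∉ B

theorem GapOn.disjoint {A : Arc bd} {B : Set Z} {s t : ℝ} (h : A.GapOn B s t) :
    A.a '' Ioo s t ⊆ Bᶜ := by
  rintro _ ⟨u, hu, rfl⟩
  exact h.2.2.2.2.2 u hu

theorem GapOn.closure_inter_compl [T2Space Z] {A : Arc bd} {B : Set Z} {s t : ℝ}
    (h : A.GapOn B s t) : closure (A.a '' Ioo s t) ∩ Bᶜ = A.a '' Ioo s t := by
  rw [A.closure_Ioo_image h.1 h.2.1 h.2.2.1]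
  apply Subset.antisymm
  · rintro _ ⟨⟨u, hu, rfl⟩, hB⟩
    refine ⟨u, ⟨lt_of_le_of_ne hu.1 ?_, lt_of_le_of_ne hu.2 ?_⟩, rfl⟩
    · rintro rfl; exact hB h.2.2.2.1
    · rintro rfl; exact hB h.2.2.2.2.1
  · exact subset_inter (image_mono Ioo_subset_Icc_self) h.disjoint

theorem GapOn.closure_inter [T2Space Z] {A : Arc bd} {B : Set Z} {s t : ℝ}
    (h : A.GapOn B s t) : closure (A.a '' Ioo s t) ∩ B = {A.a s, A.a t} := by
  rw [A.closure_Ioo_image h.1 h.2.1 h.2.2.1]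
  apply Subset.antisymm
  · rintro _ ⟨⟨u, hu, rfl⟩, hB⟩
    by_cases h1 : u = s
    · left; rw [h1]
    by_cases h2 : u = t
    · right; rw [h2]; rfl
    exact absurd hB (h.2.2.2.2.2 u ⟨lt_of_le_of_ne hu.1 (Ne.symm h1), lt_of_le_of_ne hu.2 h2⟩)
  · rintro _ (rfl | rfl)
    · exact ⟨⟨s, left_mem_Icc.2 h.2.2.1.le, rfl⟩, h.2.2.2.1⟩
    · exact ⟨⟨t, right_mem_Icc.2 h.2.2.1.le, rfl⟩, h.2.2.2.2.1⟩

theorem GapOn.nonempty {A : Arc bd} {B : Set Z} {s t : ℝ} (h : A.GapOn B s t) :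
    (A.a '' Ioo s t).Nonempty := (nonempty_Ioo.2 h.2.2.1).image _

theorem GapOn.subset_of_inter [T2Space Z] {A A' : Arc bd} {B : Set Z} {s t s' t' : ℝ}
    (h : A.GapOn B s t) (h' : A'.GapOn B s' t')
    (hn : (A.a '' Ioo s t ∩ A'.a '' Ioo s' t').Nonempty) :
    A.a '' Ioo s t ⊆ A'.a '' Ioo s' t' := by
  apply (A.isPreconnected_Ioo_image h.1 h.2.1).subset_of_closure_inter_subset
    (A'.isOpen_Ioo_image h'.1 h'.2.1) hn
  intro z hz
  rw [← h'.closure_inter_compl]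
  exact ⟨hz.1, h.disjoint hz.2⟩

theorem GapOn.eq_of_inter [T2Space Z] {A A' : Arc bd} {B : Set Z} {s t s' t' : ℝ}
    (h : A.GapOn B s t) (h' : A'.GapOn B s' t')
    (hn : (A.a '' Ioo s t ∩ A'.a '' Ioo s' t').Nonempty) :
    A.a '' Ioo s t = A'.a '' Ioo s' t' :=
  (h.subset_of_inter h' hn).antisymm (h'.subset_of_inter h (by rwa [inter_comm] at hn))

/-- The next point of `B` on the arc. -/
theorem exists_gap_right {B : Set Z} (hB : B.Finite) (hr : A.a A.r ∈ B) {u : ℝ}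
    (hu : u ∈ Ico A.l A.r) (huB : A.a u ∈ B) : ∃ t, A.GapOn B u t := by
  set T : Set ℝ := {t | t ∈ Ioc u A.r ∧ A.a t ∈ B} with hT
  have hTf : T.Finite := by
    apply Set.Finite.of_finite_image (f := A.a)
    · exact hB.subset (by rintro _ ⟨t, ht, rfl⟩; exact ht.2)
    · exact A.inj.mono (show T ⊆ Icc A.l A.r from fun t ht => ⟨hu.1.trans ht.1.1.le, ht.1.2⟩)
  have hTn : T.Nonempty := ⟨A.r, (⟨⟨hu.2, le_rfl⟩, hr⟩ : _ ∧ _)⟩
  obtain ⟨t, ht, hmin⟩ := hTf.exists_minimal hTn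
  refine ⟨t, ⟨hu.1, hu.2.le⟩, ⟨hu.1.trans ht.1.1.le, ht.1.2⟩, ht.1.1, huB, ht.2, ?_⟩
  intro v hv hvB
  have hvT : v ∈ T := ⟨⟨hv.1, hv.2.le.trans ht.1.2⟩, hvB⟩
  exact absurd (hmin hvT hv.2.le) (not_le.2 hv.2)

theorem exists_gap_left {B : Set Z} (hB : B.Finite) (hl : A.a A.l ∈ B) {u : ℝ}
    (hu : u ∈ Ioc A.l A.r) (huB : A.a u ∈ B) : ∃ s, A.GapOn B s u := by
  set T : Set ℝ := {t | t ∈ Ico A.l u ∧ A.a t ∈ B} with hT
  have hTf : T.Finite := by
    apply Set.Finite.of_finite_image (f := A.a)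
    · exact hB.subset (by rintro _ ⟨t, ht, rfl⟩; exact ht.2)
    · exact A.inj.mono (show T ⊆ Icc A.l A.r from fun t ht => ⟨ht.1.1, ht.1.2.le.trans hu.2⟩)
  have hTn : T.Nonempty := ⟨A.l, (⟨⟨le_rfl, hu.1⟩, hl⟩ : _ ∧ _)⟩
  obtain ⟨s, hs, hmax⟩ := hTf.exists_maximal hTn
  refine ⟨s, ⟨hs.1.1, hs.1.2.le.trans hu.2⟩, ⟨hu.1.le, hu.2⟩, hs.1.2, hs.2, huB, ?_⟩
  intro v hv hvB
  have hvT : v ∈ T := ⟨⟨hs.1.1.trans hv.1.le, hv.2⟩, hvB⟩
  exact absurd (hmax hvT hv.1.le) (not_le.2 hv.1)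

/-- A point of the core which is not in `B` lies in a gap. -/
theorem exists_gap_mem {B : Set Z} (hB : B.Finite) (hl : A.a A.l ∈ B) (hr : A.a A.r ∈ B) {u : ℝ}
    (hu : u ∈ Icc A.l A.r) (huB : A.a u ∉ B) : ∃ s t, A.GapOn B s t ∧ u ∈ Ioo s t := by
  set T : Set ℝ := {t | t ∈ Icc A.l u ∧ A.a t ∈ B} with hT
  have hTf : T.Finite := by
    apply Set.Finite.of_finite_image (f := A.a)
    · exact hB.subset (by rintro _ ⟨t, ht, rfl⟩; exact ht.2)
    · exact A.inj.mono (show T ⊆ Icc A.l A.r from fun t ht => ⟨ht.1.1, ht.1.2.trans hu.2⟩)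
  have hTn : T.Nonempty := ⟨A.l, (⟨⟨le_rfl, hu.1⟩, hl⟩ : _ ∧ _)⟩
  obtain ⟨s, hs, hmax⟩ := hTf.exists_maximal hTn
  have hsu : s < u := by
    apply lt_of_le_of_ne hs.1.2
    rintro rfl
    exact huB hs.2
  obtain ⟨t, ht⟩ := A.exists_gap_right hB hr (u := s) ⟨hs.1.1, hsu.trans_le hu.2⟩ hs.2
  refine ⟨s, t, ht, hsu, ?_⟩
  by_contra hle
  rw [not_lt] at hle
  have h1 : t ∈ T := ⟨⟨ht.2.1.1, hle⟩, ht.2.2.2.2.1⟩
  exact absurd (hmax h1 ht.2.2.1.le) (not_le.2 ht.2.2.1)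

end Arc

section Main

variable [T2Space Z] {bd : Set Z} {ι : Type*} [Finite ι] (A : ι → Arc bd)

/-- The set of all end points. -/
def ends : Set Z := ⋃ j, {(A j).a (A j).l, (A j).a (A j).r}

omit [T2Space Z] in
theorem ends_finite : (ends A).Finite := Set.finite_iUnion (fun _ => Set.toFinite _)

omit [T2Space Z] [Finite ι] in
theorem left_mem_ends (j : ι) : (A j).a (A j).l ∈ ends A :=
  mem_iUnion.2 ⟨j, Or.inl rfl⟩

omit [T2Space Z] [Finite ι] in
theorem right_mem_ends (j : ι) : (A j).a (A j).r ∈ ends A :=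
  mem_iUnion.2 ⟨j, Or.inr rfl⟩

omit [T2Space Z] [Finite ι] in
theorem bd_sub_ends (hcov : ∀ z, ∃ j, z ∈ (A j).a '' (A j).core) : bd ⊆ ends A := by
  intro z hz
  obtain ⟨j, t, ht, rfl⟩ := hcov z
  have := ((A j).bd_iff t ((A j).core_sub_Icc ht)).1 hz
  rw [this.1]
  exact left_mem_ends A j

/-- The set of all gaps. -/
def gaps : Set (Set Z) := {C | ∃ j s t, (A j).GapOn (ends A) s t ∧ C = (A j).a '' Ioo s t}

omit [T2Space Z] in
theorem gaps_finite : (gaps A).Finite := by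
  have h1 : ∀ j, {s | s ∈ Icc (A j).l (A j).r ∧ (A j).a s ∈ ends A}.Finite := by
    intro j
    apply Set.Finite.of_finite_image (f := (A j).a)
    · exact (ends_finite A).subset (by rintro _ ⟨t, ht, rfl⟩; exact ht.2)
    · exact (A j).inj.mono (fun t ht => ht.1)
  have h2 : (⋃ j, (fun p : ℝ × ℝ => (A j).a '' Ioo p.1 p.2) ''
      ({s | s ∈ Icc (A j).l (A j).r ∧ (A j).a s ∈ ends A} ×ˢ
        {s | s ∈ Icc (A j).l (A j).r ∧ (A j).a s ∈ ends A})).Finite :=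
    Set.finite_iUnion (fun j => ((h1 j).prod (h1 j)).image _)
  apply h2.subset
  rintro C ⟨j, s, t, h, rfl⟩
  exact mem_iUnion.2 ⟨j, ⟨(s, t), ⟨⟨h.1, h.2.2.2.1⟩, ⟨h.2.1, h.2.2.2.2.1⟩⟩, rfl⟩⟩

omit [Finite ι] in
theorem two_ends {C : Set Z} (hC : C ∈ gaps A) : (closure C ∩ ends A).ncard = 2 := by
  obtain ⟨j, s, t, h, rfl⟩ := hC
  rw [h.closure_inter, Set.ncard_pair]
  intro hst
  exact h.2.2.1.ne ((A j).inj h.1 h.2.1 hst)

omit [Finite ι] in
theorem gaps_eq_of_inter {C D : Set Z} (hC : C ∈ gaps A) (hD : D ∈ gaps A)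
    (h : (C ∩ D).Nonempty) : C = D := by
  obtain ⟨j, s, t, h1, rfl⟩ := hC
  obtain ⟨j', s', t', h2, rfl⟩ := hD
  exact h1.eq_of_inter h2 h

omit [T2Space Z] [Finite ι] in
theorem gaps_disjoint_ends {C : Set Z} (hC : C ∈ gaps A) : C ⊆ (ends A)ᶜ := by
  obtain ⟨j, s, t, h1, rfl⟩ := hC
  exact h1.disjoint

open Classical in
theorem card_at (hcov : ∀ z, ∃ j, z ∈ (A j).a '' (A j).core) {b : Z} (hb : b ∈ ends A) :
    {C | C ∈ gaps A ∧ b ∈ closure C}.ncard = if b ∈ bd then 1 else 2 := by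
  classical
  obtain ⟨j, u, hu, rfl⟩ := hcov b
  have huI := (A j).core_sub_Icc hu
  have hur : u ∈ Ico (A j).l (A j).r := (A j).core_sub hu
  obtain ⟨t, ht⟩ := (A j).exists_gap_right (ends_finite A) (right_mem_ends A j) hur hb
  have hcl : (A j).a u ∈ closure ((A j).a '' Ioo u t) := by
    rw [(A j).closure_Ioo_image ht.1 ht.2.1 ht.2.2.1]
    exact ⟨u, left_mem_Icc.2 ht.2.2.1.le, rfl⟩
  have hg1 : (A j).a '' Ioo u t ∈ gaps A := ⟨j, u, t, ht, rfl⟩
  by_cases hul : u = (A j).l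
  · -- boundary point
    have hbd : (A j).a u ∈ bd := ((A j).bd_iff u huI).2 ⟨hul, hul ▸ hu⟩
    rw [if_pos hbd]
    rw [Set.ncard_eq_one]
    refine ⟨(A j).a '' Ioo u t, ?_⟩
    apply Subset.antisymm
    · rintro C ⟨hC, hbC⟩
      rw [mem_singleton_iff]
      have hopen : IsOpen ((A j).a '' ((A j).core ∩ Iio t)) := (A j).isOpen_image isOpen_Iio
      obtain ⟨z, hz1, hz2⟩ := mem_closure_iff.1 hbC _ hopen ⟨u, ⟨hu, ht.2.2.1⟩, rfl⟩
      obtain ⟨v, ⟨hv, hvt⟩, rfl⟩ := hz1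
      have hvu : v ≠ u := by
        rintro rfl
        exact gaps_disjoint_ends A hC hz2 hb
      have hvu' : u < v := by
        apply lt_of_le_of_ne _ (Ne.symm hvu)
        rw [hul]
        exact ((A j).core_sub_Icc hv).1
      exact gaps_eq_of_inter A hC hg1 ⟨(A j).a v, hz2, ⟨v, ⟨hvu', hvt⟩, rfl⟩⟩
    · rintro C rfl
      exact ⟨hg1, hcl⟩
  · -- interior point
    have hbd : (A j).a u ∉ bd := fun h => hul (((A j).bd_iff u huI).1 h).1
    rw [if_neg hbd]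
    have hul' : u ∈ Ioc (A j).l (A j).r := ⟨lt_of_le_of_ne huI.1 (Ne.symm hul), huI.2⟩
    obtain ⟨s, hs⟩ := (A j).exists_gap_left (ends_finite A) (left_mem_ends A j) hul' hb
    have hcl2 : (A j).a u ∈ closure ((A j).a '' Ioo s u) := by
      rw [(A j).closure_Ioo_image hs.1 hs.2.1 hs.2.2.1]
      exact ⟨u, right_mem_Icc.2 hs.2.2.1.le, rfl⟩
    have hg2 : (A j).a '' Ioo s u ∈ gaps A := ⟨j, s, u, hs, rfl⟩
    have hne : (A j).a '' Ioo s u ≠ (A j).a '' Ioo u t := by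
      intro he
      obtain ⟨z, hz⟩ := hs.nonempty
      have hz' := hz
      rw [he] at hz'
      obtain ⟨v, hv, rfl⟩ := hz
      obtain ⟨w, hw, hwv⟩ := hz'
      have := (A j).inj ((A j).Icc_sub ht.1 ht.2.1 (Ioo_subset_Icc_self hw))
        ((A j).Icc_sub hs.1 hs.2.1 (Ioo_subset_Icc_self hv)) hwv
      subst this
      exact absurd hv.2 (not_lt.2 hw.1.le)
    have hset : {C | C ∈ gaps A ∧ (A j).a u ∈ closure C} =
        {(A j).a '' Ioo s u, (A j).a '' Ioo u t} := by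
      apply Subset.antisymm
      · rintro C ⟨hC, hbC⟩
        have hopen : IsOpen ((A j).a '' ((A j).core ∩ Ioo s t)) := (A j).isOpen_image isOpen_Ioo
        obtain ⟨z, hz1, hz2⟩ :=
          mem_closure_iff.1 hbC _ hopen ⟨u, ⟨hu, hs.2.2.1, ht.2.2.1⟩, rfl⟩
        obtain ⟨v, ⟨hv, hvt⟩, rfl⟩ := hz1
        have hvu : v ≠ u := by
          rintro rfl
          exact gaps_disjoint_ends A hC hz2 hb
        rcases lt_or_gt_of_ne hvu with h | h
        · left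
          exact gaps_eq_of_inter A hC hg2 ⟨(A j).a v, hz2, ⟨v, ⟨hvt.1, h⟩, rfl⟩⟩
        · right
          exact gaps_eq_of_inter A hC hg1 ⟨(A j).a v, hz2, ⟨v, ⟨h, hvt.2⟩, rfl⟩⟩
      · rintro C (rfl | rfl)
        · exact ⟨hg2, hcl2⟩
        · exact ⟨hg1, hcl⟩
    rw [hset, Set.ncard_pair hne]

theorem even_ncard_of_arcs (hcov : ∀ z, ∃ j, z ∈ (A j).a '' (A j).core) :
    bd.Finite ∧ Even bd.ncard := by
  classical
  have hbdf : bd.Finite := (ends_finite A).subset (bd_sub_ends A hcov)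
  refine ⟨hbdf, ?_⟩
  set E := (gaps_finite A).toFinset with hE
  set V := (ends_finite A).toFinset with hV
  have key : ∑ b ∈ V, (E.filter (fun C => b ∈ closure C)).card =
      ∑ C ∈ E, (V.filter (fun b => b ∈ closure C)).card :=
    Finset.sum_card_bipartiteAbove_eq_sum_card_bipartiteBelow (fun b C => b ∈ closure C)
  have h1 : ∀ C ∈ E, (V.filter (fun b => b ∈ closure C)).card = 2 := by
    intro C hC
    rw [hE, Set.Finite.mem_toFinset] at hC
    rw [← two_ends A hC, Set.ncard_eq_toFinset_card _ ((ends_finite A).inter_of_right _)]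
    congr 1
    ext b
    simp [hV, and_comm]
  have h2 : ∀ b ∈ V, (E.filter (fun C => b ∈ closure C)).card = if b ∈ bd then 1 else 2 := by
    intro b hb
    rw [hV, Set.Finite.mem_toFinset] at hb
    rw [← card_at A hcov hb,
      Set.ncard_eq_toFinset_card _ ((gaps_finite A).subset (fun C hC => hC.1))]
    congr 1
    ext C
    simp [hE]
  rw [Finset.sum_congr rfl h1, Finset.sum_congr rfl h2, Finset.sum_ite, Finset.sum_const,
    Finset.sum_const, Finset.sum_const] at key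
  have h3 : (V.filter (fun b => b ∈ bd)).card = bd.ncard := by
    rw [Set.ncard_eq_toFinset_card _ hbdf]
    congr 1
    ext b
    simp only [hV, Finset.mem_filter, Set.Finite.mem_toFinset]
    exact ⟨fun h => h.2, fun h => ⟨bd_sub_ends A hcov h, h⟩⟩
  rw [h3] at key
  simp only [smul_eq_mul, mul_one] at key
  rw [Nat.even_iff]
  omega

end Main

/-- **A compact one-dimensional manifold has an even number of boundary points.** -/
theorem even_ncard_boundary [T2Space Z] [CompactSpace Z] (bd : Set Z)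
    (hint : ∀ z ∉ bd, ∃ a : ℝ → Z, ContinuousOn a (Icc (-1) 1) ∧ InjOn a (Icc (-1) 1) ∧
      a 0 = z ∧ IsOpen (a '' Ioo (-1) 1) ∧ ∀ t ∈ Icc (-1 : ℝ) 1, a t ∉ bd)
    (hbd : ∀ z ∈ bd, ∃ a : ℝ → Z, ContinuousOn a (Icc 0 1) ∧ InjOn a (Icc 0 1) ∧
      a 0 = z ∧ IsOpen (a '' Ico 0 1) ∧ ∀ t ∈ Ioc (0 : ℝ) 1, a t ∉ bd) :
    bd.Finite ∧ Even bd.ncard := by
  have hex : ∀ z : Z, ∃ A : Arc bd, z ∈ A.a '' A.core := by
    intro z
    by_cases hz : z ∈ bd
    · obtain ⟨a, h1, h2, h3, h4, h5⟩ := hbd z hz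
      refine ⟨⟨a, 0, 1, Ico 0 1, one_pos, h1, h2, Ioo_subset_Ico_self, le_rfl, h4, ?_⟩,
        ⟨0, ⟨le_rfl, one_pos⟩, h3⟩⟩
      intro t ht
      constructor
      · intro h
        have ht0 : t = 0 := by
          by_contra hne
          exact h5 t ⟨lt_of_le_of_ne ht.1 (Ne.symm hne), ht.2⟩ h
        exact ⟨ht0, ⟨le_rfl, one_pos⟩⟩
      · rintro ⟨rfl, -⟩
        rwa [h3]
    · obtain ⟨a, h1, h2, h3, h4, h5⟩ := hint z hz
      refine ⟨⟨a, -1, 1, Ioo (-1) 1, by norm_num, h1, h2, le_rfl, Ioo_subset_Ico_self, h4, ?_⟩,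
        ⟨0, ⟨by norm_num, one_pos⟩, h3⟩⟩
      intro t ht
      constructor
      · intro h
        exact absurd h (h5 t ht)
      · rintro ⟨rfl, h⟩
        exact absurd h.1 (lt_irrefl _)
  choose A hA using hex
  obtain ⟨F, hF⟩ := isCompact_univ.elim_finite_subcover (fun z => (A z).a '' (A z).core)
    (fun z => (A z).open_core) (fun z _ => mem_iUnion.2 ⟨z, hA z⟩)
  apply even_ncard_of_arcs (fun j : F => A j)
  intro z
  obtain ⟨w, hw⟩ := mem_iUnion.1 (hF (mem_univ z))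
  obtain ⟨hwF, hz⟩ := mem_iUnion.1 hw
  exact ⟨⟨w, hwF⟩, hz⟩

end MP_f1864b_gt.OneMfd
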