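import Pool.Agent.Lib.MP_f1864b_gt.WDefs
import Pool.Agent.Lib.MP_f1864b_gt.OneMfd

set_option autoImplicit false

/-!
# Parity of the number of boundary points, from arcs and half open arcs
-/

namespace Pool.Agent.MP_f1864b_gt

open scoped Manifold ContDiff Topology Matrix
open Set Topology Module

theorem arc_of_embedding {Z : Type*} [TopologicalSpace Z] {S : Set ℝ} {γ : S → Z}
    (hγ : IsOpenEmbedding γ) (z : Z) {δ : ℝ} (hδ : 0 < δ) {T : Set ℝ}
    (hT : ∀ t ∈ T, δ * t ∈ S) {T' : Set ℝ} (hTT : T' ⊆ T) {U : Set ℝ} (hU : IsOpen U)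
    (hT' : ∀ s ∈ S, s ∈ U ↔ s / δ ∈ T') :
    ∃ a : ℝ → Z, ContinuousOn a T ∧ InjOn a T ∧
      (∀ t (h : δ * t ∈ S), a t = γ ⟨δ * t, h⟩) ∧ IsOpen (a '' T') := by
  classical
  refine ⟨fun t => if h : δ * t ∈ S then γ ⟨δ * t, h⟩ else z, ?_, ?_, ?_, ?_⟩
  · rw [continuousOn_iff_continuous_domRestrict]
    have h1 : T.domRestrict (fun t => if h : δ * t ∈ S then γ ⟨δ * t, h⟩ else z) =
        fun t : T => γ ⟨δ * t, hT t t.2⟩ := by
      funext t
      simp only [domRestrict_apply]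
      rw [dif_pos (hT t t.2)]
    rw [h1]
    exact hγ.continuous.comp
      ((continuous_const.mul continuous_subtype_val).subtype_mk _)
  · intro t ht t' ht' h
    simp only at h
    rw [dif_pos (hT t ht), dif_pos (hT t' ht')] at h
    have h2 := congrArg Subtype.val (hγ.injective h)
    exact mul_left_cancel₀ hδ.ne' h2
  · intro t h
    simp only
    rw [dif_pos h]
  · have h3 : (fun t => if h : δ * t ∈ S then γ ⟨δ * t, h⟩ else z) '' T' =
        γ '' ((fun s : S => (s : ℝ)) ⁻¹' U) := by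
      ext y
      constructor
      · rintro ⟨t, ht, rfl⟩
        refine ⟨⟨δ * t, hT t (hTT ht)⟩, ?_, ?_⟩
        · change δ * t ∈ U
          rw [hT' _ (hT t (hTT ht)), mul_div_cancel_left₀ _ hδ.ne']
          exact ht
        · simp only
          rw [dif_pos (hT t (hTT ht))]
      · rintro ⟨s, hs, rfl⟩
        have hs' : (s : ℝ) / δ ∈ T' := (hT' _ s.2).1 hs
        refine ⟨s / δ, hs', ?_⟩
        simp only
        rw [dif_pos (hT _ (hTT hs'))]
        congr 1
        ext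
        exact mul_div_cancel₀ _ hδ.ne'
    rw [h3]
    exact hγ.isOpenMap _ (hU.preimage continuous_subtype_val)

theorem parity {Z : Type*} [TopologicalSpace Z] [CompactSpace Z] [T2Space Z] (D : Set Z)
    (hD : IsClosed D) (harc : ∀ z ∉ D, ArcAt z)
    (hend : ∀ z ∈ D, ∃ γ : Ico (0 : ℝ) 1 → Z, IsOpenEmbedding γ ∧ γ ⟨0, le_rfl, one_pos⟩ = z ∧
      ∀ t, γ t ∈ D → (t : ℝ) = 0) : D.Finite ∧ Even D.ncard := by
  refine _root_.MP_f1864b_gt.OneMfd.even_ncard_boundary D ?_ ?_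
  · intro z hz
    obtain ⟨γ, hγ, h0⟩ := harc z hz
    have h1 : γ ⁻¹' Dᶜ ∈ 𝓝 (⟨0, by norm_num, one_pos⟩ : Ioo (-1 : ℝ) 1) := by
      refine (hD.isOpen_compl.preimage hγ.continuous).mem_nhds ?_
      change γ _ ∉ D
      rwa [h0]
    rw [nhds_subtype, Filter.mem_comap] at h1
    obtain ⟨u, hu, hu'⟩ := h1
    obtain ⟨ε, hε, hεu⟩ := Metric.mem_nhds_iff.1 hu
    set δ : ℝ := min ε 1 / 2 with hδ
    have hm : 0 < min ε 1 := lt_min hε one_pos
    have hδ0 : 0 < δ := by positivity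
    have hδ1 : δ < 1 := by
      have := min_le_right ε 1
      rw [hδ]
      linarith
    have hδε : δ < ε := by
      have := min_le_left ε 1
      rw [hδ]
      linarith
    have hab : ∀ t ∈ Icc (-1 : ℝ) 1, |δ * t| ≤ δ := by
      intro t ht
      rw [abs_mul, abs_of_pos hδ0]
      exact mul_le_of_le_one_right hδ0.le (abs_le.2 ht)
    have hT : ∀ t ∈ Icc (-1 : ℝ) 1, δ * t ∈ Ioo (-1 : ℝ) 1 := by
      intro t ht
      exact abs_lt.1 ((hab t ht).trans_lt hδ1)
    obtain ⟨a, h2, h3, h4, h5⟩ := arc_of_embedding hγ z hδ0 hT Ioo_subset_Icc_self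
      (isOpen_Ioo (a := -δ) (b := δ)) (fun s _ => by
        rw [mem_Ioo, mem_Ioo, lt_div_iff₀ hδ0, div_lt_iff₀ hδ0]
        simp)
    refine ⟨a, h2, h3, ?_, h5, ?_⟩
    · have h6 : δ * 0 ∈ Ioo (-1 : ℝ) 1 := by
        rw [mul_zero]
        exact ⟨by norm_num, one_pos⟩
      rw [h4 0 h6, ← h0]
      congr 1
      ext
      exact mul_zero δ
    · intro t ht
      rw [h4 t (hT t ht)]
      have h7 : (⟨δ * t, hT t ht⟩ : Ioo (-1 : ℝ) 1) ∈ γ ⁻¹' Dᶜ := by
        apply hu'
        apply hεu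
        rw [mem_ball_zero_iff, Real.norm_eq_abs]
        exact (hab t ht).trans_lt hδε
      exact h7
  · intro z hz
    obtain ⟨γ, hγ, h0, h1⟩ := hend z hz
    have hδ0 : (0 : ℝ) < 1 / 2 := by norm_num
    have hT : ∀ t ∈ Icc (0 : ℝ) 1, 1 / 2 * t ∈ Ico (0 : ℝ) 1 := by
      intro t ht
      constructor
      · linarith [ht.1]
      · linarith [ht.2]
    obtain ⟨a, h2, h3, h4, h5⟩ := arc_of_embedding hγ z hδ0 hT Ico_subset_Icc_self
      (isOpen_Iio (a := (1 / 2 : ℝ))) (fun s hs => by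
        rw [mem_Iio, mem_Ico, div_lt_iff₀ hδ0]
        constructor
        · intro h
          exact ⟨div_nonneg hs.1 hδ0.le, by linarith⟩
        · intro h
          linarith [h.2])
    refine ⟨a, h2, h3, ?_, h5, ?_⟩
    · have h6 : 1 / 2 * 0 ∈ Ico (0 : ℝ) 1 := by
        rw [mul_zero]
        exact ⟨le_rfl, one_pos⟩
      rw [h4 0 h6, ← h0]
      congr 1
      ext
      exact mul_zero _
    · intro t ht hta
      rw [h4 t (hT t ⟨ht.1.le, ht.2⟩)] at hta
      have h7 := h1 _ hta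
      simp only at h7
      have := ht.1
      linarith

end Pool.Agent.MP_f1864b_gt
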