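import Mathlib

set_option autoImplicit false

/-!
# Affine coordinates on projective spaces

A line in `ℝ^p` is given by its orthogonal projection `l lᵀ`, `l · l = 1`.  Near the line of a unit
vector `l₀` the lines are those of the vectors `l₀ + l'`, `l'` orthogonal to `l₀`.
-/

namespace Pool.Agent.MP_f1864b_gt.ZC

open Set Topology Module Matrix

variable {p : ℕ}

/-- the functional `x ↦ l₀ ⬝ᵥ x` -/
noncomputable def dotL (l₀ : Fin p → ℝ) : (Fin p → ℝ) →L[ℝ] ℝ :=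
  LinearMap.toContinuousLinearMap
    { toFun := fun x => l₀ ⬝ᵥ x
      map_add' := fun x y => dotProduct_add l₀ x y
      map_smul' := fun r x => by simp }

@[simp] theorem dotL_apply (l₀ x : Fin p → ℝ) : dotL l₀ x = l₀ ⬝ᵥ x := rfl

/-- the vectors orthogonal to `l₀` -/
noncomputable def perp (l₀ : Fin p → ℝ) : Submodule ℝ (Fin p → ℝ) :=
  LinearMap.ker (dotL l₀).toLinearMap

theorem mem_perp {l₀ x : Fin p → ℝ} : x ∈ perp l₀ ↔ l₀ ⬝ᵥ x = 0 := Iff.rfl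

theorem dot_perp {l₀ : Fin p → ℝ} (x : perp l₀) : l₀ ⬝ᵥ (x : Fin p → ℝ) = 0 := x.2

theorem finrank_perp {l₀ : Fin p → ℝ} (h : l₀ ⬝ᵥ l₀ = 1) : finrank ℝ (perp l₀) + 1 = p := by
  have h1 : finrank ℝ (LinearMap.range (dotL l₀).toLinearMap) + finrank ℝ (perp l₀) =
      finrank ℝ (Fin p → ℝ) := LinearMap.finrank_range_add_finrank_ker _
  have h2 : LinearMap.range (dotL l₀).toLinearMap = ⊤ := by
    rw [LinearMap.range_eq_top]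
    intro r
    refine ⟨r • l₀, ?_⟩
    change l₀ ⬝ᵥ (r • l₀) = r
    rw [dotProduct_smul, h, smul_eq_mul, mul_one]
  rw [h2, finrank_top, finrank_self, finrank_fin_fun] at h1
  omega

/-- the orthogonal projection to the orthogonal complement of the unit vector `l₀` -/
noncomputable def projPerp {l₀ : Fin p → ℝ} (h : l₀ ⬝ᵥ l₀ = 1) : (Fin p → ℝ) →L[ℝ] perp l₀ :=
  LinearMap.toContinuousLinearMap
    { toFun := fun x => ⟨x - (l₀ ⬝ᵥ x) • l₀, by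
        rw [mem_perp, dotProduct_sub, dotProduct_smul, h, smul_eq_mul, mul_one, sub_self]⟩
      map_add' := fun x y => by
        ext i
        simp only [dotProduct_add, Submodule.coe_add, Pi.sub_apply, Pi.add_apply, Pi.smul_apply,
          smul_eq_mul]
        ring
      map_smul' := fun r x => by
        ext i
        simp only [dotProduct_smul, smul_eq_mul, RingHom.id_apply, SetLike.val_smul,
          Pi.sub_apply, Pi.smul_apply]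
        ring }

theorem coe_projPerp {l₀ : Fin p → ℝ} (h : l₀ ⬝ᵥ l₀ = 1) (x : Fin p → ℝ) :
    (projPerp h x : Fin p → ℝ) = x - (l₀ ⬝ᵥ x) • l₀ := rfl

/-- the orthogonal projection to the line of `l` -/
noncomputable def proj1 (l : Fin p → ℝ) : Matrix (Fin p) (Fin p) ℝ := (l ⬝ᵥ l)⁻¹ • vecMulVec l l

theorem proj1_of_unit {l : Fin p → ℝ} (h : l ⬝ᵥ l = 1) : proj1 l = vecMulVec l l := by
  rw [proj1, h, inv_one, one_smul]

theorem proj1_smul {r : ℝ} (hr : r ≠ 0) (l : Fin p → ℝ) : proj1 (r • l) = proj1 l := by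
  by_cases hl : l ⬝ᵥ l = 0
  · have h1 : l = 0 := by
      rw [← dotProduct_self_eq_zero]; exact hl
    rw [h1, smul_zero]
  · unfold proj1
    ext i j
    simp only [smul_dotProduct, dotProduct_smul, smul_eq_mul, Matrix.smul_apply, vecMulVec_apply,
      Pi.smul_apply]
    field_simp

theorem continuousAt_proj1 {l : Fin p → ℝ} (hl : l ⬝ᵥ l ≠ 0) : ContinuousAt proj1 l := by
  have h1 : Continuous fun l : Fin p → ℝ => l ⬝ᵥ l := by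
    simp only [dotProduct]; fun_prop
  have h2 : Continuous fun l : Fin p → ℝ => vecMulVec l l := by
    refine continuous_matrix fun i j => ?_
    simp only [vecMulVec_apply]; fun_prop
  exact (h1.continuousAt.inv₀ hl).smul h2.continuousAt

/-- the affine coordinate -/
noncomputable def aff {l₀ : Fin p → ℝ} (h : l₀ ⬝ᵥ l₀ = 1) (P : Matrix (Fin p) (Fin p) ℝ) :
    perp l₀ := projPerp h ((l₀ ⬝ᵥ (P *ᵥ l₀))⁻¹ • (P *ᵥ l₀))

theorem continuous_dotMul (l₀ : Fin p → ℝ) :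
    Continuous fun P : Matrix (Fin p) (Fin p) ℝ => l₀ ⬝ᵥ (P *ᵥ l₀) := by
  simp only [dotProduct, mulVec]; fun_prop

theorem continuousOn_aff {l₀ : Fin p → ℝ} (h : l₀ ⬝ᵥ l₀ = 1) :
    ContinuousOn (aff h) {P | l₀ ⬝ᵥ (P *ᵥ l₀) ≠ 0} := by
  have h2 : Continuous fun P : Matrix (Fin p) (Fin p) ℝ => P *ᵥ l₀ := by
    refine continuous_pi fun i => ?_
    simp only [dotProduct, mulVec]; fun_prop
  have h3 : ContinuousOn (fun P : Matrix (Fin p) (Fin p) ℝ => (l₀ ⬝ᵥ (P *ᵥ l₀))⁻¹ • (P *ᵥ l₀))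
      {P | l₀ ⬝ᵥ (P *ᵥ l₀) ≠ 0} :=
    ((continuous_dotMul l₀).continuousOn.inv₀ fun P hP => hP).smul h2.continuousOn
  exact (projPerp h).continuous.comp_continuousOn h3

theorem dot_add_perp {l₀ : Fin p → ℝ} (h : l₀ ⬝ᵥ l₀ = 1) (l' : perp l₀) :
    l₀ ⬝ᵥ (l₀ + (l' : Fin p → ℝ)) = 1 := by
  rw [dotProduct_add, h, dot_perp, add_zero]

theorem self_add_perp_pos {l₀ : Fin p → ℝ} (h : l₀ ⬝ᵥ l₀ = 1) (l' : perp l₀) :
    0 < (l₀ + (l' : Fin p → ℝ)) ⬝ᵥ (l₀ + (l' : Fin p → ℝ)) := by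
  have h1 : (l' : Fin p → ℝ) ⬝ᵥ l₀ = 0 := by rw [dotProduct_comm]; exact dot_perp l'
  have h2 : 0 ≤ (l' : Fin p → ℝ) ⬝ᵥ (l' : Fin p → ℝ) := by
    simp only [dotProduct]
    exact Finset.sum_nonneg fun i _ => mul_self_nonneg _
  rw [dotProduct_add, add_dotProduct, add_dotProduct, h, dot_perp, h1]
  linarith

theorem proj1_mulVec (l l₀ : Fin p → ℝ) : proj1 l *ᵥ l₀ = ((l ⬝ᵥ l)⁻¹ * (l₀ ⬝ᵥ l)) • l := by
  ext i
  simp only [proj1, mulVec, dotProduct, Matrix.smul_apply, vecMulVec_apply, smul_eq_mul,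
    Pi.smul_apply]
  rw [Finset.mul_sum, Finset.sum_mul]
  refine Finset.sum_congr rfl fun j _ => ?_
  ring

theorem dot_proj1_mulVec (l l₀ : Fin p → ℝ) :
    l₀ ⬝ᵥ (proj1 l *ᵥ l₀) = (l ⬝ᵥ l)⁻¹ * (l₀ ⬝ᵥ l) ^ 2 := by
  rw [proj1_mulVec, dotProduct_smul, smul_eq_mul]
  ring

theorem dot_proj1_add_perp_ne {l₀ : Fin p → ℝ} (h : l₀ ⬝ᵥ l₀ = 1) (l' : perp l₀) :
    l₀ ⬝ᵥ (proj1 (l₀ + (l' : Fin p → ℝ)) *ᵥ l₀) ≠ 0 := by
  rw [dot_proj1_mulVec, dot_add_perp h]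
  have := self_add_perp_pos h l'
  positivity

/-- The affine coordinate of the line of `l`. -/
theorem add_aff_proj1 {l₀ : Fin p → ℝ} (h : l₀ ⬝ᵥ l₀ = 1) {l : Fin p → ℝ}
    (hl : l₀ ⬝ᵥ (proj1 l *ᵥ l₀) ≠ 0) :
    l₀ ⬝ᵥ l ≠ 0 ∧ l₀ + (aff h (proj1 l) : Fin p → ℝ) = (l₀ ⬝ᵥ l)⁻¹ • l := by
  rw [dot_proj1_mulVec] at hl
  have h1 : l ⬝ᵥ l ≠ 0 := fun h0 => hl (by rw [h0, _root_.inv_zero, zero_mul])
  have h2 : l₀ ⬝ᵥ l ≠ 0 := fun h0 => hl (by rw [h0]; simp)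
  refine ⟨h2, ?_⟩
  have h3 : (l₀ ⬝ᵥ (proj1 l *ᵥ l₀))⁻¹ • (proj1 l *ᵥ l₀) = (l₀ ⬝ᵥ l)⁻¹ • l := by
    rw [dot_proj1_mulVec, proj1_mulVec, smul_smul]
    congr 1
    field_simp
  rw [aff, coe_projPerp, h3, dotProduct_smul, smul_eq_mul, inv_mul_cancel₀ h2, one_smul]
  abel

theorem aff_proj1_add {l₀ : Fin p → ℝ} (h : l₀ ⬝ᵥ l₀ = 1) (l' : perp l₀) :
    aff h (proj1 (l₀ + (l' : Fin p → ℝ))) = l' := by
  have h1 := (add_aff_proj1 h (dot_proj1_add_perp_ne h l')).2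
  rw [dot_add_perp h, inv_one, one_smul] at h1
  exact Subtype.ext (add_left_cancel h1)

theorem proj1_add_aff {l₀ : Fin p → ℝ} (h : l₀ ⬝ᵥ l₀ = 1) {l : Fin p → ℝ}
    (hl : l₀ ⬝ᵥ (proj1 l *ᵥ l₀) ≠ 0) :
    proj1 (l₀ + (aff h (proj1 l) : Fin p → ℝ)) = proj1 l := by
  obtain ⟨h1, h2⟩ := add_aff_proj1 h hl
  rw [h2, proj1_smul (inv_ne_zero h1)]

theorem exists_unit_smul {l : Fin p → ℝ} (hl : 0 < l ⬝ᵥ l) :
    ∃ r : ℝ, r ≠ 0 ∧ (r • l) ⬝ᵥ (r • l) = 1 ∧ proj1 l = vecMulVec (r • l) (r • l) := by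
  have h1 : (0:ℝ) < √(l ⬝ᵥ l) := Real.sqrt_pos.2 hl
  have h2 : ((√(l ⬝ᵥ l))⁻¹ • l) ⬝ᵥ ((√(l ⬝ᵥ l))⁻¹ • l) = 1 := by
    rw [smul_dotProduct, dotProduct_smul, smul_eq_mul, smul_eq_mul]
    have h3 : √(l ⬝ᵥ l) * √(l ⬝ᵥ l) = l ⬝ᵥ l := Real.mul_self_sqrt hl.le
    have h4 : (√(l ⬝ᵥ l))⁻¹ * ((√(l ⬝ᵥ l))⁻¹ * (√(l ⬝ᵥ l) * √(l ⬝ᵥ l))) = 1 := by
      field_simp
    rw [h3] at h4
    exact h4
  refine ⟨(√(l ⬝ᵥ l))⁻¹, inv_ne_zero h1.ne', h2, ?_⟩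
  rw [← proj1_of_unit h2, proj1_smul (inv_ne_zero h1.ne')]

end Pool.Agent.MP_f1864b_gt.ZC
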