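import Mathlib

/-!
# Quotients of manifolds by free, properly discontinuous groups of smooth maps

Mathlib gives the charted space structure on the quotient `M ⧸ G`.  Here: the quotient is a smooth
manifold, the projection is smooth and a local diffeomorphism, smooth maps descend.
-/

namespace Pool.Agent.MP_f1864b_gt.Quot

open Set Filter Topology MulAction Manifold
open scoped ContDiff

variable {E : Type*} [NormedAddCommGroup E] [NormedSpace ℝ E] {H : Type*} [TopologicalSpace H]
  (I : ModelWithCorners ℝ E H) {M : Type*} [TopologicalSpace M] [ChartedSpace H M]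
  {G : Type*} [Group G] [MulAction G M] [ProperlyDiscontinuousSMul G M]
  [ContinuousConstSMul G M] [IsCancelSMul G M] [T2Space M] [LocallyCompactSpace M]

variable (G M) in
/-- the projection -/
abbrev pr : M → orbitRel.Quotient G M := Quotient.mk (orbitRel G M)

variable (G M) in
theorem cov : IsQuotientCoveringMap (pr M G) G :=
  isQuotientCoveringMap_quotientMk_of_properlyDiscontinuousSMul

variable (G M) in
theorem loc : IsLocalHomeomorph (pr M G) := (cov M G).isCoveringMap.isLocalHomeomorph

omit [TopologicalSpace M] [ChartedSpace H M] [ProperlyDiscontinuousSMul G M]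
  [ContinuousConstSMul G M] [IsCancelSMul G M] [T2Space M] [LocallyCompactSpace M] in
theorem pr_eq_iff {x y : M} : pr M G x = pr M G y ↔ ∃ g : G, g • y = x := by
  rw [Quotient.eq, orbitRel_apply, mem_orbit_iff]

omit [TopologicalSpace M] [ChartedSpace H M] [ProperlyDiscontinuousSMul G M]
  [ContinuousConstSMul G M] [IsCancelSMul G M] [T2Space M] [LocallyCompactSpace M] in
theorem pr_smul (g : G) (x : M) : pr M G (g • x) = pr M G x := pr_eq_iff.2 ⟨g, rfl⟩

omit [TopologicalSpace M] [ChartedSpace H M] [ProperlyDiscontinuousSMul G M]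
  [ContinuousConstSMul G M] [IsCancelSMul G M] [T2Space M] [LocallyCompactSpace M] in
theorem pr_surjective : Function.Surjective (pr M G) := Quotient.mk_surjective

omit [ChartedSpace H M] in
/-- A local inverse of the projection composed with the projection is locally an element of the
group. -/
theorem localInverse_eq {z x : M} (hx : pr M G x ∈ ((loc M G).localInverseAt z).source) :
    ∃ g : G, (loc M G).localInverseAt z (pr M G x) = g • x ∧ ∀ᶠ m in 𝓝 x,
      pr M G m ∈ ((loc M G).localInverseAt z).source ∧
      (loc M G).localInverseAt z (pr M G m) = g • m := by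
  set f := (loc M G).localInverseAt z with hf
  have h1 : pr M G (f (pr M G x)) = pr M G x := (loc M G).apply_localInverseAt_of_mem hx
  obtain ⟨g, hg⟩ := pr_eq_iff.1 h1
  refine ⟨g, hg.symm, ?_⟩
  have hc : ContinuousAt (pr M G) x := (loc M G).continuous.continuousAt
  have e1 : ∀ᶠ m in 𝓝 x, pr M G m ∈ f.source := hc (f.open_source.mem_nhds hx)
  have hc' : ContinuousAt (fun m : M => g • m) x := (continuous_const_smul g).continuousAt
  have e2 : ∀ᶠ m in 𝓝 x, g • m ∈ f.target := by
    refine hc' (f.open_target.mem_nhds ?_)
    change g • x ∈ f.target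
    rw [hg]
    exact f.map_source hx
  filter_upwards [e1, e2] with m h2 h3
  refine ⟨h2, (loc M G).injOn_localInverseAt_target (f.map_source h2) h3 ?_⟩
  rw [(loc M G).apply_localInverseAt_of_mem h2, pr_smul]

variable {I} in
/-- The quotient is a smooth manifold. -/
theorem isManifold [IsManifold I ∞ M] (hsm : ∀ g : G, ContMDiff I I ∞ (fun x : M => g • x)) :
    IsManifold I ∞ (orbitRel.Quotient G M) := by
  refine isManifold_of_contDiffOn I ∞ _ ?_
  rintro e e' ⟨q, rfl⟩ ⟨q', rfl⟩
  generalize Exists.choose _ = t
  intro y hy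
  set f := (loc M G).localInverseAt (t q) with hf
  set f' := (loc M G).localInverseAt (t q') with hf'
  set c := chartAt H (t q) with hc
  set c' := chartAt H (t q') with hc'
  obtain ⟨hy1, hy2⟩ := hy
  set h := I.symm y with hh
  have hIh : I h = y := I.right_inv hy2
  change h ∈ ((f.trans c).symm.trans (f'.trans c')).source at hy1
  have hs : ∀ h, h ∈ ((f.trans c).symm.trans (f'.trans c')).source ↔
      (h ∈ c.target ∧ c.symm h ∈ f.target) ∧ pr M G (c.symm h) ∈ f'.source ∧
        f' (pr M G (c.symm h)) ∈ c'.source := by
    intro h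
    simp only [OpenPartialHomeomorph.trans_source, OpenPartialHomeomorph.symm_source,
      OpenPartialHomeomorph.trans_target, mem_inter_iff, mem_preimage,
      OpenPartialHomeomorph.coe_trans_symm, Function.comp_apply,
      hf, IsLocalHomeomorph.localInverseAt_symm]
  obtain ⟨⟨k1, k2⟩, k3, k4⟩ := (hs h).1 hy1
  obtain ⟨g, hg1, hg2⟩ := localInverse_eq (G := G) (M := M) k3
  set x := c.symm h with hx
  have hxc : x ∈ c.source := c.map_target k1
  have hgx : g • x ∈ c'.source := by
    rw [← hg1]; exact k4
  have hcx : c x = h := c.right_inv k1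
  have key := ((contMDiffAt_iff_of_mem_source (I := I) (I' := I) (x := t q) (y := t q')
    (f := fun m : M => g • m) (x' := x) (n := ∞) hxc hgx).1 (hsm g x)).2
  have e0 : extChartAt I (t q) x = y := by
    rw [extChartAt_coe, Function.comp_apply, ← hc, hcx, hIh]
  rw [e0] at key
  -- the two functions agree near `y`
  have hcont : ContinuousAt (fun y => c.symm (I.symm y)) y := by
    have h1 : ContinuousAt c.symm (I.symm y) := c.symm.continuousAt k1
    exact h1.comp I.continuous_symm.continuousAt
  have hev : ∀ᶠ y' in 𝓝 y, pr M G (c.symm (I.symm y')) ∈ f'.source ∧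
      f' (pr M G (c.symm (I.symm y'))) = g • (c.symm (I.symm y')) := hcont hg2
  refine ((key.mono (inter_subset_right)).congr_of_eventuallyEq ?_ ?_)
  · filter_upwards [mem_nhdsWithin_of_mem_nhds hev] with y' hy'
    simp only [Function.comp_apply, OpenPartialHomeomorph.coe_trans,
      OpenPartialHomeomorph.coe_trans_symm, hf, IsLocalHomeomorph.localInverseAt_symm,
      extChartAt_coe, extChartAt_coe_symm]
    rw [hy'.2]
  · simp only [Function.comp_apply, OpenPartialHomeomorph.coe_trans,
      OpenPartialHomeomorph.coe_trans_symm, hf, IsLocalHomeomorph.localInverseAt_symm,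
      extChartAt_coe, extChartAt_coe_symm]
    rw [hev.self_of_nhds.2]

/-- the representative chosen in the definition of the charts -/
noncomputable def rep (q : orbitRel.Quotient G M) : M :=
  (pr_surjective (G := G) (M := M)).hasRightInverse.choose q

omit [TopologicalSpace M] [ChartedSpace H M] [ProperlyDiscontinuousSMul G M]
  [ContinuousConstSMul G M] [IsCancelSMul G M] [T2Space M] [LocallyCompactSpace M] in
theorem pr_rep (q : orbitRel.Quotient G M) : pr M G (rep q) = q :=
  (pr_surjective (G := G) (M := M)).hasRightInverse.choose_spec q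

theorem chartAt_eq (q : orbitRel.Quotient G M) :
    chartAt H q = ((loc M G).localInverseAt (rep q)).trans (chartAt H (rep q)) := rfl

theorem extChartAt_eq (q : orbitRel.Quotient G M) :
    ⇑(extChartAt I q) = extChartAt I (rep q) ∘ (loc M G).localInverseAt (rep q) := rfl

theorem extChartAt_symm_eq (q : orbitRel.Quotient G M) :
    ⇑(extChartAt I q).symm = pr M G ∘ (extChartAt I (rep q)).symm := by
  have h : ⇑((loc M G).localInverseAt (rep q)).symm = pr M G :=
    (loc M G).localInverseAt_symm (rep q)
  have h2 : ⇑(extChartAt I q).symm =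
      ⇑((loc M G).localInverseAt (rep q)).symm ∘ (extChartAt I (rep q)).symm := rfl
  rw [h2, h]

variable {I} in
/-- The projection is smooth. -/
theorem contMDiff_pr (hsm : ∀ g : G, ContMDiff I I ∞ (fun x : M => g • x)) :
    ContMDiff I I ∞ (pr M G) := by
  intro x
  set q := pr M G x with hq
  set f' := (loc M G).localInverseAt (rep q) with hf'
  have hqs : pr M G x ∈ f'.source := by
    have h1 : pr M G (rep q) ∈ f'.source := (loc M G).apply_self_mem_localInverseAt_source
    rw [pr_rep] at h1
    exact h1
  obtain ⟨g, hg1, hg2⟩ := localInverse_eq (G := G) (M := M) hqs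
  have hgx : g • x = rep q := by
    rw [← hg1]
    have h2 : f' (pr M G (rep q)) = rep q := (loc M G).localInverseAt_apply_self
    rw [pr_rep] at h2
    exact h2
  have h1 := hsm g x
  rw [contMDiffAt_iff] at h1 ⊢
  refine ⟨(loc M G).continuous.continuousAt, ?_⟩
  have h2 := h1.2
  rw [hgx] at h2
  rw [← hq, extChartAt_eq]
  have hcont : ContinuousAt (extChartAt I x).symm (extChartAt I x x) :=
    continuousAt_extChartAt_symm x
  have hev : ∀ᶠ y in 𝓝 (extChartAt I x x),
      f' (pr M G ((extChartAt I x).symm y)) = g • (extChartAt I x).symm y := by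
    have h3 : (extChartAt I x).symm (extChartAt I x x) = x := extChartAt_to_inv x
    have h4 : ∀ᶠ m in 𝓝 ((extChartAt I x).symm (extChartAt I x x)),
        f' (pr M G m) = g • m := by
      rw [h3]
      exact hg2.mono fun m hm => hm.2
    exact hcont h4
  refine h2.congr_of_eventuallyEq ?_ ?_
  · filter_upwards [mem_nhdsWithin_of_mem_nhds hev] with y hy
    simp only [Function.comp_apply]
    rw [← hf', hy]
  · simp only [Function.comp_apply]
    rw [← hf', hev.self_of_nhds]

section Descent

variable {I} {E' : Type*} [NormedAddCommGroup E'] [NormedSpace ℝ E'] {H' : Type*}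
  [TopologicalSpace H'] {I' : ModelWithCorners ℝ E' H'} {N : Type*} [TopologicalSpace N]
  [ChartedSpace H' N]

/-- Smoothness descends. -/
theorem contMDiffAt_descent (hsm : ∀ g : G, ContMDiff I I ∞ (fun x : M => g • x))
    {f : orbitRel.Quotient G M → N} {x : M} (hf : ContMDiffAt I I' ∞ (f ∘ pr M G) x) :
    ContMDiffAt I I' ∞ f (pr M G x) := by
  set q := pr M G x with hq
  have h0 : pr M G x = pr M G (rep q) := by rw [pr_rep]
  obtain ⟨g, hg⟩ := pr_eq_iff.1 h0
  -- the composition is smooth at the representative
  have h1 : ContMDiffAt I I' ∞ (f ∘ pr M G) (rep q) := by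
    have h2 : f ∘ pr M G = (f ∘ pr M G) ∘ fun m : M => g • m := by
      funext m
      simp only [Function.comp_apply, pr_smul]
    rw [h2]
    refine ContMDiffAt.comp (rep q) ?_ (hsm g (rep q))
    rw [hg]
    exact hf
  have hc : ContinuousAt f q := by
    have h2 : f =ᶠ[𝓝 q] (f ∘ pr M G) ∘ (loc M G).localInverseAt (rep q) := by
      have h3 : q ∈ ((loc M G).localInverseAt (rep q)).source := by
        have h4 : pr M G (rep q) ∈ ((loc M G).localInverseAt (rep q)).source :=
          (loc M G).apply_self_mem_localInverseAt_source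
        rwa [pr_rep] at h4
      filter_upwards [((loc M G).localInverseAt (rep q)).open_source.mem_nhds h3] with y hy
      simp only [Function.comp_apply]
      rw [(loc M G).apply_localInverseAt_of_mem hy]
    rw [continuousAt_congr h2]
    have h3 : q ∈ ((loc M G).localInverseAt (rep q)).source := by
      have h4 : pr M G (rep q) ∈ ((loc M G).localInverseAt (rep q)).source :=
        (loc M G).apply_self_mem_localInverseAt_source
      rwa [pr_rep] at h4
    have h5 : (loc M G).localInverseAt (rep q) q = rep q := by
      have h6 := (loc M G).localInverseAt_apply_self (x := rep q)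
      rwa [pr_rep] at h6
    refine ContinuousAt.comp ?_ (((loc M G).localInverseAt (rep q)).continuousAt h3)
    rw [h5]
    exact h1.continuousAt
  rw [contMDiffAt_iff]
  refine ⟨hc, ?_⟩
  rw [contMDiffAt_iff] at h1
  have h2 := h1.2
  rw [extChartAt_symm_eq, extChartAt_eq]
  simp only [Function.comp_apply, pr_rep] at h2 ⊢
  have h5 : (loc M G).localInverseAt (rep q) q = rep q := by
    have h6 := (loc M G).localInverseAt_apply_self (x := rep q)
    rwa [pr_rep] at h6
  rw [h5]
  exact h2

theorem contMDiff_descent (hsm : ∀ g : G, ContMDiff I I ∞ (fun x : M => g • x))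
    {f : orbitRel.Quotient G M → N} (hf : ContMDiff I I' ∞ (f ∘ pr M G)) :
    ContMDiff I I' ∞ f := by
  intro q
  rw [← pr_rep q]
  exact contMDiffAt_descent hsm (hf (rep q))

theorem contMDiff_iff (hsm : ∀ g : G, ContMDiff I I ∞ (fun x : M => g • x))
    {f : orbitRel.Quotient G M → N} :
    ContMDiff I I' ∞ f ↔ ContMDiff I I' ∞ (f ∘ pr M G) :=
  ⟨fun h => h.comp (contMDiff_pr hsm), contMDiff_descent hsm⟩

/-- The local inverses of the projection are smooth. -/
theorem contMDiffOn_localInverse (hsm : ∀ g : G, ContMDiff I I ∞ (fun x : M => g • x)) (z : M) :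
    ContMDiffOn I I ∞ ((loc M G).localInverseAt z) ((loc M G).localInverseAt z).source := by
  intro q hq
  refine ContMDiffAt.contMDiffWithinAt ?_
  rw [← pr_rep q] at hq ⊢
  refine contMDiffAt_descent hsm ?_
  obtain ⟨g, -, hg⟩ := localInverse_eq (G := G) (M := M) hq
  exact (hsm g (rep q)).congr_of_eventuallyEq (hg.mono fun m hm => hm.2)

end Descent

omit [ChartedSpace H M] [IsCancelSMul G M] in
/-- The quotient of a Hausdorff space is Hausdorff. -/
theorem t2 : T2Space (orbitRel.Quotient G M) :=
  t2Space_of_properlyDiscontinuousSMul_of_t2Space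

omit [ChartedSpace H M] [ProperlyDiscontinuousSMul G M] [ContinuousConstSMul G M]
  [IsCancelSMul G M] [T2Space M] [LocallyCompactSpace M] in
/-- Cocompactness. -/
theorem compact {K : Set M} (hK : IsCompact K) (h : ∀ x : M, ∃ g : G, g • x ∈ K) :
    CompactSpace (orbitRel.Quotient G M) := by
  refine ⟨?_⟩
  have h1 : (univ : Set (orbitRel.Quotient G M)) = pr M G '' K := by
    refine (eq_univ_of_forall fun q => ?_).symm
    obtain ⟨x, rfl⟩ := pr_surjective q
    obtain ⟨g, hg⟩ := h x
    exact ⟨g • x, hg, pr_smul g x⟩
  rw [h1]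
  exact hK.image (isQuotientMap_quotient_mk' (s := orbitRel G M)).continuous

omit [ChartedSpace H M] [ProperlyDiscontinuousSMul G M] [ContinuousConstSMul G M]
  [IsCancelSMul G M] [T2Space M] [LocallyCompactSpace M] in
theorem connected [ConnectedSpace M] : ConnectedSpace (orbitRel.Quotient G M) :=
  inferInstanceAs (ConnectedSpace (Quotient (orbitRel G M)))

omit [ChartedSpace H M] in
/-- The fundamental group of the quotient. -/
theorem exists_equiv_fundamentalGroup [SimplyConnectedSpace M] (q : orbitRel.Quotient G M) :
    Nonempty (FundamentalGroup (orbitRel.Quotient G M) q ≃* Gᵐᵒᵖ) := by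
  obtain ⟨x, hx⟩ := pr_surjective q
  exact ⟨(cov M G).fundamentalGroupEquiv ⟨x, hx⟩⟩

omit [ChartedSpace H M] in
/-- A central element of the group gives a central element of the fundamental group. -/
theorem exists_mem_center [SimplyConnectedSpace M] {g : G} (hg : g ∈ Subgroup.center G)
    (h1 : g ≠ 1) (q : orbitRel.Quotient G M) :
    ∃ γ ∈ Subgroup.center (FundamentalGroup (orbitRel.Quotient G M) q), γ ≠ 1 := by
  obtain ⟨e⟩ := exists_equiv_fundamentalGroup (G := G) q
  refine ⟨e.symm (MulOpposite.op g), ?_, ?_⟩
  · rw [Subgroup.mem_center_iff]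
    intro γ
    apply e.injective
    rw [map_mul, map_mul, e.apply_symm_apply]
    apply MulOpposite.unop_injective
    rw [MulOpposite.unop_mul, MulOpposite.unop_mul, MulOpposite.unop_op]
    exact (Subgroup.mem_center_iff.1 hg _).symm
  · intro h
    apply h1
    have h2 : MulOpposite.op g = 1 := by
      rw [← e.apply_symm_apply (MulOpposite.op g), h, map_one]
    exact MulOpposite.op_injective h2

end Pool.Agent.MP_f1864b_gt.Quot
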