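import Pool.Agent.Lib.MP_f1864b_gt.BdCoord
import Pool.Agent.Lib.MP_f1864b_gt.Form

set_option autoImplicit false

/-!
# A boundary function
-/

namespace Pool.Agent.MP_f1864b_gt

open scoped Manifold ContDiff Topology
open Set Topology Filter

theorem nonneg_deriv_of_nonneg {s : ℝ → ℝ} {a : ℝ} (h : HasDerivWithinAt s a (Ici 0) 0)
    (h0 : s 0 = 0) (hs : ∀ᶠ t in 𝓝[>] (0 : ℝ), 0 ≤ s t) : 0 ≤ a := by
  have h1 : HasDerivWithinAt s a (Ioi 0) 0 := h.mono Ioi_subset_Ici_self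
  have h2 : Tendsto (slope s 0) (𝓝[>] 0) (𝓝 a) := by
    have := hasDerivWithinAt_iff_tendsto_slope.1 h1
    rwa [sdiff_singleton_eq_self (by simp)] at this
  refine ge_of_tendsto h2 ?_
  filter_upwards [hs, self_mem_nhdsWithin] with t ht ht0
  rw [slope_def_field, h0, sub_zero, sub_zero]
  exact div_nonneg ht (le_of_lt ht0)

section Rho

variable (W : Type*) [TopologicalSpace W] [T2Space W] [CompactSpace W]
  [ChartedSpace (EuclideanHalfSpace 6) W] [IsManifold (𝓡∂ 6) ∞ W]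

theorem exists_rho : ∃ ρ : W → ℝ, ContMDiff (𝓡∂ 6) 𝓘(ℝ, ℝ) ∞ ρ ∧ (∀ x, 0 ≤ ρ x) ∧
    (∀ x, ρ x = 0 ↔ x ∈ (𝓡∂ 6).boundary W) ∧
    ∀ x ∈ (𝓡∂ 6).boundary W, mfderiv (𝓡∂ 6) 𝓘(ℝ, ℝ) ρ x ≠ 0 := by
  obtain ⟨ι, f, -⟩ := SmoothBumpCovering.exists_isSubordinate (𝓡∂ 6) (isClosed_univ (X := W))
    (U := fun _ => univ) fun x _ => univ_mem
  have : Fintype ι := f.fintype
  set P : EuclideanSpace ℝ (Fin 6) →L[ℝ] ℝ := EuclideanSpace.proj (0 : Fin 6) with hP
  have hPa : ∀ v, P v = v 0 := fun v => rfl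
  set ρ : W → ℝ := fun x => ∑ i, P (f i x • extChartAt (𝓡∂ 6) (f.c i) x) with hρ
  have hterm : ∀ i x, P (f i x • extChartAt (𝓡∂ 6) (f.c i) x) =
      f i x * extChartAt (𝓡∂ 6) (f.c i) x 0 := by
    intro i x
    rw [map_smul]
    rfl
  have hterm0 : ∀ i x, 0 ≤ P (f i x • extChartAt (𝓡∂ 6) (f.c i) x) := by
    intro i x
    rw [hterm]
    exact mul_nonneg (f i).nonneg (coord_nonneg _ x)
  have hρs : ContMDiff (𝓡∂ 6) 𝓘(ℝ, ℝ) ∞ ρ := by
    refine contMDiff_finsetSum fun i _ => ?_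
    exact P.contMDiff.comp ((f i).contMDiff_smul contMDiffOn_extChartAt)
  have hρ0 : ∀ x, ρ x = 0 ↔ x ∈ (𝓡∂ 6).boundary W := by
    intro x
    constructor
    · intro h
      have h1 := (Finset.sum_eq_zero_iff_of_nonneg fun i _ => hterm0 i x).1 h
        (f.ind x (mem_univ x)) (Finset.mem_univ _)
      rw [hterm, f.apply_ind, one_mul] at h1
      exact (mem_boundary_iff_coord (f.mem_chartAt_ind_source x (mem_univ x))).2 h1
    · intro h
      refine Finset.sum_eq_zero fun i _ => ?_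
      rw [hterm]
      by_cases h1 : f i x = 0
      · rw [h1, zero_mul]
      · rw [(mem_boundary_iff_coord ((f i).support_subset_source h1)).1 h, mul_zero]
  refine ⟨ρ, hρs, fun x => Finset.sum_nonneg fun i _ => hterm0 i x, hρ0, ?_⟩
  intro x hx h0
  set i := f.ind x (mem_univ x) with hi
  set c := f.c i with hc
  have hxc : x ∈ (chartAt (EuclideanHalfSpace 6) c).source := f.mem_chartAt_ind_source x (mem_univ x)
  have hxc' : x ∈ (extChartAt (𝓡∂ 6) c).source := by rwa [extChartAt_source]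
  set φ := extChartAt (𝓡∂ 6) x with hφ
  set T := tangentCoordChange (𝓡∂ 6) x c x with hT
  -- the derivatives of `ρ` and of the coordinate
  have hd1 : HasFDerivWithinAt (ρ ∘ φ.symm) (0 : EuclideanSpace ℝ (Fin 6) →L[ℝ] ℝ)
      (range (𝓡∂ 6)) (φ x) := by
    have h1 := mfderiv_eq_fderivWithin (𝓡∂ 6) x ((hρs x).mdifferentiableAt (by simp))
    have h2 : DifferentiableWithinAt ℝ (ρ ∘ φ.symm) (range (𝓡∂ 6)) (φ x) :=
      ((contDiffOn_comp_symm (𝓡∂ 6) hρs x _ (mem_extChartAt_target x)).differentiableWithinAt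
        (by simp)).mono_of_mem_nhdsWithin (extChartAt_target_mem_nhdsWithin x)
    have h3 := h2.hasFDerivWithinAt
    rw [← h1] at h3
    have h4 : (mfderiv (𝓡∂ 6) 𝓘(ℝ, ℝ) ρ x : EuclideanSpace ℝ (Fin 6) →L[ℝ] ℝ) = 0 := h0
    rwa [h4] at h3
  have hd2 : HasFDerivWithinAt (fun u => P (extChartAt (𝓡∂ 6) c (φ.symm u))) (P.comp T)
      (range (𝓡∂ 6)) (φ x) :=
    P.hasFDerivAt.comp_hasFDerivWithinAt (φ x)
      (hasFDerivWithinAt_tangentCoordChange (I := 𝓡∂ 6) (x := x) (y := c) (z := x)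
        ⟨mem_extChartAt_source x, hxc'⟩)
  -- the comparison
  have hev : ∀ᶠ u in 𝓝[range (𝓡∂ 6)] (φ x), P (extChartAt (𝓡∂ 6) c (φ.symm u)) ≤
      ρ (φ.symm u) := by
    have h1 : ContinuousAt φ.symm (φ x) := continuousAt_extChartAt_symm x
    have h2 : ∀ᶠ z in 𝓝 (φ.symm (φ x)), f i z = 1 := by
      rw [φ.left_inv (mem_extChartAt_source x)]
      exact f.eventuallyEq_one x (mem_univ x)
    filter_upwards [mem_nhdsWithin_of_mem_nhds (h1 h2)] with u hu
    have h3 : f i (φ.symm u) = 1 := hu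
    have h4 := Finset.single_le_sum (f := fun i => P (f i (φ.symm u) •
      extChartAt (𝓡∂ 6) (f.c i) (φ.symm u))) (fun i _ => hterm0 i (φ.symm u))
      (Finset.mem_univ i)
    simp only [h3, one_smul] at h4
    exact h4
  have hx0 : P (extChartAt (𝓡∂ 6) c (φ.symm (φ x))) = 0 := by
    rw [φ.left_inv (mem_extChartAt_source x)]
    exact (mem_boundary_iff_coord hxc).1 hx
  have hρx : ρ (φ.symm (φ x)) = 0 := by
    rw [φ.left_inv (mem_extChartAt_source x)]
    exact (hρ0 x).2 hx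
  have hkey : ∀ ξ : EuclideanSpace ℝ (Fin 6), 0 ≤ ξ 0 → T ξ 0 = 0 := by
    intro ξ hξ
    set γ : ℝ → EuclideanSpace ℝ (Fin 6) := fun t => φ x + t • ξ with hγ
    have hγ0 : γ 0 = φ x := by simp [hγ]
    have hγd : HasDerivWithinAt γ ξ (Ici 0) 0 := by
      have h1 : HasDerivAt γ ((1 : ℝ) • ξ) 0 :=
        ((hasDerivAt_id (0 : ℝ)).smul_const ξ).const_add (φ x)
      rw [one_smul] at h1
      exact h1.hasDerivWithinAt
    have hγm : MapsTo γ (Ici 0) (range (𝓡∂ 6)) := by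
      intro t ht
      rw [range_modelWithCornersEuclideanHalfSpace]
      have h1 : 0 ≤ (φ x) 0 := coord_nonneg (n := 6) x x
      have ht' : (0 : ℝ) ≤ t := ht
      change 0 ≤ (φ x) 0 + t * ξ 0
      positivity
    have hγt : Tendsto γ (𝓝[>] 0) (𝓝[range (𝓡∂ 6)] (φ x)) := by
      have h1 : ContinuousWithinAt γ (Ici 0) 0 := hγd.continuousWithinAt
      have h2 := h1.tendsto_nhdsWithin hγm
      rw [hγ0] at h2
      exact h2.mono_left (nhdsWithin_mono _ Ioi_subset_Ici_self)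
    have hs : HasDerivWithinAt (fun t => P (extChartAt (𝓡∂ 6) c (φ.symm (γ t)))) (P (T ξ))
        (Ici 0) 0 := by
      have h1 := hd2
      rw [← hγ0] at h1
      exact h1.comp_hasDerivWithinAt (0 : ℝ) hγd hγm
    have hr : HasDerivWithinAt (fun t => ρ (φ.symm (γ t))) 0 (Ici 0) 0 := by
      have h1 := hd1
      rw [← hγ0] at h1
      exact h1.comp_hasDerivWithinAt (0 : ℝ) hγd hγm
    have h1 : 0 ≤ P (T ξ) := by
      refine nonneg_deriv_of_nonneg hs ?_ (Eventually.of_forall fun t => coord_nonneg c _)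
      rw [hγ0]
      exact hx0
    have h2 : 0 ≤ 0 - P (T ξ) := by
      refine nonneg_deriv_of_nonneg (hr.sub hs) ?_ ?_
      · change ρ (φ.symm (γ 0)) - P (extChartAt (𝓡∂ 6) c (φ.symm (γ 0))) = 0
        rw [hγ0, hρx, hx0, sub_zero]
      · filter_upwards [hγt hev] with t ht
        exact sub_nonneg.2 ht
    have h3 : P (T ξ) = 0 := by linarith
    exact h3
  have hkey' : ∀ ξ : EuclideanSpace ℝ (Fin 6), T ξ 0 = 0 := by
    intro ξ
    rcases le_total 0 (ξ 0) with h | h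
    · exact hkey ξ h
    · have h1 := hkey (-ξ) (by simpa using h)
      rw [map_neg] at h1
      simpa using h1
  have h1 := hkey' (tangentCoordChange (𝓡∂ 6) c x x (EuclideanSpace.single 0 1))
  have h2 := tangentCoordChange_inv' (𝓡∂ 6) hxc (EuclideanSpace.single (0 : Fin 6) (1 : ℝ))
  rw [hT, h2] at h1
  simp at h1

end Rho

end Pool.Agent.MP_f1864b_gt
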