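import Pool.Agent.Lib.MP_f1864b_gt.Top

set_option autoImplicit false

/-!
# MP_f1864b_gt: the statement over short definitions

The notions of `Defs.lean` again, cut into short definitions.
-/

namespace Pool.Agent.Dold

open scoped Manifold ContDiff Topology

universe u v

section

variable (n : ℕ) (M : Type u) [TopologicalSpace M] [ChartedSpace (EuclideanSpace ℝ (Fin n)) M]

/-- `M` is a smooth manifold without boundary of dimension `n` (it is modelled on `ℝⁿ`), compact,
Hausdorff and connected. -/
def ClosedConnectedManifold : Prop :=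
  IsManifold (𝓡 n) ∞ M ∧ CompactSpace M ∧ T2Space M ∧ ConnectedSpace M

end

section

variable (n : ℕ) {M : Type u} [TopologicalSpace M] [ChartedSpace (EuclideanSpace ℝ (Fin n)) M]
  {W : Type v} [TopologicalSpace W] [ChartedSpace (EuclideanHalfSpace (n + 1)) W]

/-- A set of charts belongs to the maximal smooth atlas. -/
def SmoothCharts (𝒜 : Set (OpenPartialHomeomorph M (EuclideanSpace ℝ (Fin n)))) : Prop :=
  𝒜 ⊆ IsManifold.maximalAtlas (𝓡 n) ∞ M

/-- The coordinate change between two charts has positive Jacobian determinant. -/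
def PositiveChange (e e' : OpenPartialHomeomorph M (EuclideanSpace ℝ (Fin n))) : Prop :=
  ∀ x ∈ (e.symm.trans e').source, 0 < (fderiv ℝ (e.symm.trans e') x).det

/-- The differential of a map from a manifold modelled on `ℝⁿ` to a manifold with boundary
modelled on the half space of dimension `n + 1`. -/
noncomputable def differential (f : M → W) (x : M) :
    EuclideanSpace ℝ (Fin n) →L[ℝ] EuclideanSpace ℝ (Fin (n + 1)) :=
  mfderiv (𝓡 n) (𝓡∂ (n + 1)) f x

/-- The map is smooth. -/
def SmoothInto (f : M → W) : Prop := ContMDiff (𝓡 n) (𝓡∂ (n + 1)) ∞ f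

/-- The differential is injective at every point. -/
def ImmersionInto (f : M → W) : Prop := ∀ x, Function.Injective (differential n f x)

end

section

variable (n : ℕ) (M : Type u) [TopologicalSpace M] [ChartedSpace (EuclideanSpace ℝ (Fin n)) M]
  (W : Type v) [TopologicalSpace W] [ChartedSpace (EuclideanHalfSpace (n + 1)) W]

/-- `M` can be covered by smooth charts all of whose coordinate changes have positive Jacobian
determinant. -/
def Orientable : Prop :=
  ∃ 𝒜 : Set (OpenPartialHomeomorph M (EuclideanSpace ℝ (Fin n))),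
    SmoothCharts n 𝒜 ∧ (∀ x : M, ∃ e ∈ 𝒜, x ∈ e.source) ∧
      ∀ e ∈ 𝒜, ∀ e' ∈ 𝒜, PositiveChange n e e'

/-- `W` is a compact Hausdorff smooth manifold with boundary of dimension `n + 1`. -/
def CompactManifoldWithBoundary : Prop :=
  IsManifold (𝓡∂ (n + 1)) ∞ W ∧ CompactSpace W ∧ T2Space W

/-- The boundary of `W`. -/
def boundarySet : Set W := (𝓡∂ (n + 1)).boundary W

/-- `M` is diffeomorphic to the boundary of a compact smooth manifold `W` of dimension `n + 1`,
orientable or not: there is an injective smooth immersion of `M` onto the boundary of `W`. -/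
def Bounds : Prop :=
  ∃ (W : Type v) (_ : TopologicalSpace W) (_ : ChartedSpace (EuclideanHalfSpace (n + 1)) W),
    CompactManifoldWithBoundary n W ∧ ∃ f : M → W, SmoothInto n f ∧ Function.Injective f ∧
      ImmersionInto n f ∧ Set.range f = boundarySet n W

end

theorem boundsSmooth_of_bounds {n : ℕ} {M : Type u} [TopologicalSpace M]
    [ChartedSpace (EuclideanSpace ℝ (Fin n)) M] (h : Bounds.{u, v} n M) :
    BoundsSmooth.{u, v} n M := by
  obtain ⟨W, i1, i2, ⟨i3, i4, i5⟩, f, h1, h2, h3, h4⟩ := h
  exact ⟨W, i1, i2, i3, i4, i5, f, h1, h2, h3, h4⟩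

theorem orientable_of {n : ℕ} {M : Type u} [TopologicalSpace M]
    [ChartedSpace (EuclideanSpace ℝ (Fin n)) M] (h : OrientableManifold n M) :
    Orientable n M := h

end Pool.Agent.Dold
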