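import Pool.Agent.Lib.MP_f1864b_gt.TheoremW
import Pool.Agent.Lib.MP_f1864b_gt.Count
import Pool.Agent.Lib.MP_f1864b_gt.C.Gen

set_option autoImplicit false
set_option maxSynthPendingDepth 3

/-!
# MP_f1864b_gt: THEOREM C

A smooth involution `τ` of a closed smooth 5-manifold `M`, all of whose fixed components have
dimension at most two, has an even number of isolated fixed points with differential `-1` if `M`
is the boundary of a compact smooth 6-manifold.
-/

namespace Pool.Agent.Dold

open scoped Manifold ContDiff Topology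

universe u v

theorem theoremC {M : Type u} [TopologicalSpace M] [ChartedSpace R5 M] [IsManifold (𝓡 5) ∞ M]
    [CompactSpace M] [T2Space M] (τ : M → M) (hτ : ContMDiff (𝓡 5) (𝓡 5) ∞ τ)
    (hinv : ∀ p, τ (τ p) = p)
    (hdim : ∀ p, τ p = p → ∀ S : Submodule ℝ R5, (∀ v ∈ S, dAt τ p v = v) →
      Module.finrank ℝ S ≤ 2) (hB : BoundsSmooth.{u, v} 5 M) :
    (isoFix τ).Finite ∧ Even (isoFix τ).ncard := by
  obtain ⟨W, _, _, _, _, _, f, hf, hinj, hd, hr⟩ := hB
  obtain ⟨V, _, _, _, s, e, vv, ww, hG⟩ := MP_f1864b_gt.exists_genForms hτ hinv hdim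
  obtain ⟨hfin, heven⟩ := MP_f1864b_gt.theoremW hf hinj hd hr hG.smooth_e hG.smooth_v hG.smooth_w
    hG.regular
  exact MP_f1864b_gt.even_isoFix hτ hinv hG hfin heven

end Pool.Agent.Dold
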