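import Pool.Agent.Lib.MP_f1864b_gt.Form
import Pool.Agent.Lib.MP_f1864b_gt.BdCoord

set_option autoImplicit false
set_option maxSynthPendingDepth 3

/-!
# From a manifold `M` to the boundary of a manifold `W`
-/

namespace Pool.Agent.MP_f1864b_gt

open scoped Manifold ContDiff Topology Matrix
open Set Topology Module

section Algebra

variable {E : Type*} [NormedAddCommGroup E] [NormedSpace ℝ E] [FiniteDimensional ℝ E]

theorem finrank_dual_clm : finrank ℝ (E →L[ℝ] ℝ) = finrank ℝ E := by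
  rw [← LinearEquiv.finrank_eq (LinearMap.toContinuousLinearMap (𝕜 := ℝ) (E := E) (F' := ℝ))]
  exact Subspace.dual_finrank_eq

theorem ker_of_surjective {p q : ℕ} (hdim : finrank ℝ E + 2 = p + q)
    (L : E × (Fin p → ℝ) × (Fin q → ℝ) →ₗ[ℝ] (E →L[ℝ] ℝ) × (E →L[ℝ] ℝ))
    (hL : Function.Surjective L) {l : Fin p → ℝ} {m : Fin q → ℝ} (hl : l ≠ 0) (hm : m ≠ 0)
    (h1 : L (0, l, 0) = 0) (h2 : L (0, 0, m) = 0) {z : E × (Fin p → ℝ) × (Fin q → ℝ)}
    (hz : L z = 0) : z.1 = 0 ∧ (∃ s : ℝ, z.2.1 = s • l) ∧ ∃ t : ℝ, z.2.2 = t • m := by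
  have h3 : finrank ℝ (LinearMap.ker L) = 2 := by
    have h4 := LinearMap.finrank_range_add_finrank_ker L
    rw [LinearMap.range_eq_top.2 hL, finrank_top, finrank_prod, finrank_prod, finrank_prod,
      finrank_dual_clm, finrank_fin_fun, finrank_fin_fun] at h4
    omega
  have h5 : ∀ a b : ℝ, L (0, a • l, b • m) = 0 := by
    intro a b
    have h6 : ((0, a • l, b • m) : E × (Fin p → ℝ) × (Fin q → ℝ)) =
        a • (0, l, 0) + b • (0, 0, m) := by
      simp
    rw [h6, map_add, map_smul, map_smul, h1, h2, smul_zero, smul_zero, add_zero]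
  let T : ℝ × ℝ →ₗ[ℝ] LinearMap.ker L :=
    { toFun := fun a => ⟨(0, a.1 • l, a.2 • m), h5 a.1 a.2⟩
      map_add' := by
        intro a b
        ext1
        simp [add_smul]
      map_smul' := by
        intro s a
        ext1
        simp [mul_smul] }
  have hT : Function.Injective T := by
    rw [← LinearMap.ker_eq_bot, LinearMap.ker_eq_bot']
    intro a ha
    have h7 := congrArg Subtype.val ha
    have h8 : ((0 : E), a.1 • l, a.2 • m) = 0 := h7
    simp only [Prod.mk_eq_zero, smul_eq_zero, hl, hm, or_false, true_and] at h8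
    exact Prod.ext h8.1 h8.2
  have hT2 : Function.Surjective T := by
    refine (LinearMap.injective_iff_surjective_of_finrank_eq_finrank ?_).1 hT
    rw [h3, finrank_prod, finrank_self]
  obtain ⟨a, ha⟩ := hT2 ⟨z, hz⟩
  have h9 : ((0 : E), a.1 • l, a.2 • m) = z := congrArg Subtype.val ha
  rw [← h9]
  exact ⟨rfl, ⟨a.1, rfl⟩, a.2, rfl⟩

end Algebra

section Dmap

variable {E : Type*} [NormedAddCommGroup E] [NormedSpace ℝ E]
  {H : Type*} [TopologicalSpace H] (I : ModelWithCorners ℝ E H)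
  {X : Type*} [TopologicalSpace X] [ChartedSpace H X]
  {V : Type*} [NormedAddCommGroup V] [NormedSpace ℝ V]

theorem locForm_comb_add {p : ℕ} (e : X → V) (v : Fin p → X → (V →L[ℝ] ℝ)) (l l' : Fin p → ℝ)
    (c : X) (u : E) : locForm I e (comb v (l + l')) c u =
      locForm I e (comb v l) c u + locForm I e (comb v l') c u := by
  simp only [locForm_comb, Pi.add_apply, add_smul, Finset.sum_add_distrib]

theorem locForm_comb_smul {p : ℕ} (e : X → V) (v : Fin p → X → (V →L[ℝ] ℝ)) (s : ℝ)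
    (l : Fin p → ℝ) (c : X) (u : E) : locForm I e (comb v (s • l)) c u =
      s • locForm I e (comb v l) c u := by
  simp only [locForm_comb, Pi.smul_apply, smul_eq_mul, mul_smul, Finset.smul_sum]

theorem locForm_comb_zero {p : ℕ} (e : X → V) (v : Fin p → X → (V →L[ℝ] ℝ)) (c : X) (u : E) :
    locForm I e (comb v 0) c u = 0 := by
  simp [locForm_comb]

/-- The derivative `dmap` as a linear map. -/
noncomputable def dmapLin {p q : ℕ} (e : X → V) (v : Fin p → X → (V →L[ℝ] ℝ))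
    (w : Fin q → X → (V →L[ℝ] ℝ)) (c x : X) (l : Fin p → ℝ) (m : Fin q → ℝ) :
    E × (Fin p → ℝ) × (Fin q → ℝ) →ₗ[ℝ] (E →L[ℝ] ℝ) × (E →L[ℝ] ℝ) where
  toFun z := dmap I e v w c x l m z.1 z.2.1 z.2.2
  map_add' := by
    intro a b
    unfold dmap
    simp only [Prod.fst_add, Prod.snd_add, map_add, locForm_comb_add, Prod.mk_add_mk]
    rw [Prod.mk.injEq]
    constructor <;> abel
  map_smul' := by
    intro s a
    unfold dmap
    simp only [Prod.smul_fst, Prod.smul_snd, map_smul, locForm_comb_smul, Prod.smul_mk, smul_add,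
      RingHom.id_apply]

theorem dmapLin_apply {p q : ℕ} (e : X → V) (v : Fin p → X → (V →L[ℝ] ℝ))
    (w : Fin q → X → (V →L[ℝ] ℝ)) (c x : X) (l : Fin p → ℝ) (m : Fin q → ℝ)
    (z : E × (Fin p → ℝ) × (Fin q → ℝ)) :
    dmapLin I e v w c x l m z = dmap I e v w c x l m z.1 z.2.1 z.2.2 := rfl

theorem isZero_ne_zero {p q : ℕ} {e : X → V} {v : Fin p → X → (V →L[ℝ] ℝ)}
    {w : Fin q → X → (V →L[ℝ] ℝ)} {x : X} {l : Fin p → ℝ} {m : Fin q → ℝ}
    (h : IsZero I e v w x l m) : l ≠ 0 ∧ m ≠ 0 := by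
  constructor
  · rintro rfl
    have := h.1
    simp at this
  · rintro rfl
    have := h.2.1
    simp at this

variable [IsManifold I ∞ X]

theorem IsZero.locForm_eq_zero {p q : ℕ} {e : X → V} (he : ContMDiff I 𝓘(ℝ, V) ∞ e)
    {v : Fin p → X → (V →L[ℝ] ℝ)}
    {w : Fin q → X → (V →L[ℝ] ℝ)} {x : X} {l : Fin p → ℝ} {m : Fin q → ℝ}
    (h : IsZero I e v w x l m) {c : X} (hx : x ∈ (chartAt H c).source) :
    locForm I e (comb v l) c (extChartAt I c x) = 0 ∧
      locForm I e (comb w m) c (extChartAt I c x) = 0 :=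
  ⟨(locForm_eq_zero_iff I he _ c x hx).2 h.2.2.1, (locForm_eq_zero_iff I he _ c x hx).2 h.2.2.2⟩

/-- At a regular zero, in the right dimensions, the kernel of the derivative is as small as
possible. -/
theorem ker_dmap_of_regular [FiniteDimensional ℝ E] {p q : ℕ} (hdim : finrank ℝ E + 2 = p + q)
    {e : X → V} (he : ContMDiff I 𝓘(ℝ, V) ∞ e)
    {v : Fin p → X → (V →L[ℝ] ℝ)} {w : Fin q → X → (V →L[ℝ] ℝ)} {c x : X} {l : Fin p → ℝ}
    {m : Fin q → ℝ} (h : IsZero I e v w x l m) (hr : IsRegularIn I e v w c x l m)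
    {ξ : E} {l' : Fin p → ℝ} {m' : Fin q → ℝ} (hk : dmap I e v w c x l m ξ l' m' = 0) :
    ξ = 0 ∧ (∃ s : ℝ, l' = s • l) ∧ ∃ t : ℝ, m' = t • m := by
  have h0 := h.locForm_eq_zero I he hr.1
  refine ker_of_surjective hdim (dmapLin I e v w c x l m) ?_ (isZero_ne_zero I h).1
    (isZero_ne_zero I h).2 ?_ ?_ (z := (ξ, l', m')) hk
  · intro fg
    obtain ⟨ξ, l', m', h1⟩ := hr.2 fg.1 fg.2
    exact ⟨(ξ, l', m'), h1⟩
  · rw [dmapLin_apply]
    unfold dmap
    simp only [map_zero, zero_add, h0.1, locForm_comb_zero]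
    rfl
  · rw [dmapLin_apply]
    unfold dmap
    simp only [map_zero, zero_add, h0.2, locForm_comb_zero]
    rfl

theorem differentiableWithinAt_locForm {e : X → V} (he : ContMDiff I 𝓘(ℝ, V) ∞ e)
    {v : X → (V →L[ℝ] ℝ)} (hv : ContMDiff I 𝓘(ℝ, V →L[ℝ] ℝ) ∞ v) {c : X} {u : E}
    (hu : u ∈ (extChartAt I c).target) :
    DifferentiableWithinAt ℝ (locForm I e v c) (range I) u :=
  ((contDiffOn_locForm I he hv c u hu).differentiableWithinAt (by simp)).mono_of_mem_nhdsWithin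
    (extChartAt_target_mem_nhdsWithin_of_mem hu)

theorem fderivWithin_locForm_smul {p : ℕ} {e : X → V} (he : ContMDiff I 𝓘(ℝ, V) ∞ e)
    {v : Fin p → X → (V →L[ℝ] ℝ)} (hv : ∀ i, ContMDiff I 𝓘(ℝ, V →L[ℝ] ℝ) ∞ (v i)) (s : ℝ)
    (l : Fin p → ℝ) {c : X} {u : E} (hu : u ∈ (extChartAt I c).target) :
    fderivWithin ℝ (locForm I e (comb v (s • l)) c) (range I) u =
      s • fderivWithin ℝ (locForm I e (comb v l) c) (range I) u := by
  have h1 : locForm I e (comb v (s • l)) c = fun u => s • locForm I e (comb v l) c u := by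
    funext u
    exact locForm_comb_smul I e v s l c u
  have h2 := (differentiableWithinAt_locForm I he (contMDiff_comb I hv l) hu).hasFDerivWithinAt
  rw [h1]
  exact (h2.const_smul s).fderivWithin (I.uniqueDiffOn _ (extChartAt_target_subset_range c hu))

end Dmap

section Kappa

variable {E : Type*} [NormedAddCommGroup E] [NormedSpace ℝ E]
  {H : Type*} [TopologicalSpace H] (I : ModelWithCorners ℝ E H)
  {M : Type*} [TopologicalSpace M] [ChartedSpace H M]
  {F : Type*} [NormedAddCommGroup F] [NormedSpace ℝ F]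
  {G : Type*} [TopologicalSpace G] (J : ModelWithCorners ℝ F G)
  {W : Type*} [TopologicalSpace W] [ChartedSpace G W]
  {V : Type*} [NormedAddCommGroup V] [NormedSpace ℝ V]

/-- The map `j` in the charts with centres `c` and `x`. -/
noncomputable def kap (j : M → W) (c : M) (x : W) : E → F :=
  extChartAt J x ∘ j ∘ (extChartAt I c).symm

variable [IsManifold I ∞ M] [IsManifold J ∞ W] [I.Boundaryless]

theorem contDiffAt_kap {j : M → W} (hj : ContMDiff I J ∞ j) {c : M} {x : W} {u : E}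
    (hu : u ∈ (extChartAt I c).target)
    (hx : j ((extChartAt I c).symm u) ∈ (chartAt G x).source) :
    ContDiffAt ℝ ∞ (kap I J j c x) u := by
  rw [← contMDiffAt_iff_contDiffAt]
  have h1 : ContMDiffAt 𝓘(ℝ, E) I ∞ (extChartAt I c).symm u :=
    (contMDiffOn_extChartAt_symm c).contMDiffAt ((isOpen_extChartAt_target c).mem_nhds hu)
  have h2 : ContMDiffAt 𝓘(ℝ, E) J ∞ (j ∘ (extChartAt I c).symm) u :=
    ContMDiffAt.comp u hj.contMDiffAt h1
  exact ContMDiffAt.comp u (contMDiffAt_extChartAt' hx) h2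

/-- The pullback formula in charts. -/
theorem locForm_pullback {j : M → W} (hj : ContMDiff I J ∞ j) {e : W → V}
    (he : ContMDiff J 𝓘(ℝ, V) ∞ e) (v : W → (V →L[ℝ] ℝ)) {c : M} {x : W} {u : E}
    (hu : u ∈ (extChartAt I c).target)
    (hx : j ((extChartAt I c).symm u) ∈ (chartAt G x).source) :
    locForm I (e ∘ j) (v ∘ j) c u =
      (locForm J e v x (kap I J j c x u)).comp (fderiv ℝ (kap I J j c x) u) := by
  have hk := (contDiffAt_kap I J hj hu hx).differentiableAt (by simp)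
  have hxs : j ((extChartAt I c).symm u) ∈ (extChartAt J x).source := by
    rwa [extChartAt_source]
  have hku : kap I J j c x u ∈ (extChartAt J x).target := (extChartAt J x).map_source hxs
  have hsymm : (extChartAt J x).symm (kap I J j c x u) = j ((extChartAt I c).symm u) :=
    (extChartAt J x).left_inv hxs
  have h1 : HasFDerivWithinAt (e ∘ (extChartAt J x).symm)
      (fderivWithin ℝ (e ∘ (extChartAt J x).symm) (range J) (kap I J j c x u)) (range J)
      (kap I J j c x u) :=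
    (((contDiffOn_comp_symm J he x _ hku).differentiableWithinAt (by simp)).mono_of_mem_nhdsWithin
      (extChartAt_target_mem_nhdsWithin_of_mem hku)).hasFDerivWithinAt
  have hcont : ContinuousAt (j ∘ (extChartAt I c).symm) u :=
    hj.continuous.continuousAt.comp
      ((continuousOn_extChartAt_symm c).continuousAt ((isOpen_extChartAt_target c).mem_nhds hu))
  have hev : ∀ᶠ y in 𝓝 u, (j ∘ (extChartAt I c).symm) y ∈ (extChartAt J x).source :=
    hcont.eventually_mem ((isOpen_extChartAt_source x).mem_nhds hxs)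
  have h2 : HasFDerivAt ((e ∘ (extChartAt J x).symm) ∘ kap I J j c x)
      ((fderivWithin ℝ (e ∘ (extChartAt J x).symm) (range J) (kap I J j c x u)).comp
        (fderiv ℝ (kap I J j c x) u)) u := by
    refine h1.comp_hasFDerivAt u hk.hasFDerivAt ?_
    refine Filter.Eventually.of_forall fun y => ?_
    change extChartAt J x _ ∈ range J
    rw [extChartAt_coe]
    exact ⟨_, rfl⟩
  have h3 : ((e ∘ j) ∘ (extChartAt I c).symm) =ᶠ[𝓝 u]
      ((e ∘ (extChartAt J x).symm) ∘ kap I J j c x) := by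
    filter_upwards [hev] with y hy
    have hy' : j ((extChartAt I c).symm y) ∈ (extChartAt J x).source := hy
    change e (j _) = e ((extChartAt J x).symm (extChartAt J x (j _)))
    rw [(extChartAt J x).left_inv hy']
  have h4 := (h2.congr_of_eventuallyEq h3).fderiv
  ext ξ
  rw [locForm_apply, I.range_eq_univ, fderivWithin_univ, h4, ContinuousLinearMap.comp_apply,
    ContinuousLinearMap.comp_apply, locForm_apply, hsymm]
  rfl

/-- The derivative of a pulled back form at a zero. -/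
theorem fderiv_locForm_pullback {j : M → W} (hj : ContMDiff I J ∞ j) {e : W → V}
    (he : ContMDiff J 𝓘(ℝ, V) ∞ e) {v : W → (V →L[ℝ] ℝ)}
    (hv : ContMDiff J 𝓘(ℝ, V →L[ℝ] ℝ) ∞ v) {c : M} {x : W} {u : E}
    (hu : u ∈ (extChartAt I c).target)
    (hx : j ((extChartAt I c).symm u) ∈ (chartAt G x).source)
    (h0 : locForm J e v x (kap I J j c x u) = 0) (ζ : E) :
    fderivWithin ℝ (locForm I (e ∘ j) (v ∘ j) c) (range I) u ζ =
      (fderivWithin ℝ (locForm J e v x) (range J) (kap I J j c x u)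
        (fderiv ℝ (kap I J j c x) u ζ)).comp (fderiv ℝ (kap I J j c x) u) := by
  have hk := contDiffAt_kap I J hj hu hx
  have hk1 := (hk.differentiableAt (by simp)).hasFDerivAt
  have hk2 : HasFDerivAt (fderiv ℝ (kap I J j c x)) _ u :=
    ((hk.fderiv_right (m := ∞) (by simp)).differentiableAt (by simp)).hasFDerivAt
  have hxs : j ((extChartAt I c).symm u) ∈ (extChartAt J x).source := by
    rwa [extChartAt_source]
  have hku : kap I J j c x u ∈ (extChartAt J x).target := (extChartAt J x).map_source hxs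
  have h1 := (differentiableWithinAt_locForm J he hv hku).hasFDerivWithinAt
  have hcont : ContinuousAt (j ∘ (extChartAt I c).symm) u :=
    hj.continuous.continuousAt.comp
      ((continuousOn_extChartAt_symm c).continuousAt ((isOpen_extChartAt_target c).mem_nhds hu))
  have hev : ∀ᶠ y in 𝓝 u, (j ∘ (extChartAt I c).symm) y ∈ (extChartAt J x).source :=
    hcont.eventually_mem ((isOpen_extChartAt_source x).mem_nhds hxs)
  have h2 : HasFDerivAt (locForm J e v x ∘ kap I J j c x)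
      ((fderivWithin ℝ (locForm J e v x) (range J) (kap I J j c x u)).comp
        (fderiv ℝ (kap I J j c x) u)) u := by
    refine h1.comp_hasFDerivAt u hk1 ?_
    refine Filter.Eventually.of_forall fun y => ?_
    change extChartAt J x _ ∈ range J
    rw [extChartAt_coe]
    exact ⟨_, rfl⟩
  have h3 := h2.clm_comp hk2
  have h4 : locForm I (e ∘ j) (v ∘ j) c =ᶠ[𝓝 u]
      fun y => ((locForm J e v x ∘ kap I J j c x) y).comp (fderiv ℝ (kap I J j c x) y) := by
    filter_upwards [hev, (isOpen_extChartAt_target c).mem_nhds hu] with y hy hy2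
    rw [extChartAt_source] at hy
    exact locForm_pullback I J hj he v hy2 hy
  rw [I.range_eq_univ, fderivWithin_univ, (h3.congr_of_eventuallyEq h4).fderiv]
  ext ξ
  simp [h0]

end Kappa

section Kappa2

variable {E : Type*} [NormedAddCommGroup E] [NormedSpace ℝ E]
  {H : Type*} [TopologicalSpace H] (I : ModelWithCorners ℝ E H)
  {M : Type*} [TopologicalSpace M] [ChartedSpace H M]
  {F : Type*} [NormedAddCommGroup F] [NormedSpace ℝ F]
  {G : Type*} [TopologicalSpace G] (J : ModelWithCorners ℝ F G)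
  {W : Type*} [TopologicalSpace W] [ChartedSpace G W]
  {V : Type*} [NormedAddCommGroup V] [NormedSpace ℝ V]
  [IsManifold I ∞ M] [IsManifold J ∞ W]

omit [IsManifold I ∞ M] [IsManifold J ∞ W] in
theorem form_pullback {j : M → W} (hj : ContMDiff I J ∞ j) {e : W → V}
    (he : ContMDiff J 𝓘(ℝ, V) ∞ e) (v : W → (V →L[ℝ] ℝ)) (y : M) :
    form I (e ∘ j) (v ∘ j) y = (form J e v (j y)).comp (mfderiv I J j y : E →L[ℝ] F) := by
  ext ξ
  rw [form_apply, mfderiv_comp y ((he (j y)).mdifferentiableAt (by simp))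
    ((hj y).mdifferentiableAt (by simp))]
  rfl

variable [I.Boundaryless]

theorem fderiv_kap {j : M → W} (hj : ContMDiff I J ∞ j) {c y : M}
    (hy : y ∈ (chartAt H c).source) (ζ : E) :
    fderiv ℝ (kap I J j c (j y)) (extChartAt I c y) ζ =
      (mfderiv I J j y (tangentCoordChange I c y y ζ) : F) := by
  have hy' : y ∈ (extChartAt I c).source := by rwa [extChartAt_source]
  have hyy : y ∈ (extChartAt I y).source := mem_extChartAt_source y
  obtain ⟨D, hD⟩ : ∃ D : E →L[ℝ] F, D = mfderiv I J j y := ⟨_, rfl⟩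
  have h1 : HasFDerivAt (kap I J j y (j y)) D (extChartAt I y y) := by
    have h2 := (contDiffAt_kap I J hj ((extChartAt I y).map_source hyy) (x := j y)
      (by rw [(extChartAt I y).left_inv hyy]; exact mem_chart_source G (j y))).differentiableAt
        (by simp)
    have h3 := h2.hasFDerivAt
    have h4 : D = fderiv ℝ (kap I J j y (j y)) (extChartAt I y y) := by
      rw [hD]
      unfold mfderiv
      rw [if_pos ((hj y).mdifferentiableAt (by simp)), I.range_eq_univ, fderivWithin_univ]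
      rfl
    rw [h4]
    exact h3
  have h2 := hasFDerivWithinAt_tangentCoordChange (I := I) (x := c) (y := y) (z := y) ⟨hy', hyy⟩
  rw [I.range_eq_univ, hasFDerivWithinAt_univ] at h2
  have hcx : (extChartAt I y ∘ (extChartAt I c).symm) (extChartAt I c y) = extChartAt I y y := by
    rw [Function.comp_apply, (extChartAt I c).left_inv hy']
  have h3 : HasFDerivAt (kap I J j y (j y) ∘ (extChartAt I y ∘ (extChartAt I c).symm))
      (D.comp (tangentCoordChange I c y y)) (extChartAt I c y) := by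
    refine HasFDerivAt.comp _ ?_ h2
    rw [hcx]
    exact h1
  have h4 : kap I J j c (j y) =ᶠ[𝓝 (extChartAt I c y)]
      (kap I J j y (j y) ∘ (extChartAt I y ∘ (extChartAt I c).symm)) := by
    have h5 : ∀ᶠ u in 𝓝 (extChartAt I c y), (extChartAt I c).symm u ∈ (extChartAt I y).source := by
      refine (continuousAt_extChartAt_symm' hy').eventually_mem ?_
      rw [(extChartAt I c).left_inv hy']
      exact extChartAt_source_mem_nhds y
    filter_upwards [h5] with u hu
    simp only [kap, Function.comp_apply]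
    rw [(extChartAt I y).left_inv hu]
  have h6 := (h3.congr_of_eventuallyEq h4).fderiv
  rw [h6, hD]
  rfl

theorem injective_fderiv_kap {j : M → W} (hj : ContMDiff I J ∞ j) {c y : M}
    (hy : y ∈ (chartAt H c).source) (hd : Function.Injective (mfderiv I J j y)) :
    Function.Injective (fderiv ℝ (kap I J j c (j y)) (extChartAt I c y)) := by
  intro a b hab
  rw [fderiv_kap I J hj hy, fderiv_kap I J hj hy] at hab
  have h1 : tangentCoordChange I c y y a = tangentCoordChange I c y y b := hd hab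
  have h2 := congrArg (tangentCoordChange I y c y) h1
  rwa [tangentCoordChange_inv' I hy, tangentCoordChange_inv' I hy] at h2

omit [I.Boundaryless] [IsManifold J ∞ W] in
theorem locForm_tail {p : ℕ} {j : M → W} (hj : ContMDiff I J ∞ j) {e : W → V}
    (he : ContMDiff J 𝓘(ℝ, V) ∞ e) {v : Fin (p + 1) → W → (V →L[ℝ] ℝ)}
    (hv0 : ∀ y, form I (e ∘ j) (v 0 ∘ j) y = 0) (l : Fin (p + 1) → ℝ) {c : M} {u : E}
    (hu : u ∈ (extChartAt I c).target) :
    locForm I (e ∘ j) (comb (fun i : Fin p => v i.succ ∘ j) (fun i => l i.succ)) c u =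
      locForm I (e ∘ j) (comb v l ∘ j) c u := by
  have h1 : locForm I (e ∘ j) (v 0 ∘ j) c u = 0 := by
    have h2 : (extChartAt I c).symm u ∈ (chartAt H c).source := by
      rw [← extChartAt_source I]
      exact (extChartAt I c).map_target hu
    have h3 := (locForm_eq_zero_iff I (he.comp hj) (v 0 ∘ j) c _ h2).2 (hv0 _)
    rwa [(extChartAt I c).right_inv hu] at h3
  have h2 : comb v l ∘ j = comb (fun i => v i ∘ j) l := rfl
  rw [h2, locForm_comb, locForm_comb, Fin.sum_univ_succ (n := p), h1, smul_zero, zero_add]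

omit [I.Boundaryless] [IsManifold I ∞ M] [IsManifold J ∞ W] [TopologicalSpace W] in
theorem form_tail {p : ℕ} {j : M → W} {e : W → V} {v : Fin (p + 1) → W → (V →L[ℝ] ℝ)}
    (hv0 : ∀ y, form I (e ∘ j) (v 0 ∘ j) y = 0) (l : Fin (p + 1) → ℝ) (y : M) :
    form I (e ∘ j) (comb (fun i : Fin p => v i.succ ∘ j) (fun i => l i.succ)) y =
      form I (e ∘ j) (comb v l ∘ j) y := by
  have h2 : comb v l ∘ j = comb (fun i => v i ∘ j) l := rfl
  rw [h2, form_comb, form_comb, Fin.sum_univ_succ (n := p), hv0, smul_zero, zero_add]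

omit [IsManifold I ∞ M] [IsManifold J ∞ W] [I.Boundaryless] in
theorem form_tail_eq_zero {p : ℕ} {j : M → W} (hj : ContMDiff I J ∞ j) {e : W → V}
    (he : ContMDiff J 𝓘(ℝ, V) ∞ e) {v : Fin (p + 1) → W → (V →L[ℝ] ℝ)}
    (hv0 : ∀ y, form I (e ∘ j) (v 0 ∘ j) y = 0) {l : Fin (p + 1) → ℝ} {y : M}
    (h : form J e (comb v l) (j y) = 0) :
    form I (e ∘ j) (comb (fun i : Fin p => v i.succ ∘ j) (fun i => l i.succ)) y = 0 := by
  rw [form_tail I hv0, form_pullback I J hj he, h]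
  exact ContinuousLinearMap.zero_comp _

omit [IsManifold J ∞ W] in
theorem tail_ne_zero {p : ℕ} {e : W → V} {v : Fin (p + 1) → W → (V →L[ℝ] ℝ)} {x : W}
    (hv1 : form J e (v 0) x ≠ 0) {l : Fin (p + 1) → ℝ} (hl : l ≠ 0)
    (h : form J e (comb v l) x = 0) : (fun i : Fin p => l i.succ) ≠ 0 := by
  intro h1
  rw [form_comb, Fin.sum_univ_succ] at h
  have h2 : ∀ i : Fin p, l i.succ = 0 := fun i => congrFun h1 i
  simp only [h2, zero_smul, Finset.sum_const_zero, add_zero, smul_eq_zero, hv1, or_false] at h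
  apply hl
  funext i
  refine Fin.cases h h2 i

theorem tail_eq_smul {p : ℕ} {e : W → V} (he : ContMDiff J 𝓘(ℝ, V) ∞ e)
    {v : Fin (p + 1) → W → (V →L[ℝ] ℝ)} {x : W}
    (hv1 : form J e (v 0) x ≠ 0) {l l' : Fin (p + 1) → ℝ}
    (h : locForm J e (comb v l) x (extChartAt J x x) = 0)
    (h' : locForm J e (comb v l') x (extChartAt J x x) = 0) {s : ℝ}
    (hs : (fun i : Fin p => l' i.succ) = s • fun i : Fin p => l i.succ) : l' = s • l := by
  have h1 : locForm J e (comb v (l' + (-s) • l)) x (extChartAt J x x) = 0 := by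
    rw [locForm_comb_add, locForm_comb_smul, h, h', smul_zero, add_zero]
  rw [locForm_comb, Fin.sum_univ_succ] at h1
  have h2 : ∀ i : Fin p, (l' + (-s) • l) i.succ = 0 := by
    intro i
    have h3 := congrFun hs i
    simp only [Pi.smul_apply, smul_eq_mul] at h3
    simp [h3]
  have h4 : locForm J e (v 0) x (extChartAt J x x) ≠ 0 := by
    rw [Ne, locForm_eq_zero_iff J he _ x x (mem_chart_source G x)]
    exact hv1
  simp only [h2, zero_smul, Finset.sum_const_zero, add_zero, smul_eq_zero, h4, or_false] at h1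
  have h5 : l' + (-s) • l = 0 := by
    funext i
    refine Fin.cases h1 h2 i
  rw [neg_smul, ← sub_eq_add_neg, sub_eq_zero] at h5
  exact h5

end Kappa2

section Bd

variable {W : Type*} [TopologicalSpace W] 
  [ChartedSpace (EuclideanHalfSpace 6) W] [IsManifold (𝓡∂ 6) ∞ W]
  {M : Type*} [TopologicalSpace M] [ChartedSpace (EuclideanSpace ℝ (Fin 5)) M]
  [IsManifold (𝓡 5) ∞ M] {j : M → W}

theorem fderiv_kap_zero (hj : ContMDiff (𝓡 5) (𝓡∂ 6) ∞ j)
    (hr : ∀ y, j y ∈ (𝓡∂ 6).boundary W) {c y : M}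
    (hy : y ∈ (chartAt (EuclideanSpace ℝ (Fin 5)) c).source) (ζ : EuclideanSpace ℝ (Fin 5)) :
    (fderiv ℝ (kap (𝓡 5) (𝓡∂ 6) j c (j y)) (extChartAt (𝓡 5) c y) ζ) 0 = 0 := by
  have hy' : y ∈ (extChartAt (𝓡 5) c).source := by rwa [extChartAt_source]
  have hu : extChartAt (𝓡 5) c y ∈ (extChartAt (𝓡 5) c).target := (extChartAt (𝓡 5) c).map_source hy'
  have hx : j ((extChartAt (𝓡 5) c).symm (extChartAt (𝓡 5) c y)) ∈
      (chartAt (EuclideanHalfSpace 6) (j y)).source := by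
    rw [(extChartAt (𝓡 5) c).left_inv hy']
    exact mem_chart_source _ (j y)
  have h1 := ((contDiffAt_kap (𝓡 5) (𝓡∂ 6) hj hu hx).differentiableAt (by simp)).hasFDerivAt
  have h2 : HasFDerivAt (fun u => kap (𝓡 5) (𝓡∂ 6) j c (j y) u 0)
      ((EuclideanSpace.proj (0 : Fin 6) : EuclideanSpace ℝ (Fin 6) →L[ℝ] ℝ).comp
        (fderiv ℝ (kap (𝓡 5) (𝓡∂ 6) j c (j y)) (extChartAt (𝓡 5) c y))) (extChartAt (𝓡 5) c y) :=
    (EuclideanSpace.proj (0 : Fin 6) : EuclideanSpace ℝ (Fin 6) →L[ℝ] ℝ).hasFDerivAt.comp _ h1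
  have hcont : ContinuousAt (j ∘ (extChartAt (𝓡 5) c).symm) (extChartAt (𝓡 5) c y) :=
    hj.continuous.continuousAt.comp
      ((continuousOn_extChartAt_symm c).continuousAt ((isOpen_extChartAt_target c).mem_nhds hu))
  have hev : ∀ᶠ u in 𝓝 (extChartAt (𝓡 5) c y),
      (j ∘ (extChartAt (𝓡 5) c).symm) u ∈ (chartAt (EuclideanHalfSpace 6) (j y)).source :=
    hcont.eventually_mem ((chartAt (EuclideanHalfSpace 6) (j y)).open_source.mem_nhds hx)
  have h3 : (fun u => kap (𝓡 5) (𝓡∂ 6) j c (j y) u 0) =ᶠ[𝓝 (extChartAt (𝓡 5) c y)]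
      fun _ => 0 := by
    filter_upwards [hev] with u hu'
    exact (mem_boundary_iff_coord hu').1 (hr _)
  have h4 := h2.unique ((hasFDerivAt_const (0 : ℝ) _).congr_of_eventuallyEq h3)
  exact congrArg (fun f : EuclideanSpace ℝ (Fin 5) →L[ℝ] ℝ => f ζ) h4

theorem exists_fderiv_kap (hj : ContMDiff (𝓡 5) (𝓡∂ 6) ∞ j)
    (hd : ∀ y, Function.Injective (mfderiv (𝓡 5) (𝓡∂ 6) j y))
    (hr : ∀ y, j y ∈ (𝓡∂ 6).boundary W) {c y : M}
    (hy : y ∈ (chartAt (EuclideanSpace ℝ (Fin 5)) c).source) (ξ : EuclideanSpace ℝ (Fin 6))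
    (hξ : ξ 0 = 0) :
    ∃ ζ, fderiv ℝ (kap (𝓡 5) (𝓡∂ 6) j c (j y)) (extChartAt (𝓡 5) c y) ζ = ξ := by
  set L := fderiv ℝ (kap (𝓡 5) (𝓡∂ 6) j c (j y)) (extChartAt (𝓡 5) c y) with hL
  set P : EuclideanSpace ℝ (Fin 6) →ₗ[ℝ] ℝ :=
    (EuclideanSpace.proj (0 : Fin 6) : EuclideanSpace ℝ (Fin 6) →L[ℝ] ℝ).toLinearMap with hP
  have h1 : finrank ℝ (LinearMap.ker P) = 5 := by
    have h2 := LinearMap.finrank_range_add_finrank_ker P
    have h3 : LinearMap.range P = ⊤ := by
      rw [LinearMap.range_eq_top]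
      intro t
      exact ⟨EuclideanSpace.single 0 t, by simp [hP]⟩
    rw [h3, finrank_top, finrank_self, finrank_euclideanSpace_fin] at h2
    omega
  let T : EuclideanSpace ℝ (Fin 5) →ₗ[ℝ] LinearMap.ker P :=
    L.toLinearMap.codRestrict (LinearMap.ker P) fun ζ => fderiv_kap_zero hj hr hy ζ
  have hT : Function.Injective T := by
    intro a b hab
    exact injective_fderiv_kap (𝓡 5) (𝓡∂ 6) hj hy (hd y) (congrArg Subtype.val hab)
  have hT2 : Function.Surjective T := by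
    refine (LinearMap.injective_iff_surjective_of_finrank_eq_finrank ?_).1 hT
    rw [h1, finrank_euclideanSpace_fin]
  obtain ⟨ζ, hζ⟩ := hT2 ⟨ξ, hξ⟩
  exact ⟨ζ, congrArg Subtype.val hζ⟩

end Bd

section Fam

variable {E : Type*} [NormedAddCommGroup E] [NormedSpace ℝ E]
  {H : Type*} [TopologicalSpace H] (I : ModelWithCorners ℝ E H)
  {M : Type*} [TopologicalSpace M] [ChartedSpace H M]
  {F : Type*} [NormedAddCommGroup F] [NormedSpace ℝ F]
  {G : Type*} [TopologicalSpace G] (J : ModelWithCorners ℝ F G)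
  {W : Type*} [TopologicalSpace W] [ChartedSpace G W]
  {V : Type*} [NormedAddCommGroup V] [NormedSpace ℝ V]
  [IsManifold I ∞ M] [IsManifold J ∞ W] [I.Boundaryless]

theorem family_transfer {p : ℕ} {j : M → W} (hj : ContMDiff I J ∞ j) {e : W → V}
    (he : ContMDiff J 𝓘(ℝ, V) ∞ e) {v : Fin (p + 1) → W → (V →L[ℝ] ℝ)}
    (hv : ∀ i, ContMDiff J 𝓘(ℝ, V →L[ℝ] ℝ) ∞ (v i))
    (hv0 : ∀ y, form I (e ∘ j) (v 0 ∘ j) y = 0) {c y : M} (hy : y ∈ (chartAt H c).source)
    {l l' : Fin (p + 1) → ℝ} (h0 : form J e (comb v l) (j y) = 0) {ξ : F} {ζ : E}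
    (hζ : fderiv ℝ (kap I J j c (j y)) (extChartAt I c y) ζ = ξ)
    (hd : fderivWithin ℝ (locForm J e (comb v l) (j y)) (range J) (extChartAt J (j y) (j y)) ξ +
      locForm J e (comb v l') (j y) (extChartAt J (j y) (j y)) = 0) :
    fderivWithin ℝ (locForm I (e ∘ j) (comb (fun i : Fin p => v i.succ ∘ j)
        (fun i => l i.succ)) c) (range I) (extChartAt I c y) ζ +
      locForm I (e ∘ j) (comb (fun i : Fin p => v i.succ ∘ j)
        (fun i => l' i.succ)) c (extChartAt I c y) = 0 := by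
  have hy' : y ∈ (extChartAt I c).source := by rwa [extChartAt_source]
  have hu : extChartAt I c y ∈ (extChartAt I c).target := (extChartAt I c).map_source hy'
  have hx : j ((extChartAt I c).symm (extChartAt I c y)) ∈ (chartAt G (j y)).source := by
    rw [(extChartAt I c).left_inv hy']
    exact mem_chart_source _ (j y)
  have hk : kap I J j c (j y) (extChartAt I c y) = extChartAt J (j y) (j y) := by
    simp only [kap, Function.comp_apply]
    rw [(extChartAt I c).left_inv hy']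
  have h1 : locForm J e (comb v l) (j y) (kap I J j c (j y) (extChartAt I c y)) = 0 := by
    rw [hk]
    exact (locForm_eq_zero_iff J he _ _ _ (mem_chart_source G (j y))).2 h0
  have h2 := fderiv_locForm_pullback I J hj he (contMDiff_comb J hv l) hu hx h1 ζ
  have h3 := locForm_pullback I J hj he (comb v l') hu hx
  have h4 : locForm I (e ∘ j) (comb (fun i : Fin p => v i.succ ∘ j) (fun i => l i.succ)) c
      =ᶠ[𝓝[range I] (extChartAt I c y)] locForm I (e ∘ j) (comb v l ∘ j) c := by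
    rw [I.range_eq_univ, nhdsWithin_univ]
    filter_upwards [(isOpen_extChartAt_target c).mem_nhds hu] with u hu'
    exact locForm_tail I J hj he hv0 l hu'
  rw [h4.fderivWithin_eq (locForm_tail I J hj he hv0 l hu), h2, locForm_tail I J hj he hv0 l' hu,
    h3, ← ContinuousLinearMap.add_comp, hk, hζ, hd, ContinuousLinearMap.zero_comp]

end Fam

section Main

variable {W : Type*} [TopologicalSpace W]
  [ChartedSpace (EuclideanHalfSpace 6) W] [IsManifold (𝓡∂ 6) ∞ W]
  {M : Type*} [TopologicalSpace M] [ChartedSpace (EuclideanSpace ℝ (Fin 5)) M]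
  [IsManifold (𝓡 5) ∞ M] {j : M → W}

theorem exists_normalise {p : ℕ} {l : Fin p → ℝ} (hl : l ≠ 0) :
    ∃ a : ℝ, a ≠ 0 ∧ (a • l) ⬝ᵥ (a • l) = 1 := by
  have h1 : 0 < l ⬝ᵥ l := by
    have h2 : 0 ≤ l ⬝ᵥ l := Finset.sum_nonneg fun i _ => mul_self_nonneg _
    refine lt_of_le_of_ne h2 ?_
    intro h3
    exact hl (dotProduct_self_eq_zero.1 h3.symm)
  refine ⟨(Real.sqrt (l ⬝ᵥ l))⁻¹, inv_ne_zero (Real.sqrt_pos.2 h1).ne', ?_⟩
  rw [smul_dotProduct, dotProduct_smul, smul_eq_mul, smul_eq_mul, ← mul_assoc, ← mul_inv,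
    Real.mul_self_sqrt h1.le, inv_mul_cancel₀ h1.ne']

theorem form_comb_smul {E : Type*} [NormedAddCommGroup E] [NormedSpace ℝ E]
    {H : Type*} [TopologicalSpace H] (I : ModelWithCorners ℝ E H)
    {X : Type*} [TopologicalSpace X] [ChartedSpace H X]
    {V : Type*} [NormedAddCommGroup V] [NormedSpace ℝ V] {p : ℕ} (e : X → V)
    (v : Fin p → X → (V →L[ℝ] ℝ)) (s : ℝ) (l : Fin p → ℝ) (x : X) :
    form I e (comb v (s • l)) x = s • form I e (comb v l) x := by
  simp only [form_comb, Pi.smul_apply, smul_eq_mul, mul_smul, Finset.smul_sum]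

/-- The first forms are the conormal form of the boundary, the others restrict to given forms
on `M`. -/
theorem nondeg_transfer (hj : ContMDiff (𝓡 5) (𝓡∂ 6) ∞ j)
    (hd : ∀ y, Function.Injective (mfderiv (𝓡 5) (𝓡∂ 6) j y))
    (hr : range j = (𝓡∂ 6).boundary W) {V : Type*} [NormedAddCommGroup V]
    [NormedSpace ℝ V] {e : W → V}
    (he : ContMDiff (𝓡∂ 6) 𝓘(ℝ, V) ∞ e)
    {v : Fin 5 → W → (V →L[ℝ] ℝ)} (hv : ∀ i, ContMDiff (𝓡∂ 6) 𝓘(ℝ, V →L[ℝ] ℝ) ∞ (v i))
    {w : Fin 4 → W → (V →L[ℝ] ℝ)} (hw : ∀ i, ContMDiff (𝓡∂ 6) 𝓘(ℝ, V →L[ℝ] ℝ) ∞ (w i))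
    (hv0 : ∀ y, form (𝓡 5) (e ∘ j) (v 0 ∘ j) y = 0)
    (hw0 : ∀ y, form (𝓡 5) (e ∘ j) (w 0 ∘ j) y = 0)
    (hv1 : ∀ y, form (𝓡∂ 6) e (v 0) (j y) ≠ 0) (hw1 : ∀ y, form (𝓡∂ 6) e (w 0) (j y) ≠ 0)
    (hnd : ∀ y l m, IsZero (𝓡 5) (e ∘ j) (fun i => v (Fin.succ i) ∘ j)
      (fun i => w (Fin.succ i) ∘ j) y l m → ∃ c, IsRegularIn (𝓡 5) (e ∘ j)
        (fun i => v (Fin.succ i) ∘ j) (fun i => w (Fin.succ i) ∘ j) c y l m)
    {y : M} {l : Fin 5 → ℝ} {m : Fin 4 → ℝ} (hz : IsZero (𝓡∂ 6) e v w (j y) l m) :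
    ∀ (ξ : EuclideanSpace ℝ (Fin 6)) l' m', ξ 0 = 0 →
      dmap (𝓡∂ 6) e v w (j y) (j y) l m ξ l' m' = 0 →
        ξ = 0 ∧ (∃ s : ℝ, l' = s • l) ∧ ∃ s : ℝ, m' = s • m := by
  intro ξ l' m' hξ hdm
  have hr' : ∀ y, j y ∈ (𝓡∂ 6).boundary W := fun y => hr ▸ mem_range_self y
  have hlb := form_tail_eq_zero (𝓡 5) (𝓡∂ 6) hj he hv0 hz.2.2.1
  have hmb := form_tail_eq_zero (𝓡 5) (𝓡∂ 6) hj he hw0 hz.2.2.2
  have hne := isZero_ne_zero (𝓡∂ 6) hz
  have hl0 := tail_ne_zero (𝓡∂ 6) (hv1 y) hne.1 hz.2.2.1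
  have hm0 := tail_ne_zero (𝓡∂ 6) (hw1 y) hne.2 hz.2.2.2
  obtain ⟨a, ha, ha1⟩ := exists_normalise hl0
  obtain ⟨b, hb, hb1⟩ := exists_normalise hm0
  have hzM : IsZero (𝓡 5) (e ∘ j) (fun i => v (Fin.succ i) ∘ j) (fun i => w (Fin.succ i) ∘ j) y
      (a • fun i : Fin 4 => l i.succ) (b • fun i : Fin 3 => m i.succ) := by
    refine ⟨ha1, hb1, ?_, ?_⟩
    · rw [form_comb_smul, hlb, smul_zero]
    · rw [form_comb_smul, hmb, smul_zero]
  obtain ⟨c, hc⟩ := hnd y _ _ hzM
  have hcy := hc.1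
  have hy' : y ∈ (extChartAt (𝓡 5) c).source := by rwa [extChartAt_source]
  have hu : extChartAt (𝓡 5) c y ∈ (extChartAt (𝓡 5) c).target :=
    (extChartAt (𝓡 5) c).map_source hy'
  obtain ⟨ζ, hζ⟩ := exists_fderiv_kap hj hd hr' hcy ξ hξ
  unfold dmap at hdm
  rw [Prod.mk_eq_zero] at hdm
  have h1 := family_transfer (𝓡 5) (𝓡∂ 6) hj he hv hv0 hcy hz.2.2.1 hζ hdm.1
  have h2 := family_transfer (𝓡 5) (𝓡∂ 6) hj he hw hw0 hcy hz.2.2.2 hζ hdm.2
  have h3 : dmap (𝓡 5) (e ∘ j) (fun i => v (Fin.succ i) ∘ j) (fun i => w (Fin.succ i) ∘ j) c y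
      (a • fun i : Fin 4 => l i.succ) (b • fun i : Fin 3 => m i.succ) ζ
      (a • fun i : Fin 4 => l' i.succ) (b • fun i : Fin 3 => m' i.succ) = 0 := by
    unfold dmap
    rw [fderivWithin_locForm_smul (𝓡 5) (he.comp hj) (fun i => (hv i.succ).comp hj) a _ hu,
      fderivWithin_locForm_smul (𝓡 5) (he.comp hj) (fun i => (hw i.succ).comp hj) b _ hu,
      locForm_comb_smul, locForm_comb_smul, Prod.mk_eq_zero]
    constructor
    · have h4 := congrArg (fun f => a • f) h1
      simp only [smul_add, smul_zero] at h4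
      exact h4
    · have h4 := congrArg (fun f => b • f) h2
      simp only [smul_add, smul_zero] at h4
      exact h4
  have h5 := ker_dmap_of_regular (𝓡 5) (by rw [finrank_euclideanSpace_fin]) (he.comp hj) hzM hc h3
  have hξ0 : ξ = 0 := by
    rw [← hζ, h5.1, map_zero]
  have h6 : locForm (𝓡∂ 6) e (comb v l') (j y) (extChartAt (𝓡∂ 6) (j y) (j y)) = 0 := by
    have h7 := hdm.1
    rw [hξ0, map_zero, zero_add] at h7
    exact h7
  have h7 : locForm (𝓡∂ 6) e (comb w m') (j y) (extChartAt (𝓡∂ 6) (j y) (j y)) = 0 := by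
    have h8 := hdm.2
    rw [hξ0, map_zero, zero_add] at h8
    exact h8
  have h8 := hz.locForm_eq_zero (𝓡∂ 6) he (mem_chart_source (EuclideanHalfSpace 6) (j y))
  refine ⟨hξ0, ?_, ?_⟩
  · obtain ⟨s, hs⟩ := h5.2.1
    refine ⟨s, tail_eq_smul (𝓡∂ 6) he (hv1 y) h8.1 h6 ?_⟩
    have h9 := congrArg (fun f => a⁻¹ • f) hs
    simp only [smul_smul, inv_mul_cancel₀ ha, one_smul] at h9
    rw [h9, mul_comm a⁻¹, mul_assoc, mul_inv_cancel₀ ha]
    simp
  · obtain ⟨s, hs⟩ := h5.2.2
    refine ⟨s, tail_eq_smul (𝓡∂ 6) he (hw1 y) h8.2 h7 ?_⟩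
    have h9 := congrArg (fun f => b⁻¹ • f) hs
    simp only [smul_smul, inv_mul_cancel₀ hb, one_smul] at h9
    rw [h9]
    congr 1
    field_simp

end Main

end Pool.Agent.MP_f1864b_gt
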