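import Pool.Agent.Lib.MP_f1864b_gt.Zero
import Pool.Agent.Lib.MP_f1864b_gt.Parity
import Pool.Agent.Lib.MP_f1864b_gt.Transfer
import Pool.Agent.Lib.MP_f1864b_gt.Ext
import Pool.Agent.Lib.MP_f1864b_gt.Rho
import Pool.Agent.Lib.MP_f1864b_gt.ExistsRegular
import Pool.Agent.Lib.MP_f1864b_gt.Arc
import Pool.Agent.Lib.MP_f1864b_gt.EndArc
import Pool.Agent.Lib.MP_f1864b_gt.BdEquiv

set_option autoImplicit false
set_option maxSynthPendingDepth 3

/-!
# Theorem W: a non-bounding criterion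
-/

namespace Pool.Agent.MP_f1864b_gt

open scoped Manifold ContDiff Topology Matrix
open Set Topology Module

section Clm

variable {E : Type*} [NormedAddCommGroup E] [NormedSpace ℝ E]
  {H : Type*} [TopologicalSpace H] (I : ModelWithCorners ℝ E H)
  {X : Type*} [TopologicalSpace X] [ChartedSpace H X]
  {V : Type*} [NormedAddCommGroup V] [NormedSpace ℝ V]
  {V' : Type*} [NormedAddCommGroup V'] [NormedSpace ℝ V']

theorem mfderiv_clm_comp (P : V →L[ℝ] V') {f : X → V} {x : X}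
    (hf : MDifferentiableAt I 𝓘(ℝ, V) f x) (ξ : E) :
    (mfderiv I 𝓘(ℝ, V') (fun y => P (f y)) x ξ : V') = P (mfderiv I 𝓘(ℝ, V) f x ξ) := by
  have h1 : (fun y => P (f y)) = P ∘ f := rfl
  rw [h1, mfderiv_comp x P.differentiableAt.mdifferentiableAt hf, P.mfderiv_eq]
  rfl

theorem form_comp_clm (P : V →L[ℝ] V') {f : X → V} {x : X}
    (hf : MDifferentiableAt I 𝓘(ℝ, V) f x) (v : X → (V' →L[ℝ] ℝ)) :
    form I f (fun y => (v y).comp P) x = form I (fun y => P (f y)) v x := by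
  ext ξ
  rw [form_apply, form_apply, ContinuousLinearMap.comp_apply]
  congr 1
  exact (mfderiv_clm_comp I P hf ξ).symm

omit [TopologicalSpace X] [ChartedSpace H X] in
theorem comb_comp_clm (P : V →L[ℝ] V') {p : ℕ} (v : Fin p → X → (V' →L[ℝ] ℝ)) (l : Fin p → ℝ) :
    comb (fun i y => (v i y).comp P) l = fun y => (comb v l y).comp P := by
  funext y
  ext ξ
  simp [comb_apply]

variable [IsManifold I ∞ X]

theorem locForm_comp_clm (P : V →L[ℝ] V') {f : X → V} (hf : ContMDiff I 𝓘(ℝ, V) ∞ f)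
    (v : X → (V' →L[ℝ] ℝ)) {c : X} {u : E} (hu : u ∈ (extChartAt I c).target) :
    locForm I f (fun y => (v y).comp P) c u = locForm I (fun y => P (f y)) v c u := by
  have h1 : DifferentiableWithinAt ℝ (f ∘ (extChartAt I c).symm) (range I) u :=
    ((contDiffOn_comp_symm I hf c u hu).differentiableWithinAt (by simp)).mono_of_mem_nhdsWithin
      (extChartAt_target_mem_nhdsWithin_of_mem hu)
  have h2 : HasFDerivWithinAt (P ∘ (f ∘ (extChartAt I c).symm))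
      (P.comp (fderivWithin ℝ (f ∘ (extChartAt I c).symm) (range I) u)) (range I) u :=
    P.hasFDerivAt.comp_hasFDerivWithinAt u h1.hasFDerivWithinAt
  have h3 : ((fun y => P (f y)) ∘ (extChartAt I c).symm) = P ∘ (f ∘ (extChartAt I c).symm) := rfl
  ext ξ
  rw [locForm_apply, locForm_apply, h3,
    h2.fderivWithin (I.uniqueDiffOn _ (extChartAt_target_subset_range c hu))]
  rfl

omit [IsManifold I ∞ X] in
/-- Regularity at `x` only depends on the 1-forms near `x`. -/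
theorem isRegularIn_congr {p q : ℕ} {e : X → V} {v : Fin p → X → (V →L[ℝ] ℝ)}
    {w : Fin q → X → (V →L[ℝ] ℝ)} {e' : X → V'} {v' : Fin p → X → (V' →L[ℝ] ℝ)}
    {w' : Fin q → X → (V' →L[ℝ] ℝ)} {c x : X} {l : Fin p → ℝ} {m : Fin q → ℝ}
    (h1 : ∀ l, ∀ u ∈ (extChartAt I c).target,
      locForm I e' (comb v' l) c u = locForm I e (comb v l) c u)
    (h2 : ∀ m, ∀ u ∈ (extChartAt I c).target,
      locForm I e' (comb w' m) c u = locForm I e (comb w m) c u)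
    (h : IsRegularIn I e v w c x l m) : IsRegularIn I e' v' w' c x l m := by
  have hx' : x ∈ (extChartAt I c).source := by
    rw [extChartAt_source]
    exact h.1
  have hu : extChartAt I c x ∈ (extChartAt I c).target := (extChartAt I c).map_source hx'
  have h3 : (extChartAt I c).target ∈ 𝓝[range I] (extChartAt I c x) :=
    extChartAt_target_mem_nhdsWithin_of_mem hu
  have h4 : fderivWithin ℝ (locForm I e' (comb v' l) c) (range I) (extChartAt I c x) =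
      fderivWithin ℝ (locForm I e (comb v l) c) (range I) (extChartAt I c x) := by
    refine Filter.EventuallyEq.fderivWithin_eq ?_ (h1 l _ hu)
    filter_upwards [h3] with u hu' using h1 l u hu'
  have h5 : fderivWithin ℝ (locForm I e' (comb w' m) c) (range I) (extChartAt I c x) =
      fderivWithin ℝ (locForm I e (comb w m) c) (range I) (extChartAt I c x) := by
    refine Filter.EventuallyEq.fderivWithin_eq ?_ (h2 m _ hu)
    filter_upwards [h3] with u hu' using h2 m u hu'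
  refine ⟨h.1, fun f g => ?_⟩
  obtain ⟨ξ, l', m', h6⟩ := h.2 f g
  refine ⟨ξ, l', m', ?_⟩
  unfold dmap at h6 ⊢
  rw [h4, h5, h1 l' _ hu, h2 m' _ hu]
  exact h6

end Clm

/-- THEOREM W. `M` is a closed smooth 5-manifold, the boundary of a compact smooth 6-manifold
`W`; four and three 1-forms on `M` are given, all whose common zeros in `M × RP^3 × RP^2` are
regular. Then the number of these zeros is finite and even. -/
theorem theoremW {M : Type*} [TopologicalSpace M] [CompactSpace M]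
    [ChartedSpace (EuclideanSpace ℝ (Fin 5)) M] [IsManifold (𝓡 5) ∞ M]
    {W : Type*} [TopologicalSpace W] [T2Space W] [CompactSpace W]
    [ChartedSpace (EuclideanHalfSpace 6) W] [IsManifold (𝓡∂ 6) ∞ W] {j : M → W}
    (hj : ContMDiff (𝓡 5) (𝓡∂ 6) ∞ j) (hinj : Function.Injective j)
    (hd : ∀ y, Function.Injective (mfderiv (𝓡 5) (𝓡∂ 6) j y))
    (hr : range j = (𝓡∂ 6).boundary W) {V : Type*} [NormedAddCommGroup V]
    [NormedSpace ℝ V] [FiniteDimensional ℝ V] {e : M → V} (he : ContMDiff (𝓡 5) 𝓘(ℝ, V) ∞ e)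
    {v : Fin 4 → M → (V →L[ℝ] ℝ)} (hv : ∀ i, ContMDiff (𝓡 5) 𝓘(ℝ, V →L[ℝ] ℝ) ∞ (v i))
    {w : Fin 3 → M → (V →L[ℝ] ℝ)} (hw : ∀ i, ContMDiff (𝓡 5) 𝓘(ℝ, V →L[ℝ] ℝ) ∞ (w i))
    (hreg : ∀ y l m, IsZero (𝓡 5) e v w y l m → ∃ c, IsRegularIn (𝓡 5) e v w c y l m) :
    (zeroSet (𝓡 5) e v w).Finite ∧ Even (zeroSet (𝓡 5) e v w).ncard := by
  obtain ⟨et, het, hetj⟩ := exists_extension hj hinj hd hr he
  obtain ⟨ρ, hρ, -, hρ0, hρ1⟩ := exists_rho W
  obtain ⟨n, ι, hι, -, hdι⟩ := exists_embedding_euclidean_of_compact (I := 𝓡∂ 6) (M := W)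
  set P : V × (ℝ × EuclideanSpace ℝ (Fin n)) →L[ℝ] V := ContinuousLinearMap.fst ℝ _ _ with hP
  set R : V × (ℝ × EuclideanSpace ℝ (Fin n)) →L[ℝ] ℝ :=
    (ContinuousLinearMap.fst ℝ _ _).comp (ContinuousLinearMap.snd ℝ _ _) with hR
  set Q : V × (ℝ × EuclideanSpace ℝ (Fin n)) →L[ℝ] EuclideanSpace ℝ (Fin n) :=
    (ContinuousLinearMap.snd ℝ _ _).comp (ContinuousLinearMap.snd ℝ _ _) with hQ
  set E₀ : W → V × (ℝ × EuclideanSpace ℝ (Fin n)) := fun x => (et x, (ρ x, ι x)) with hE₀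
  have hE : ContMDiff (𝓡∂ 6) 𝓘(ℝ, V × (ℝ × EuclideanSpace ℝ (Fin n))) ∞ E₀ :=
    het.prodMk_space (hρ.prodMk_space hι)
  have hEj : ContMDiff (𝓡 5) 𝓘(ℝ, V × (ℝ × EuclideanSpace ℝ (Fin n))) ∞ (E₀ ∘ j) := hE.comp hj
  have hdE : ∀ x, Function.Injective
      (mfderiv (𝓡∂ 6) 𝓘(ℝ, V × (ℝ × EuclideanSpace ℝ (Fin n))) E₀ x) := by
    intro x ξ ξ' h
    have h1 := congrArg Q h
    have h2 := mfderiv_clm_comp (𝓡∂ 6) Q ((hE x).mdifferentiableAt (by simp)) ξ
    have h3 := mfderiv_clm_comp (𝓡∂ 6) Q ((hE x).mdifferentiableAt (by simp)) ξ'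
    exact hdι x (h2.trans (h1.trans h3.symm))
  -- the extensions of the forms
  have hext : ∀ f : M → (V →L[ℝ] ℝ), ContMDiff (𝓡 5) 𝓘(ℝ, V →L[ℝ] ℝ) ∞ f →
      ∃ g : W → (V × (ℝ × EuclideanSpace ℝ (Fin n)) →L[ℝ] ℝ),
        ContMDiff (𝓡∂ 6) 𝓘(ℝ, V × (ℝ × EuclideanSpace ℝ (Fin n)) →L[ℝ] ℝ) ∞ g ∧
        ∀ y, g (j y) = (f y).comp P := by
    intro f hf
    exact exists_extension hj hinj hd hr (f := fun y => (f y).comp P)
      (hf.clm_comp contMDiff_const)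
  choose gv hgv hgvj using fun i => hext (v i) (hv i)
  choose gw hgw hgwj using fun i => hext (w i) (hw i)
  obtain ⟨v', w', hv', hw', hvb, hwb, hregW⟩ := exists_regular (p := 5) (q := 4) (by norm_num)
    (by norm_num) hE hdE hρ hρ0
    (v := Fin.cons (fun _ => R) gv) (w := Fin.cons (fun _ => R) gw)
    (fun i => Fin.cases contMDiff_const hgv i) (fun i => Fin.cases contMDiff_const hgw i)
  have hr' : ∀ y, j y ∈ (𝓡∂ 6).boundary W := fun y => hr ▸ mem_range_self y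
  have hv'0 : ∀ y, v' 0 (j y) = R := fun y => hvb 0 _ (hr' y)
  have hw'0 : ∀ y, w' 0 (j y) = R := fun y => hwb 0 _ (hr' y)
  have hv'1 : (fun i : Fin 4 => v' i.succ ∘ j) = fun i y => (v i y).comp P := by
    funext i y
    exact (hvb i.succ _ (hr' y)).trans (hgvj i y)
  have hw'1 : (fun i : Fin 3 => w' i.succ ∘ j) = fun i y => (w i y).comp P := by
    funext i y
    exact (hwb i.succ _ (hr' y)).trans (hgwj i y)
  have hPE : (fun y => P ((E₀ ∘ j) y)) = e := by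
    funext y
    exact hetj y
  have hRE : (fun y => R ((E₀ ∘ j) y)) = fun _ => 0 := by
    funext y
    exact (hρ0 (j y)).2 (hr' y)
  have hR0 : ∀ u : M → (V × (ℝ × EuclideanSpace ℝ (Fin n)) →L[ℝ] ℝ), (∀ y, u y = R) →
      ∀ y, form (𝓡 5) (E₀ ∘ j) u y = 0 := by
    intro u hu y
    ext ξ
    rw [form_apply, hu]
    have h1 := mfderiv_clm_comp (𝓡 5) R ((hEj y).mdifferentiableAt (by simp)) ξ
    rw [hRE, mfderiv_const] at h1
    exact h1.symm
  have hR1 : ∀ u : W → (V × (ℝ × EuclideanSpace ℝ (Fin n)) →L[ℝ] ℝ), (∀ y, u (j y) = R) →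
      ∀ y, form (𝓡∂ 6) E₀ u (j y) ≠ 0 := by
    intro u hu y h
    apply hρ1 (j y) (hr' y)
    ext ξ
    have h1 := mfderiv_clm_comp (𝓡∂ 6) R ((hE (j y)).mdifferentiableAt (by simp)) ξ
    have h2 := congrArg (fun f : EuclideanSpace ℝ (Fin 6) →L[ℝ] ℝ => f ξ) h
    simp only [form_apply, hu] at h2
    exact h1.trans h2
  have hform : ∀ (p : ℕ) (u : Fin p → M → (V →L[ℝ] ℝ)) (l : Fin p → ℝ) (y : M),
      form (𝓡 5) (E₀ ∘ j) (comb (fun i y => (u i y).comp P) l) y = form (𝓡 5) e (comb u l) y := by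
    intro p u l y
    rw [comb_comp_clm, form_comp_clm (𝓡 5) P ((hEj y).mdifferentiableAt (by simp)), hPE]
  have hlocForm : ∀ (p : ℕ) (u : Fin p → M → (V →L[ℝ] ℝ)) (l : Fin p → ℝ) (c : M),
      ∀ a ∈ (extChartAt (𝓡 5) c).target,
      locForm (𝓡 5) (E₀ ∘ j) (comb (fun i y => (u i y).comp P) l) c a =
        locForm (𝓡 5) e (comb u l) c a := by
    intro p u l c a ha
    rw [comb_comp_clm, locForm_comp_clm (𝓡 5) P hEj _ ha, hPE]
  have hIs : ∀ y l m, IsZero (𝓡 5) (E₀ ∘ j) (fun i => v' (Fin.succ i) ∘ j)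
      (fun i => w' (Fin.succ i) ∘ j) y l m ↔ IsZero (𝓡 5) e v w y l m := by
    intro y l m
    unfold IsZero
    rw [hv'1, hw'1, hform, hform]
  have hzs : zeroSet (𝓡 5) (E₀ ∘ j) (fun i => v' (Fin.succ i) ∘ j)
      (fun i => w' (Fin.succ i) ∘ j) = zeroSet (𝓡 5) e v w := by
    unfold zeroSet
    simp only [hIs]
  have hnd : ∀ y l m, IsZero (𝓡 5) (E₀ ∘ j) (fun i => v' (Fin.succ i) ∘ j)
      (fun i => w' (Fin.succ i) ∘ j) y l m → ∃ c, IsRegularIn (𝓡 5) (E₀ ∘ j)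
        (fun i => v' (Fin.succ i) ∘ j) (fun i => w' (Fin.succ i) ∘ j) c y l m := by
    intro y l m h
    obtain ⟨c, hc⟩ := hreg y l m ((hIs y l m).1 h)
    refine ⟨c, ?_⟩
    rw [hv'1, hw'1]
    exact isRegularIn_congr (𝓡 5) (fun l => hlocForm 4 v l c) (fun m => hlocForm 3 w m c) hc
  have hv0 : ∀ y, form (𝓡 5) (E₀ ∘ j) (v' 0 ∘ j) y = 0 := hR0 _ hv'0
  have hw0 : ∀ y, form (𝓡 5) (E₀ ∘ j) (w' 0 ∘ j) y = 0 := hR0 _ hw'0
  have hv1 : ∀ y, form (𝓡∂ 6) E₀ (v' 0) (j y) ≠ 0 := hR1 _ hv'0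
  have hw1 : ∀ y, form (𝓡∂ 6) E₀ (w' 0) (j y) ≠ 0 := hR1 _ hw'0
  -- the space of zeros
  have hcomp : CompactSpace (zeroSet (𝓡∂ 6) E₀ v' w') :=
    isCompact_iff_compactSpace.1
      (isCompact_zeroSet (𝓡∂ 6) hE (fun i => (hv' i).continuous) fun i => (hw' i).continuous)
  have hclosed : IsClosed {z : zeroSet (𝓡∂ 6) E₀ v' w' | z.1.1 ∈ (𝓡∂ 6).boundary W} :=
    ((𝓡∂ 6).isClosed_boundary (n := ∞) (by simp)).preimage
      (continuous_fst.comp continuous_subtype_val)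
  have hpar := parity {z : zeroSet (𝓡∂ 6) E₀ v' w' | z.1.1 ∈ (𝓡∂ 6).boundary W} hclosed
    (by
      intro z hz
      obtain ⟨l, m, h1, h2, h3⟩ := z.2
      have hint : z.1.1 ∈ (𝓡∂ 6).interior W := by
        rw [← (𝓡∂ 6).compl_boundary]
        exact hz
      obtain ⟨c, hc⟩ := hregW _ hint l m h1
      exact arcAt_of_regular hE hv' hw' hint h1 hc z (Prod.ext rfl (Prod.ext h2 h3)))
    (by
      intro z hz
      obtain ⟨l, m, h1, h2, h3⟩ := z.2
      have hz' : z.1.1 ∈ range j := by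
        rw [hr]
        exact hz
      obtain ⟨y, hy⟩ := hz'
      rw [← hy] at h1
      have h4 := nondeg_transfer hj hd hr hE hv' hw' hv0 hw0 hv1 hw1 hnd h1
      obtain ⟨γ, h5, h6, h7⟩ := endAt_of_nondeg hE hv' hw' (hr' y) h1 h4 z
        (Prod.ext hy.symm (Prod.ext h2 h3))
      exact ⟨γ, h5, h6, h7⟩)
  obtain ⟨eq⟩ := zeroSet_boundary_equiv hj hinj hd hr hE hv0 hw0 hv1 hw1
  rw [hzs] at eq
  constructor
  · have h1 : Finite {z : zeroSet (𝓡∂ 6) E₀ v' w' // z.1.1 ∈ (𝓡∂ 6).boundary W} := hpar.1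
    exact Set.finite_coe_iff.1 (Finite.of_equiv _ eq)
  · have h1 := Nat.card_congr eq
    have h2 : Nat.card {z : zeroSet (𝓡∂ 6) E₀ v' w' // z.1.1 ∈ (𝓡∂ 6).boundary W} =
        {z : zeroSet (𝓡∂ 6) E₀ v' w' | z.1.1 ∈ (𝓡∂ 6).boundary W}.ncard := rfl
    have h3 : Nat.card (zeroSet (𝓡 5) e v w) = (zeroSet (𝓡 5) e v w).ncard := rfl
    rw [← h3, ← h1, h2]
    exact hpar.2

end Pool.Agent.MP_f1864b_gt
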