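import Pool.Agent.Lib.MP_f1864b_gt.TheoremC
import Pool.Agent.Lib.MP_f1864b_gt.G.Final
import Pool.Agent.Lib.MP_f1864b_gt.Num.Lattice

set_option autoImplicit false

namespace Pool.Agent.Dold

open scoped Manifold ContDiff Topology

universe v

theorem geometry : ∃ (M : Type) (_ : TopologicalSpace M) (_ : ChartedSpace R5 M)
    (_ : IsManifold (𝓡 5) ∞ M) (_ : CompactSpace M) (_ : T2Space M) (_ : ConnectedSpace M),
    OrientableManifold 5 M ∧ Aspherical M ∧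
      (∀ x : M, Subgroup.center (FundamentalGroup M x) ≠ ⊥) ∧
      ∃ τ : M → M, ContMDiff (𝓡 5) (𝓡 5) ∞ τ ∧ (∀ p, τ (τ p) = p) ∧
        (∀ p, τ p = p → ∀ S : Submodule ℝ R5, (∀ v ∈ S, dAt τ p v = v) →
          Module.finrank ℝ S ≤ 2) ∧ ((isoFix τ).Finite → Odd (isoFix τ).ncard) := by
  obtain ⟨Γ, hΓ⟩ := Pool.Agent.MP_f1864b_gt.Num.exists_latticeData
  exact Pool.Agent.MP_f1864b_gt.geometry_of_latticeData hΓ

theorem exists_nonbounding : ∃ (M : Type) (_ : TopologicalSpace M)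
    (_ : ChartedSpace (EuclideanSpace ℝ (Fin 5)) M)
    (_ : IsManifold (𝓡 5) ∞ M) (_ : CompactSpace M) (_ : T2Space M) (_ : ConnectedSpace M),
    OrientableManifold 5 M ∧ Aspherical M ∧
      (∀ x : M, Subgroup.center (FundamentalGroup M x) ≠ ⊥) ∧ ¬ BoundsSmooth.{0, v} 5 M := by
  obtain ⟨M, i1, i2, i3, i4, i5, i6, hO, hA, hC, τ, h1, h2, h3, h4⟩ := geometry
  refine ⟨M, i1, i2, i3, i4, i5, i6, hO, hA, hC, fun hB => ?_⟩
  obtain ⟨hf, he⟩ := theoremC τ h1 h2 h3 hB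
  exact Nat.not_even_iff_odd.mpr (h4 hf) he

end Pool.Agent.Dold
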