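import Mathlib
import Pool.Agent.Lib.MP_f1864b_gt.WReg

/-!
# Regularity of the zeros for generic parameters: the strata and the theorem
-/

set_option maxSynthPendingDepth 3
set_option linter.unusedSectionVars false

namespace Pool.Agent.MP_f1864b_gt

open Set Filter Topology Module
open scoped ENNReal ContDiff

variable {A E Λ₁ Λ₂ : Type*} [NormedAddCommGroup A] [NormedSpace ℝ A] [FiniteDimensional ℝ A]
  [NormedAddCommGroup E] [NormedSpace ℝ E] [FiniteDimensional ℝ E]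
  [NormedAddCommGroup Λ₁] [NormedSpace ℝ Λ₁] [FiniteDimensional ℝ Λ₁]
  [NormedAddCommGroup Λ₂] [NormedSpace ℝ Λ₂] [FiniteDimensional ℝ Λ₂]

section Strata

variable {U : Set E} {j₀ : E → Jet E Λ₁ Λ₂} {j₁ : E → A →L[ℝ] Jet E Λ₁ Λ₂}

/-- Annihilator `(x, y)` with `x, y ≠ 0`. -/
lemma dimH_full (hU : IsOpen U) (h0 : ContDiffOn ℝ 1 j₀ U) (h1 : ContDiffOn ℝ 1 j₁ U)
    (hs : ∀ u ∈ U, Function.Surjective (j₁ u)) (p : Λ₁ →L[ℝ] ℝ) (q : Λ₂ →L[ℝ] ℝ)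
    (r : E →L[ℝ] ℝ) {l₀ : Λ₁} {m₀ : Λ₂} {x₀ : E} (hl : p l₀ = 1) (hm : q m₀ = 1)
    (hx : r x₀ = 1) :
    dimH {a : A | ∃ u ∈ U, ∃ l m x y, p l = 1 ∧ q m = 1 ∧ r x = 1 ∧ y ≠ 0 ∧
      (j₀ u + j₁ u a).1 l = 0 ∧ (j₀ u + j₁ u a).2.2.1 m = 0 ∧ Annih (j₀ u + j₁ u a) l m x y} ≤
      ((finrank ℝ A - 1 : ℕ) : ℝ≥0∞) := by
  set K₁ := LinearMap.ker p.toLinearMap with hK₁
  set K₂ := LinearMap.ker q.toLinearMap with hK₂
  set K₃ := LinearMap.ker r.toLinearMap with hK₃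
  set V : Set (E × K₁ × K₂ × K₃ × E) := {v | v.1 ∈ U ∧ v.2.2.2.2 ≠ 0} with hV
  have hVo : IsOpen V := (hU.preimage continuous_fst).inter
    (isOpen_ne_fun (by fun_prop) continuous_const)
  set Φ : E × K₁ × K₂ × K₃ × E → Jet E Λ₁ Λ₂ →L[ℝ] _ := fun v =>
    condFull K₁ K₂ (l₀ + v.2.1) (m₀ + v.2.2.1) (x₀ + v.2.2.2.1) v.2.2.2.2 with hΦ
  have c1 : ContDiff ℝ 1 (fun v : E × K₁ × K₂ × K₃ × E => l₀ + (v.2.1 : Λ₁)) :=
    contDiff_const.add (K₁.subtypeL.contDiff.comp (by fun_prop))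
  have c2 : ContDiff ℝ 1 (fun v : E × K₁ × K₂ × K₃ × E => m₀ + (v.2.2.1 : Λ₂)) :=
    contDiff_const.add (K₂.subtypeL.contDiff.comp (by fun_prop))
  have c3 : ContDiff ℝ 1 (fun v : E × K₁ × K₂ × K₃ × E => x₀ + (v.2.2.2.1 : E)) :=
    contDiff_const.add (K₃.subtypeL.contDiff.comp (by fun_prop))
  have c4 : ContDiff ℝ 1 (fun v : E × K₁ × K₂ × K₃ × E => v.2.2.2.2) := by fun_prop
  have hΦc : ContDiff ℝ 1 Φ := contDiff_condFull K₁ K₂ c1 c2 c3 c4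
  have k1 := finrank_ker_eq hl
  have k2 := finrank_ker_eq hm
  have k3 := finrank_ker_eq hx
  rw [← hK₁] at k1
  rw [← hK₂] at k2
  rw [← hK₃] at k3
  have hdim : finrank ℝ (E × K₁ × K₂ × K₃ × E) <
      finrank ℝ ((E →L[ℝ] ℝ) × (E →L[ℝ] ℝ) × (K₁ →L[ℝ] ℝ) × (K₂ →L[ℝ] ℝ) × (E →L[ℝ] ℝ)) := by
    simp only [finrank_prod, finrank_clm]
    omega
  refine (dimH_mono ?_).trans (dimH_stratum h0 h1 hs hVo (up := Prod.fst) contDiff_fst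
    (fun v hv => hv.1) hΦc ?_ hdim)
  · rintro a ⟨u, hu, l, m, x, y, hpl, hqm, hrx, hy, z1, z2, a1, a2, a3⟩
    have m1 : l - l₀ ∈ K₁ := by rw [hK₁, LinearMap.mem_ker]; simp [hpl, hl]
    have m2 : m - m₀ ∈ K₂ := by rw [hK₂, LinearMap.mem_ker]; simp [hqm, hm]
    have m3 : x - x₀ ∈ K₃ := by rw [hK₃, LinearMap.mem_ker]; simp [hrx, hx]
    refine ⟨(u, ⟨l - l₀, m1⟩, ⟨m - m₀, m2⟩, ⟨x - x₀, m3⟩, y), ⟨hu, hy⟩, ?_⟩
    change condFull K₁ K₂ (l₀ + (l - l₀)) (m₀ + (m - m₀)) (x₀ + (x - x₀)) y (j₀ u + j₁ u a) = 0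
    rw [add_sub_cancel, add_sub_cancel, add_sub_cancel, condFull_apply]
    refine Prod.ext z1 (Prod.ext z2 (Prod.ext ?_ (Prod.ext ?_ ?_)))
    · ext v; exact a1 v
    · ext v; exact a2 v
    · ext v; exact a3 v
  · rintro ⟨u, l', m', x', y⟩ ⟨hu, hy⟩
    have hl' : p (l' : Λ₁) = 0 := l'.2
    have hm' : q (m' : Λ₂) = 0 := m'.2
    have hx' : r (x' : E) = 0 := x'.2
    exact condFull_surjective p q r (by simp [hl, hl']) (by simp [hm, hm']) (by simp [hx, hx']) hy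

/-- Annihilator `(x, 0)` with `x ≠ 0`. -/
lemma dimH_left (hU : IsOpen U) (h0 : ContDiffOn ℝ 1 j₀ U) (h1 : ContDiffOn ℝ 1 j₁ U)
    (hs : ∀ u ∈ U, Function.Surjective (j₁ u)) (p : Λ₁ →L[ℝ] ℝ) (q : Λ₂ →L[ℝ] ℝ)
    (r : E →L[ℝ] ℝ) {l₀ : Λ₁} {m₀ : Λ₂} {x₀ : E} (hl : p l₀ = 1) (hm : q m₀ = 1)
    (hx : r x₀ = 1) (hdim : finrank ℝ Λ₂ < finrank ℝ E + 2) :
    dimH {a : A | ∃ u ∈ U, ∃ l m x, p l = 1 ∧ q m = 1 ∧ r x = 1 ∧
      (j₀ u + j₁ u a).1 l = 0 ∧ (j₀ u + j₁ u a).2.2.1 m = 0 ∧ Annih (j₀ u + j₁ u a) l m x 0} ≤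
      ((finrank ℝ A - 1 : ℕ) : ℝ≥0∞) := by
  set K₁ := LinearMap.ker p.toLinearMap with hK₁
  set K₂ := LinearMap.ker q.toLinearMap with hK₂
  set K₃ := LinearMap.ker r.toLinearMap with hK₃
  set V : Set (E × K₁ × K₂ × K₃) := {v | v.1 ∈ U} with hV
  have hVo : IsOpen V := hU.preimage continuous_fst
  set Φ : E × K₁ × K₂ × K₃ → Jet E Λ₁ Λ₂ →L[ℝ] _ := fun v =>
    condLeft K₁ (l₀ + v.2.1) (m₀ + v.2.2.1) (x₀ + v.2.2.2) with hΦ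
  have c1 : ContDiff ℝ 1 (fun v : E × K₁ × K₂ × K₃ => l₀ + (v.2.1 : Λ₁)) :=
    contDiff_const.add (K₁.subtypeL.contDiff.comp (by fun_prop))
  have c2 : ContDiff ℝ 1 (fun v : E × K₁ × K₂ × K₃ => m₀ + (v.2.2.1 : Λ₂)) :=
    contDiff_const.add (K₂.subtypeL.contDiff.comp (by fun_prop))
  have c3 : ContDiff ℝ 1 (fun v : E × K₁ × K₂ × K₃ => x₀ + (v.2.2.2 : E)) :=
    contDiff_const.add (K₃.subtypeL.contDiff.comp (by fun_prop))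
  have hΦc : ContDiff ℝ 1 Φ := contDiff_condLeft K₁ c1 c2 c3
  have k1 := finrank_ker_eq hl
  have k2 := finrank_ker_eq hm
  have k3 := finrank_ker_eq hx
  rw [← hK₁] at k1
  rw [← hK₂] at k2
  rw [← hK₃] at k3
  have hdim : finrank ℝ (E × K₁ × K₂ × K₃) <
      finrank ℝ ((E →L[ℝ] ℝ) × (E →L[ℝ] ℝ) × (K₁ →L[ℝ] ℝ) × (E →L[ℝ] ℝ)) := by
    simp only [finrank_prod, finrank_clm]
    omega
  refine (dimH_mono ?_).trans (dimH_stratum h0 h1 hs hVo (up := Prod.fst) contDiff_fst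
    (fun v hv => hv) hΦc ?_ hdim)
  · rintro a ⟨u, hu, l, m, x, hpl, hqm, hrx, z1, z2, a1, a2, a3⟩
    have m1 : l - l₀ ∈ K₁ := by rw [hK₁, LinearMap.mem_ker]; simp [hpl, hl]
    have m2 : m - m₀ ∈ K₂ := by rw [hK₂, LinearMap.mem_ker]; simp [hqm, hm]
    have m3 : x - x₀ ∈ K₃ := by rw [hK₃, LinearMap.mem_ker]; simp [hrx, hx]
    refine ⟨(u, ⟨l - l₀, m1⟩, ⟨m - m₀, m2⟩, ⟨x - x₀, m3⟩), hu, ?_⟩
    change condLeft K₁ (l₀ + (l - l₀)) (m₀ + (m - m₀)) (x₀ + (x - x₀)) (j₀ u + j₁ u a) = 0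
    rw [add_sub_cancel, add_sub_cancel, add_sub_cancel, condLeft_apply]
    refine Prod.ext z1 (Prod.ext z2 (Prod.ext ?_ ?_))
    · ext v; exact a1 v
    · ext v
      have := a3 v
      rw [map_zero, add_zero] at this
      exact this
  · rintro ⟨u, l', m', x'⟩ hu
    have hl' : p (l' : Λ₁) = 0 := l'.2
    have hm' : q (m' : Λ₂) = 0 := m'.2
    have hx' : r (x' : E) = 0 := x'.2
    exact condLeft_surjective p q r (by simp [hl, hl']) (by simp [hm, hm']) (by simp [hx, hx'])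

/-- Annihilator `(0, y)` with `y ≠ 0`. -/
lemma dimH_right (hU : IsOpen U) (h0 : ContDiffOn ℝ 1 j₀ U) (h1 : ContDiffOn ℝ 1 j₁ U)
    (hs : ∀ u ∈ U, Function.Surjective (j₁ u)) (p : Λ₁ →L[ℝ] ℝ) (q : Λ₂ →L[ℝ] ℝ)
    (r : E →L[ℝ] ℝ) {l₀ : Λ₁} {m₀ : Λ₂} {x₀ : E} (hl : p l₀ = 1) (hm : q m₀ = 1)
    (hx : r x₀ = 1) (hdim : finrank ℝ Λ₁ < finrank ℝ E + 2) :
    dimH {a : A | ∃ u ∈ U, ∃ l m y, p l = 1 ∧ q m = 1 ∧ r y = 1 ∧
      (j₀ u + j₁ u a).1 l = 0 ∧ (j₀ u + j₁ u a).2.2.1 m = 0 ∧ Annih (j₀ u + j₁ u a) l m 0 y} ≤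
      ((finrank ℝ A - 1 : ℕ) : ℝ≥0∞) := by
  set K₁ := LinearMap.ker p.toLinearMap with hK₁
  set K₂ := LinearMap.ker q.toLinearMap with hK₂
  set K₃ := LinearMap.ker r.toLinearMap with hK₃
  set V : Set (E × K₁ × K₂ × K₃) := {v | v.1 ∈ U} with hV
  have hVo : IsOpen V := hU.preimage continuous_fst
  set Φ : E × K₁ × K₂ × K₃ → Jet E Λ₁ Λ₂ →L[ℝ] _ := fun v =>
    condRight K₂ (l₀ + v.2.1) (m₀ + v.2.2.1) (x₀ + v.2.2.2) with hΦ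
  have c1 : ContDiff ℝ 1 (fun v : E × K₁ × K₂ × K₃ => l₀ + (v.2.1 : Λ₁)) :=
    contDiff_const.add (K₁.subtypeL.contDiff.comp (by fun_prop))
  have c2 : ContDiff ℝ 1 (fun v : E × K₁ × K₂ × K₃ => m₀ + (v.2.2.1 : Λ₂)) :=
    contDiff_const.add (K₂.subtypeL.contDiff.comp (by fun_prop))
  have c3 : ContDiff ℝ 1 (fun v : E × K₁ × K₂ × K₃ => x₀ + (v.2.2.2 : E)) :=
    contDiff_const.add (K₃.subtypeL.contDiff.comp (by fun_prop))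
  have hΦc : ContDiff ℝ 1 Φ := contDiff_condRight K₂ c1 c2 c3
  have k1 := finrank_ker_eq hl
  have k2 := finrank_ker_eq hm
  have k3 := finrank_ker_eq hx
  rw [← hK₁] at k1
  rw [← hK₂] at k2
  rw [← hK₃] at k3
  have hdim : finrank ℝ (E × K₁ × K₂ × K₃) <
      finrank ℝ ((E →L[ℝ] ℝ) × (E →L[ℝ] ℝ) × (K₂ →L[ℝ] ℝ) × (E →L[ℝ] ℝ)) := by
    simp only [finrank_prod, finrank_clm]
    omega
  refine (dimH_mono ?_).trans (dimH_stratum h0 h1 hs hVo (up := Prod.fst) contDiff_fst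
    (fun v hv => hv) hΦc ?_ hdim)
  · rintro a ⟨u, hu, l, m, x, hpl, hqm, hrx, z1, z2, a1, a2, a3⟩
    have m1 : l - l₀ ∈ K₁ := by rw [hK₁, LinearMap.mem_ker]; simp [hpl, hl]
    have m2 : m - m₀ ∈ K₂ := by rw [hK₂, LinearMap.mem_ker]; simp [hqm, hm]
    have m3 : x - x₀ ∈ K₃ := by rw [hK₃, LinearMap.mem_ker]; simp [hrx, hx]
    refine ⟨(u, ⟨l - l₀, m1⟩, ⟨m - m₀, m2⟩, ⟨x - x₀, m3⟩), hu, ?_⟩
    change condRight K₂ (l₀ + (l - l₀)) (m₀ + (m - m₀)) (x₀ + (x - x₀)) (j₀ u + j₁ u a) = 0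
    rw [add_sub_cancel, add_sub_cancel, add_sub_cancel, condRight_apply]
    refine Prod.ext z1 (Prod.ext z2 (Prod.ext ?_ ?_))
    · ext v; exact a2 v
    · ext v
      have := a3 v
      rw [map_zero, zero_add] at this
      exact this
  · rintro ⟨u, l', m', x'⟩ hu
    have hl' : p (l' : Λ₁) = 0 := l'.2
    have hm' : q (m' : Λ₂) = 0 := m'.2
    have hx' : r (x' : E) = 0 := x'.2
    exact condRight_surjective p q r (by simp [hl, hl']) (by simp [hm, hm']) (by simp [hx, hx'])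

end Strata

/-- A coordinate functional which does not vanish at a given vector, out of finitely many. -/
lemma exists_coord (Λ : Type*) [NormedAddCommGroup Λ] [NormedSpace ℝ Λ] [FiniteDimensional ℝ Λ] :
    ∃ (p : Fin (finrank ℝ Λ) → Λ →L[ℝ] ℝ) (b : Fin (finrank ℝ Λ) → Λ), (∀ i, p i (b i) = 1) ∧
      ∀ l : Λ, l ≠ 0 → ∃ i, p i l ≠ 0 := by
  set b := finBasis ℝ Λ with hb
  refine ⟨fun i => LinearMap.toContinuousLinearMap (b.coord i), b, ?_, ?_⟩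
  · intro i
    simp
  · intro l hl
    by_contra hcon
    push Not at hcon
    apply hl
    apply b.ext_elem
    intro i
    have := hcon i
    simpa using this

/-- Scaling of `Annih`. -/
lemma Annih.scale {j : Jet E Λ₁ Λ₂} {l : Λ₁} {m : Λ₂} {x y : E} (h : Annih j l m x y) {c d : ℝ}
    (hc : c ≠ 0) (hd : d ≠ 0) (e : ℝ) : Annih j (c • l) (d • m) ((e * c⁻¹) • x) ((e * d⁻¹) • y) := by
  obtain ⟨h1, h2, h3⟩ := h
  refine ⟨fun l' => ?_, fun m' => ?_, fun ξ => ?_⟩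
  · rw [map_smul, h1, smul_zero]
  · rw [map_smul, h2, smul_zero]
  · have := h3 ξ
    simp only [map_smul, smul_apply, smul_eq_mul]
    have e1 : e * c⁻¹ * (c * j.2.1 ξ l x) = e * j.2.1 ξ l x := by field_simp
    have e2 : e * d⁻¹ * (d * j.2.2.2 ξ m y) = e * j.2.2.2 ξ m y := by field_simp
    rw [e1, e2, ← mul_add, this, mul_zero]

/-- **Regularity for generic parameters.** -/
theorem dimH_badJet {U : Set E} {j₀ : E → Jet E Λ₁ Λ₂} {j₁ : E → A →L[ℝ] Jet E Λ₁ Λ₂}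
    (hU : IsOpen U) (h0 : ContDiffOn ℝ 1 j₀ U) (h1 : ContDiffOn ℝ 1 j₁ U)
    (hs : ∀ u ∈ U, Function.Surjective (j₁ u)) (hd1 : finrank ℝ Λ₁ < finrank ℝ E + 2)
    (hd2 : finrank ℝ Λ₂ < finrank ℝ E + 2) :
    dimH {a : A | ∃ u ∈ U, BadJet (j₀ u + j₁ u a)} ≤ ((finrank ℝ A - 1 : ℕ) : ℝ≥0∞) := by
  obtain ⟨p, b₁, hp, hp'⟩ := exists_coord Λ₁
  obtain ⟨q, b₂, hq, hq'⟩ := exists_coord Λ₂
  obtain ⟨r, b₃, hr, hr'⟩ := exists_coord E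
  have hsub : {a : A | ∃ u ∈ U, BadJet (j₀ u + j₁ u a)} ⊆
      ⋃ (i : Fin (finrank ℝ Λ₁)) (k : Fin (finrank ℝ Λ₂)) (n : Fin (finrank ℝ E)),
        ({a : A | ∃ u ∈ U, ∃ l m x y, p i l = 1 ∧ q k m = 1 ∧ r n x = 1 ∧ y ≠ 0 ∧
          (j₀ u + j₁ u a).1 l = 0 ∧ (j₀ u + j₁ u a).2.2.1 m = 0 ∧
            Annih (j₀ u + j₁ u a) l m x y} ∪
        ({a : A | ∃ u ∈ U, ∃ l m x, p i l = 1 ∧ q k m = 1 ∧ r n x = 1 ∧
          (j₀ u + j₁ u a).1 l = 0 ∧ (j₀ u + j₁ u a).2.2.1 m = 0 ∧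
            Annih (j₀ u + j₁ u a) l m x 0} ∪
        {a : A | ∃ u ∈ U, ∃ l m y, p i l = 1 ∧ q k m = 1 ∧ r n y = 1 ∧
          (j₀ u + j₁ u a).1 l = 0 ∧ (j₀ u + j₁ u a).2.2.1 m = 0 ∧
            Annih (j₀ u + j₁ u a) l m 0 y})) := by
    rintro a ⟨u, hu, l, hl, m, hm, z1, z2, x, y, hxy, han⟩
    obtain ⟨i, hi⟩ := hp' l hl
    obtain ⟨k, hk⟩ := hq' m hm
    have s1 : p i ((p i l)⁻¹ • l) = 1 := by simp [hi]
    have s2 : q k ((q k m)⁻¹ • m) = 1 := by simp [hk]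
    have t1 : (j₀ u + j₁ u a).1 ((p i l)⁻¹ • l) = 0 := by rw [map_smul, z1, smul_zero]
    have t2 : (j₀ u + j₁ u a).2.2.1 ((q k m)⁻¹ • m) = 0 := by rw [map_smul, z2, smul_zero]
    have hc : (p i l)⁻¹ ≠ 0 := inv_ne_zero hi
    have hd : (q k m)⁻¹ ≠ 0 := inv_ne_zero hk
    simp only [mem_iUnion, mem_union]
    by_cases hx : x = 0
    · have hy : y ≠ 0 := fun h => hxy ⟨hx, h⟩
      obtain ⟨n, hn⟩ := hr' y hy
      refine ⟨i, k, n, Or.inr (Or.inr ⟨u, hu, _, _, ((r n y)⁻¹ • y), s1, s2, by simp [hn], t1, t2,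
        ?_⟩)⟩
      have h2 := han.scale hc hd ((r n y)⁻¹ * (q k m)⁻¹)
      have e1 : ((r n y)⁻¹ * (q k m)⁻¹ * ((q k m)⁻¹)⁻¹) = (r n y)⁻¹ := by field_simp
      rw [hx, smul_zero, e1] at h2
      exact h2
    · obtain ⟨n, hn⟩ := hr' x hx
      have h2 := han.scale hc hd ((r n x)⁻¹ * (p i l)⁻¹)
      have e1 : ((r n x)⁻¹ * (p i l)⁻¹ * ((p i l)⁻¹)⁻¹) = (r n x)⁻¹ := by field_simp
      rw [e1] at h2
      by_cases hy : y = 0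
      · rw [hy, smul_zero] at h2
        exact ⟨i, k, n, Or.inr (Or.inl ⟨u, hu, _, _, ((r n x)⁻¹ • x), s1, s2, by simp [hn], t1, t2,
          h2⟩)⟩
      · refine ⟨i, k, n, Or.inl ⟨u, hu, _, _, ((r n x)⁻¹ • x), _, s1, s2, by simp [hn], ?_, t1, t2,
          h2⟩⟩
        exact smul_ne_zero (by
          refine mul_ne_zero (mul_ne_zero (inv_ne_zero hn) hc) (inv_ne_zero hd)) hy
  refine (dimH_mono hsub).trans ?_
  rw [dimH_iUnion]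
  refine iSup_le fun i => ?_
  rw [dimH_iUnion]
  refine iSup_le fun k => ?_
  rw [dimH_iUnion]
  refine iSup_le fun n => ?_
  rw [dimH_union, dimH_union]
  exact max_le (dimH_full hU h0 h1 hs (p i) (q k) (r n) (hp i) (hq k) (hr n))
    (max_le (dimH_left hU h0 h1 hs (p i) (q k) (r n) (hp i) (hq k) (hr n) hd2)
      (dimH_right hU h0 h1 hs (p i) (q k) (r n) (hp i) (hq k) (hr n) hd1))

end Pool.Agent.MP_f1864b_gt
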