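import Pool.Agent.Lib.MP_f1864b_gt.Form

set_option autoImplicit false

/-!
# The zero set is compact
-/

namespace Pool.Agent.MP_f1864b_gt

open scoped Manifold ContDiff Topology Matrix
open Set Topology Module

section Zero

variable {E : Type*} [NormedAddCommGroup E] [NormedSpace ℝ E]
  {H : Type*} [TopologicalSpace H] (I : ModelWithCorners ℝ E H)
  {X : Type*} [TopologicalSpace X] [ChartedSpace H X] [IsManifold I ∞ X]
  {V : Type*} [NormedAddCommGroup V] [NormedSpace ℝ V]

theorem continuousOn_fderivWithin_chart {e : X → V} (he : ContMDiff I 𝓘(ℝ, V) ∞ e) (c : X) :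
    ContinuousOn (fun u => fderivWithin ℝ (e ∘ (extChartAt I c).symm) (range I) u)
      (extChartAt I c).target := by
  have hu : UniqueDiffOn ℝ (extChartAt I c).target := uniqueDiffOn_extChartAt_target c
  have h1 := contDiffOn_comp_symm I he c
  have h3 : ContDiffOn ℝ ∞ (fderivWithin ℝ (e ∘ (extChartAt I c).symm) (extChartAt I c).target)
      (extChartAt I c).target := h1.fderivWithin hu (by simp)
  refine h3.continuousOn.congr fun u hu' => ?_
  exact fderivWithin_of_mem_nhdsWithin (extChartAt_target_mem_nhdsWithin_of_mem hu')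
    (I.uniqueDiffOn _ (extChartAt_target_subset_range c hu'))
    ((h1 u hu').differentiableWithinAt (by simp))

theorem continuousOn_locForm_comb {p : ℕ} {e : X → V} (he : ContMDiff I 𝓘(ℝ, V) ∞ e)
    {v : Fin p → X → (V →L[ℝ] ℝ)} (hv : ∀ i, Continuous (v i)) (c : X) :
    ContinuousOn (fun z : X × (Fin p → ℝ) => locForm I e (comb v z.2) c (extChartAt I c z.1))
      ((chartAt H c).source ×ˢ univ) := by
  have h1 : ContinuousOn (fun z : X × (Fin p → ℝ) => (comb v z.2 z.1).comp
      (fderivWithin ℝ (e ∘ (extChartAt I c).symm) (range I) (extChartAt I c z.1)))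
      ((chartAt H c).source ×ˢ univ) := by
    refine ContinuousOn.clm_comp (continuous_comb hv).continuousOn ?_
    refine (continuousOn_fderivWithin_chart I he c).comp
      ((continuousOn_extChartAt c).comp continuousOn_fst ?_) ?_
    · intro z hz
      rw [extChartAt_source]
      exact hz.1
    · intro z hz
      refine (extChartAt I c).map_source ?_
      rw [extChartAt_source]
      exact hz.1
  refine h1.congr fun z hz => ?_
  have h2 : z.1 ∈ (extChartAt I c).source := by
    rw [extChartAt_source]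
    exact hz.1
  ext ξ
  rw [locForm_apply, (extChartAt I c).left_inv h2]
  rfl

theorem isClosed_form_comb {p : ℕ} {e : X → V} (he : ContMDiff I 𝓘(ℝ, V) ∞ e)
    {v : Fin p → X → (V →L[ℝ] ℝ)} (hv : ∀ i, Continuous (v i)) :
    IsClosed {z : X × (Fin p → ℝ) | form I e (comb v z.2) z.1 = 0} := by
  rw [← isOpen_compl_iff, isOpen_iff_mem_nhds]
  intro z hz
  have h1 : (chartAt H z.1).source ×ˢ (univ : Set (Fin p → ℝ)) ∈ 𝓝 z :=
    prod_mem_nhds (chart_source_mem_nhds H z.1) Filter.univ_mem
  have h2 : ContinuousAt (fun y : X × (Fin p → ℝ) =>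
      locForm I e (comb v y.2) z.1 (extChartAt I z.1 y.1)) z :=
    (continuousOn_locForm_comb I he hv z.1).continuousAt h1
  have h3 : locForm I e (comb v z.2) z.1 (extChartAt I z.1 z.1) ≠ 0 := by
    intro h
    exact hz ((locForm_eq_zero_iff I he (comb v z.2) z.1 z.1 (mem_chart_source H z.1)).1 h)
  filter_upwards [h1, h2.eventually_ne h3] with y hy1 hy2 hy3
  exact hy2 ((locForm_eq_zero_iff I he (comb v y.2) z.1 y.1 hy1.1).2 hy3)

theorem isCompact_dot_sphere (p : ℕ) : IsCompact {l : Fin p → ℝ | l ⬝ᵥ l = 1} := by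
  refine Metric.isCompact_of_isClosed_isBounded ?_ ?_
  · exact isClosed_eq (Continuous.dotProduct continuous_id continuous_id) continuous_const
  · refine (Metric.isBounded_closedBall (x := (0 : Fin p → ℝ)) (r := 1)).subset fun l hl => ?_
    rw [mem_closedBall_zero_iff, pi_norm_le_iff_of_nonneg zero_le_one]
    intro i
    have h1 : l i * l i ≤ ∑ k, l k * l k :=
      Finset.single_le_sum (f := fun k => l k * l k) (fun k _ => mul_self_nonneg _)
        (Finset.mem_univ i)
    have h2 : ∑ k, l k * l k = 1 := hl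
    rw [Real.norm_eq_abs, abs_le_one_iff_mul_self_le_one]
    linarith

theorem isCompact_isZero [CompactSpace X] {p q : ℕ} {e : X → V} (he : ContMDiff I 𝓘(ℝ, V) ∞ e)
    {v : Fin p → X → (V →L[ℝ] ℝ)} (hv : ∀ i, Continuous (v i))
    {w : Fin q → X → (V →L[ℝ] ℝ)} (hw : ∀ j, Continuous (w j)) :
    IsCompact {z : X × (Fin p → ℝ) × (Fin q → ℝ) | IsZero I e v w z.1 z.2.1 z.2.2} := by
  have h1 : IsCompact ((univ : Set X) ×ˢ ({l : Fin p → ℝ | l ⬝ᵥ l = 1} ×ˢ
      {m : Fin q → ℝ | m ⬝ᵥ m = 1})) :=
    isCompact_univ.prod ((isCompact_dot_sphere p).prod (isCompact_dot_sphere q))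
  have h2 : IsClosed {z : X × (Fin p → ℝ) × (Fin q → ℝ) | form I e (comb v z.2.1) z.1 = 0} :=
    (isClosed_form_comb I he hv).preimage
      (continuous_fst.prodMk (continuous_fst.comp continuous_snd))
  have h3 : IsClosed {z : X × (Fin p → ℝ) × (Fin q → ℝ) | form I e (comb w z.2.2) z.1 = 0} :=
    (isClosed_form_comb I he hw).preimage
      (continuous_fst.prodMk (continuous_snd.comp continuous_snd))
  refine (h1.inter_right (h2.inter h3)).of_isClosed_subset ?_ ?_
  · have h4 : IsClosed {z : X × (Fin p → ℝ) × (Fin q → ℝ) | z.2.1 ⬝ᵥ z.2.1 = 1} :=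
      isClosed_eq (Continuous.dotProduct (continuous_fst.comp continuous_snd)
        (continuous_fst.comp continuous_snd)) continuous_const
    have h5 : IsClosed {z : X × (Fin p → ℝ) × (Fin q → ℝ) | z.2.2 ⬝ᵥ z.2.2 = 1} :=
      isClosed_eq (Continuous.dotProduct (continuous_snd.comp continuous_snd)
        (continuous_snd.comp continuous_snd)) continuous_const
    exact h4.inter (h5.inter (h2.inter h3))
  · intro z hz
    exact ⟨⟨mem_univ _, hz.1, hz.2.1⟩, hz.2.2⟩

theorem isCompact_zeroSet [CompactSpace X] {p q : ℕ} {e : X → V}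
    (he : ContMDiff I 𝓘(ℝ, V) ∞ e)
    {v : Fin p → X → (V →L[ℝ] ℝ)} (hv : ∀ i, Continuous (v i))
    {w : Fin q → X → (V →L[ℝ] ℝ)} (hw : ∀ j, Continuous (w j)) :
    IsCompact (zeroSet I e v w) := by
  have h : zeroSet I e v w =
      (fun z : X × (Fin p → ℝ) × (Fin q → ℝ) =>
        ((z.1, Matrix.vecMulVec z.2.1 z.2.1, Matrix.vecMulVec z.2.2 z.2.2) :
          X × Matrix (Fin p) (Fin p) ℝ × Matrix (Fin q) (Fin q) ℝ)) ''
      {z : X × (Fin p → ℝ) × (Fin q → ℝ) | IsZero I e v w z.1 z.2.1 z.2.2} := by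
    ext z
    constructor
    · rintro ⟨l, m, h1, h2, h3⟩
      exact ⟨(z.1, l, m), h1, Prod.ext rfl (Prod.ext h2.symm h3.symm)⟩
    · rintro ⟨⟨x, l, m⟩, h1, rfl⟩
      exact ⟨l, m, h1, rfl, rfl⟩
  rw [h]
  refine (isCompact_isZero I he hv hw).image ?_
  refine continuous_fst.prodMk (Continuous.prodMk ?_ ?_)
  · exact Continuous.matrix_vecMulVec (continuous_fst.comp continuous_snd)
      (continuous_fst.comp continuous_snd)
  · exact Continuous.matrix_vecMulVec (continuous_snd.comp continuous_snd)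
      (continuous_snd.comp continuous_snd)

end Zero

end Pool.Agent.MP_f1864b_gt
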