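import Pool.Agent.Lib.MP_f1864b_gt.Form
import Pool.Agent.Lib.MP_f1864b_gt.ProjCoord

set_option autoImplicit false

/-!
# Charts for the zero set

`zc`, `zd`: coordinates `(x, [l], [m]) ↔ (u, l', m')` with `x` in a chart and the lines `[l₀ + l']`,
`[m₀ + m']`, `l'` and `m'` orthogonal to the unit vectors `l₀`, `m₀`.  `Fz` is the system of
equations of the zero set in these coordinates.
-/

namespace Pool.Agent.MP_f1864b_gt.ZC

open scoped Manifold ContDiff Topology Matrix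
open Set Topology Module

section ZeroChart

variable {E : Type*} [NormedAddCommGroup E] [NormedSpace ℝ E]
  {H : Type*} [TopologicalSpace H] (I : ModelWithCorners ℝ E H)
  {X : Type*} [TopologicalSpace X] [ChartedSpace H X]
  {V : Type*} [NormedAddCommGroup V] [NormedSpace ℝ V] {p q : ℕ}

theorem form_comb_smul (e : X → V) (v : Fin p → X → (V →L[ℝ] ℝ)) (r : ℝ) (l : Fin p → ℝ)
    (x : X) : form I e (comb v (r • l)) x = r • form I e (comb v l) x := by
  simp only [form, comb_smul, ContinuousLinearMap.smul_comp]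

/-- The derivative in terms of the single forms. -/
theorem dmap_eq {e : X → V} {v : Fin p → X → (V →L[ℝ] ℝ)} {w : Fin q → X → (V →L[ℝ] ℝ)} {c x : X}
    (hv : ∀ i, DifferentiableWithinAt ℝ (locForm I e (v i) c) (range I) (extChartAt I c x))
    (hw : ∀ i, DifferentiableWithinAt ℝ (locForm I e (w i) c) (range I) (extChartAt I c x))
    (l : Fin p → ℝ) (m : Fin q → ℝ) (ξ : E) (l' : Fin p → ℝ) (m' : Fin q → ℝ) :
    dmap I e v w c x l m ξ l' m' =
      (∑ i, l i • fderivWithin ℝ (locForm I e (v i) c) (range I) (extChartAt I c x) ξ +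
        ∑ i, l' i • locForm I e (v i) c (extChartAt I c x),
       ∑ j, m j • fderivWithin ℝ (locForm I e (w j) c) (range I) (extChartAt I c x) ξ +
        ∑ j, m' j • locForm I e (w j) c (extChartAt I c x)) := by
  have hu : UniqueDiffWithinAt ℝ (range I) (extChartAt I c x) := by
    refine I.uniqueDiffOn _ ?_
    rw [extChartAt_coe]
    exact mem_range_self _
  have key : ∀ {n : ℕ} (v : Fin n → X → (V →L[ℝ] ℝ)) (l : Fin n → ℝ),
      (∀ i, DifferentiableWithinAt ℝ (locForm I e (v i) c) (range I) (extChartAt I c x)) →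
      fderivWithin ℝ (locForm I e (comb v l) c) (range I) (extChartAt I c x) ξ =
      ∑ i, l i • fderivWithin ℝ (locForm I e (v i) c) (range I) (extChartAt I c x) ξ := by
    intro n v l hv
    have h1 : locForm I e (comb v l) c = fun u => ∑ i, l i • locForm I e (v i) c u :=
      funext fun u => locForm_comb I e v l c u
    have h2 : HasFDerivWithinAt (fun u => ∑ i, l i • locForm I e (v i) c u)
        (∑ i, l i • fderivWithin ℝ (locForm I e (v i) c) (range I) (extChartAt I c x))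
        (range I) (extChartAt I c x) :=
      HasFDerivWithinAt.fun_sum fun i _ => (hv i).hasFDerivWithinAt.const_smul (l i)
    rw [h1, h2.fderivWithin hu]
    simp
  unfold dmap
  rw [key v l hv, key w m hw, locForm_comb, locForm_comb]

variable {l₀ : Fin p → ℝ} {m₀ : Fin q → ℝ} (hl₀ : l₀ ⬝ᵥ l₀ = 1) (hm₀ : m₀ ⬝ᵥ m₀ = 1)

/-- the coordinates -/
noncomputable def zc (c : X) (z : X × Matrix (Fin p) (Fin p) ℝ × Matrix (Fin q) (Fin q) ℝ) :
    E × perp l₀ × perp m₀ := (extChartAt I c z.1, aff hl₀ z.2.1, aff hm₀ z.2.2)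

variable (l₀ m₀) in
/-- the point with given coordinates -/
noncomputable def zd (c : X) (y : E × perp l₀ × perp m₀) :
    X × Matrix (Fin p) (Fin p) ℝ × Matrix (Fin q) (Fin q) ℝ :=
  ((extChartAt I c).symm y.1, proj1 (l₀ + (y.2.1 : Fin p → ℝ)), proj1 (m₀ + (y.2.2 : Fin q → ℝ)))

variable (H l₀ m₀) in
/-- the domain of the coordinates -/
def zO (c : X) : Set (X × Matrix (Fin p) (Fin p) ℝ × Matrix (Fin q) (Fin q) ℝ) :=
  {z | z.1 ∈ (chartAt H c).source ∧ l₀ ⬝ᵥ (z.2.1 *ᵥ l₀) ≠ 0 ∧ m₀ ⬝ᵥ (z.2.2 *ᵥ m₀) ≠ 0}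

theorem isOpen_zO (c : X) : IsOpen (zO H l₀ m₀ c) := by
  have h1 : IsOpen {z : X × Matrix (Fin p) (Fin p) ℝ × Matrix (Fin q) (Fin q) ℝ |
      z.1 ∈ (chartAt H c).source} := (chartAt H c).open_source.preimage continuous_fst
  have h2 : IsOpen {z : X × Matrix (Fin p) (Fin p) ℝ × Matrix (Fin q) (Fin q) ℝ |
      l₀ ⬝ᵥ (z.2.1 *ᵥ l₀) ≠ 0} :=
    isOpen_ne.preimage ((continuous_dotMul l₀).comp (continuous_fst.comp continuous_snd))
  have h3 : IsOpen {z : X × Matrix (Fin p) (Fin p) ℝ × Matrix (Fin q) (Fin q) ℝ |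
      m₀ ⬝ᵥ (z.2.2 *ᵥ m₀) ≠ 0} :=
    isOpen_ne.preimage ((continuous_dotMul m₀).comp (continuous_snd.comp continuous_snd))
  exact h1.inter (h2.inter h3)

theorem continuousOn_zc (c : X) : ContinuousOn (zc I hl₀ hm₀ c) (zO H l₀ m₀ c) := by
  have h1 : ContinuousOn (fun z : X × Matrix (Fin p) (Fin p) ℝ × Matrix (Fin q) (Fin q) ℝ =>
      extChartAt I c z.1) (zO H l₀ m₀ c) :=
    (continuousOn_extChartAt (I := I) c).comp continuousOn_fst
      fun z hz => by rw [extChartAt_source]; exact hz.1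
  have h2 : ContinuousOn (fun z : X × Matrix (Fin p) (Fin p) ℝ × Matrix (Fin q) (Fin q) ℝ =>
      aff hl₀ z.2.1) (zO H l₀ m₀ c) :=
    (continuousOn_aff hl₀).comp (continuous_fst.comp continuous_snd).continuousOn
      fun z hz => hz.2.1
  have h3 : ContinuousOn (fun z : X × Matrix (Fin p) (Fin p) ℝ × Matrix (Fin q) (Fin q) ℝ =>
      aff hm₀ z.2.2) (zO H l₀ m₀ c) :=
    (continuousOn_aff hm₀).comp (continuous_snd.comp continuous_snd).continuousOn
      fun z hz => hz.2.2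
  exact h1.prodMk (h2.prodMk h3)

include hl₀ hm₀ in
theorem continuousOn_zd (c : X) :
    ContinuousOn (zd I l₀ m₀ c) {y | y.1 ∈ (extChartAt I c).target} := by
  have h1 : ContinuousOn (fun y : E × perp l₀ × perp m₀ => (extChartAt I c).symm y.1)
      {y | y.1 ∈ (extChartAt I c).target} :=
    (continuousOn_extChartAt_symm (I := I) c).comp continuousOn_fst fun z hz => hz
  have h2 : Continuous fun y : E × perp l₀ × perp m₀ => proj1 (l₀ + (y.2.1 : Fin p → ℝ)) := by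
    refine continuous_iff_continuousAt.2 fun y => ?_
    have h3 : Continuous fun y : E × perp l₀ × perp m₀ => l₀ + (y.2.1 : Fin p → ℝ) := by fun_prop
    exact ContinuousAt.comp (f := fun y : E × perp l₀ × perp m₀ => l₀ + (y.2.1 : Fin p → ℝ))
      (continuousAt_proj1 (self_add_perp_pos hl₀ y.2.1).ne') h3.continuousAt
  have h4 : Continuous fun y : E × perp l₀ × perp m₀ => proj1 (m₀ + (y.2.2 : Fin q → ℝ)) := by
    refine continuous_iff_continuousAt.2 fun y => ?_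
    have h3 : Continuous fun y : E × perp l₀ × perp m₀ => m₀ + (y.2.2 : Fin q → ℝ) := by fun_prop
    exact ContinuousAt.comp (f := fun y : E × perp l₀ × perp m₀ => m₀ + (y.2.2 : Fin q → ℝ))
      (continuousAt_proj1 (self_add_perp_pos hm₀ y.2.2).ne') h3.continuousAt
  exact h1.prodMk (h2.continuousOn.prodMk h4.continuousOn)

theorem zd_mem_zO (hl₀ : l₀ ⬝ᵥ l₀ = 1) (hm₀ : m₀ ⬝ᵥ m₀ = 1) {c : X} {y : E × perp l₀ × perp m₀}
    (hy : y.1 ∈ (extChartAt I c).target) : zd I l₀ m₀ c y ∈ zO H l₀ m₀ c := by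
  refine ⟨?_, dot_proj1_add_perp_ne hl₀ y.2.1, dot_proj1_add_perp_ne hm₀ y.2.2⟩
  have h1 := (extChartAt I c).map_target hy
  rw [extChartAt_source] at h1
  exact h1

theorem zc_zd {c : X} {y : E × perp l₀ × perp m₀} (hy : y.1 ∈ (extChartAt I c).target) :
    zc I hl₀ hm₀ c (zd I l₀ m₀ c y) = y := by
  simp only [zc, zd, aff_proj1_add]
  rw [(extChartAt I c).right_inv hy]

/-- The equations. -/
noncomputable def Fz (e : X → V) (v : Fin p → X → (V →L[ℝ] ℝ)) (w : Fin q → X → (V →L[ℝ] ℝ))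
    (c : X) (y : E × perp l₀ × perp m₀) : (E →L[ℝ] ℝ) × (E →L[ℝ] ℝ) :=
  (∑ i, (l₀ + (y.2.1 : Fin p → ℝ)) i • locForm I e (v i) c y.1,
    ∑ j, (m₀ + (y.2.2 : Fin q → ℝ)) j • locForm I e (w j) c y.1)

theorem Fz_eq (e : X → V) (v : Fin p → X → (V →L[ℝ] ℝ)) (w : Fin q → X → (V →L[ℝ] ℝ))
    (c : X) (y : E × perp l₀ × perp m₀) : Fz I e v w c y =
      (locForm I e (comb v (l₀ + (y.2.1 : Fin p → ℝ))) c y.1,
        locForm I e (comb w (m₀ + (y.2.2 : Fin q → ℝ))) c y.1) := by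
  rw [locForm_comb, locForm_comb]
  rfl

variable [IsManifold I ∞ X]

theorem zd_mem_zeroSet {e : X → V} (he : ContMDiff I 𝓘(ℝ, V) ∞ e) {v : Fin p → X → (V →L[ℝ] ℝ)}
    {w : Fin q → X → (V →L[ℝ] ℝ)} (hl₀ : l₀ ⬝ᵥ l₀ = 1) (hm₀ : m₀ ⬝ᵥ m₀ = 1) {c : X}
    {y : E × perp l₀ × perp m₀} (hy : y.1 ∈ (extChartAt I c).target)
    (h : Fz I e v w c y = 0) : zd I l₀ m₀ c y ∈ zeroSet I e v w := by
  rw [Fz_eq, Prod.mk_eq_zero] at h
  have hs : (extChartAt I c).symm y.1 ∈ (chartAt H c).source := (zd_mem_zO I hl₀ hm₀ hy).1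
  have hr : extChartAt I c ((extChartAt I c).symm y.1) = y.1 := (extChartAt I c).right_inv hy
  obtain ⟨h1, h2⟩ := h
  rw [← hr, locForm_eq_zero_iff I he _ _ _ hs] at h1 h2
  obtain ⟨r, -, hr1, hr2⟩ := exists_unit_smul (self_add_perp_pos hl₀ y.2.1)
  obtain ⟨s, -, hs1, hs2⟩ := exists_unit_smul (self_add_perp_pos hm₀ y.2.2)
  refine ⟨_, _, ⟨hr1, hs1, ?_, ?_⟩, hr2, hs2⟩
  · change form I e _ ((extChartAt I c).symm y.1) = 0
    rw [form_comb_smul, h1, smul_zero]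
  · change form I e _ ((extChartAt I c).symm y.1) = 0
    rw [form_comb_smul, h2, smul_zero]

omit [IsManifold I ∞ X] in
theorem zd_zc {e : X → V} {v : Fin p → X → (V →L[ℝ] ℝ)} {w : Fin q → X → (V →L[ℝ] ℝ)} {c : X}
    {z : X × Matrix (Fin p) (Fin p) ℝ × Matrix (Fin q) (Fin q) ℝ} (hz : z ∈ zeroSet I e v w)
    (hzO : z ∈ zO H l₀ m₀ c) : zd I l₀ m₀ c (zc I hl₀ hm₀ c z) = z := by
  obtain ⟨x, P, Q⟩ := z
  obtain ⟨l, m, ⟨hl, hm, -, -⟩, rfl, rfl⟩ := hz
  obtain ⟨h1, h2, h3⟩ := hzO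
  simp only at h1 h2 h3
  simp only [zd, zc]
  have hx : x ∈ (extChartAt I c).source := by rw [extChartAt_source]; exact h1
  rw [(extChartAt I c).left_inv hx]
  rw [← proj1_of_unit hl] at h2 ⊢
  rw [← proj1_of_unit hm] at h3 ⊢
  rw [proj1_add_aff hl₀ h2, proj1_add_aff hm₀ h3]

theorem Fz_zc {e : X → V} (he : ContMDiff I 𝓘(ℝ, V) ∞ e) {v : Fin p → X → (V →L[ℝ] ℝ)}
    {w : Fin q → X → (V →L[ℝ] ℝ)} {c : X}
    {z : X × Matrix (Fin p) (Fin p) ℝ × Matrix (Fin q) (Fin q) ℝ} (hz : z ∈ zeroSet I e v w)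
    (hzO : z ∈ zO H l₀ m₀ c) : Fz I e v w c (zc I hl₀ hm₀ c z) = 0 := by
  obtain ⟨x, P, Q⟩ := z
  obtain ⟨l, m, ⟨hl, hm, hf, hg⟩, rfl, rfl⟩ := hz
  obtain ⟨h1, h2, h3⟩ := hzO
  simp only at h1 h2 h3 hf hg
  rw [← proj1_of_unit hl] at h2
  rw [← proj1_of_unit hm] at h3
  rw [Fz_eq, Prod.mk_eq_zero]
  constructor
  · change locForm I e (comb v (l₀ + (aff hl₀ (Matrix.vecMulVec l l) : Fin p → ℝ))) c
      (extChartAt I c x) = 0
    rw [← proj1_of_unit hl, (add_aff_proj1 hl₀ h2).2, locForm_eq_zero_iff I he _ _ _ h1,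
      form_comb_smul, hf, smul_zero]
  · change locForm I e (comb w (m₀ + (aff hm₀ (Matrix.vecMulVec m m) : Fin q → ℝ))) c
      (extChartAt I c x) = 0
    rw [← proj1_of_unit hm, (add_aff_proj1 hm₀ h3).2, locForm_eq_zero_iff I he _ _ _ h1,
      form_comb_smul, hg, smul_zero]

omit [IsManifold I ∞ X] in
/-- The coordinates of a zero. -/
theorem zc_self (c x : X) : zc I hl₀ hm₀ c (x, Matrix.vecMulVec l₀ l₀, Matrix.vecMulVec m₀ m₀) =
    (extChartAt I c x, 0, 0) := by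
  have h1 : aff hl₀ (Matrix.vecMulVec l₀ l₀) = 0 := by
    have := aff_proj1_add hl₀ (0 : perp l₀)
    rwa [Submodule.coe_zero, add_zero, proj1_of_unit hl₀] at this
  have h2 : aff hm₀ (Matrix.vecMulVec m₀ m₀) = 0 := by
    have := aff_proj1_add hm₀ (0 : perp m₀)
    rwa [Submodule.coe_zero, add_zero, proj1_of_unit hm₀] at this
  simp only [zc, h1, h2]

end ZeroChart

end Pool.Agent.MP_f1864b_gt.ZC
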